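import Pool.Agent.H.MP_894ea6_lc.L.AlgArith

/-! MP_894ea6_lc, module Alg: the algebraic endgame -/

namespace Pool.Agent.CR

private theorem alg_pow_k (x : V) (l : ℕ) : (x ^ l).k = l * x.k := by
  induction l with
  | zero => simp
  | succ l ih =>
    rw [pow_succ, V.mul_k, ih]
    push_cast
    ring

private theorem alg_zpow_k (x : V) (i : ℤ) : (x ^ i).k = i * x.k := by
  obtain ⟨n, rfl | rfl⟩ := i.eq_nat_or_neg
  · rw [zpow_natCast, alg_pow_k]
  · rw [zpow_neg, zpow_natCast, V.inv_k, alg_pow_k]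
    ring

private theorem alg_pow_n {x : V} (hx : x.k = 0) (l : ℕ) (i : ℤ) :
    (x ^ l).n i = l * x.n i := by
  induction l with
  | zero => simp
  | succ l ih =>
    rw [pow_succ, V.mul_n, Finsupp.add_apply, ih, shift_apply, alg_pow_k, hx]
    push_cast
    simp
    ring

private theorem alg_conj_k (w x : V) : (w⁻¹ * x * w).k = x.k := by
  simp only [V.mul_k, V.inv_k]
  ring

private theorem alg_conj_n {w x : V} (hx : x.k = 0) (i : ℤ) :
    (w⁻¹ * x * w).n i = x.n (i + w.k) := by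
  simp only [V.mul_n, V.mul_k, V.inv_n, V.inv_k, hx, Finsupp.add_apply, shift_apply,
    Finsupp.neg_apply]
  simp

private theorem alg_conj_n' {g x : V} (hx : x.k = 0) (i : ℤ) :
    (g * x * g⁻¹).n i = x.n (i - g.k) := by
  have h := alg_conj_n (w := g⁻¹) hx i
  rw [inv_inv] at h
  rw [h, V.inv_k]
  congr 1

/-- an element that maps `O` into itself has a power in a conjugate of `HH` -/
private theorem alg_power {y' : ℕ → Bool} {O : Set V}
    (hfin : ∃ S : Set V, S.Finite ∧ ∀ w ∈ O, ∃ s ∈ S, s⁻¹ * w ∈ HH y')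
    {x : V} (hx : ∀ w, w ∈ O → x * w ∈ O) {w : V} (hw : w ∈ O) :
    ∃ l : ℕ, 1 ≤ l ∧ w⁻¹ * x ^ l * w ∈ HH y' := by
  obtain ⟨S, hS, hSO⟩ := hfin
  have hO : ∀ l : ℕ, x ^ l * w ∈ O := by
    intro l
    induction l with
    | zero => simpa using hw
    | succ l ih =>
      rw [pow_succ', mul_assoc]
      exact hx _ ih
  choose f hf hf' using fun l : ℕ => hSO _ (hO l)
  have hSf : Finite S := hS
  obtain ⟨a, b, hab, heq⟩ := Finite.exists_ne_map_eq_of_infinite (fun l : ℕ => (⟨f l, hf l⟩ : S))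
  have heq' : f a = f b := congrArg Subtype.val heq
  have key : ∀ a b : ℕ, a < b → f a = f b → ∃ l : ℕ, 1 ≤ l ∧ w⁻¹ * x ^ l * w ∈ HH y' := by
    intro a b hlt he
    refine ⟨b - a, by omega, ?_⟩
    have h1 := (HH y').mul_mem ((HH y').inv_mem (hf' a)) (hf' b)
    rw [he] at h1
    have h2 : ((f b)⁻¹ * (x ^ a * w))⁻¹ * ((f b)⁻¹ * (x ^ b * w)) = w⁻¹ * x ^ (b - a) * w := by
      have h3 : x ^ b = x ^ a * x ^ (b - a) := by rw [← pow_add]; congr 1; omega
      rw [h3]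
      group
    rwa [h2] at h1
  rcases lt_or_gt_of_ne hab with h | h
  · exact key a b h heq'
  · exact key b a h heq'.symm

theorem alg_end (d y' : ℕ → Bool) (τ : FF →* V) (O : Set V) (hne : O.Nonempty)
    (hfin : ∃ S : Set V, S.Finite ∧ ∀ w ∈ O, ∃ s ∈ S, s⁻¹ * w ∈ HH y')
    (hH : ∀ w ∈ O, ∀ h ∈ HH y', w * h ∈ O)
    (h1 : ∀ i : ℤ, i ∈ AA d → ∀ w, w ∈ O → τ (Tw i) * w ∈ O)
    (h2 : ∀ i : ℤ, i ∉ AA d → ∀ w, w ∈ O → τ (Tw i) * w ∉ O) : d = y' := by
  have hTw0 : Tw 0 = FreeGroup.of Gen.a := by simp [Tw]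
  -- `τ a` has trivial `k`
  set A := τ (FreeGroup.of Gen.a) with hA
  set T := τ (FreeGroup.of Gen.t) with hT
  have hAk : A.k = 0 := by
    obtain ⟨w, hw⟩ := hne
    have h0 : ∀ w, w ∈ O → A * w ∈ O := by
      intro w hw
      have := h1 0 (Or.inl rfl) w hw
      rwa [hTw0] at this
    obtain ⟨l, hl, hm⟩ := alg_power hfin h0 hw
    have hk : (w⁻¹ * A ^ l * w).k = 0 := hm.1
    rw [alg_conj_k, alg_pow_k] at hk
    rcases mul_eq_zero.1 hk with h | h
    · exfalso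
      have : l = 0 := by exact_mod_cast h
      omega
    · exact h
  have hx : ∀ i : ℤ, τ (Tw i) = T ^ i * A * (T ^ i)⁻¹ := by
    intro i
    simp only [Tw, map_mul, map_inv, map_zpow, hA, hT]
  have hxk : ∀ i : ℤ, (τ (Tw i)).k = 0 := by
    intro i
    rw [hx, V.mul_k, V.mul_k, V.inv_k, hAk]
    ring
  have hxn : ∀ i j : ℤ, (τ (Tw i)).n j = A.n (j - T.k * i) := by
    intro i j
    rw [hx, alg_conj_n' hAk, alg_zpow_k]
    congr 1
    ring
  refine alg_arith d y' T.k {f | ∃ j, A.n j ≠ 0 ∧ ∃ w ∈ O, f = j - w.k} ?_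
  intro i
  constructor
  · rintro hi f ⟨j, hj, w, hw, rfl⟩
    obtain ⟨l, hl, hm⟩ := alg_power hfin (h1 i hi) hw
    have hk : ((τ (Tw i)) ^ l).k = 0 := by rw [alg_pow_k, hxk, mul_zero]
    have h3 : (w⁻¹ * (τ (Tw i)) ^ l * w).n (T.k * i + (j - w.k)) ≠ 0 := by
      rw [alg_conj_n hk, alg_pow_n (hxk i), hxn]
      have e : T.k * i + (j - w.k) + w.k - T.k * i = j := by ring
      rw [e]
      exact mul_ne_zero (by exact_mod_cast (by omega : l ≠ 0)) hj
    exact hm.2 _ h3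
  · intro hF
    by_contra hi
    obtain ⟨w, hw⟩ := hne
    apply h2 i hi w hw
    have hmem : w⁻¹ * τ (Tw i) * w ∈ HH y' := by
      refine ⟨?_, ?_⟩
      · rw [alg_conj_k, hxk]
      · intro j hj
        rw [alg_conj_n (hxk i), hxn] at hj
        have h3 := hF (j + w.k - T.k * i - w.k) ⟨j + w.k - T.k * i, hj, w, hw, rfl⟩
        have e : T.k * i + (j + w.k - T.k * i - w.k) = j := by ring
        rwa [e] at h3
    have h4 := hH w hw _ hmem
    have e : w * (w⁻¹ * τ (Tw i) * w) = τ (Tw i) * w := by group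
    rwa [e] at h4

end Pool.Agent.CR
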