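import Pool.Agent.H.MP_894ea6_lc.L.GrpDefs

/-! MP_894ea6_lc, module AlgArith: the arithmetic of the sets `AA y` -/

namespace Pool.Agent.CR

private theorem algarith_fact {y : ℕ → Bool} {i : ℤ} (hi : i ∈ AA y) (h0 : i ≠ 0) :
    ∃ M : ℕ, i = (M.factorial : ℤ) := by
  rcases hi with h | ⟨j, h⟩ | ⟨j, h, _⟩
  · exact absurd h h0
  · exact ⟨_, h⟩
  · exact ⟨_, h⟩

private theorem algarith_nonneg {y : ℕ → Bool} {i : ℤ} (hi : i ∈ AA y) : 0 ≤ i := by
  by_cases h : i = 0
  · exact h.ge
  · obtain ⟨M, hM⟩ := algarith_fact hi h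
    rw [hM]
    positivity

private theorem algarith_odd {y : ℕ → Bool} (j : ℕ) :
    (((2 * j + 3).factorial : ℕ) : ℤ) ∈ AA y ↔ y j = true := by
  constructor
  · rintro (h | ⟨k, h⟩ | ⟨k, h, hk⟩)
    · exfalso
      have : (2 * j + 3).factorial ≠ 0 := Nat.factorial_ne_zero _
      exact this (by exact_mod_cast h)
    · exfalso
      have h' : (2 * j + 3).factorial = (2 * k + 2).factorial := by exact_mod_cast h
      have := (Nat.factorial_inj (n := 2 * j + 3) (m := 2 * k + 2) (by omega)).1 h'
      omega
    · have h' : (2 * j + 3).factorial = (2 * k + 3).factorial := by exact_mod_cast h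
      have := (Nat.factorial_inj (n := 2 * j + 3) (m := 2 * k + 3) (by omega)).1 h'
      have hjk : j = k := by omega
      rw [hjk]
      exact hk
  · intro h
    exact Or.inr (Or.inr ⟨j, rfl, h⟩)

private theorem algarith_even (y : ℕ → Bool) (j : ℕ) :
    (((2 * j + 2).factorial : ℕ) : ℤ) ∈ AA y := Or.inr (Or.inl ⟨j, rfl⟩)

theorem alg_arith (d y' : ℕ → Bool) (e : ℤ) (F : Set ℤ)
    (h : ∀ i : ℤ, i ∈ AA d ↔ ∀ f ∈ F, e * i + f ∈ AA y') : d = y' := by
  have hm1 : ¬ ((-1 : ℤ) ∈ AA d) := by
    intro hh
    have := algarith_nonneg hh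
    norm_num at this
  have hF : ∀ f ∈ F, f ∈ AA y' := by
    intro f hf
    have := (h 0).1 (Or.inl rfl) f hf
    simpa using this
  have hF0 : ∀ f ∈ F, 0 ≤ f := fun f hf => algarith_nonneg (hF f hf)
  have hne : F.Nonempty := by
    by_contra hcon
    rw [Set.not_nonempty_iff_eq_empty] at hcon
    apply hm1
    rw [h]
    intro f hf
    rw [hcon] at hf
    exact absurd hf (Set.notMem_empty f)
  have he0 : e ≠ 0 := by
    rintro rfl
    apply hm1
    rw [h]
    intro f hf
    simpa using hF f hf
  -- the main step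
  have key : ∀ f ∈ F, f = 0 ∧ e = 1 := by
    intro f hf
    have hf0 := hF0 f hf
    set j : ℕ := f.toNat + e.toNat with hj
    set N : ℕ := (2 * j + 2).factorial with hN
    have hNj : ((2 * j + 2 : ℕ) : ℤ) ≤ (N : ℤ) := by
      exact_mod_cast Nat.self_le_factorial _
    have hfN : f < (N : ℤ) := by
      have : f ≤ (f.toNat : ℤ) := Int.self_le_toNat f
      push_cast at hNj
      omega
    have heN : e < 2 * (j : ℤ) + 3 := by
      have : e ≤ (e.toNat : ℤ) := Int.self_le_toNat e
      omega
    have hmem := (h (N : ℤ)).1 (algarith_even d j) f hf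
    have hnn := algarith_nonneg hmem
    have hNpos : 0 < (N : ℤ) := by
      have : 0 < N := Nat.factorial_pos _
      exact_mod_cast this
    have hepos : 1 ≤ e := by
      by_contra hcon
      have he1 : e ≤ -1 := by omega
      nlinarith
    have hge : (N : ℤ) ≤ e * N + f := by nlinarith
    obtain ⟨M, hM⟩ := algarith_fact hmem (by omega)
    have hMN : N ≤ M.factorial := by
      rw [hM] at hge
      exact_mod_cast hge
    have hMj : 2 * j + 2 ≤ M := by
      by_contra hcon
      push Not at hcon
      have := (Nat.factorial_lt_of_lt (n := M) (m := 2 * j + 2))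
      rcases Nat.eq_zero_or_pos M with h0 | h0
      · rw [h0, Nat.factorial_zero] at hMN
        have h2 : 2 ≤ N := by
          have := Nat.self_le_factorial (2 * j + 2)
          omega
        omega
      · have h3 := this h0 hcon
        omega
    rcases Nat.eq_or_lt_of_le hMj with heq | hlt
    · rw [← heq, ← hN] at hM
      have h1 : (e - 1) * N + f = 0 := by linarith
      have h2 : 0 ≤ (e - 1) * (N : ℤ) := mul_nonneg (by omega) hNpos.le
      have h3 : f = 0 := by omega
      have h4 : (e - 1) * (N : ℤ) = 0 := by omega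
      rcases mul_eq_zero.1 h4 with h5 | h5
      · exact ⟨h3, by omega⟩
      · omega
    · exfalso
      have hdvd : (N : ℤ) ∣ (M.factorial : ℤ) := by
        exact_mod_cast Nat.factorial_dvd_factorial hMj
      have hdf : (N : ℤ) ∣ f := by
        have h1 : f = (M.factorial : ℤ) - e * N := by linarith
        rw [h1]
        exact dvd_sub hdvd (Dvd.intro_left e rfl)
      have hf00 : f = 0 := Int.eq_zero_of_dvd_of_nonneg_of_lt hf0 hfN hdf
      have h2 : ((2 * j + 3 : ℕ).factorial : ℤ) ≤ (M.factorial : ℤ) := by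
        exact_mod_cast Nat.factorial_le (show 2 * j + 3 ≤ M by omega)
      have h3 : ((2 * j + 3 : ℕ).factorial : ℤ) = (2 * (j : ℤ) + 3) * N := by
        rw [hN, show 2 * j + 3 = (2 * j + 2) + 1 by ring, Nat.factorial_succ]
        push_cast
        ring
      rw [h3, ← hM, hf00] at h2
      have h4 : (2 * (j : ℤ) + 3) ≤ e := by
        by_contra hcon
        push Not at hcon
        nlinarith
      omega
  obtain ⟨f0, hf0⟩ := hne
  have he := (key f0 hf0).2
  have hiff : ∀ i : ℤ, i ∈ AA d ↔ i ∈ AA y' := by
    intro i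
    rw [h i]
    constructor
    · intro hh
      have := hh f0 hf0
      rw [(key f0 hf0).1, he] at this
      simpa using this
    · intro hi f hf
      rw [(key f hf).1, he]
      simpa using hi
  funext j
  have := (algarith_odd (y := d) j).symm.trans ((hiff _).trans (algarith_odd (y := y') j))
  rcases hd : d j with _ | _ <;> rcases hy : y' j with _ | _
  · rfl
  · rw [hd, hy] at this; simp at this
  · rw [hd, hy] at this; simp at this
  · rfl

end Pool.Agent.CR
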