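import Pool.Agent.H.MP_894ea6_lc.L.GrpDefs

/-! MP_894ea6_lc, module BaireLim: Baire category and limits of measures -/

open MeasureTheory Topology Filter

namespace Pool.Agent.CR

private lemma bairelim_countable : (BBᶜ : Set (ℕ → Bool)).Countable := by
  have hsub : (BBᶜ : Set (ℕ → Bool)) ⊆
      Set.range (fun s : Finset ℕ => fun n : ℕ => decide (n ∈ s)) := by
    intro y hy
    have hy' : ¬ ∀ n, ∃ k, n ≤ k ∧ y k = true := hy
    push Not at hy'
    obtain ⟨n, hn⟩ := hy'
    refine ⟨(Finset.range n).filter (fun k => y k = true), ?_⟩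
    funext k
    by_cases hk : k < n
    · simp [hk]
    · have h1 : y k = false := by
        have := hn k (not_lt.1 hk)
        simpa using this
      simp [hk, h1]
  exact (Set.countable_range _).mono hsub

private lemma bairelim_cyl {O : Set (ℕ → Bool)} (hO : IsOpen O) {y : ℕ → Bool} (hy : y ∈ O) :
    ∃ n : ℕ, ∀ z : ℕ → Bool, (∀ k < n, z k = y k) → z ∈ O := by
  obtain ⟨I, u, hu, hsub⟩ := isOpen_pi_iff.1 hO y hy
  refine ⟨I.sup id + 1, fun z hz => hsub ?_⟩
  intro k hk
  have : k < I.sup id + 1 := Nat.lt_succ_of_le (Finset.le_sup (f := id) hk)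
  rw [hz k this]
  exact (hu k hk).2

private lemma bairelim_single (y : ℕ → Bool) : interior ({y} : Set (ℕ → Bool)) = ∅ := by
  rw [Set.eq_empty_iff_forall_notMem]
  intro z hz
  have hzy : z = y := Set.mem_singleton_iff.1 (interior_subset hz)
  subst hzy
  obtain ⟨n, hn⟩ := bairelim_cyl isOpen_interior hz
  have h1 := interior_subset (hn (Function.update z n (!z n)) (fun k hk => by
    rw [Function.update_of_ne (ne_of_lt hk)]))
  have h2 := congrFun (Set.mem_singleton_iff.1 h1) n
  rw [Function.update_self] at h2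
  cases h : z n <;> simp [h] at h2

theorem baire_pick {Cf : Type*} [Countable Cf] (S : Cf → Set (ℕ → Bool))
    (hS : ∀ y ∈ BB, ∃ c, y ∈ S c) : ∃ c, ∃ d ∉ BB, d ∈ closure (S c ∩ BB) := by
  by_contra hcon
  push Not at hcon
  have hcount : Countable (BBᶜ : Set (ℕ → Bool)) := bairelim_countable.to_subtype
  let G : Cf ⊕ (BBᶜ : Set (ℕ → Bool)) → Set (ℕ → Bool) := fun o =>
    match o with
    | Sum.inl c => closure (S c ∩ BB)
    | Sum.inr y => {y.1}
  have hGc : ∀ o, IsClosed (G o) := by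
    rintro (c | y)
    · exact isClosed_closure
    · exact isClosed_singleton
  have hGu : ⋃ o, G o = Set.univ := by
    rw [Set.eq_univ_iff_forall]
    intro y
    rw [Set.mem_iUnion]
    by_cases hy : y ∈ BB
    · obtain ⟨c, hc⟩ := hS y hy
      exact ⟨Sum.inl c, subset_closure ⟨hc, hy⟩⟩
    · exact ⟨Sum.inr ⟨y, hy⟩, rfl⟩
  obtain ⟨o, ho⟩ := nonempty_interior_of_iUnion_of_closed hGc hGu
  rcases o with c | y
  · obtain ⟨y, hy⟩ := ho
    obtain ⟨n, hn⟩ := bairelim_cyl isOpen_interior hy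
    have h1 : (fun k => if k < n then y k else false) ∈ interior (closure (S c ∩ BB)) :=
      hn _ (fun k hk => by simp [hk])
    refine hcon c _ ?_ (interior_subset h1)
    intro hB
    obtain ⟨k, hk1, hk2⟩ := hB n
    simp [not_lt.2 hk1] at hk2
  · have h2 : interior ({y.1} : Set (ℕ → Bool)) = ∅ := bairelim_single y.1
    have h3 : (interior ({y.1} : Set (ℕ → Bool))).Nonempty := ho
    rw [h2] at h3
    exact Set.not_nonempty_empty h3

theorem exists_limit {Y : Type*} [TopologicalSpace Y] [CompactSpace Y] [PolishSpace Y]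
    [MeasurableSpace Y] [BorelSpace Y] (my : (ℕ → Bool) → ProbabilityMeasure Y)
    (S : Set (ℕ → Bool)) (d : ℕ → Bool) (hd : d ∈ closure S) :
    ∃ (U : Ultrafilter (ℕ → Bool)) (md : ProbabilityMeasure Y), (U : Filter (ℕ → Bool)) ≤ 𝓝 d ∧
      S ∈ U ∧ Tendsto my U (𝓝 md) := by
  obtain ⟨U, hUS, hUd⟩ := mem_closure_iff_ultrafilter.1 hd
  obtain ⟨md, -, hmd⟩ := isCompact_univ.ultrafilter_le_nhds (U.map my)
    (by simp)
  exact ⟨U, md, hUd, hUS, hmd⟩

end Pool.Agent.CR
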