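import Pool.Agent.H.MP_894ea6_lc.L.Defs

/-! MP_894ea6_lc, module Bern: Bernoulli measures and Walsh functions -/

open MeasureTheory

namespace Pool.Agent.CR

/-- the fair coin -/
noncomputable def fairBool : Measure Bool := (2⁻¹ : ENNReal) • (Measure.dirac true + Measure.dirac false)

instance instProbFair : IsProbabilityMeasure fairBool := by
  constructor
  simp only [fairBool, Measure.smul_apply, Measure.add_apply, measure_univ, smul_eq_mul]
  rw [show (1 : ENNReal) + 1 = 2 by norm_num]
  exact ENNReal.inv_mul_cancel (by norm_num) (by norm_num)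

/-- the fair Bernoulli measure on `I → Bool` -/
noncomputable def bern (I : Type*) : Measure (I → Bool) := Measure.infinitePi (fun _ : I => fairBool)

instance instProbBern (I : Type*) : IsProbabilityMeasure (bern I) := by
  unfold bern; infer_instance

/-- Walsh functions -/
noncomputable def walsh {I : Type*} (S : Finset I) (x : I → Bool) : ℝ :=
  ∏ i ∈ S, (if x i then (-1 : ℝ) else 1)

theorem measurable_walsh {I : Type*} (S : Finset I) : Measurable (walsh S) := by
  unfold walsh
  refine Finset.measurable_prod S fun i _ => ?_
  have h : Measurable (fun b : Bool => if b then (-1 : ℝ) else 1) := measurable_of_finite _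
  exact h.comp (measurable_pi_apply i)

theorem abs_walsh {I : Type*} (S : Finset I) (x : I → Bool) : |walsh S x| = 1 := by
  unfold walsh
  rw [Finset.abs_prod]
  refine Finset.prod_eq_one fun i _ => ?_
  split_ifs <;> simp

open scoped Classical in
theorem walsh_mul {I : Type*} (S S' : Finset I) (x : I → Bool) :
    walsh S x * walsh S' x = walsh (symmDiff S S') x := by
  unfold walsh
  set f : I → ℝ := fun i => if x i then (-1 : ℝ) else 1 with hf
  have hsq : ∀ i, f i * f i = 1 := by
    intro i
    simp only [hf]
    split_ifs <;> norm_num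
  have h1 : ∏ i ∈ S, f i = (∏ i ∈ S \ S', f i) * ∏ i ∈ S ∩ S', f i := by
    rw [← Finset.prod_union (Finset.disjoint_sdiff_inter S S'), Finset.sdiff_union_inter]
  have h2 : ∏ i ∈ S', f i = (∏ i ∈ S' \ S, f i) * ∏ i ∈ S ∩ S', f i := by
    rw [Finset.inter_comm S S', ← Finset.prod_union (Finset.disjoint_sdiff_inter S' S),
      Finset.sdiff_union_inter]
  have h3 : ∏ i ∈ symmDiff S S', f i = (∏ i ∈ S \ S', f i) * ∏ i ∈ S' \ S, f i := by
    rw [← Finset.prod_union]
    · rfl
    · exact Finset.disjoint_of_subset_right Finset.sdiff_subset Finset.sdiff_disjoint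
  have h4 : (∏ i ∈ S ∩ S', f i) * (∏ i ∈ S ∩ S', f i) = 1 := by
    rw [← Finset.prod_mul_distrib]
    exact Finset.prod_eq_one fun i _ => hsq i
  rw [h1, h2, h3]
  calc (∏ i ∈ S \ S', f i) * (∏ i ∈ S ∩ S', f i) *
        ((∏ i ∈ S' \ S, f i) * ∏ i ∈ S ∩ S', f i)
      = (∏ i ∈ S \ S', f i) * (∏ i ∈ S' \ S, f i) *
        ((∏ i ∈ S ∩ S', f i) * (∏ i ∈ S ∩ S', f i)) := by ring
    _ = _ := by rw [h4, mul_one]

theorem bern_fair_not : fairBool.map (fun b => !b) = fairBool := by
  unfold fairBool
  have hm : Measurable (fun b : Bool => !b) := measurable_of_finite _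
  have h1 : (Measure.dirac true).map (fun b : Bool => !b) = Measure.dirac false :=
    Measure.map_dirac' hm true
  have h2 : (Measure.dirac false).map (fun b : Bool => !b) = Measure.dirac true :=
    Measure.map_dirac' hm false
  rw [Measure.map_smul, Measure.map_add _ _ hm, h1, h2, add_comm]

open scoped Classical in
theorem bern_flip {I : Type*} (i : I) :
    MeasurePreserving (fun (x : I → Bool) (j : I) => if j = i then !(x j) else x j)
      (bern I) (bern I) := by
  have hm : ∀ j : I, Measurable (fun b : Bool => if j = i then !b else b) :=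
    fun j => measurable_of_finite _
  refine ⟨measurable_pi_lambda _ fun j => (hm j).comp (measurable_pi_apply j), ?_⟩
  unfold bern
  rw [Measure.infinitePi_map_pi (fun _ : I => fairBool) (f := fun j b => if j = i then !b else b) hm]
  congr 1
  funext j
  by_cases h : j = i
  · simp only [h, if_true]
    exact bern_fair_not
  · simp only [h, if_false]
    exact Measure.map_id

theorem integral_walsh {I : Type*} (S : Finset I) (hS : S.Nonempty) :
    ∫ x, walsh S x ∂(bern I) = 0 := by
  classical
  obtain ⟨i, hi⟩ := hS
  have h1 : ∀ x : I → Bool, walsh S (fun j => if j = i then !(x j) else x j) = - walsh S x := by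
    intro x
    unfold walsh
    rw [← Finset.mul_prod_erase S _ hi, ← Finset.mul_prod_erase S _ hi]
    have h2 : ∏ j ∈ S.erase i, (if (if j = i then !(x j) else x j) = true then (-1 : ℝ) else 1) =
        ∏ j ∈ S.erase i, (if x j = true then (-1 : ℝ) else 1) := by
      refine Finset.prod_congr rfl fun j hj => ?_
      rw [if_neg (Finset.ne_of_mem_erase hj)]
    rw [h2]
    simp only [if_true]
    cases x i <;> simp
  have h3 : ∫ x, walsh S (fun j => if j = i then !(x j) else x j) ∂(bern I) =
      ∫ x, walsh S x ∂(bern I) := by
    have h4 := integral_map (μ := bern I) (f := walsh S) (bern_flip i).measurable.aemeasurable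
      (measurable_walsh S).aestronglyMeasurable
    rw [(bern_flip i).map_eq] at h4
    exact h4.symm
  simp_rw [h1] at h3
  rw [integral_neg] at h3
  linarith

/-- permuting the coordinates preserves the Bernoulli measure -/
theorem bern_perm {I : Type*} (e : I ≃ I) :
    MeasurePreserving (fun (x : I → Bool) (i : I) => x (e i)) (bern I) (bern I) := by
  have hm : Measurable (fun (x : I → Bool) (i : I) => x (e i)) :=
    measurable_pi_lambda _ fun i => measurable_pi_apply (e i)
  refine ⟨hm, ?_⟩
  unfold bern
  refine Measure.eq_infinitePi (fun _ : I => fairBool) fun s t ht => ?_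
  classical
  rw [Measure.map_apply hm (MeasurableSet.pi s.countable_toSet fun i _ => ht i)]
  have h1 : (fun (x : I → Bool) (i : I) => x (e i)) ⁻¹' (Set.pi (s : Set I) t) =
      Set.pi ((s.map e.toEmbedding : Finset I) : Set I) (fun i => t (e.symm i)) := by
    ext x
    simp only [Set.mem_preimage, Set.mem_pi, Finset.mem_coe, Finset.mem_map_equiv]
    constructor
    · intro h i hi
      have := h (e.symm i) hi
      simpa using this
    · intro h i hi
      have := h (e i) (by simpa using hi)
      simpa using this
  rw [h1, Measure.infinitePi_pi (fun _ : I => fairBool) (fun i _ => ht _), Finset.prod_map]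
  simp

end Pool.Agent.CR
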