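import Pool.Agent.H.MP_894ea6_lc.L.Bern

/-! MP_894ea6_lc, module BernDense: Walsh functions of three variables span a dense subspace -/

open MeasureTheory

namespace Pool.Agent.CR

/-- Walsh functions in three variables -/
noncomputable def walsh3 {I : Type*} (S : Finset I × Finset I × Finset I)
    (x : (I → Bool) × (I → Bool) × (I → Bool)) : ℝ :=
  walsh S.1 x.1 * (walsh S.2.1 x.2.1 * walsh S.2.2 x.2.2)

section BernDenseAux

open scoped Classical

variable {I : Type*}

theorem bernd_walsh_cont (S : Finset I) : Continuous (walsh S) := by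
  unfold walsh
  refine continuous_finsetProd S fun i _ => ?_
  exact (continuous_of_discreteTopology (f := fun b : Bool => if b then (-1 : ℝ) else 1)).comp
    (continuous_apply i)

theorem bernd_walsh3_cont (S : Finset I × Finset I × Finset I) : Continuous (walsh3 S) := by
  unfold walsh3
  exact ((bernd_walsh_cont _).comp continuous_fst).mul
    (((bernd_walsh_cont _).comp (continuous_fst.comp continuous_snd)).mul
      ((bernd_walsh_cont _).comp (continuous_snd.comp continuous_snd)))

/-- bundled Walsh functions -/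
noncomputable def berndC (S : Finset I × Finset I × Finset I) :
    C((I → Bool) × (I → Bool) × (I → Bool), ℝ) := ⟨walsh3 S, bernd_walsh3_cont S⟩

theorem bernd_walsh_empty (x : I → Bool) : walsh (∅ : Finset I) x = 1 := by
  simp [walsh]

theorem bernd_mul (S S' : Finset I × Finset I × Finset I)
    (z : (I → Bool) × (I → Bool) × (I → Bool)) :
    walsh3 S z * walsh3 S' z =
      walsh3 (symmDiff S.1 S'.1, symmDiff S.2.1 S'.2.1, symmDiff S.2.2 S'.2.2) z := by
  unfold walsh3
  simp only
  rw [← walsh_mul, ← walsh_mul, ← walsh_mul]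
  ring

/-- the submonoid of Walsh functions -/
noncomputable def berndMon (I : Type*) :
    Submonoid C((I → Bool) × (I → Bool) × (I → Bool), ℝ) where
  carrier := Set.range berndC
  mul_mem' := by
    rintro _ _ ⟨S, rfl⟩ ⟨S', rfl⟩
    refine ⟨(symmDiff S.1 S'.1, symmDiff S.2.1 S'.2.1, symmDiff S.2.2 S'.2.2), ?_⟩
    ext z
    exact (bernd_mul S S' z).symm
  one_mem' := by
    refine ⟨(∅, ∅, ∅), ?_⟩
    ext z
    simp [berndC, walsh3, bernd_walsh_empty]

/-- the algebra generated by the Walsh functions -/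
noncomputable def berndAlg (I : Type*) :
    Subalgebra ℝ C((I → Bool) × (I → Bool) × (I → Bool), ℝ) :=
  Algebra.adjoin ℝ (Set.range berndC)

theorem bernd_alg_mem (h : C((I → Bool) × (I → Bool) × (I → Bool), ℝ)) (hh : h ∈ berndAlg I) :
    ∃ (s : Finset (Finset I × Finset I × Finset I)) (c : Finset I × Finset I × Finset I → ℝ),
      ∀ z, h z = ∑ j ∈ s, c j * walsh3 j z := by
  have h1 : h ∈ Subalgebra.toSubmodule (berndAlg I) := hh
  unfold berndAlg at h1
  have h2 : (Submonoid.closure (Set.range (berndC (I := I))) :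
      Set C((I → Bool) × (I → Bool) × (I → Bool), ℝ)) = Set.range berndC := by
    have : Submonoid.closure (Set.range (berndC (I := I))) = berndMon I :=
      Submonoid.closure_eq (berndMon I)
    rw [this]
    rfl
  rw [Algebra.adjoin_eq_span, h2, Finsupp.mem_span_range_iff_exists_finsupp] at h1
  obtain ⟨c, hc⟩ := h1
  refine ⟨c.support, c, fun z => ?_⟩
  rw [← hc, Finsupp.sum, ContinuousMap.sum_apply]
  rfl

theorem bernd_walsh_single (i : I) (x : I → Bool) :
    walsh ({i} : Finset I) x = if x i then (-1 : ℝ) else 1 := by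
  simp [walsh]

theorem bernd_bool (a b : Bool) (h : a ≠ b) :
    (if a then (-1 : ℝ) else 1) ≠ (if b then (-1 : ℝ) else 1) := by
  cases a <;> cases b <;> simp_all <;> norm_num

theorem bernd_sep : (berndAlg I).SeparatesPoints := by
  intro z z' hz
  by_cases h1 : z.1 = z'.1
  · by_cases h2 : z.2.1 = z'.2.1
    · have h3 : z.2.2 ≠ z'.2.2 := by
        intro h3
        exact hz (Prod.ext h1 (Prod.ext h2 h3))
      obtain ⟨i, hi⟩ := Function.ne_iff.1 h3
      refine ⟨walsh3 (∅, ∅, {i}), ⟨berndC (∅, ∅, {i}), Algebra.subset_adjoin ⟨_, rfl⟩, rfl⟩, ?_⟩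
      simp only [walsh3, bernd_walsh_empty, one_mul, bernd_walsh_single]
      exact bernd_bool _ _ hi
    · obtain ⟨i, hi⟩ := Function.ne_iff.1 h2
      refine ⟨walsh3 (∅, {i}, ∅), ⟨berndC (∅, {i}, ∅), Algebra.subset_adjoin ⟨_, rfl⟩, rfl⟩, ?_⟩
      simp only [walsh3, bernd_walsh_empty, one_mul, mul_one, bernd_walsh_single]
      exact bernd_bool _ _ hi
  · obtain ⟨i, hi⟩ := Function.ne_iff.1 h1
    refine ⟨walsh3 ({i}, ∅, ∅), ⟨berndC ({i}, ∅, ∅), Algebra.subset_adjoin ⟨_, rfl⟩, rfl⟩, ?_⟩
    simp only [walsh3, bernd_walsh_empty, mul_one, bernd_walsh_single]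
    exact bernd_bool _ _ hi

theorem bernd_borel [Countable I] : BorelSpace ((I → Bool) × (I → Bool) × (I → Bool)) :=
  inferInstance

theorem bernd_metr [Countable I] :
    TopologicalSpace.PseudoMetrizableSpace ((I → Bool) × (I → Bool) × (I → Bool)) :=
  inferInstance

theorem bernd_reg [Countable I] (μ : Measure ((I → Bool) × (I → Bool) × (I → Bool)))
    [IsFiniteMeasure μ] : μ.WeaklyRegular := by
  have := bernd_borel (I := I)
  have := bernd_metr (I := I)
  apply Measure.WeaklyRegular.of_pseudoMetrizableSpace_of_isFiniteMeasure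

end BernDenseAux

/-- Walsh functions span a dense subspace -/
theorem walsh3_dense {I : Type*} [Countable I]
    (f : (I → Bool) × (I → Bool) × (I → Bool) → ℝ) (hf : Measurable f)
    (hb : ∃ C, ∀ z, |f z| ≤ C) (ε : ℝ) (hε : 0 < ε) :
    ∃ (s : Finset (Finset I × Finset I × Finset I)) (c : Finset I × Finset I × Finset I → ℝ),
      ∫ z, (f z - ∑ j ∈ s, c j * walsh3 j z) ^ 2
        ∂((bern I).prod ((bern I).prod (bern I))) ≤ ε := by
  have hreg := bernd_reg ((bern I).prod ((bern I).prod (bern I)))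
  have hbor := bernd_borel (I := I)
  obtain ⟨C, hC⟩ := hb
  have hmem : MemLp f (ENNReal.ofReal 2) ((bern I).prod ((bern I).prod (bern I))) :=
    MemLp.of_bound hf.aestronglyMeasurable C (Filter.Eventually.of_forall fun z => by
      simpa [Real.norm_eq_abs] using hC z)
  obtain ⟨g, hg, -⟩ := hmem.exists_boundedContinuous_integral_rpow_sub_le (p := 2) two_pos
    (ε := ε / 4) (by positivity)
  have hδ : (0 : ℝ) < min 1 (ε / 4) := lt_min one_pos (by positivity)
  obtain ⟨⟨h, hh⟩, hgh⟩ :=
    ContinuousMap.exists_mem_subalgebra_near_continuous_of_separatesPoints (berndAlg I)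
      bernd_sep g g.continuous (min 1 (ε / 4)) hδ
  obtain ⟨s, c, hs⟩ := bernd_alg_mem h hh
  refine ⟨s, c, ?_⟩
  have hgh' : ∀ z, |h z - g z| < min 1 (ε / 4) := fun z => by
    simpa [Real.norm_eq_abs] using hgh z
  have hpt : ∀ z, (f z - ∑ j ∈ s, c j * walsh3 j z) ^ 2 ≤ 2 * ‖f z - g z‖ ^ (2 : ℝ) + ε / 2 := by
    intro z
    rw [← hs z]
    have h1 : ‖f z - g z‖ ^ (2 : ℝ) = (f z - g z) ^ 2 := by
      rw [Real.rpow_two, Real.norm_eq_abs, sq_abs]
    rw [h1]
    have h2 : (g z - h z) ^ 2 ≤ ε / 4 := by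
      have h3 := hgh' z
      rw [abs_lt] at h3
      have h4 : min 1 (ε / 4) ≤ 1 := min_le_left _ _
      have h5 : min 1 (ε / 4) ≤ ε / 4 := min_le_right _ _
      have h6 : (g z - h z) ^ 2 ≤ (min 1 (ε / 4)) ^ 2 := by
        apply sq_le_sq'
        · linarith [h3.2]
        · linarith [h3.1]
      nlinarith
    nlinarith [sq_nonneg ((f z - g z) - (g z - h z))]
  have hbd : ∀ z, ‖‖f z - g z‖ ^ (2 : ℝ)‖ ≤ (C + ‖g‖) ^ 2 := by
    intro z
    rw [Real.rpow_two, norm_pow, norm_norm]
    have h1 : ‖f z - g z‖ ≤ C + ‖g‖ := by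
      refine (norm_sub_le _ _).trans (add_le_add ?_ (g.norm_coe_le_norm z))
      simpa [Real.norm_eq_abs] using hC z
    exact pow_le_pow_left₀ (norm_nonneg _) h1 2
  have hmeas : Measurable fun z => ‖f z - g z‖ ^ (2 : ℝ) := by
    have : Measurable fun z => f z - g z := hf.sub g.continuous.measurable
    exact this.norm.pow_const _
  have h3 : Integrable (fun z => ‖f z - g z‖ ^ (2 : ℝ))
      ((bern I).prod ((bern I).prod (bern I))) :=
    Integrable.of_bound hmeas.aestronglyMeasurable _ (Filter.Eventually.of_forall hbd)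
  have hi : Integrable (fun z => 2 * ‖f z - g z‖ ^ (2 : ℝ))
      ((bern I).prod ((bern I).prod (bern I))) := h3.const_mul 2
  have hint : Integrable (fun z => 2 * ‖f z - g z‖ ^ (2 : ℝ) + ε / 2)
      ((bern I).prod ((bern I).prod (bern I))) := hi.add (integrable_const _)
  calc ∫ z, (f z - ∑ j ∈ s, c j * walsh3 j z) ^ 2 ∂((bern I).prod ((bern I).prod (bern I)))
      ≤ ∫ z, (2 * ‖f z - g z‖ ^ (2 : ℝ) + ε / 2) ∂((bern I).prod ((bern I).prod (bern I))) := by
        refine integral_mono_of_nonneg (Filter.Eventually.of_forall fun z => sq_nonneg _) hint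
          (Filter.Eventually.of_forall hpt)
    _ = 2 * ∫ z, ‖f z - g z‖ ^ (2 : ℝ) ∂((bern I).prod ((bern I).prod (bern I))) + ε / 2 := by
        rw [integral_add hi (integrable_const _), integral_const_mul]
        simp
    _ ≤ 2 * (ε / 4) + ε / 2 := by gcongr
    _ = ε := by ring

end Pool.Agent.CR
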