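import Pool.Agent.H.MP_894ea6_lc.L.Bern

/-! MP_894ea6_lc, module BernFix: no atoms, and free action -/

open MeasureTheory

namespace Pool.Agent.CR

theorem bernfix_integrable {I : Type*} (S : Finset I) : Integrable (walsh S) (bern I) := by
  refine Integrable.of_bound (measurable_walsh S).aestronglyMeasurable 1 ?_
  exact Filter.Eventually.of_forall fun x => by rw [Real.norm_eq_abs, abs_walsh]

/-- a set on which infinitely many Walsh functions are constant is a null set -/
theorem bernfix_null {I : Type*} (A : Set (I → Bool)) (S : ℕ → Finset I)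
    (hS : Function.Injective S) (c : ℕ → ℝ) (hc : ∀ k, |c k| = 1)
    (hA : ∀ k, ∀ x ∈ A, walsh (S k) x = c k) : bern I A = 0 := by
  classical
  have key : ∀ n : ℕ, 0 < n → (n : ℝ) * (bern I).real {x | (n : ℝ) ^ 2 ≤
      (∑ k ∈ Finset.range n, c k * walsh (S k) x) ^ 2} ≤ 1 := by
    intro n hn
    set f : (I → Bool) → ℝ := fun x => ∑ k ∈ Finset.range n, c k * walsh (S k) x with hf
    have hcc : ∀ k, c k * c k = 1 := by
      intro k
      rw [← abs_mul_abs_self, hc k, mul_one]
    have hsq : ∀ x, f x ^ 2 = ∑ k ∈ Finset.range n, ∑ l ∈ Finset.range n,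
        (c k * c l) * walsh (symmDiff (S k) (S l)) x := by
      intro x
      rw [hf, sq, Finset.sum_mul_sum]
      refine Finset.sum_congr rfl fun k _ => Finset.sum_congr rfl fun l _ => ?_
      rw [← walsh_mul]
      ring
    have hint : Integrable (fun x => f x ^ 2) (bern I) := by
      have : (fun x => f x ^ 2) = fun x => ∑ k ∈ Finset.range n, ∑ l ∈ Finset.range n,
          (c k * c l) * walsh (symmDiff (S k) (S l)) x := funext hsq
      rw [this]
      refine integrable_finsetSum _ fun k _ => integrable_finsetSum _ fun l _ => ?_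
      exact (bernfix_integrable _).const_mul _
    have hval : ∫ x, f x ^ 2 ∂(bern I) = n := by
      simp_rw [hsq]
      rw [integral_finsetSum _ (fun k _ => integrable_finsetSum _ fun l _ =>
        (bernfix_integrable _).const_mul _)]
      have : ∀ k ∈ Finset.range n, ∫ x, ∑ l ∈ Finset.range n,
          (c k * c l) * walsh (symmDiff (S k) (S l)) x ∂(bern I) = 1 := by
        intro k hk
        rw [integral_finsetSum _ (fun l _ => (bernfix_integrable _).const_mul _)]
        rw [Finset.sum_eq_single k]
        · rw [integral_const_mul, symmDiff_self, hcc]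
          simp [walsh]
        · intro l _ hl
          rw [integral_const_mul, integral_walsh, mul_zero]
          rw [Finset.nonempty_iff_ne_empty]
          intro h0
          apply hl
          apply hS
          have := symmDiff_eq_bot.mp (h0 : symmDiff (S k) (S l) = ⊥)
          exact this.symm
        · intro h
          exact absurd hk h
      rw [Finset.sum_congr rfl this]
      simp
    have h1 := mul_meas_ge_le_integral_of_nonneg (μ := bern I) (f := fun x => f x ^ 2)
      (Filter.Eventually.of_forall fun x => sq_nonneg _) hint ((n : ℝ) ^ 2)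
    rw [hval] at h1
    have hn' : (0 : ℝ) < n := by exact_mod_cast hn
    have h2 : (n : ℝ) * ((n : ℝ) * (bern I).real {x | (n : ℝ) ^ 2 ≤ f x ^ 2}) ≤ (n : ℝ) * 1 := by
      rw [mul_one]
      calc (n : ℝ) * ((n : ℝ) * (bern I).real {x | (n : ℝ) ^ 2 ≤ f x ^ 2})
          = (n : ℝ) ^ 2 * (bern I).real {x | (n : ℝ) ^ 2 ≤ f x ^ 2} := by ring
        _ ≤ n := h1
    exact le_of_mul_le_mul_left h2 hn'
  have hle : ∀ n : ℕ, 0 < n → (bern I).real A ≤ 1 / n := by
    intro n hn
    have hn' : (0 : ℝ) < n := by exact_mod_cast hn
    rw [le_div_iff₀ hn', mul_comm]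
    refine le_trans (mul_le_mul_of_nonneg_left ?_ hn'.le) (key n hn)
    refine measureReal_mono (fun x hx => ?_)
    have : ∑ k ∈ Finset.range n, c k * walsh (S k) x = n := by
      have h0 : ∀ k ∈ Finset.range n, c k * walsh (S k) x = 1 := by
        intro k _
        rw [hA k x hx, ← abs_mul_abs_self, hc k, mul_one]
      rw [Finset.sum_congr rfl h0]
      simp
    change (n : ℝ) ^ 2 ≤ (∑ k ∈ Finset.range n, c k * walsh (S k) x) ^ 2
    rw [this]
  have h0 : (bern I).real A ≤ 0 := by
    refine le_of_forall_pos_le_add fun ε hε => ?_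
    obtain ⟨n, hn⟩ := exists_nat_one_div_lt hε
    have := hle (n + 1) (Nat.succ_pos n)
    push_cast at this
    linarith
  have h1 : (bern I).real A = 0 := le_antisymm h0 measureReal_nonneg
  exact (measureReal_eq_zero_iff).mp h1

theorem bern_singleton {I : Type*} [Countable I] [Infinite I] (x₀ : I → Bool) :
    bern I {x₀} = 0 := by
  obtain ⟨i, hi⟩ : ∃ i : ℕ → I, Function.Injective i := ⟨_, (Infinite.natEmbedding I).injective⟩
  refine bernfix_null {x₀} (fun k => {i k}) (fun k l h => hi (by simpa using h))
    (fun k => walsh {i k} x₀) (fun k => abs_walsh _ _) ?_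
  intro k x hx
  rw [Set.mem_singleton_iff.mp hx]

/-- a permutation without fixed points moves almost every point -/
theorem bern_fix {I : Type*} [Countable I] [Infinite I] (e : I ≃ I) (he : ∀ i, e i ≠ i) :
    bern I {x | (fun i => x (e i)) = x} = 0 := by
  classical
  have hinf : (Set.range fun i : I => ({i, e i} : Finset I)).Infinite := by
    intro hfin
    have h1 : (⋃ s ∈ Set.range fun i : I => ({i, e i} : Finset I), (s : Set I)).Finite :=
      hfin.biUnion fun s _ => s.finite_toSet
    have h2 : (Set.univ : Set I) ⊆ ⋃ s ∈ Set.range fun i : I => ({i, e i} : Finset I), (s : Set I) := by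
      intro i _
      refine Set.mem_biUnion ⟨i, rfl⟩ ?_
      simp
    exact Set.infinite_univ (h1.subset h2)
  set S : ℕ → Finset I := fun k => (hinf.natEmbedding _ k : Finset I) with hSdef
  have hS : Function.Injective S := by
    intro k l h
    exact (hinf.natEmbedding _).injective (Subtype.ext h)
  refine bernfix_null _ S hS (fun _ => 1) (fun _ => abs_one) ?_
  intro k x hx
  obtain ⟨i, hi⟩ := (hinf.natEmbedding _ k).2
  have hSk : S k = {i, e i} := hi.symm
  have hx' : x (e i) = x i := congrFun hx i
  rw [hSk, walsh, Finset.prod_pair (he i).symm, hx']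
  cases x i <;> simp

end Pool.Agent.CR
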