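import Pool.Agent.H.MP_894ea6_lc.L.GapWalsh
import Pool.Agent.H.MP_894ea6_lc.L.BernDense

/-! MP_894ea6_lc, module BernGap: the gap for three copies of a Bernoulli shift -/

open MeasureTheory

namespace Pool.Agent.CR

section BernGapAux

open scoped Classical Pointwise

variable {I : Type*}

theorem berngap_walsh_smul [MulAction Gam I] (g : Gam) (S : Finset I) (x : I → Bool) :
    walsh (g • S) (fun i => x (g⁻¹ • i)) = walsh S x := by
  unfold walsh
  rw [Finset.smul_finset_def, Finset.prod_image (fun a _ b _ h => MulAction.injective g h)]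
  simp

theorem berngap_smul_eq [MulAction Gam I] (hfree : ∀ (w : Gam) (i : I), w • i = i → w = 1)
    (w : Gam) (S : Finset I) (hS : S ≠ ∅) (h : w • S = S) : w = 1 := by
  obtain ⟨i, hi⟩ := Finset.nonempty_iff_ne_empty.mpr hS
  have hpow : ∀ n : ℕ, w ^ n • i ∈ S := by
    intro n
    induction n with
    | zero => simpa using hi
    | succ n ih =>
      have h1 : w • (w ^ n • i) ∈ w • S := Finset.smul_mem_smul_finset ih
      rw [h] at h1
      rwa [smul_smul, ← pow_succ'] at h1
  obtain ⟨m, n, hmn, heq⟩ : ∃ m n : ℕ, m ≠ n ∧ w ^ m • i = w ^ n • i := by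
    have hni : ¬ Function.Injective (fun n : ℕ => (⟨w ^ n • i, hpow n⟩ : {a // a ∈ S})) := by
      intro hinj
      exact not_injective_infinite_finite _ hinj
    simp only [Function.Injective, not_forall] at hni
    obtain ⟨m, n, h1, h2⟩ := hni
    exact ⟨m, n, h2, congrArg Subtype.val h1⟩
  rcases lt_or_gt_of_ne hmn with hlt | hlt
  · have h3 : w ^ (n - m) • i = i := by
      have : w ^ m • (w ^ (n - m) • i) = w ^ m • i := by
        rw [smul_smul, ← pow_add, Nat.add_sub_cancel' hlt.le, heq]
      exact smul_left_cancel _ this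
    have h4 := hfree _ _ h3
    rcases pow_eq_one_iff.1 h4 with h5 | h5
    · exact h5
    · omega
  · have h3 : w ^ (m - n) • i = i := by
      have : w ^ n • (w ^ (m - n) • i) = w ^ n • i := by
        rw [smul_smul, ← pow_add, Nat.add_sub_cancel' hlt.le, heq]
      exact smul_left_cancel _ this
    have h4 := hfree _ _ h3
    rcases pow_eq_one_iff.1 h4 with h5 | h5
    · exact h5
    · omega

theorem berngap_walsh_empty (x : I → Bool) : walsh (∅ : Finset I) x = 1 := by
  simp [walsh]

theorem berngap_int_walsh (S : Finset I) :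
    ∫ x, walsh S x ∂(bern I) = if S = ∅ then 1 else 0 := by
  split_ifs with h
  · subst h
    simp [berngap_walsh_empty]
  · exact integral_walsh S (Finset.nonempty_iff_ne_empty.mpr h)

theorem berngap_int (S : Finset I × Finset I × Finset I) (hS : S ≠ (∅, ∅, ∅)) :
    ∫ z, walsh3 S z ∂((bern I).prod ((bern I).prod (bern I))) = 0 := by
  have h1 : ∫ z, walsh3 S z ∂((bern I).prod ((bern I).prod (bern I)))
      = (∫ x, walsh S.1 x ∂(bern I)) *
        ∫ y : (I → Bool) × (I → Bool), walsh S.2.1 y.1 * walsh S.2.2 y.2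
          ∂((bern I).prod (bern I)) := by
    exact integral_prod_mul (μ := bern I) (ν := (bern I).prod (bern I)) (walsh S.1)
      (fun y : (I → Bool) × (I → Bool) => walsh S.2.1 y.1 * walsh S.2.2 y.2)
  have h2 : ∫ y : (I → Bool) × (I → Bool), walsh S.2.1 y.1 * walsh S.2.2 y.2
      ∂((bern I).prod (bern I)) =
      (∫ x, walsh S.2.1 x ∂(bern I)) * ∫ x, walsh S.2.2 x ∂(bern I) :=
    integral_prod_mul (μ := bern I) (ν := bern I) (walsh S.2.1) (walsh S.2.2)
  rw [h1, h2, berngap_int_walsh, berngap_int_walsh, berngap_int_walsh]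
  by_contra hne
  apply hS
  have ha : S.1 = ∅ := by
    by_contra h; simp [h] at hne
  have hb : S.2.1 = ∅ := by
    by_contra h; simp [h] at hne
  have hc : S.2.2 = ∅ := by
    by_contra h; simp [h] at hne
  exact Prod.ext ha (Prod.ext hb hc)

theorem berngap_mul (S S' : Finset I × Finset I × Finset I)
    (z : (I → Bool) × (I → Bool) × (I → Bool)) :
    walsh3 S z * walsh3 S' z =
      walsh3 (symmDiff S.1 S'.1, symmDiff S.2.1 S'.2.1, symmDiff S.2.2 S'.2.2) z := by
  unfold walsh3
  simp only
  rw [← walsh_mul, ← walsh_mul, ← walsh_mul]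
  ring

theorem berngap_abs (S : Finset I × Finset I × Finset I)
    (z : (I → Bool) × (I → Bool) × (I → Bool)) : |walsh3 S z| = 1 := by
  unfold walsh3
  simp [abs_mul, abs_walsh]

theorem berngap_meas (S : Finset I × Finset I × Finset I) : Measurable (walsh3 S) := by
  unfold walsh3
  exact ((measurable_walsh _).comp measurable_fst).mul
    (((measurable_walsh _).comp (measurable_fst.comp measurable_snd)).mul
      ((measurable_walsh _).comp (measurable_snd.comp measurable_snd)))

theorem berngap_mp [MulAction Gam I] (g : Gam) :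
    MeasurePreserving (diag3 (fun (x : I → Bool) (i : I) => x (g⁻¹ • i)))
      ((bern I).prod ((bern I).prod (bern I))) ((bern I).prod ((bern I).prod (bern I))) := by
  have h : MeasurePreserving (fun (x : I → Bool) (i : I) => x (g⁻¹ • i)) (bern I) (bern I) :=
    bern_perm (MulAction.toPerm g⁻¹)
  exact h.prod (h.prod h)

theorem berngap_walsh3_smul [MulAction Gam I] (g : Gam) (S : Finset I × Finset I × Finset I)
    (z : (I → Bool) × (I → Bool) × (I → Bool)) :
    walsh3 (g • S) (diag3 (fun (x : I → Bool) (i : I) => x (g⁻¹ • i)) z) = walsh3 S z := by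
  unfold walsh3 diag3
  simp only [Prod.smul_fst, Prod.smul_snd]
  rw [berngap_walsh_smul, berngap_walsh_smul, berngap_walsh_smul]

/-- nontrivial triples of finite sets -/
abbrev BernGapJ (I : Type*) : Type _ :=
  {j : Finset I × Finset I × Finset I // j ≠ (∅, ∅, ∅)}

theorem berngap_smul_ne [MulAction Gam I] (g : Gam) (j : Finset I × Finset I × Finset I)
    (hj : j ≠ (∅, ∅, ∅)) : g • j ≠ (∅, ∅, ∅) := by
  intro h
  apply hj
  have h1 : g⁻¹ • (g • j) = g⁻¹ • ((∅, ∅, ∅) : Finset I × Finset I × Finset I) := by rw [h]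
  rw [inv_smul_smul] at h1
  rw [h1]
  simp [Prod.smul_mk]

/-- the action on nontrivial triples -/
@[instance_reducible]
noncomputable def berngapAct (I : Type*) [MulAction Gam I] : MulAction Gam (BernGapJ I) where
  smul g j := ⟨g • j.1, berngap_smul_ne g j.1 j.2⟩
  one_smul j := Subtype.ext (one_smul Gam j.1)
  mul_smul g h j := Subtype.ext (mul_smul g h j.1)

theorem berngap_sum (s : Finset (Finset I × Finset I × Finset I))
    (c : Finset I × Finset I × Finset I → ℝ) (z : (I → Bool) × (I → Bool) × (I → Bool)) :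
    ∑ j ∈ s, c j * walsh3 j z =
      (if (∅, ∅, ∅) ∈ s then c (∅, ∅, ∅) else 0) +
        ∑ j ∈ s.subtype (fun j => j ≠ (∅, ∅, ∅)), c j.1 * walsh3 j.1 z := by
  have h1 : ∑ j ∈ s.subtype (fun j => j ≠ (∅, ∅, ∅)), c j.1 * walsh3 j.1 z =
      ∑ j ∈ s.filter (fun j => j ≠ (∅, ∅, ∅)), c j * walsh3 j z := by
    exact Finset.sum_subtype_eq_sum_filter (fun j => c j * walsh3 j z)
  rw [h1]
  have h2 : walsh3 ((∅, ∅, ∅) : Finset I × Finset I × Finset I) z = 1 := by
    simp [walsh3, berngap_walsh_empty]
  have h3 := Finset.sum_filter_add_sum_filter_not s (fun j => j = (∅, ∅, ∅))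
    (fun j => c j * walsh3 j z)
  rw [← h3]
  congr 1
  split_ifs with h
  · rw [Finset.filter_eq' , if_pos h, Finset.sum_singleton, h2, mul_one]
  · rw [Finset.filter_eq', if_neg h, Finset.sum_empty]

theorem berngap_main {I : Type*} [Countable I] [MulAction Gam I]
    (hfree : ∀ (w : Gam) (i : I), w • i = i → w = 1) :
    GapPair ((bern I).prod ((bern I).prod (bern I)))
      (diag3 (fun (x : I → Bool) (i : I) => x ((FreeGroup.of true : Gam)⁻¹ • i)))
      (diag3 (fun (x : I → Bool) (i : I) => x ((FreeGroup.of false : Gam)⁻¹ • i))) := by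
  let _ : MulAction Gam (BernGapJ I) := berngapAct I
  refine gap_of_basis (berngap_mp _) (berngap_mp _) (J := BernGapJ I) ?_
    (fun j z => walsh3 j.1 z) (fun j => berngap_meas j.1) (fun j z => (berngap_abs j.1 z).le)
    ?_ ?_ (fun j => berngap_int j.1 j.2) ?_ ?_ ?_
  · intro w j hj
    have h1 : w • j.1 = j.1 := congrArg Subtype.val hj
    have h11 : w • j.1.1 = j.1.1 := congrArg Prod.fst h1
    have h12 : w • j.1.2.1 = j.1.2.1 := congrArg (fun t => t.2.1) h1
    have h13 : w • j.1.2.2 = j.1.2.2 := congrArg (fun t => t.2.2) h1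
    by_cases ha : j.1.1 = ∅
    · by_cases hb : j.1.2.1 = ∅
      · by_cases hc : j.1.2.2 = ∅
        · exact absurd (Prod.ext ha (Prod.ext hb hc)) j.2
        · exact berngap_smul_eq hfree w _ hc h13
      · exact berngap_smul_eq hfree w _ hb h12
    · exact berngap_smul_eq hfree w _ ha h11
  · intro i j hij
    simp only [berngap_mul]
    apply berngap_int
    intro h
    apply hij
    apply Subtype.ext
    have h1 := congrArg Prod.fst h
    have h2 := congrArg (fun t => t.2.1) h
    have h3 := congrArg (fun t => t.2.2) h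
    simp only at h1 h2 h3
    exact Prod.ext (symmDiff_eq_bot.1 h1) (Prod.ext (symmDiff_eq_bot.1 h2) (symmDiff_eq_bot.1 h3))
  · intro j
    have : ∀ z, (walsh3 j.1 z) ^ 2 = 1 := by
      intro z
      rw [← sq_abs, berngap_abs]
      norm_num
    simp [this]
  · intro f hf hb ε hε
    obtain ⟨s, c, hs⟩ := walsh3_dense f hf hb ε hε
    refine ⟨s.subtype (fun j => j ≠ (∅, ∅, ∅)), fun j => c j.1,
      if (∅, ∅, ∅) ∈ s then c (∅, ∅, ∅) else 0, ?_⟩
    refine le_trans (le_of_eq ?_) hs
    refine integral_congr_ae (Filter.Eventually.of_forall fun z => ?_)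
    simp only
    rw [berngap_sum]
  · intro j
    exact Filter.Eventually.of_forall fun z => berngap_walsh3_smul _ j.1 z
  · intro j
    exact Filter.Eventually.of_forall fun z => berngap_walsh3_smul _ j.1 z

end BernGapAux

theorem bern_gap3 {I : Type*} [Countable I] [MulAction Gam I]
    (hfree : ∀ (w : Gam) (i : I), w • i = i → w = 1) :
    GapPair ((bern I).prod ((bern I).prod (bern I)))
      (diag3 (fun (x : I → Bool) (i : I) => x ((FreeGroup.of true : Gam)⁻¹ • i)))
      (diag3 (fun (x : I → Bool) (i : I) => x ((FreeGroup.of false : Gam)⁻¹ • i))) :=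
  berngap_main hfree

end Pool.Agent.CR
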