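import Pool.Agent.H.MP_894ea6_lc.L.Defs

/-! MP_894ea6_lc, module ClosedSel: closed approximation of countably valued determined labels -/

open MeasureTheory

namespace Pool.Agent.CR

/-- a countable family of closed sets -/
def ClFam (TT : Type*) [TopologicalSpace TT] [SecondCountableTopology TT] : Set (Set TT) :=
  {C | ∃ s : Set (Set TT), s.Finite ∧ s ⊆ TopologicalSpace.countableBasis TT ∧
    C = closure (⋃₀ s)}

theorem clFam_countable (TT : Type*) [TopologicalSpace TT] [SecondCountableTopology TT] :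
    (ClFam TT).Countable := by
  have h := Set.countable_setOf_finite_subset (TopologicalSpace.countable_countableBasis TT)
  refine (h.image (fun s => closure (⋃₀ s))).mono ?_
  rintro C ⟨s, hs1, hs2, rfl⟩
  exact ⟨s, ⟨hs1, hs2⟩, rfl⟩

theorem clFam_closed {TT : Type*} [TopologicalSpace TT] [SecondCountableTopology TT] {C : Set TT}
    (hC : C ∈ ClFam TT) : IsClosed C := by
  obtain ⟨s, _, _, rfl⟩ := hC
  exact isClosed_closure

/-- disjoint compact sets have disjoint open neighbourhoods -/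
theorem closedsel_open {TT : Type*} [TopologicalSpace TT] [T2Space TT]
    {R : Type*} (I : Finset R) (C' : R → Set TT)
    (hC' : ∀ r ∈ I, IsCompact (C' r)) (hdisj : (I : Set R).PairwiseDisjoint C') :
    ∃ U : R → Set TT, (∀ r ∈ I, IsOpen (U r) ∧ C' r ⊆ U r) ∧
      (I : Set R).PairwiseDisjoint U := by
  classical
  have hsep : ∀ r s : R, ∃ P : Set TT × Set TT, r ∈ I → s ∈ I → r ≠ s →
      IsOpen P.1 ∧ IsOpen P.2 ∧ C' r ⊆ P.1 ∧ C' s ⊆ P.2 ∧ Disjoint P.1 P.2 := by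
    intro r s
    by_cases h : r ∈ I ∧ s ∈ I ∧ r ≠ s
    · obtain ⟨h1, h2, h3⟩ := h
      obtain ⟨U, V, hU, hV, hCU, hCV, hd⟩ :=
        SeparatedNhds.of_isCompact_isCompact (hC' r h1) (hC' s h2) (hdisj h1 h2 h3)
      exact ⟨(U, V), fun _ _ _ => ⟨hU, hV, hCU, hCV, hd⟩⟩
    · exact ⟨(∅, ∅), fun h1 h2 h3 => absurd ⟨h1, h2, h3⟩ h⟩
  choose P hP using hsep
  refine ⟨fun r => ⋂ s ∈ I.filter (fun s => r ≠ s), ((P r s).1 ∩ (P s r).2), ?_, ?_⟩
  · intro r hr
    constructor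
    · apply isOpen_biInter_finset
      intro s hs
      obtain ⟨hs1, hs2⟩ := Finset.mem_filter.1 hs
      exact (hP r s hr hs1 hs2).1.inter (hP s r hs1 hr (Ne.symm hs2)).2.1
    · apply Set.subset_iInter₂
      intro s hs
      obtain ⟨hs1, hs2⟩ := Finset.mem_filter.1 hs
      exact Set.subset_inter (hP r s hr hs1 hs2).2.2.1 (hP s r hs1 hr (Ne.symm hs2)).2.2.2.1
  · intro r hr s hs hrs
    have h1 := (hP r s hr hs hrs).2.2.2.2
    refine Set.disjoint_left.2 (fun x hx hx' => ?_)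
    have e1 := Set.mem_iInter₂.1 hx s (Finset.mem_filter.2 ⟨hs, hrs⟩)
    have e2 := Set.mem_iInter₂.1 hx' r (Finset.mem_filter.2 ⟨hr, Ne.symm hrs⟩)
    exact Set.disjoint_left.1 h1 e1.1 e2.2

/-- a compact set inside an open set is covered by a member of the family inside the open set -/
theorem closedsel_cover {TT : Type*} [TopologicalSpace TT] [SecondCountableTopology TT]
    [RegularSpace TT] {K U : Set TT} (hK : IsCompact K) (hU : IsOpen U) (hKU : K ⊆ U) :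
    ∃ C ∈ ClFam TT, K ⊆ C ∧ C ⊆ U := by
  have key : ∃ s : Set (Set TT), s.Finite ∧ s ⊆ TopologicalSpace.countableBasis TT ∧
      K ⊆ ⋃₀ s ∧ closure (⋃₀ s) ⊆ U := by
    refine hK.induction_on (p := fun K => ∃ s : Set (Set TT), s.Finite ∧
      s ⊆ TopologicalSpace.countableBasis TT ∧ K ⊆ ⋃₀ s ∧ closure (⋃₀ s) ⊆ U) ?_ ?_ ?_ ?_
    · exact ⟨∅, Set.finite_empty, Set.empty_subset _, Set.empty_subset _, by simp⟩
    · rintro s t hst ⟨c, h1, h2, h3, h4⟩
      exact ⟨c, h1, h2, hst.trans h3, h4⟩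
    · rintro s t ⟨c, h1, h2, h3, h4⟩ ⟨d, g1, g2, g3, g4⟩
      refine ⟨c ∪ d, h1.union g1, Set.union_subset h2 g2, ?_, ?_⟩
      · rw [Set.sUnion_union]
        exact Set.union_subset_union h3 g3
      · rw [Set.sUnion_union, closure_union]
        exact Set.union_subset h4 g4
    · intro x hx
      obtain ⟨v, hv, hxv, hvU⟩ := (TopologicalSpace.isBasis_countableBasis TT).exists_closure_subset
        (hU.mem_nhds (hKU hx))
      refine ⟨v, mem_nhdsWithin_of_mem_nhds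
        (((TopologicalSpace.isBasis_countableBasis TT).isOpen hv).mem_nhds hxv), {v},
        Set.finite_singleton _, Set.singleton_subset_iff.2 hv, by simp, by simpa using hvU⟩
  obtain ⟨s, h1, h2, h3, h4⟩ := key
  exact ⟨closure (⋃₀ s), ⟨s, h1, h2, rfl⟩, h3.trans subset_closure, h4⟩

/-- disjoint compact sets have disjoint neighbourhoods in the family -/
theorem clFam_sep {TT : Type*} [TopologicalSpace TT] [SecondCountableTopology TT]
    [CompactSpace TT] [T2Space TT] {R : Type*} (I : Finset R) (C' : R → Set TT)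
    (hC' : ∀ r ∈ I, IsCompact (C' r)) (hdisj : (I : Set R).PairwiseDisjoint C') :
    ∃ C : R → Set TT, (∀ r ∈ I, C r ∈ ClFam TT ∧ C' r ⊆ C r) ∧
      (I : Set R).PairwiseDisjoint C := by
  classical
  obtain ⟨U, hU, hUd⟩ := closedsel_open I C' hC' hdisj
  have h : ∀ r, ∃ C : Set TT, r ∈ I → C ∈ ClFam TT ∧ C' r ⊆ C ∧ C ⊆ U r := by
    intro r
    by_cases hr : r ∈ I
    · obtain ⟨C, h1, h2, h3⟩ := closedsel_cover (hC' r hr) (hU r hr).1 (hU r hr).2
      exact ⟨C, fun _ => ⟨h1, h2, h3⟩⟩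
    · exact ⟨∅, fun h => absurd h hr⟩
  choose C hC using h
  refine ⟨C, fun r hr => ⟨(hC r hr).1, (hC r hr).2.1⟩, ?_⟩
  intro r hr s hs hrs
  exact (hUd hr hs hrs).mono (hC r hr).2.2 (hC s hs).2.2

/-- finitely many labels carry most of the mass -/
theorem closedsel_finite {Ω R : Type*} [MeasurableSpace Ω] {μ : Measure Ω}
    [IsProbabilityMeasure μ] [Countable R]
    (v : Ω → R) (hv : ∀ r, MeasurableSet {ω | v ω = r}) (Ω₀ : Set Ω) (hΩ₀ : MeasurableSet Ω₀)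
    (δ : ℝ) (hδ : 0 < δ) :
    ∃ I : Finset R, μ.real Ω₀ - δ < ∑ r ∈ I, μ.real (Ω₀ ∩ {ω | v ω = r}) := by
  have hU : μ (⋃ r, Ω₀ ∩ {ω | v ω = r}) = ∑' r, μ (Ω₀ ∩ {ω | v ω = r}) := by
    apply measure_iUnion
    · intro a b hab
      exact Set.disjoint_left.2 (fun z hz hz' => hab (hz.2.symm.trans hz'.2))
    · intro b; exact hΩ₀.inter (hv b)
  have hUD : (⋃ r, Ω₀ ∩ {ω | v ω = r}) = Ω₀ := by
    ext z; simp
  rw [hUD] at hU
  have hsum : HasSum (fun r => μ.real (Ω₀ ∩ {ω | v ω = r})) (μ.real Ω₀) := by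
    have h1 : ∑' r, μ (Ω₀ ∩ {ω | v ω = r}) ≠ ⊤ := hU ▸ measure_ne_top _ _
    have h2 := ENNReal.summable_toReal h1
    have h3 : μ.real Ω₀ = ∑' r, μ.real (Ω₀ ∩ {ω | v ω = r}) := by
      rw [measureReal_def, hU, ENNReal.tsum_toReal_eq (fun a => measure_ne_top _ _)]
      rfl
    rw [h3]
    exact h2.hasSum
  exact (hsum.eventually (lt_mem_nhds (show μ.real Ω₀ - δ < μ.real Ω₀ by linarith))).exists

theorem closed_sel {Ω TT R : Type*} [MeasurableSpace Ω] [StandardBorelSpace Ω] {μ : Measure Ω}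
    [IsProbabilityMeasure μ] [TopologicalSpace TT] [CompactSpace TT] [PolishSpace TT]
    [MeasurableSpace TT] [BorelSpace TT] [Countable R] (θ : Ω → TT) (hθ : Measurable θ)
    (v : Ω → R) (hv : ∀ r, MeasurableSet {ω | v ω = r}) (Ω₀ : Set Ω) (hΩ₀ : MeasurableSet Ω₀)
    (hinj : Set.InjOn θ Ω₀) (δ : ℝ) (hδ : 0 < δ) :
    ∃ (I : Finset R) (C : R → Set TT), (∀ r ∈ I, C r ∈ ClFam TT) ∧
      (I : Set R).PairwiseDisjoint C ∧
      μ.real Ω₀ - δ ≤ μ.real {ω | ω ∈ Ω₀ ∧ ∃ r ∈ I, θ ω ∈ C r ∧ v ω = r} := by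
  classical
  obtain ⟨I, hI⟩ := closedsel_finite (μ := μ) v hv Ω₀ hΩ₀ (δ / 2) (by linarith)
  have hOm : ∀ r, MeasurableSet (Ω₀ ∩ {ω | v ω = r}) := fun r => hΩ₀.inter (hv r)
  have hA : ∀ r, MeasurableSet (θ '' (Ω₀ ∩ {ω | v ω = r})) := fun r =>
    (hOm r).image_of_measurable_injOn hθ (hinj.mono Set.inter_subset_left)
  set ν : Measure TT := (μ.restrict Ω₀).map θ with hν
  have hνfin : IsFiniteMeasure ν := by
    rw [hν]; infer_instance
  have hνapp : ∀ B, MeasurableSet B → ν.real B = μ.real (θ ⁻¹' B ∩ Ω₀) := by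
    intro B hB
    rw [measureReal_def, measureReal_def, hν, Measure.map_apply hθ hB,
      Measure.restrict_apply (hθ hB)]
  set ε : ℝ := δ / (2 * (I.card + 1)) with hε
  have hεpos : 0 < ε := by positivity
  have hK : ∀ r, ∃ K ⊆ θ '' (Ω₀ ∩ {ω | v ω = r}), IsCompact K ∧
      ν.real (θ '' (Ω₀ ∩ {ω | v ω = r})) ≤ ν.real K + ε := by
    intro r
    have hne : ENNReal.ofReal ε ≠ 0 := by
      rw [Ne, ENNReal.ofReal_eq_zero]; linarith
    obtain ⟨K, hKA, hKc, hlt⟩ := (hA r).exists_isCompact_lt_add (μ := ν) (measure_ne_top _ _) hne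
    refine ⟨K, hKA, hKc, ?_⟩
    have h1 := ENNReal.toReal_mono (ENNReal.add_ne_top.2 ⟨measure_ne_top ν K,
      ENNReal.ofReal_ne_top⟩) hlt.le
    rw [ENNReal.toReal_add (measure_ne_top _ _) ENNReal.ofReal_ne_top,
      ENNReal.toReal_ofReal hεpos.le] at h1
    exact h1
  choose K hKA hKc hKν using hK
  have hmeet : ∀ r, θ ⁻¹' (θ '' (Ω₀ ∩ {ω | v ω = r})) ∩ Ω₀ = Ω₀ ∩ {ω | v ω = r} := by
    intro r
    ext ω
    constructor
    · rintro ⟨⟨ω', h1, h2⟩, h3⟩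
      have : ω' = ω := hinj h1.1 h3 h2
      exact this ▸ h1
    · intro h
      exact ⟨⟨ω, h, rfl⟩, h.1⟩
  have hdisj : (I : Set R).PairwiseDisjoint K := by
    intro r _ s _ hrs
    refine Set.disjoint_left.2 (fun x hx hx' => ?_)
    obtain ⟨ω, h1, h2⟩ := hKA r hx
    obtain ⟨ω', h1', h2'⟩ := hKA s hx'
    have : ω = ω' := hinj h1.1 h1'.1 (h2.trans h2'.symm)
    subst this
    exact hrs (h1.2.symm.trans h1'.2)
  obtain ⟨C, hC1, hC2⟩ := clFam_sep I K (fun r _ => hKc r) hdisj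
  refine ⟨I, C, fun r hr => (hC1 r hr).1, hC2, ?_⟩
  have hsub : (⋃ r ∈ I, (θ ⁻¹' (K r) ∩ Ω₀)) ⊆
      {ω | ω ∈ Ω₀ ∧ ∃ r ∈ I, θ ω ∈ C r ∧ v ω = r} := by
    intro ω hω
    simp only [Set.mem_iUnion] at hω
    obtain ⟨r, hr, h1, h2⟩ := hω
    refine ⟨h2, r, hr, (hC1 r hr).2 h1, ?_⟩
    have h3 : ω ∈ θ ⁻¹' (θ '' (Ω₀ ∩ {ω | v ω = r})) ∩ Ω₀ := ⟨hKA r h1, h2⟩
    rw [hmeet] at h3
    exact h3.2
  have hmono := measureReal_mono (μ := μ) hsub (measure_ne_top _ _)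
  refine le_trans ?_ hmono
  rw [measureReal_biUnion_finset]
  · have h1 : ∀ r ∈ I, μ.real (Ω₀ ∩ {ω | v ω = r}) - ε ≤ μ.real (θ ⁻¹' (K r) ∩ Ω₀) := by
      intro r _
      have h2 := hKν r
      rw [hνapp _ (hA r), hνapp _ (hKc r).measurableSet, hmeet] at h2
      linarith
    have h3 := Finset.sum_le_sum h1
    rw [Finset.sum_sub_distrib, Finset.sum_const, nsmul_eq_mul] at h3
    have h4 : (I.card : ℝ) * ε ≤ δ / 2 := by
      rw [hε]
      have h5 : (0 : ℝ) ≤ I.card := Nat.cast_nonneg _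
      rw [mul_div_assoc', div_le_div_iff₀ (by positivity) (by norm_num)]
      nlinarith
    linarith
  · intro r hr s hs hrs
    refine Set.disjoint_left.2 (fun x hx hx' => ?_)
    exact Set.disjoint_left.1 (hdisj hr hs hrs) hx.1 hx'.1
  · intro r _
    exact (hθ (hKc r).measurableSet).inter hΩ₀

end Pool.Agent.CR
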