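import Pool.Agent.H.MP_894ea6_lc.L.Space
import Pool.Agent.H.MP_894ea6_lc.L.ClosedSel

/-! MP_894ea6_lc, module CfgDefs: countable data describing almost deterministic events -/

open MeasureTheory

namespace Pool.Agent.CR

/-- the point of `2^FF` with finite support `S` -/
def bitsOf (S : Finset FF) : Bits := fun h => decide (h ∈ S)

/-- labels: for each signed generator an element of `Δ` and a finite support -/
abbrev Lab (Δ : Type*) : Type _ := Gen × Bool → Δ × Finset FF

/-- configurations -/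
abbrev Cfg (K Δ : Type*) [TopologicalSpace K] [SecondCountableTopology K] : Type _ :=
  Finset FF × Finset (Lab Δ × ↥(ClFam (Bits × K))) × Finset ↥(TopologicalSpace.countableBasis K)

variable {K Δ : Type*} [TopologicalSpace K] [SecondCountableTopology K] [Group Δ] [MulAction Δ K]

/-- the almost deterministic event of a configuration -/
def DDc (c : Cfg K Δ) : Set (ZZ K) :=
  {z | ∃ p ∈ c.2.1, (res c.1 z.1, z.2 1) ∈ (p.2 : Set (Bits × K)) ∧
    ∀ s, z.2 (gs s) = (p.1 s).1 • z.2 1 ∧ res c.1 (act (gs s) z.1) = bitsOf (p.1 s).2}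

/-- the configuration `c` is good for the measure `m` -/
structure GoodC [MeasurableSpace K] (ε : ℝ) (c : Cfg K Δ) (m : Measure (ZZ K)) : Prop where
  disj : ∀ p ∈ c.2.1, ∀ p' ∈ c.2.1, p ≠ p' →
    Disjoint (p.2 : Set (Bits × K)) (p'.2 : Set (Bits × K))
  large : 1 - ε ≤ m.real (DDc c)
  cover : ∀ k : K, ∃ O ∈ c.2.2, k ∈ (O : Set K)
  small : ∀ O ∈ c.2.2, m.real {z : ZZ K | z.2 1 ∈ (O : Set K)} ≤ 1 / 4

end Pool.Agent.CR
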