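import Pool.Agent.H.MP_894ea6_lc.L.Defs

/-! MP_894ea6_lc, module GapA: first consequences of the gap inequality -/

open MeasureTheory Filter Topology

namespace Pool.Agent.CR

variable {Z : Type*} [MeasurableSpace Z] {m : Measure Z} {T₁ T₂ : Z → Z}

/-- truncation -/
private noncomputable def gapa_tr (n : ℕ) (x : ℝ) : ℝ := max (-(n : ℝ)) (min x n)

private theorem gapa_tr_le (n : ℕ) (x : ℝ) : |gapa_tr n x| ≤ n := by
  have hn : (0 : ℝ) ≤ n := Nat.cast_nonneg n
  unfold gapa_tr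
  rw [abs_le]
  refine ⟨le_max_left _ _, max_le (by linarith) (min_le_right _ _)⟩

private theorem gapa_tr_lip (n : ℕ) (x y : ℝ) : |gapa_tr n x - gapa_tr n y| ≤ |x - y| := by
  unfold gapa_tr
  have h1 := abs_max_sub_max_le_max (-(n : ℝ)) (min x n) (-(n : ℝ)) (min y n)
  have h2 := abs_min_sub_min_le_max x (n : ℝ) y n
  rw [sub_self, abs_zero] at h1 h2
  exact h1.trans (max_le (abs_nonneg _) (h2.trans (max_le le_rfl (abs_nonneg _))))

private theorem gapa_tr_abs (n : ℕ) (x : ℝ) : |gapa_tr n x| ≤ |x| := by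
  have h := gapa_tr_lip n x 0
  have h0 : gapa_tr n 0 = 0 := by
    have hn : (0 : ℝ) ≤ n := Nat.cast_nonneg n
    unfold gapa_tr
    rw [min_eq_left hn, max_eq_right (by linarith)]
  rw [h0, sub_zero, sub_zero] at h
  exact h

private theorem gapa_tr_meas (n : ℕ) : Measurable (gapa_tr n) := by
  unfold gapa_tr
  fun_prop

private theorem gapa_tr_tendsto (x : ℝ) : Tendsto (fun n : ℕ => gapa_tr n x) atTop (𝓝 x) := by
  obtain ⟨N, hN⟩ := exists_nat_ge |x|
  refine tendsto_const_nhds.congr' ?_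
  filter_upwards [eventually_ge_atTop N] with n hn
  have h1 : (N : ℝ) ≤ n := by exact_mod_cast hn
  have h2 := abs_le.1 (hN.trans h1)
  unfold gapa_tr
  rw [min_eq_left h2.2, max_eq_right h2.1]

/-- extension of the gap inequality from bounded functions to `L²` -/
theorem GapPair.gap_L2 [IsProbabilityMeasure m] (h : GapPair m T₁ T₂) (f : Z → ℝ)
    (hf : MemLp f 2 m) :
    ∫ z, (f z) ^ 2 ∂m - (∫ z, f z ∂m) ^ 2 ≤
      8 * (∫ z, (f (T₁ z) - f z) ^ 2 ∂m + ∫ z, (f (T₂ z) - f z) ^ 2 ∂m) := by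
  obtain ⟨g, hgm, hfg⟩ := hf.aestronglyMeasurable
  have hg : MemLp g 2 m := (memLp_congr_ae hfg).1 hf
  have e1 : ∫ z, (f z) ^ 2 ∂m = ∫ z, (g z) ^ 2 ∂m :=
    integral_congr_ae (hfg.mono fun z hz => by simp only [hz])
  have e2 : ∫ z, f z ∂m = ∫ z, g z ∂m := integral_congr_ae hfg
  have e3 : ∀ {T : Z → Z}, MeasurePreserving T m m →
      ∫ z, (f (T z) - f z) ^ 2 ∂m = ∫ z, (g (T z) - g z) ^ 2 ∂m := by
    intro T hT
    refine integral_congr_ae ?_
    filter_upwards [hfg, hT.quasiMeasurePreserving.ae hfg] with z hz1 hz2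
    rw [hz1, hz2]
  rw [e1, e2, e3 h.mp1, e3 h.mp2]
  have hg1 : Integrable g m := hg.integrable one_le_two
  have hg2 : Integrable (fun z => (g z) ^ 2) m := hg.integrable_sq
  have hd : ∀ {T : Z → Z}, MeasurePreserving T m m →
      Integrable (fun z => (g (T z) - g z) ^ 2) m := by
    intro T hT
    exact ((hg.comp_measurePreserving hT).sub hg).integrable_sq
  have l1 : Tendsto (fun n : ℕ => ∫ z, (gapa_tr n (g z)) ^ 2 ∂m) atTop (𝓝 (∫ z, (g z) ^ 2 ∂m)) := by
    refine tendsto_integral_of_dominated_convergence (fun z => (g z) ^ 2) ?_ hg2 ?_ ?_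
    · exact fun n => (((gapa_tr_meas n).comp hgm.measurable).pow_const 2).aestronglyMeasurable
    · refine fun n => ae_of_all _ fun z => ?_
      rw [Real.norm_eq_abs, abs_pow, ← sq_abs (g z)]
      exact pow_le_pow_left₀ (abs_nonneg _) (gapa_tr_abs n _) 2
    · exact ae_of_all _ fun z => (gapa_tr_tendsto (g z)).pow 2
  have l2 : Tendsto (fun n : ℕ => ∫ z, gapa_tr n (g z) ∂m) atTop (𝓝 (∫ z, g z ∂m)) := by
    refine tendsto_integral_of_dominated_convergence (fun z => |g z|) ?_ hg1.abs ?_ ?_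
    · exact fun n => ((gapa_tr_meas n).comp hgm.measurable).aestronglyMeasurable
    · refine fun n => ae_of_all _ fun z => ?_
      rw [Real.norm_eq_abs]
      exact gapa_tr_abs n _
    · exact ae_of_all _ fun z => gapa_tr_tendsto (g z)
  refine le_of_tendsto' (l1.sub (l2.pow 2)) fun n => ?_
  have hgap := h.gap (fun z => gapa_tr n (g z)) ((gapa_tr_meas n).comp hgm.measurable)
    ⟨n, fun z => gapa_tr_le n _⟩
  refine hgap.trans ?_
  have hmono : ∀ {T : Z → Z}, MeasurePreserving T m m →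
      ∫ z, (gapa_tr n (g (T z)) - gapa_tr n (g z)) ^ 2 ∂m ≤ ∫ z, (g (T z) - g z) ^ 2 ∂m := by
    intro T hT
    refine integral_mono_of_nonneg (ae_of_all _ fun z => sq_nonneg _) (hd hT)
      (ae_of_all _ fun z => ?_)
    simp only
    rw [← sq_abs, ← sq_abs (g (T z) - g z)]
    exact pow_le_pow_left₀ (abs_nonneg _) (gapa_tr_lip n _ _) 2
  have := hmono h.mp1
  have := hmono h.mp2
  linarith

omit [MeasurableSpace Z] in
private theorem gapa_ind {S : Set Z} (T : Z → Z) (z : Z) :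
    (S.indicator (fun _ => (1 : ℝ)) (T z) - S.indicator (fun _ => (1 : ℝ)) z) ^ 2 =
      {z | ¬ (T z ∈ S ↔ z ∈ S)}.indicator (fun _ => (1 : ℝ)) z := by
  classical
  by_cases h1 : T z ∈ S <;> by_cases h2 : z ∈ S <;> simp [Set.indicator, h1, h2]

/-- almost invariant sets are almost trivial -/
theorem GapPair.set_le [IsProbabilityMeasure m] (h : GapPair m T₁ T₂) {S : Set Z}
    (hS : MeasurableSet S) {η : ℝ} (h1 : m.real {z | ¬ (T₁ z ∈ S ↔ z ∈ S)} ≤ η)
    (h2 : m.real {z | ¬ (T₂ z ∈ S ↔ z ∈ S)} ≤ η) :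
    m.real S * (1 - m.real S) ≤ 16 * η := by
  have hgap := h.gap (S.indicator (fun _ => (1 : ℝ))) (measurable_const.indicator hS)
    ⟨1, fun z => by
      by_cases hz : z ∈ S <;> simp [Set.indicator, hz]⟩
  have hsq : ∀ z, (S.indicator (fun _ => (1 : ℝ)) z) ^ 2 = S.indicator (fun _ => (1 : ℝ)) z := by
    intro z
    by_cases hz : z ∈ S <;> simp [Set.indicator, hz]
  have hm : ∀ {T : Z → Z}, MeasurePreserving T m m →
      MeasurableSet {z | ¬ (T z ∈ S ↔ z ∈ S)} := by
    intro T hT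
    have hTS : MeasurableSet (T ⁻¹' S) := hT.measurable hS
    have : {z | ¬ (T z ∈ S ↔ z ∈ S)} = symmDiff (T ⁻¹' S) S := by
      ext z
      simp only [Set.mem_ofPred_eq, Set.mem_symmDiff, Set.mem_preimage]
      tauto
    rw [this]
    exact hTS.symmDiff hS
  simp only [hsq, gapa_ind] at hgap
  have e4 : ∀ {S' : Set Z}, MeasurableSet S' →
      ∫ z, S'.indicator (fun _ => (1 : ℝ)) z ∂m = m.real S' := fun hS' =>
    integral_indicator_one hS'
  rw [e4 hS, e4 (hm h.mp1), e4 (hm h.mp2)] at hgap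
  nlinarith

/-- factors inherit the gap -/
theorem GapPair.map {Z' : Type*} [MeasurableSpace Z'] (h : GapPair m T₁ T₂) (pr : Z → Z')
    (hpr : Measurable pr) {S₁ S₂ : Z' → Z'} (hS₁ : Measurable S₁) (hS₂ : Measurable S₂)
    (h1 : ∀ᵐ z ∂m, pr (T₁ z) = S₁ (pr z)) (h2 : ∀ᵐ z ∂m, pr (T₂ z) = S₂ (pr z)) :
    GapPair (m.map pr) S₁ S₂ := by
  have key : ∀ {T : Z → Z} {S : Z' → Z'}, MeasurePreserving T m m → Measurable S →
      (∀ᵐ z ∂m, pr (T z) = S (pr z)) → MeasurePreserving S (m.map pr) (m.map pr) := by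
    intro T S hT hS hTS
    refine ⟨hS, ?_⟩
    rw [Measure.map_map hS hpr]
    calc m.map (S ∘ pr) = m.map (pr ∘ T) := Measure.map_congr (hTS.mono fun z hz => hz.symm)
      _ = (m.map T).map pr := (Measure.map_map hpr hT.measurable).symm
      _ = m.map pr := by rw [hT.map_eq]
  refine ⟨key h.mp1 hS₁ h1, key h.mp2 hS₂ h2, fun f hf ⟨C, hC⟩ => ?_⟩
  have hgap := h.gap (fun z => f (pr z)) (hf.comp hpr) ⟨C, fun z => hC _⟩
  have e : ∀ {g : Z' → ℝ}, Measurable g → ∫ y, g y ∂(m.map pr) = ∫ z, g (pr z) ∂m := by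
    intro g hg
    exact integral_map hpr.aemeasurable hg.aestronglyMeasurable
  have m1 : Measurable (fun y => (f (S₁ y) - f y) ^ 2) := ((hf.comp hS₁).sub hf).pow_const 2
  have m2 : Measurable (fun y => (f (S₂ y) - f y) ^ 2) := ((hf.comp hS₂).sub hf).pow_const 2
  rw [e (hf.pow_const 2), e hf, e m1, e m2]
  have e1 : ∫ z, (f (S₁ (pr z)) - f (pr z)) ^ 2 ∂m = ∫ z, (f (pr (T₁ z)) - f (pr z)) ^ 2 ∂m :=
    integral_congr_ae (h1.mono fun z hz => by simp only [hz])
  have e2 : ∫ z, (f (S₂ (pr z)) - f (pr z)) ^ 2 ∂m = ∫ z, (f (pr (T₂ z)) - f (pr z)) ^ 2 ∂m :=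
    integral_congr_ae (h2.mono fun z hz => by simp only [hz])
  rw [e1, e2]
  exact hgap

/-- the gap on `Z³` gives the gap on `Z` -/
theorem GapPair.of_diag3_one [IsProbabilityMeasure m] (hT₁ : Measurable T₁) (hT₂ : Measurable T₂)
    (h : GapPair (m.prod (m.prod m)) (diag3 T₁) (diag3 T₂)) : GapPair m T₁ T₂ := by
  have h1 := h.map (Prod.fst : Z × Z × Z → Z) measurable_fst hT₁ hT₂
    (ae_of_all _ fun z => rfl) (ae_of_all _ fun z => rfl)
  have h2 : MeasurePreserving (Prod.fst : Z × Z × Z → Z) (m.prod (m.prod m)) m :=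
    measurePreserving_fst
  rwa [h2.map_eq] at h1

/-- the gap on `Z³` gives the gap on `Z²` -/
theorem GapPair.of_diag3_two [IsProbabilityMeasure m] (hT₁ : Measurable T₁) (hT₂ : Measurable T₂)
    (h : GapPair (m.prod (m.prod m)) (diag3 T₁) (diag3 T₂)) :
    GapPair (m.prod m) (diag2 T₁) (diag2 T₂) := by
  have h3 : MeasurePreserving (fun w : Z × Z × Z => (w.1, w.2.1)) (m.prod (m.prod m))
      (m.prod m) := (MeasurePreserving.id m).prod measurePreserving_fst
  have hd : ∀ {T : Z → Z}, Measurable T → Measurable (diag2 T) := fun hT =>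
    (hT.comp measurable_fst).prodMk (hT.comp measurable_snd)
  have h1 := h.map (fun w : Z × Z × Z => (w.1, w.2.1)) h3.measurable (hd hT₁) (hd hT₂)
    (ae_of_all _ fun z => rfl) (ae_of_all _ fun z => rfl)
  rwa [h3.map_eq] at h1

private theorem gapa_count {L : Type*} [Group L] [MeasurableSpace L]
    [DiscreteMeasurableSpace L] (b : L) :
    Measure.map (fun l => b * l) (Measure.count : Measure L) = Measure.count := by
  ext s hs
  rw [Measure.map_apply (Measurable.of_discrete) hs]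
  have : (fun l => b * l) ⁻¹' s = (fun l => b⁻¹ * l) '' s := by
    ext l
    simp only [Set.mem_preimage, Set.mem_image]
    constructor
    · intro h; exact ⟨b * l, h, by group⟩
    · rintro ⟨x, hx, rfl⟩; simpa using hx
  rw [this, Measure.count_injective_image (mul_right_injective b⁻¹)]

/-- skew products preserve `m × counting` -/
theorem tw_mp {Z L : Type*} [MeasurableSpace Z] {m : Measure Z} [SFinite m] [Group L] [Countable L]
    [MeasurableSpace L] [DiscreteMeasurableSpace L] {T : Z → Z} (hT : MeasurePreserving T m m)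
    {β : Z → L} (hβ : Measurable β) :
    MeasurePreserving (tw T β) (m.prod Measure.count) (m.prod Measure.count) := by
  refine hT.skew_product (g := fun z l => β z * l) ?_ (ae_of_all _ fun z => gapa_count (β z))
  exact (measurable_of_countable (fun p : L × L => p.1 * p.2)).comp
    ((hβ.comp measurable_fst).prodMk measurable_snd)

end Pool.Agent.CR
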