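import Pool.Agent.H.MP_894ea6_lc.L.GapCont
import Pool.Agent.H.MP_894ea6_lc.L.GapA

/-! MP_894ea6_lc, module LimFacts: properties inherited by limits of measures -/

open MeasureTheory Topology Filter

namespace Pool.Agent.CR

variable {ι Y : Type*} [TopologicalSpace Y] [CompactSpace Y] [PolishSpace Y]
    [MeasurableSpace Y] [BorelSpace Y] {U : Ultrafilter ι} {my : ι → ProbabilityMeasure Y}
    {md : ProbabilityMeasure Y}

theorem lim_closed (h : Tendsto my U (𝓝 md)) {F : Set Y} (hF : IsClosed F) {c : ℝ}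
    (hc : ∀ᶠ i in (U : Filter ι), c ≤ (my i : Measure Y).real F) : c ≤ (md : Measure Y).real F := by
  have h1 := ProbabilityMeasure.limsup_measure_closed_le_of_tendsto h hF
  have h2 : ENNReal.ofReal c ≤ limsup (fun i ↦ (my i : Measure Y) F) (U : Filter ι) := by
    refine le_limsup_of_frequently_le (Eventually.frequently (hc.mono fun i hi => ?_))
      (by isBoundedDefault)
    exact (ENNReal.ofReal_le_iff_le_toReal (measure_ne_top _ _)).2 hi
  exact (ENNReal.ofReal_le_iff_le_toReal (measure_ne_top _ _)).1 (h2.trans h1)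

theorem lim_open (h : Tendsto my U (𝓝 md)) {O : Set Y} (hO : IsOpen O) {c : ℝ}
    (hc : ∀ᶠ i in (U : Filter ι), (my i : Measure Y).real O ≤ c) : (md : Measure Y).real O ≤ c := by
  have h1 : 1 - c ≤ (md : Measure Y).real Oᶜ := by
    refine lim_closed h hO.isClosed_compl (hc.mono fun i hi => ?_)
    rw [probReal_compl_eq_one_sub hO.measurableSet]
    linarith
  rw [probReal_compl_eq_one_sub hO.measurableSet] at h1
  linarith

theorem lim_ae (h : Tendsto my U (𝓝 md)) {F : Set Y} (hF : IsClosed F)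
    (hc : ∀ᶠ i in (U : Filter ι), ∀ᵐ z ∂(my i : Measure Y), z ∈ F) :
    ∀ᵐ z ∂(md : Measure Y), z ∈ F := by
  have h1 : (md : Measure Y).real Fᶜ ≤ 0 := by
    refine lim_open h hF.isOpen_compl (hc.mono fun i hi => ?_)
    have : (my i : Measure Y) Fᶜ = 0 := hi
    rw [measureReal_def, this]
    simp
  have h2 : (md : Measure Y).real Fᶜ = 0 := le_antisymm h1 measureReal_nonneg
  exact (measureReal_eq_zero_iff).1 h2

theorem lim_mp (h : Tendsto my U (𝓝 md)) {T : Y → Y} (hT : Continuous T)
    (hc : ∀ᶠ i in (U : Filter ι), MeasurePreserving T (my i : Measure Y) (my i : Measure Y)) :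
    MeasurePreserving T (md : Measure Y) (md : Measure Y) := by
  refine ⟨hT.measurable, ?_⟩
  have h1 := ProbabilityMeasure.tendsto_map_of_tendsto_of_continuous my md h hT
  have h2 : Tendsto (fun i => (my i).map hT.measurable.aemeasurable) U (𝓝 md) := by
    refine h.congr' (hc.mono fun i hi => ?_)
    apply Subtype.ext
    exact hi.map_eq.symm
  have h3 := tendsto_nhds_unique h1 h2
  exact congrArg (fun ν : ProbabilityMeasure Y => (ν : Measure Y)) h3

theorem limfacts_prod3 (h : Tendsto my U (𝓝 md)) :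
    Tendsto (fun i => (my i).prod ((my i).prod (my i))) U (𝓝 (md.prod (md.prod md))) := by
  have h1 : Tendsto (fun i => (my i).prod (my i)) U (𝓝 (md.prod md)) :=
    (ProbabilityMeasure.continuous_prod.tendsto (md, md)).comp (h.prodMk_nhds h)
  exact (ProbabilityMeasure.continuous_prod.tendsto (md, md.prod md)).comp (h.prodMk_nhds h1)

/-- integrals of continuous functions on the cube converge -/
theorem lim_prod3 (h : Tendsto my U (𝓝 md)) {f : Y × Y × Y → ℝ} (hf : Continuous f) :
    Tendsto (fun i => ∫ z, f z ∂((my i : Measure Y).prod ((my i : Measure Y).prod (my i : Measure Y))))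
      U (𝓝 (∫ z, f z ∂((md : Measure Y).prod ((md : Measure Y).prod (md : Measure Y))))) := by
  have h1 := ProbabilityMeasure.tendsto_iff_forall_integral_tendsto.1 (limfacts_prod3 h)
    (BoundedContinuousFunction.mkOfCompact ⟨f, hf⟩)
  exact h1

theorem lim_gap3 (h : Tendsto my U (𝓝 md)) {T₁ T₂ : Y → Y} (hT₁ : Continuous T₁)
    (hT₂ : Continuous T₂)
    (hc : ∀ᶠ i in (U : Filter ι), GapPair ((my i : Measure Y).prod ((my i : Measure Y).prod
      (my i : Measure Y))) (diag3 T₁) (diag3 T₂)) :
    GapPair ((md : Measure Y).prod ((md : Measure Y).prod (md : Measure Y)))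
      (diag3 T₁) (diag3 T₂) := by
  have c1 : Continuous (diag3 T₁) := by
    unfold diag3
    fun_prop
  have c2 : Continuous (diag3 T₂) := by
    unfold diag3
    fun_prop
  have m1 := lim_mp (limfacts_prod3 h) c1 (hc.mono fun i hi => hi.mp1)
  have m2 := lim_mp (limfacts_prod3 h) c2 (hc.mono fun i hi => hi.mp2)
  refine GapPair.of_continuous m1 m2 fun f hf => ?_
  have t1 := lim_prod3 h (hf.pow 2)
  have t2 := lim_prod3 h hf
  have t3 := lim_prod3 h (((hf.comp c1).sub hf).pow 2)
  have t4 := lim_prod3 h (((hf.comp c2).sub hf).pow 2)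
  refine le_of_tendsto_of_tendsto (t1.sub (t2.pow 2)) ((t3.add t4).const_mul 8)
    (hc.mono fun i hi => ?_)
  obtain ⟨C, hC⟩ : ∃ C, ∀ z, |f z| ≤ C := by
    refine ⟨‖BoundedContinuousFunction.mkOfCompact ⟨f, hf⟩‖, fun z => ?_⟩
    exact (BoundedContinuousFunction.mkOfCompact ⟨f, hf⟩).norm_coe_le_norm z
  exact hi.gap f hf.measurable ⟨C, hC⟩

end Pool.Agent.CR
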