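import Pool.Agent.H.MP_894ea6_lc.L.GrpDefs

/-! MP_894ea6_lc, module Grp: relations in the groups `Phi y` -/

open Topology Filter

namespace Pool.Agent.CR

/-- the projection `WW → V` -/
def grp_vHom : WW →* V where
  toFun := WW.v
  map_one' := rfl
  map_mul' _ _ := rfl

theorem Phi_v (y : ℕ → Bool) (w : FF) : (Phi y w).v = piV w := by
  have h : grp_vHom.comp (Phi y) = piV := by
    apply FreeGroup.ext_hom
    intro g
    cases g <;> simp [grp_vHom, Phi, piV, PhiGen]
  exact DFunLike.congr_fun h w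

theorem grp_mk_mul (a b : V) : (⟨1, a⟩ : WW) * ⟨1, b⟩ = ⟨1, a * b⟩ := by
  apply WW.ext
  · funext w; simp
  · simp

theorem grp_mk_inv (a : V) : (⟨1, a⟩ : WW)⁻¹ = ⟨1, a⁻¹⟩ := by
  apply WW.ext
  · funext w; simp
  · simp

theorem Phi_pure (y : ℕ → Bool) {w : FF} (hw : Pure w) : Phi y w = ⟨1, piV w⟩ := by
  unfold Pure at hw
  induction hw using Subgroup.closure_induction with
  | mem x hx =>
    rcases hx with rfl | hx
    · simp [Phi, PhiGen, piV]
    · rw [Set.mem_singleton_iff] at hx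
      subst hx
      simp [Phi, PhiGen, piV]
  | one => rw [map_one, map_one]; rfl
  | mul x z _ _ hx hz => rw [map_mul, map_mul, hx, hz, grp_mk_mul]
  | inv x _ hx => rw [map_inv, map_inv, hx, grp_mk_inv]

theorem pure_one : Pure 1 := Subgroup.one_mem _
theorem pure_t : Pure (FreeGroup.of Gen.t) := Subgroup.subset_closure (by simp)
theorem pure_a : Pure (FreeGroup.of Gen.a) := Subgroup.subset_closure (by simp)
theorem pure_Tw (i : ℤ) : Pure (Tw i) := by
  have h := Subgroup.zpow_mem _ pure_t i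
  exact Subgroup.mul_mem _ (Subgroup.mul_mem _ h pure_a) (Subgroup.inv_mem _ h)

@[simp] theorem piV_t : piV (FreeGroup.of Gen.t) = tV := by simp [piV]
@[simp] theorem piV_a : piV (FreeGroup.of Gen.a) = aV := by simp [piV]

theorem grp_tV_zpow (i : ℤ) : tV ^ i = ⟨0, i⟩ := by
  induction i using Int.induction_on with
  | zero => rfl
  | succ n ih =>
    rw [zpow_add_one, ih]
    ext j <;> simp [tV]
  | pred n ih =>
    rw [zpow_sub_one, ih]
    ext j
    · simp [tV]
    · simp [tV, sub_eq_add_neg]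

theorem piV_Tw (i : ℤ) : piV (Tw i) = ⟨Finsupp.single i 1, 0⟩ := by
  unfold Tw
  rw [map_mul, map_mul, map_inv, map_zpow, piV_t, piV_a, grp_tV_zpow]
  ext j
  · have h : j - i = 0 ↔ j = i := sub_eq_zero
    simp only [V.mul_n, V.mul_k, V.inv_n, aV, Finsupp.add_apply, shift_apply, Finsupp.neg_apply,
      Finsupp.zero_apply, Finsupp.single_apply, zero_add, neg_zero, add_zero]
    by_cases hj : j = i
    · subst hj; simp
    · rw [if_neg, if_neg]
      · intro h'; exact hj h'.symm
      · intro h'; exact hj (h.1 h'.symm)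
  · simp [aV]

theorem Tw_mem_HH (y : ℕ → Bool) (i : ℤ) : piV (Tw i) ∈ HH y ↔ i ∈ AA y := by
  rw [piV_Tw]
  constructor
  · intro h
    exact h.2 i (by simp)
  · intro h
    refine ⟨rfl, fun j hj => ?_⟩
    have : j = i := by
      by_contra hne
      apply hj
      simp [Ne.symm hne]
    rwa [this]

theorem tV_not_mem (y : ℕ → Bool) : tV ∉ HH y := by
  intro h
  have := h.1
  simp [tV] at this

open scoped Classical in
/-- the diagonal homomorphism -/
noncomputable def grp_dHom (y : ℕ → Bool) : Gam →* WW where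
  toFun γ := ⟨fun w => if w ∈ HH y then γ else 1, 1⟩
  map_one' := by
    apply WW.ext
    · funext w; simp
    · rfl
  map_mul' a b := by
    apply WW.ext
    · funext w
      by_cases h : w ∈ HH y <;> simp [h]
    · simp

open scoped Classical in
theorem Phi_iota (y : ℕ → Bool) (γ : Gam) :
    Phi y (iota γ) = ⟨fun w => if w ∈ HH y then γ else 1, 1⟩ := by
  have h : (Phi y).comp iota = grp_dHom y := by
    apply FreeGroup.ext_hom
    intro b
    cases b
    · simp [iota, Phi, PhiGen, grp_dHom]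
    · simp [iota, Phi, PhiGen, grp_dHom]
  exact DFunLike.congr_fun h γ

open scoped Classical in
theorem Phi_conj (y : ℕ → Bool) {v : FF} (hv : Pure v) (γ : Gam) :
    Phi y (v * iota γ * v⁻¹) = ⟨fun w => if (piV v)⁻¹ * w ∈ HH y then γ else 1, 1⟩ := by
  rw [map_mul, map_mul, map_inv, Phi_pure y hv, Phi_iota, grp_mk_inv]
  apply WW.ext
  · funext w
    simp
  · simp

theorem Phi_comm (y : ℕ → Bool) {v v' : FF} (hv : Pure v) (hv' : Pure v')
    (h : (piV v)⁻¹ * piV v' ∉ HH y) (γ γ' : Gam) :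
    Phi y ((v * iota γ * v⁻¹) * (v' * iota γ' * v'⁻¹)) =
      Phi y ((v' * iota γ' * v'⁻¹) * (v * iota γ * v⁻¹)) := by
  classical
  rw [map_mul (Phi y) (v * iota γ * v⁻¹), map_mul (Phi y) (v' * iota γ' * v'⁻¹),
    Phi_conj y hv, Phi_conj y hv']
  apply WW.ext
  · funext w
    simp only [WW.mul_c, inv_one, one_mul]
    by_cases h1 : (piV v)⁻¹ * w ∈ HH y
    · by_cases h2 : (piV v')⁻¹ * w ∈ HH y
      · exfalso
        apply h
        have h3 := (HH y).mul_mem h1 ((HH y).inv_mem h2)
        have h4 : (piV v)⁻¹ * w * ((piV v')⁻¹ * w)⁻¹ = (piV v)⁻¹ * piV v' := by group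
        rwa [h4] at h3
      · simp [h2]
    · simp [h1]
  · simp

theorem Phi_same (y : ℕ → Bool) {v v' : FF} (hv : Pure v) (hv' : Pure v')
    (h : (piV v)⁻¹ * piV v' ∈ HH y) (γ : Gam) :
    Phi y (v * iota γ * v⁻¹) = Phi y (v' * iota γ * v'⁻¹) := by
  classical
  rw [Phi_conj y hv, Phi_conj y hv']
  apply WW.ext
  · funext w
    have h1 : (piV v)⁻¹ * w ∈ HH y ↔ (piV v')⁻¹ * w ∈ HH y := by
      have h4 : (piV v)⁻¹ * w = ((piV v)⁻¹ * piV v') * ((piV v')⁻¹ * w) := by group
      rw [h4, Subgroup.mul_mem_cancel_left _ h]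
    simp only [h1]
  · rfl

theorem grp_aV_mem (y : ℕ → Bool) : aV ∈ HH y := by
  refine ⟨rfl, fun j hj => ?_⟩
  have : j = 0 := by
    by_contra hne
    apply hj
    simp [aV, Ne.symm hne]
  left
  exact this

/-- `a` commutes with `iota γ` -/
theorem Phi_a_comm (y : ℕ → Bool) (γ : Gam) :
    Phi y (FreeGroup.of Gen.a * iota γ) = Phi y (iota γ * FreeGroup.of Gen.a) := by
  have h := Phi_same y pure_a pure_one
    (by rw [piV_a, map_one, mul_one]; exact (HH y).inv_mem (grp_aV_mem y)) γ
  rw [one_mul, inv_one, mul_one, map_mul, map_inv] at h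
  rw [map_mul (Phi y) (iota γ), ← h, inv_mul_cancel_right]

theorem Phi_conj_injective (y : ℕ → Bool) (v : FF) :
    Function.Injective (fun γ : Gam => Phi y (v * iota γ * v⁻¹)) := by
  classical
  intro γ γ' h
  simp only [map_mul, map_inv] at h
  have h1 := mul_left_cancel (mul_right_cancel h)
  rw [Phi_iota, Phi_iota] at h1
  have h2 := congrFun (congrArg WW.c h1) 1
  simpa [(HH y).one_mem] using h2

end Pool.Agent.CR
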