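import Pool.Agent.H.MP_894ea6_lc.L.Space
import Pool.Agent.H.MP_894ea6_lc.L.BernFix
import Pool.Agent.H.MP_894ea6_lc.L.BernGap
import Pool.Agent.H.MP_894ea6_lc.L.Grp
import Pool.Agent.H.MP_894ea6_lc.L.GapA

/-! MP_894ea6_lc, module MuY: properties of the coset Bernoulli measures -/

open MeasureTheory

namespace Pool.Agent.CR

theorem measurable_act (g : FF) : Measurable (act g) :=
  measurable_pi_lambda _ fun h => measurable_pi_apply (g⁻¹ * h)

theorem continuous_act (g : FF) : Continuous (act g) :=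
  continuous_pi fun h => continuous_apply (g⁻¹ * h)

instance muy_normal (y : ℕ → Bool) : (NN y).Normal := by
  unfold NN; infer_instance

instance muy_countable (y : ℕ → Bool) : Countable (FF ⧸ NN y) := by
  have : Countable FF := inferInstance
  exact Quotient.countable

theorem muy_piV_NN {y : ℕ → Bool} {g : FF} (hg : g ∈ NN y) : piV g = 1 := by
  have h : Phi y g = 1 := hg
  rw [← Phi_v y g, h]
  rfl

instance muy_infinite (y : ℕ → Bool) : Infinite (FF ⧸ NN y) := by
  have hinj : Function.Injective (fun n : ℤ => (((FreeGroup.of Gen.t : FF) ^ n : FF) : FF ⧸ NN y)) := by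
    intro n m h
    have h1 : ((FreeGroup.of Gen.t : FF) ^ n)⁻¹ * (FreeGroup.of Gen.t : FF) ^ m ∈ NN y :=
      QuotientGroup.eq.mp h
    have h2 := muy_piV_NN h1
    rw [map_mul, map_inv, map_zpow, map_zpow, piV_t, grp_tV_zpow, grp_tV_zpow] at h2
    have h3 := congrArg V.k h2
    simp only [V.mul_k, V.inv_k, V.one_k] at h3
    omega
  exact Infinite.of_injective _ hinj

/-- the map from functions on the coset space to `2^FF` -/
noncomputable def muyPr (y : ℕ → Bool) (x : (FF ⧸ NN y) → Bool) : Bits := fun h => x (h : FF ⧸ NN y)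

theorem muy_measurable_pr (y : ℕ → Bool) : Measurable (muyPr y) :=
  measurable_pi_lambda _ fun h => measurable_pi_apply (h : FF ⧸ NN y)

theorem muy_def (y : ℕ → Bool) : muY y = (bern (FF ⧸ NN y)).map (muyPr y) := rfl

theorem muy_pr_injective (y : ℕ → Bool) : Function.Injective (muyPr y) := by
  intro x x' h
  funext i
  obtain ⟨g, rfl⟩ := QuotientGroup.mk_surjective i
  exact congrFun h g

theorem muy_act_pr (y : ℕ → Bool) (g : FF) (x : (FF ⧸ NN y) → Bool) :
    act g (muyPr y x) = muyPr y (fun i => x (g⁻¹ • i)) := rfl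

instance instProbMuY (y : ℕ → Bool) : IsProbabilityMeasure (muY y) := by
  rw [muy_def]
  exact Measure.isProbabilityMeasure_map (muy_measurable_pr y).aemeasurable

theorem muY_act (y : ℕ → Bool) (g : FF) : MeasurePreserving (act g) (muY y) (muY y) := by
  refine ⟨measurable_act g, ?_⟩
  have hp : MeasurePreserving (fun (x : (FF ⧸ NN y) → Bool) (i : FF ⧸ NN y) => x (g⁻¹ • i))
      (bern (FF ⧸ NN y)) (bern (FF ⧸ NN y)) :=
    bern_perm (MulAction.toPerm g⁻¹)
  rw [muy_def, Measure.map_map (measurable_act g) (muy_measurable_pr y)]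
  have h1 : act g ∘ muyPr y = muyPr y ∘ (fun (x : (FF ⧸ NN y) → Bool) (i : FF ⧸ NN y) =>
      x (g⁻¹ • i)) := by
    funext x
    exact muy_act_pr y g x
  rw [h1, ← Measure.map_map (muy_measurable_pr y) hp.measurable, hp.map_eq]

theorem measurableSet_XX (y : ℕ → Bool) : MeasurableSet (XX y) := by
  have h1 : XX y = ⋂ g : FF, {x | act g x = x ↔ g ∈ NN y} := by
    ext x
    simp [XX]
  rw [h1]
  refine MeasurableSet.iInter fun g => ?_
  have h2 : MeasurableSet {x : Bits | act g x = x} := by
    have hc : IsClosed {x : Bits | act g x = x} := isClosed_eq (continuous_act g) continuous_id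
    exact hc.measurableSet
  by_cases hg : g ∈ NN y
  · simpa only [hg, iff_true] using h2
  · have h3 : {x : Bits | act g x = x ↔ g ∈ NN y} = {x : Bits | act g x = x}ᶜ := by
      ext x
      simp [hg]
    rw [h3]
    exact h2.compl

theorem muy_smul_of_mem {y : ℕ → Bool} {g : FF} (hg : g ∈ NN y) (i : FF ⧸ NN y) :
    g • i = i := by
  obtain ⟨h, rfl⟩ := QuotientGroup.mk_surjective i
  change ((g * h : FF) : FF ⧸ NN y) = (h : FF ⧸ NN y)
  rw [QuotientGroup.eq]
  have h1 : (g * h)⁻¹ * h = h⁻¹ * g⁻¹ * h⁻¹⁻¹ := by group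
  rw [h1]
  exact (muy_normal y).conj_mem _ ((NN y).inv_mem hg) _

theorem muy_mem_of_smul {y : ℕ → Bool} {g : FF} {i : FF ⧸ NN y} (hi : g • i = i) :
    g ∈ NN y := by
  obtain ⟨h, rfl⟩ := QuotientGroup.mk_surjective i
  change ((g * h : FF) : FF ⧸ NN y) = (h : FF ⧸ NN y) at hi
  rw [QuotientGroup.eq] at hi
  have h1 : (g * h)⁻¹ * h = h⁻¹ * g⁻¹ * h⁻¹⁻¹ := by group
  rw [h1] at hi
  have h2 := (muy_normal y).conj_mem _ hi h
  have h3 : h * (h⁻¹ * g⁻¹ * h⁻¹⁻¹) * h⁻¹ = g⁻¹ := by group
  rw [h3] at h2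
  exact (NN y).inv_mem_iff.mp h2

theorem muY_XX (y : ℕ → Bool) : ∀ᵐ x ∂(muY y), x ∈ XX y := by
  rw [muy_def]
  refine (ae_map_iff (p := fun x => x ∈ XX y) (muy_measurable_pr y).aemeasurable
    (measurableSet_XX y)).mpr ?_
  have hall : ∀ g : FF, ∀ᵐ x ∂(bern (FF ⧸ NN y)),
      (act g (muyPr y x) = muyPr y x ↔ g ∈ NN y) := by
    intro g
    by_cases hg : g ∈ NN y
    · refine Filter.Eventually.of_forall fun x => ?_
      simp only [hg, iff_true]
      rw [muy_act_pr]
      congr 1
      funext i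
      rw [muy_smul_of_mem ((NN y).inv_mem hg)]
    · have he : ∀ i : FF ⧸ NN y, MulAction.toPerm g⁻¹ i ≠ i := by
        intro i hi
        exact hg ((NN y).inv_mem_iff.mp (muy_mem_of_smul hi))
      have h0 := bern_fix (MulAction.toPerm g⁻¹ : Equiv.Perm (FF ⧸ NN y)) he
      rw [ae_iff]
      refine measure_mono_null ?_ h0
      intro x hx
      have hx' : ¬ (act g (muyPr y x) = muyPr y x ↔ g ∈ NN y) := hx
      simp only [hg, iff_false, not_not] at hx'
      rw [muy_act_pr] at hx'
      exact muy_pr_injective y hx'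
  filter_upwards [ae_all_iff.mpr hall] with x hx
  exact hx

theorem muY_singleton (y : ℕ → Bool) (x : Bits) : muY y {x} = 0 := by
  rw [muy_def, Measure.map_apply (muy_measurable_pr y) (measurableSet_singleton x)]
  by_cases h : ∃ x₀, muyPr y x₀ = x
  · obtain ⟨x₀, rfl⟩ := h
    have h1 : muyPr y ⁻¹' {muyPr y x₀} = {x₀} := by
      ext x'
      simp only [Set.mem_preimage, Set.mem_singleton_iff]
      exact (muy_pr_injective y).eq_iff
    rw [h1]
    exact bern_singleton x₀
  · have h1 : muyPr y ⁻¹' {x} = ∅ := by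
      ext x'
      simp only [Set.mem_preimage, Set.mem_singleton_iff, Set.mem_empty_iff_false, iff_false]
      exact fun hx => h ⟨x', hx⟩
    rw [h1]
    exact measure_empty

theorem muY_gap3 (y : ℕ → Bool) (w : FF) (j : Gam →* Gam) (hj : Function.Injective j) :
    GapPair ((muY y).prod ((muY y).prod (muY y)))
      (diag3 (act (w * iota (j (FreeGroup.of true)) * w⁻¹)))
      (diag3 (act (w * iota (j (FreeGroup.of false)) * w⁻¹))) := by
  let φ : Gam →* FF := (MulAut.conj w).toMonoidHom.comp (iota.comp j)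
  have hφ : ∀ γ, φ γ = w * iota (j γ) * w⁻¹ := fun γ => rfl
  let _ : MulAction Gam (FF ⧸ NN y) := MulAction.compHom (FF ⧸ NN y) φ
  have hsm : ∀ (γ : Gam) (i : FF ⧸ NN y), γ • i = φ γ • i := fun γ i => rfl
  have hfree : ∀ (γ : Gam) (i : FF ⧸ NN y), γ • i = i → γ = 1 := by
    intro γ i h
    rw [hsm] at h
    have h1 : Phi y (φ γ) = 1 := muy_mem_of_smul h
    have h2 : Phi y (w * iota (j γ) * w⁻¹) = Phi y (w * iota (j 1) * w⁻¹) := by
      rw [← hφ, h1]
      simp
    exact hj (Phi_conj_injective y w h2)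
  have hg := bern_gap3 (I := FF ⧸ NN y) hfree
  have hm := muy_measurable_pr y
  set pr3 : ((FF ⧸ NN y) → Bool) × ((FF ⧸ NN y) → Bool) × ((FF ⧸ NN y) → Bool) →
      Bits × Bits × Bits := Prod.map (muyPr y) (Prod.map (muyPr y) (muyPr y)) with hpr3
  have hpr : Measurable pr3 := hm.prodMap (hm.prodMap hm)
  have hd : ∀ g : FF, Measurable (diag3 (act g)) := fun g =>
    ((measurable_act g).comp measurable_fst).prodMk
      (((measurable_act g).comp (measurable_fst.comp measurable_snd)).prodMk
        ((measurable_act g).comp (measurable_snd.comp measurable_snd)))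
  have h1 := hg.map pr3 hpr (hd (φ (FreeGroup.of true))) (hd (φ (FreeGroup.of false)))
    (Filter.Eventually.of_forall fun z => by
      simp only [hpr3, diag3, Prod.map]
      refine Prod.ext ?_ (Prod.ext ?_ ?_)
      all_goals
        simp only
        rw [muy_act_pr]
        congr 1
        funext i
        rw [hsm, map_inv])
    (Filter.Eventually.of_forall fun z => by
      simp only [hpr3, diag3, Prod.map]
      refine Prod.ext ?_ (Prod.ext ?_ ?_)
      all_goals
        simp only
        rw [muy_act_pr]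
        congr 1
        funext i
        rw [hsm, map_inv])
  have h2 : ((bern (FF ⧸ NN y)).prod ((bern (FF ⧸ NN y)).prod (bern (FF ⧸ NN y)))).map pr3 =
      (muY y).prod ((muY y).prod (muY y)) := by
    rw [hpr3, ← Measure.map_prod_map _ _ hm (hm.prodMap hm), ← Measure.map_prod_map _ _ hm hm]
    rfl
  rw [h2] at h1
  exact h1

end Pool.Agent.CR
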