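import Pool.Agent.H.MP_894ea6_lc.L.CfgDefs
import Pool.Agent.H.MP_894ea6_lc.L.LimFacts
import Pool.Agent.H.MP_894ea6_lc.L.MuY

/-! MP_894ea6_lc, module CfgLim: configurations and limits -/

open MeasureTheory Topology Filter

namespace Pool.Agent.CR

variable {K Δ : Type*} [TopologicalSpace K] [CompactSpace K] [PolishSpace K] [MeasurableSpace K]
  [BorelSpace K] [Group Δ] [MulAction Δ K] [ContinuousConstSMul Δ K]

theorem continuous_actZ (g : FF) : Continuous (actZ g : ZZ K → ZZ K) := by
  unfold actZ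
  refine Continuous.prodMk ((continuous_act g).comp continuous_fst) ?_
  exact continuous_pi fun h => (continuous_apply (h * g)).comp continuous_snd

instance instCountableCfg [Countable Δ] : Countable (Cfg K Δ) := by
  have h1 : Countable ↥(ClFam (Bits × K)) := (clFam_countable (Bits × K)).to_subtype
  have h2 : Countable ↥(TopologicalSpace.countableBasis K) :=
    (TopologicalSpace.countable_countableBasis K).to_subtype
  have h3 : Countable (Lab Δ) := by
    unfold Lab
    infer_instance
  unfold Cfg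
  infer_instance

theorem cfglim_continuous_res (A : Finset FF) : Continuous (res A) := by
  unfold res
  refine continuous_pi fun h => ?_
  exact (continuous_of_discreteTopology (f := fun b : Bool => decide (h ∈ A) && b)).comp
    (continuous_apply h)

theorem isClosed_DDc (c : Cfg K Δ) : IsClosed (DDc c) := by
  have e : DDc c = ⋃ p ∈ c.2.1, {z : ZZ K | (res c.1 z.1, z.2 1) ∈ (p.2 : Set (Bits × K)) ∧
      ∀ s, z.2 (gs s) = (p.1 s).1 • z.2 1 ∧ res c.1 (act (gs s) z.1) = bitsOf (p.1 s).2} := by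
    ext z
    simp only [DDc, Set.mem_setOf_eq, Set.mem_iUnion, exists_prop]
  rw [e]
  refine isClosed_biUnion_finset fun p _ => ?_
  have hc2 : ∀ g : FF, Continuous fun z : ZZ K => z.2 g := fun g =>
    (continuous_apply g).comp continuous_snd
  refine IsClosed.inter ?_ ?_
  · have hcont : Continuous fun z : ZZ K => (res c.1 z.1, z.2 1) :=
      ((cfglim_continuous_res c.1).comp continuous_fst).prodMk (hc2 1)
    exact (clFam_closed p.2.2).preimage hcont
  · have e2 : {z : ZZ K | ∀ s, z.2 (gs s) = (p.1 s).1 • z.2 1 ∧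
        res c.1 (act (gs s) z.1) = bitsOf (p.1 s).2} =
        ⋂ s, {z : ZZ K | z.2 (gs s) = (p.1 s).1 • z.2 1 ∧
          res c.1 (act (gs s) z.1) = bitsOf (p.1 s).2} := by
      ext z; simp only [Set.mem_setOf_eq, Set.mem_iInter]
    show IsClosed {z : ZZ K | ∀ s, z.2 (gs s) = (p.1 s).1 • z.2 1 ∧
        res c.1 (act (gs s) z.1) = bitsOf (p.1 s).2}
    rw [e2]
    refine isClosed_iInter fun s => ?_
    refine IsClosed.inter ?_ ?_
    · exact isClosed_eq (hc2 _) ((hc2 1).const_smul _)
    · exact isClosed_eq ((cfglim_continuous_res c.1).comp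
        ((continuous_act (gs s)).comp continuous_fst)) continuous_const

theorem cfglim_polishBits : PolishSpace Bits :=
  instPolishSpaceOfSeparableSpaceOfIsCompletelyMetrizableSpace

theorem cfglim_polishZZ (K : Type*) [TopologicalSpace K] [PolishSpace K] :
    PolishSpace (ZZ K) := by
  have := cfglim_polishBits
  have h2 : PolishSpace (FF → K) := instPolishSpaceOfSeparableSpaceOfIsCompletelyMetrizableSpace
  exact instPolishSpaceOfSeparableSpaceOfIsCompletelyMetrizableSpace

theorem GoodC.lim {ι : Type*} {ε : ℝ} {c : Cfg K Δ} {U : Ultrafilter ι}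
    {my : ι → ProbabilityMeasure (ZZ K)} {md : ProbabilityMeasure (ZZ K)}
    (h : Tendsto my U (𝓝 md)) (hc : ∀ᶠ i in (U : Filter ι), GoodC ε c (my i : Measure (ZZ K))) :
    GoodC ε c (md : Measure (ZZ K)) := by
  have hpol := cfglim_polishZZ K
  obtain ⟨i, hi⟩ := hc.exists
  refine ⟨hi.disj, ?_, hi.cover, ?_⟩
  · exact lim_closed h (isClosed_DDc c) (hc.mono fun i hi => hi.large)
  · intro O hO
    have hopen : IsOpen {z : ZZ K | z.2 1 ∈ (O : Set K)} := by
      have : IsOpen (O : Set K) := TopologicalSpace.isOpen_of_mem_countableBasis O.2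
      exact this.preimage ((continuous_apply (1 : FF)).comp continuous_snd)
    exact lim_open h hopen (hc.mono fun i hi => hi.small O hO)

theorem GoodC.atoms {ε : ℝ} {c : Cfg K Δ} {m : Measure (ZZ K)} [IsProbabilityMeasure m]
    (h : GoodC ε c m) (k : K) : m.real {z : ZZ K | z.2 1 = k} ≤ 1 / 4 := by
  obtain ⟨O, hO, hk⟩ := h.cover k
  refine le_trans (measureReal_mono ?_) (h.small O hO)
  intro z hz
  simp only [Set.mem_setOf_eq] at hz ⊢
  rw [hz]; exact hk

/-- deterministic maps -/
theorem GoodC.maps {ε : ℝ} {c : Cfg K Δ} {m : Measure (ZZ K)} (h : GoodC ε c m) :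
    ∃ R : Gen × Bool → Bits × K → Bits × K, ∀ z ∈ DDc c, ∀ s,
      (res c.1 (act (gs s) z.1), z.2 (gs s)) = R s (res c.1 z.1, z.2 1) ∧
      ∃ t : Δ, z.2 (gs s) = t • z.2 1 := by
  classical
  refine ⟨fun s jk => if hp : ∃ p ∈ c.2.1, jk ∈ (p.2 : Set (Bits × K)) then
    (bitsOf ((Classical.choose hp).1 s).2, ((Classical.choose hp).1 s).1 • jk.2) else jk, ?_⟩
  rintro z ⟨p, hp, hmem, hs⟩ s
  have hex : ∃ p ∈ c.2.1, (res c.1 z.1, z.2 1) ∈ (p.2 : Set (Bits × K)) := ⟨p, hp, hmem⟩
  have hch := Classical.choose_spec hex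
  have heq : Classical.choose hex = p := by
    by_contra hne
    exact Set.disjoint_left.1 (h.disj _ hch.1 _ hp hne) hch.2 hmem
  refine ⟨?_, (p.1 s).1, (hs s).1⟩
  simp only
  rw [dif_pos hex, heq, (hs s).1, (hs s).2]

end Pool.Agent.CR
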