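import Pool.Agent.H.MP_894ea6_lc.L.Space

/-! MP_894ea6_lc, module InjCond: a countable-to-one map is injective together with finitely many
bits, up to small measure -/

open MeasureTheory ProbabilityTheory Filter Topology

namespace Pool.Agent.CR

private theorem injcond_res_meas (S : Finset FF) : Measurable (res S) := by
  refine measurable_pi_lambda _ fun h => ?_
  exact (measurable_of_countable (fun b : Bool => decide (h ∈ S) && b)).comp (measurable_pi_apply h)

private theorem injcond_meas {K : Type*} [MeasurableSpace K] (Q : Kernel K Bits)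
    [IsMarkovKernel Q] {D : Set (Bits × Bits)} (hD : MeasurableSet D) :
    Measurable (fun p : K × Bits => Q p.1 {x' | (p.2, x') ∈ D}) := by
  have h := Kernel.measurable_kernel_prodMk_left (κ := Q.comap (Prod.fst : K × Bits → K)
    measurable_fst) (t := {q : (K × Bits) × Bits | (q.1.2, q.2) ∈ D})
    (((measurable_snd.comp measurable_fst).prodMk measurable_snd) hD)
  simp only [Kernel.comap_apply] at h
  exact h

/-- the conditional measures are purely atomic -/
private theorem injcond_atomic {K : Type*} [MeasurableSpace K] [StandardBorelSpace K]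
    (μ : Measure Bits)
    [IsProbabilityMeasure μ] (X₀ : Set Bits) (hX₀m : MeasurableSet X₀) (hX₀ : ∀ᵐ x ∂μ, x ∈ X₀)
    (Θ : Bits → K) (hΘ : Measurable Θ)
    (hΘi : ∀ x ∈ X₀, ∀ x' ∈ X₀, Θ x = Θ x' → ∃ g, x' = act g x) :
    ∃ Q : Kernel K Bits, IsMarkovKernel Q ∧ ∀ᵐ x ∂μ, Q (Θ x) {x} ≠ 0 := by
  refine ⟨condDistrib id Θ μ, inferInstance, ?_⟩
  set Q : Kernel K Bits := condDistrib id Θ μ with hQ
  have hcomp : (μ.map Θ) ⊗ₘ Q = μ.map (fun x => (Θ x, x)) :=
    compProd_map_condDistrib (Y := id) (X := Θ) aemeasurable_id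
  have hmk : Measurable (fun x : Bits => (Θ x, x)) := hΘ.prodMk measurable_id
  have : IsProbabilityMeasure (μ.map Θ) := Measure.isProbabilityMeasure_map hΘ.aemeasurable
  -- concentration on the fibres
  set C : Set (K × Bits) := {p | p.2 ∈ X₀ ∧ Θ p.2 = p.1} with hC
  have hCm : MeasurableSet C :=
    (measurable_snd hX₀m).inter (measurableSet_eq_fun (hΘ.comp measurable_snd) measurable_fst)
  have hC0 : ((μ.map Θ) ⊗ₘ Q) Cᶜ = 0 := by
    rw [hcomp, Measure.map_apply hmk hCm.compl]
    have : (fun x => (Θ x, x)) ⁻¹' Cᶜ = X₀ᶜ := by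
      ext x
      simp [hC]
    rw [this]
    exact hX₀
  have hCk : ∀ᵐ k ∂(μ.map Θ), Q k (Prod.mk k ⁻¹' Cᶜ) = 0 := by
    rw [Measure.compProd_apply hCm.compl] at hC0
    exact (lintegral_eq_zero_iff (Kernel.measurable_kernel_prodMk_left hCm.compl)).1 hC0
  -- null atoms
  set N : Set (K × Bits) := {p | Q p.1 {x' | (p.2, x') ∈ {q : Bits × Bits | q.1 = q.2}} = 0}
    with hN
  have hNm : MeasurableSet N :=
    (injcond_meas Q (measurableSet_eq_fun measurable_fst measurable_snd))
      (measurableSet_singleton 0)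
  have hsing : ∀ x : Bits, {x' | (x, x') ∈ {q : Bits × Bits | q.1 = q.2}} = {x} := by
    intro x
    ext x'
    simp only [Set.mem_ofPred_eq, Set.mem_singleton_iff]
    exact eq_comm
  have hNk : ∀ᵐ k ∂(μ.map Θ), Q k (Prod.mk k ⁻¹' N) = 0 := by
    filter_upwards [hCk] with k hk
    have hsub : Prod.mk k ⁻¹' N ⊆ (Prod.mk k ⁻¹' Cᶜ) ∪ (Prod.mk k ⁻¹' (N ∩ C)) := by
      intro x hx
      by_cases h : (k, x) ∈ C
      · exact Or.inr ⟨hx, h⟩
      · exact Or.inl h
    have hcount : (Prod.mk k ⁻¹' (N ∩ C)).Countable := by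
      rcases Set.eq_empty_or_nonempty (Prod.mk k ⁻¹' (N ∩ C)) with he | ⟨x₀, hx₀⟩
      · rw [he]; exact Set.countable_empty
      · refine (Set.countable_range (fun g : FF => act g x₀)).mono ?_
        intro x hx
        obtain ⟨g, hg⟩ := hΘi x₀ hx₀.2.1 x hx.2.1 (hx₀.2.2.trans hx.2.2.symm)
        exact ⟨g, hg.symm⟩
    have hnull : Q k (Prod.mk k ⁻¹' (N ∩ C)) = 0 := by
      have : Prod.mk k ⁻¹' (N ∩ C) = ⋃ x ∈ Prod.mk k ⁻¹' (N ∩ C), {x} :=
        (Set.biUnion_of_singleton _).symm
      rw [this, measure_biUnion_null_iff hcount]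
      intro x hx
      have h1 : Q k {x' | (x, x') ∈ {q : Bits × Bits | q.1 = q.2}} = 0 := hx.1
      rwa [hsing] at h1
    exact measure_mono_null hsub (measure_union_null hk hnull)
  have hN0 : ((μ.map Θ) ⊗ₘ Q) N = 0 := by
    rw [Measure.compProd_apply hNm, lintegral_eq_zero_iff
      (Kernel.measurable_kernel_prodMk_left hNm)]
    exact hNk
  rw [hcomp, Measure.map_apply hmk hNm] at hN0
  rw [ae_iff]
  refine measure_mono_null ?_ hN0
  intro x hx
  simp only [Set.mem_ofPred_eq, not_not] at hx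
  show Q (Θ x) {x' | (x, x') ∈ {q : Bits × Bits | q.1 = q.2}} = 0
  rw [hsing]
  exact hx

theorem inj_cond {K : Type*} [MeasurableSpace K] [StandardBorelSpace K] (μ : Measure Bits)
    [IsProbabilityMeasure μ] (X₀ : Set Bits) (hX₀m : MeasurableSet X₀) (hX₀ : ∀ᵐ x ∂μ, x ∈ X₀)
    (Θ : Bits → K) (hΘ : Measurable Θ)
    (hΘi : ∀ x ∈ X₀, ∀ x' ∈ X₀, Θ x = Θ x' → ∃ g, x' = act g x) (ε : ℝ) (hε : 0 < ε) :
    ∃ (A : Finset FF) (Ω₀ : Set Bits), MeasurableSet Ω₀ ∧ Ω₀ ⊆ X₀ ∧ 1 - ε ≤ μ.real Ω₀ ∧
      Set.InjOn (fun x => (res A x, Θ x)) Ω₀ := by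
  classical
  obtain ⟨Q, hQM, hQ⟩ := injcond_atomic μ X₀ hX₀m hX₀ Θ hΘ hΘi
  obtain ⟨e, he⟩ := exists_surjective_nat FF
  set S : ℕ → Finset FF := fun n => (Finset.range n).image e with hS
  have hSmem : ∀ {n i : ℕ}, i < n → e i ∈ S n := fun h =>
    Finset.mem_image_of_mem _ (Finset.mem_range.2 h)
  have hSmono : ∀ {a b : ℕ}, a ≤ b → S a ⊆ S b := fun h =>
    Finset.image_subset_image (Finset.range_mono h)
  -- the cells
  let cell : ℕ → Bits → Set Bits := fun n x => {x' | res (S n) x' = res (S n) x}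
  have hcellanti : ∀ x, Antitone (fun n => cell n x) := by
    intro x a b hab x' hx'
    simp only [cell, Set.mem_ofPred_eq] at hx' ⊢
    funext h
    have h1 := congrFun hx' h
    simp only [res] at h1 ⊢
    by_cases hh : h ∈ S a
    · have hb : h ∈ S b := hSmono hab hh
      simpa [hh, hb] using h1
    · simp [hh]
  have hcellint : ∀ x, ⋂ n, cell n x = {x} := by
    intro x
    ext x'
    simp only [Set.mem_iInter, Set.mem_singleton_iff, cell, Set.mem_ofPred_eq]
    constructor
    · intro h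
      funext g
      obtain ⟨i, rfl⟩ := he g
      have h1 := congrFun (h (i + 1)) (e i)
      simp only [res] at h1
      simpa [hSmem (Nat.lt_succ_self i)] using h1
    · rintro rfl n
      rfl
  have hcellm : ∀ n x, MeasurableSet (cell n x) := fun n x =>
    measurableSet_eq_fun (injcond_res_meas _) measurable_const
  let v : ℕ → Bits → ENNReal := fun n x => Q (Θ x) (cell n x)
  let w : Bits → ENNReal := fun x => Q (Θ x) {x}
  have hvm : ∀ n, Measurable (v n) := by
    intro n
    have h1 : MeasurableSet {q : Bits × Bits | res (S n) q.2 = res (S n) q.1} :=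
      measurableSet_eq_fun ((injcond_res_meas _).comp measurable_snd)
        ((injcond_res_meas _).comp measurable_fst)
    exact (injcond_meas Q h1).comp (hΘ.prodMk measurable_id)
  have hwm : Measurable w := by
    have h1 : MeasurableSet {q : Bits × Bits | q.2 = q.1} :=
      measurableSet_eq_fun measurable_snd measurable_fst
    exact (injcond_meas Q h1).comp (hΘ.prodMk measurable_id)
  let Ω : ℕ → Set Bits := fun n => X₀ ∩ {x | v n x < 2 * w x}
  have hΩm : ∀ n, MeasurableSet (Ω n) := fun n =>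
    hX₀m.inter (measurableSet_lt (hvm n) (hwm.const_mul _))
  have hΩmono : Monotone Ω := by
    intro a b hab x hx
    exact ⟨hx.1, lt_of_le_of_lt (measure_mono (hcellanti x hab)) hx.2⟩
  have hfull : μ (⋃ n, Ω n) = 1 := by
    rw [← prob_compl_eq_zero_iff (MeasurableSet.iUnion hΩm)]
    show ∀ᵐ x ∂μ, x ∈ ⋃ n, Ω n
    filter_upwards [hX₀, hQ] with x hx hxw
    have hlim : Tendsto (fun n => v n x) atTop (𝓝 (w x)) := by
      have := tendsto_measure_iInter_atTop (μ := Q (Θ x))
        (fun n => (hcellm n x).nullMeasurableSet) (hcellanti x) ⟨0, measure_ne_top _ _⟩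
      rw [hcellint x] at this
      exact this
    have hlt : w x < 2 * w x := by
      have hwt : w x ≠ ⊤ := measure_ne_top _ _
      rw [two_mul]
      exact ENNReal.lt_add_right hwt hxw
    obtain ⟨n, hn⟩ := (hlim.eventually (gt_mem_nhds hlt)).exists
    exact Set.mem_iUnion.2 ⟨n, hx, hn⟩
  have hlim : Tendsto (fun n => μ.real (Ω n)) atTop (𝓝 1) := by
    have h1 := tendsto_measure_iUnion_atTop (μ := μ) hΩmono
    rw [hfull] at h1
    have h2 := (ENNReal.tendsto_toReal ENNReal.one_ne_top).comp h1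
    rw [ENNReal.toReal_one] at h2
    exact h2
  obtain ⟨n, hn⟩ := (hlim.eventually (lt_mem_nhds (show 1 - ε < 1 by linarith))).exists
  refine ⟨S n, Ω n, hΩm n, fun x hx => hx.1, hn.le, ?_⟩
  intro x hx x' hx' hxx
  by_contra hne
  simp only [Prod.mk.injEq] at hxx
  have hsub : ∀ {a b : Bits}, a ≠ b → res (S n) a = res (S n) b → Θ a = Θ b →
      w a + w b ≤ v n a := by
    intro a b hab hr hT
    have h1 : w a + w b = Q (Θ a) ({a} ∪ {b}) := by
      rw [measure_union (Set.disjoint_singleton.2 hab) (measurableSet_singleton b)]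
      simp only [w, hT]
    rw [h1]
    refine measure_mono ?_
    rintro y (rfl | rfl)
    · rfl
    · exact hr.symm
  have h1 := hsub hne hxx.1 hxx.2
  have h2 := hsub (Ne.symm hne) hxx.1.symm hxx.2.symm
  have h3 : w x + w x' < 2 * w x := lt_of_le_of_lt h1 hx.2
  have h4 : w x' + w x < 2 * w x' := lt_of_le_of_lt h2 hx'.2
  have hwx : w x ≠ ⊤ := measure_ne_top _ _
  have hwx' : w x' ≠ ⊤ := measure_ne_top _ _
  rw [two_mul] at h3 h4
  have h5 : w x' < w x := (ENNReal.add_lt_add_iff_left hwx).1 h3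
  have h6 : w x < w x' := (ENNReal.add_lt_add_iff_left hwx').1 h4
  exact absurd h5 (not_lt.2 h6.le)

end Pool.Agent.CR
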