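import Pool.Agent.H.MP_894ea6_lc.L.CfgDefs
import Pool.Agent.H.MP_894ea6_lc.L.InjCond
import Pool.Agent.H.MP_894ea6_lc.L.MuY

/-! MP_894ea6_lc, module CfgSel: a good configuration exists for each parameter -/

open MeasureTheory

namespace Pool.Agent.CR

theorem measurable_toZZ {K : Type*} [MeasurableSpace K] (Θ : Bits → K) (hΘ : Measurable Θ) :
    Measurable (fun x : Bits => ((x, fun h => Θ (act h x)) : ZZ K)) :=
  measurable_id.prodMk (measurable_pi_lambda _ fun h => hΘ.comp (measurable_act h))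

theorem cfgsel_measurable_res (A : Finset FF) : Measurable (res A) := by
  refine measurable_pi_lambda _ fun h => ?_
  exact (measurable_of_countable (fun b : Bool => decide (h ∈ A) && b)).comp (measurable_pi_apply h)

theorem cfgsel_res_act (A : Finset FF) (x : Bits) (g : FF) :
    res A (act g x) = bitsOf (A.filter (fun h => act g x h = true)) := by
  funext h
  by_cases hA : h ∈ A <;> simp [res, bitsOf, hA]

theorem cfgsel_eq_meas {K : Type*} [TopologicalSpace K] [PolishSpace K]
    [MeasurableSpace K] [BorelSpace K] (f g : Bits → K) (hf : Measurable f) (hg : Measurable g) :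
    MeasurableSet {x | f x = g x} := by
  have h : MeasurableSet (Set.diagonal K) := isClosed_diagonal.measurableSet
  exact (hf.prodMk hg) h

theorem cfgsel_polish (α : Type*) [TopologicalSpace α] [CompactSpace α] [T2Space α]
    [SecondCountableTopology α] : PolishSpace α := by
  let := TopologicalSpace.metrizableSpaceMetric α
  infer_instance

/-- measurable choice of the translating group elements -/
theorem cfgsel_label {K Δ : Type*} [TopologicalSpace K] [PolishSpace K]
    [MeasurableSpace K] [BorelSpace K] [Group Δ] [Countable Δ] [MulAction Δ K]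
    [ContinuousConstSMul Δ K] (X : Set Bits) (Θ : Bits → K) (hΘm : Measurable Θ) (g : FF)
    (hΘ : ∀ x ∈ X, ∃ t : Δ, Θ (act g x) = t • Θ x) :
    ∃ t : Bits → Δ, (∀ d, MeasurableSet {x | t x = d}) ∧ ∀ x ∈ X, Θ (act g x) = t x • Θ x := by
  classical
  obtain ⟨e, he⟩ := exists_surjective_nat Δ
  set p : Bits → ℕ → Prop := fun x n =>
    (Θ (act g x) = e n • Θ x) ∨ ∀ m, ¬ Θ (act g x) = e m • Θ x with hp
  have hex : ∀ x, ∃ n, p x n := by
    intro x
    by_cases h : ∃ n, Θ (act g x) = e n • Θ x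
    · obtain ⟨n, hn⟩ := h
      exact ⟨n, Or.inl hn⟩
    · push Not at h
      exact ⟨0, Or.inr h⟩
  have hmeq : ∀ n, MeasurableSet {x | Θ (act g x) = e n • Θ x} := fun n =>
    cfgsel_eq_meas _ _ (hΘm.comp (measurable_act g))
      ((continuous_const_smul (e n)).measurable.comp hΘm)
  have hm : ∀ n, MeasurableSet {x | p x n} := by
    intro n
    have h1 : {x | p x n} = {x | Θ (act g x) = e n • Θ x} ∪
        ⋂ m, {x | Θ (act g x) = e m • Θ x}ᶜ := by
      ext x
      simp [hp]
    rw [h1]
    exact (hmeq n).union (MeasurableSet.iInter fun m => (hmeq m).compl)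
  have hfind : Measurable (fun x => Nat.find (hex x)) := measurable_find hex hm
  refine ⟨fun x => e (Nat.find (hex x)), fun d => ?_, fun x hx => ?_⟩
  · have : {x | e (Nat.find (hex x)) = d} = (fun x => Nat.find (hex x)) ⁻¹' {n | e n = d} := rfl
    rw [this]
    exact hfind (Set.to_countable _).measurableSet
  · rcases Nat.find_spec (hex x) with h | h
    · exact h
    · obtain ⟨t, ht⟩ := hΘ x hx
      obtain ⟨m, rfl⟩ := he t
      exact absurd ht (h m)

theorem cfgsel_cover {K : Type*} [TopologicalSpace K] [CompactSpace K] [PolishSpace K]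
    [MeasurableSpace K] [BorelSpace K] (ν : Measure K) [IsFiniteMeasure ν]
    (hν : ∀ k, ν {k} = 0) :
    ∃ s : Finset ↥(TopologicalSpace.countableBasis K),
      (∀ k : K, ∃ O ∈ s, k ∈ (O : Set K)) ∧ ∀ O ∈ s, ν (O : Set K) ≤ 1 / 4 := by
  classical
  have h1 : ∀ k : K, ∃ O : ↥(TopologicalSpace.countableBasis K), k ∈ (O : Set K) ∧
      ν (O : Set K) ≤ 1 / 4 := by
    intro k
    let := TopologicalSpace.upgradeIsCompletelyMetrizable K
    have hlt : ν {k} < 1 / 4 := by
      rw [hν k]
      simp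
    obtain ⟨U, hkU, hU, hνU⟩ := Set.exists_isOpen_lt_of_lt {k} (1 / 4) hlt
    obtain ⟨O, hO, hkO, hOU⟩ := (TopologicalSpace.isBasis_countableBasis K).exists_subset_of_mem_open
      (hkU rfl) hU
    exact ⟨⟨O, hO⟩, hkO, (measure_mono hOU).trans hνU.le⟩
  choose O hkO hνO using h1
  obtain ⟨t, ht⟩ := CompactSpace.elim_nhds_subcover (fun k => (O k : Set K))
    (fun k => ((TopologicalSpace.isBasis_countableBasis K).isOpen (O k).2).mem_nhds (hkO k))
  refine ⟨t.image O, fun k => ?_, ?_⟩
  · have hk : k ∈ ⋃ x ∈ t, (O x : Set K) := by rw [ht]; trivial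
    simp only [Set.mem_iUnion] at hk
    obtain ⟨x, hx, hk⟩ := hk
    exact ⟨O x, Finset.mem_image_of_mem O hx, hk⟩
  · intro P hP
    obtain ⟨x, -, rfl⟩ := Finset.mem_image.1 hP
    exact hνO x

theorem exists_cfg {K Δ : Type*} [TopologicalSpace K] [CompactSpace K] [PolishSpace K]
    [MeasurableSpace K] [BorelSpace K] [Group Δ] [Countable Δ] [MulAction Δ K]
    [ContinuousConstSMul Δ K] (y : ℕ → Bool) (Θ : Bits → K) (hΘm : Measurable Θ)
    (hΘ : ∀ x ∈ XX y, ∀ g, ∃ t : Δ, Θ (act g x) = t • Θ x)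
    (hΘi : ∀ x ∈ XX y, ∀ x' ∈ XX y, Θ x = Θ x' → ∃ g, x' = act g x) (ε : ℝ) (hε : 0 < ε) :
    ∃ c : Cfg K Δ, GoodC ε c ((muY y).map (fun x : Bits => ((x, fun h => Θ (act h x)) : ZZ K))) := by
  classical
  have hPol : PolishSpace (Bits × K) := cfgsel_polish _
  have hmeasF := measurable_toZZ Θ hΘm
  obtain ⟨A, Ω₀, hΩm, hΩsub, hΩlarge, hinj⟩ := inj_cond (muY y) (XX y) (measurableSet_XX y)
    (muY_XX y) Θ hΘm hΘi (ε / 2) (by positivity)
  have hlab : ∀ s : Gen × Bool, ∃ t : Bits → Δ, (∀ d, MeasurableSet {x | t x = d}) ∧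
      ∀ x ∈ XX y, Θ (act (gs s) x) = t x • Θ x := fun s =>
    cfgsel_label (XX y) Θ hΘm (gs s) (fun x hx => hΘ x hx (gs s))
  choose t htm ht using hlab
  set v : Bits → Lab Δ := fun x s => (t s x, A.filter (fun h => act (gs s) x h = true)) with hv
  have hvm : ∀ r, MeasurableSet {x | v x = r} := by
    intro r
    have h1 : {x | v x = r} = ⋂ s : Gen × Bool, ({x | t s x = (r s).1} ∩
        ⋂ h : FF, (fun x => act (gs s) x h) ⁻¹' {b | (h ∈ A ∧ b = true) ↔ h ∈ (r s).2}) := by
      ext x
      simp only [Set.mem_iInter, Set.mem_inter_iff, Set.mem_ofPred_eq, Set.mem_preimage]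
      constructor
      · intro hx s
        rw [← hx]
        exact ⟨rfl, fun h => by simp [hv]⟩
      · intro hx
        funext s
        obtain ⟨h1, h2⟩ := hx s
        refine Prod.ext h1 ?_
        ext h
        simp only [hv, Finset.mem_filter]
        exact h2 h
    rw [h1]
    refine MeasurableSet.iInter fun s => (htm s _).inter (MeasurableSet.iInter fun h => ?_)
    exact ((measurable_pi_apply h).comp (measurable_act (gs s))) trivial
  obtain ⟨I, C, hCl, hdisj, hmeas⟩ := closed_sel (μ := muY y) (fun x => (res A x, Θ x))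
    ((cfgsel_measurable_res A).prodMk hΘm) v hvm Ω₀ hΩm hinj (ε / 2) (by positivity)
  set ν : Measure K := (muY y).map Θ with hν
  have : IsProbabilityMeasure ν := Measure.isProbabilityMeasure_map hΘm.aemeasurable
  have hν0 : ∀ k, ν {k} = 0 := by
    intro k
    rw [hν, Measure.map_apply hΘm (measurableSet_singleton k)]
    have hcount : (Θ ⁻¹' {k} ∩ XX y).Countable := by
      rcases (Θ ⁻¹' {k} ∩ XX y).eq_empty_or_nonempty with he | ⟨x, hx1, hx2⟩
      · rw [he]; exact Set.countable_empty
      · refine (Set.countable_range (fun g : FF => act g x)).mono ?_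
        rintro x' ⟨hx1', hx2'⟩
        have h1 : Θ x = k := hx1
        have h2 : Θ x' = k := hx1'
        obtain ⟨g, hg⟩ := hΘi x hx2 x' hx2' (h1.trans h2.symm)
        exact ⟨g, hg.symm⟩
    have h1 : muY y (Θ ⁻¹' {k} ∩ XX y) = 0 := by
      have h3 := (measure_biUnion_null_iff (μ := muY y) (s := fun x : Bits => {x}) hcount).2
        (fun x _ => muY_singleton y x)
      rwa [Set.biUnion_of_singleton] at h3
    have h2 : muY y (XX y)ᶜ = 0 := muY_XX y
    refine measure_mono_null (fun x hx => ?_) (measure_union_null h1 h2)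
    by_cases hX : x ∈ XX y
    · exact Or.inl ⟨hx, hX⟩
    · exact Or.inr hX
  obtain ⟨s, hs1, hs2⟩ := cfgsel_cover ν hν0
  set F : Bits → ZZ K := fun x => (x, fun h => Θ (act h x)) with hF
  have : IsProbabilityMeasure ((muY y).map F) := Measure.isProbabilityMeasure_map hmeasF.aemeasurable
  refine ⟨(A, I.attach.image (fun r => (r.1, ⟨C r.1, hCl r.1 r.2⟩)), s), ?_, ?_, hs1, ?_⟩
  · intro p hp p' hp' hne
    simp only [Finset.mem_image, Finset.mem_attach, true_and, Subtype.exists] at hp hp'
    obtain ⟨r, hr, rfl⟩ := hp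
    obtain ⟨r', hr', rfl⟩ := hp'
    refine hdisj hr hr' ?_
    rintro rfl
    exact hne rfl
  · have hsub : {ω | ω ∈ Ω₀ ∧ ∃ r ∈ I, (res A ω, Θ ω) ∈ C r ∧ v ω = r} ⊆
        F ⁻¹' (DDc (K := K) (Δ := Δ) (A, I.attach.image (fun r => (r.1, ⟨C r.1, hCl r.1 r.2⟩)), s)) := by
      rintro ω ⟨hω, r, hr, hC, hvr⟩
      refine ⟨(r, ⟨C r, hCl r hr⟩), ?_, ?_, ?_⟩
      · simp only [Finset.mem_image, Finset.mem_attach, true_and, Subtype.exists]
        exact ⟨r, hr, rfl⟩
      · simpa [hF, act_one] using hC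
      · intro g
        subst hvr
        refine ⟨?_, ?_⟩
        · have := ht g ω (hΩsub hω)
          simpa [hF, act_one, hv] using this
        · exact cfgsel_res_act A ω (gs g)
    have h1 : (muY y).real {ω | ω ∈ Ω₀ ∧ ∃ r ∈ I, (res A ω, Θ ω) ∈ C r ∧ v ω = r} ≤
        ((muY y).map F).real (DDc (K := K) (Δ := Δ)
          (A, I.attach.image (fun r => (r.1, ⟨C r.1, hCl r.1 r.2⟩)), s)) := by
      refine ENNReal.toReal_mono (measure_ne_top _ _) ?_
      exact (measure_mono hsub).trans (Measure.le_map_apply hmeasF.aemeasurable _)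
    linarith
  · intro O hO
    have hOm : MeasurableSet (O : Set K) :=
      ((TopologicalSpace.isBasis_countableBasis K).isOpen O.2).measurableSet
    have hm1 : MeasurableSet {z : ZZ K | z.2 1 ∈ (O : Set K)} :=
      ((measurable_pi_apply (1 : FF)).comp measurable_snd) hOm
    have h1 : ((muY y).map F) {z : ZZ K | z.2 1 ∈ (O : Set K)} = ν (O : Set K) := by
      rw [Measure.map_apply hmeasF hm1, hν, Measure.map_apply hΘm hOm]
      congr 1
      ext x
      simp [hF, act_one]
    have h2 : ((muY y).map F).real {z : ZZ K | z.2 1 ∈ (O : Set K)} ≤ (1 / 4 : ENNReal).toReal := by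
      refine ENNReal.toReal_mono (by simp) ?_
      rw [h1]
      exact hs2 O hO
    simpa using h2

end Pool.Agent.CR
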