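import Pool.Agent.H.MP_894ea6_lc.L.GapB
import Pool.Agent.H.MP_894ea6_lc.L.Grp

/-! MP_894ea6_lc, module Coc: tools for almost everywhere cocycles of `FF` -/

open MeasureTheory

namespace Pool.Agent.CR

variable {Z : Type*} [MeasurableSpace Z] {m : Measure Z} {A : PAct FF m} {d : ℕ → Bool}
  {L : Type*} [Group L] [MeasurableSpace L]

theorem ae_T_eq (hN : ∀ n ∈ NN d, ∀ᵐ z ∂m, A.T n z = z) {g g' : FF} (h : Phi d g = Phi d g') :
    ∀ᵐ z ∂m, A.T g z = A.T g' z := by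
  have hn : g'⁻¹ * g ∈ NN d := by
    rw [NN, MonoidHom.mem_ker, map_mul, map_inv, h, inv_mul_cancel]
  filter_upwards [hN _ hn] with z hz
  have h1 : g = g' * (g'⁻¹ * g) := by group
  rw [h1, A.mul, hz]

theorem ACoc.ae_eq_of_Phi {a : FF → Z → L} (ha : ACoc A a)
    (haN : ∀ n ∈ NN d, ∀ᵐ z ∂m, a n z = 1) {g g' : FF} (h : Phi d g = Phi d g') :
    ∀ᵐ z ∂m, a g z = a g' z := by
  have hn : g * g'⁻¹ ∈ NN d := by
    rw [NN, MonoidHom.mem_ker, map_mul, map_inv, h, mul_inv_cancel]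
  have h1 : g = (g * g'⁻¹) * g' := by group
  have h2 := (A.mp g').quasiMeasurePreserving.ae (haN _ hn)
  filter_upwards [ha.mul (g * g'⁻¹) g', h2] with z hz hz2
  rw [← h1] at hz
  rw [hz, hz2, one_mul]

theorem coc_measurable_mul3 [Countable L] [DiscreteMeasurableSpace L] {f g h : Z → L}
    (hf : Measurable f) (hg : Measurable g) (hh : Measurable h) :
    Measurable (fun z => (f z)⁻¹ * g z * h z) := by
  have h1 : Measurable (fun p : L × L × L => p.1⁻¹ * p.2.1 * p.2.2) := Measurable.of_discrete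
  exact h1.comp (hf.prodMk (hg.prodMk hh))

theorem ACoc.gauge [Countable L] [DiscreteMeasurableSpace L] {a : FF → Z → L} (ha : ACoc A a)
    (ψ : Z → L) (hψ : Measurable ψ) :
    ACoc A (fun g z => (ψ (A.T g z))⁻¹ * a g z * ψ z) := by
  constructor
  · intro g
    exact coc_measurable_mul3 (hψ.comp (A.mp g).measurable) (ha.meas g) hψ
  · intro g h
    filter_upwards [ha.mul g h] with z hz
    rw [hz, A.mul]
    group

theorem ACoc.gauge_N (hN : ∀ n ∈ NN d, ∀ᵐ z ∂m, A.T n z = z) {a : FF → Z → L}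
    (haN : ∀ n ∈ NN d, ∀ᵐ z ∂m, a n z = 1) (ψ : Z → L) :
    ∀ n ∈ NN d, ∀ᵐ z ∂m, (ψ (A.T n z))⁻¹ * a n z * ψ z = 1 := by
  intro n hn
  filter_upwards [hN n hn, haN n hn] with z h1 h2
  rw [h1, h2]
  group

theorem ACoc.comp {G H : Type*} [Group G] [Group H] {A : PAct G m} {a : G → Z → L}
    (ha : ACoc A a) (j : H →* G) : ACoc (A.comp j) (fun h => a (j h)) := by
  constructor
  · intro g
    exact ha.meas _
  · intro g h
    filter_upwards [ha.mul (j g) (j h)] with z hz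
    rw [map_mul, hz]
    rfl

/-- a cocycle which is constant on generators is a homomorphism -/
theorem ACoc.const_of_gens [IsProbabilityMeasure m] {a : FF → Z → L} (ha : ACoc A a)
    (h : ∀ s : Gen, ∃ l, ∀ᵐ z ∂m, a (FreeGroup.of s) z = l) :
    ∃ τ : FF →* L, ∀ g, ∀ᵐ z ∂m, a g z = τ g := by
  choose l hl using h
  refine ⟨FreeGroup.lift l, ?_⟩
  have h1 : ∀ᵐ z ∂m, a 1 z = 1 := by
    filter_upwards [ha.mul 1 1] with z hz
    rw [mul_one, A.one] at hz
    exact mul_eq_left.mp hz.symm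
  have hmul : ∀ x y : FF, (∀ᵐ z ∂m, a x z = FreeGroup.lift l x) →
      (∀ᵐ z ∂m, a y z = FreeGroup.lift l y) → ∀ᵐ z ∂m, a (x * y) z = FreeGroup.lift l (x * y) := by
    intro x y hx hy
    have h2 := (A.mp y).quasiMeasurePreserving.ae hx
    filter_upwards [ha.mul x y, h2, hy] with z hz hz2 hz3
    rw [hz, hz2, hz3, map_mul]
  have hinv : ∀ x : FF, (∀ᵐ z ∂m, a x z = FreeGroup.lift l x) →
      ∀ᵐ z ∂m, a x⁻¹ z = FreeGroup.lift l x⁻¹ := by
    intro x hx
    have h2 := (A.mp x⁻¹).quasiMeasurePreserving.ae hx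
    filter_upwards [ha.mul x x⁻¹, h2, h1] with z hz hz2 hz3
    rw [mul_inv_cancel, hz3, hz2] at hz
    rw [map_inv]
    exact (inv_eq_of_mul_eq_one_right hz.symm).symm
  intro g
  induction g using FreeGroup.induction_on with
  | C1 =>
    filter_upwards [h1] with z hz
    rw [hz, map_one]
  | of s =>
    filter_upwards [hl s] with z hz
    rw [hz, FreeGroup.lift_apply_of]
  | inv_of s hs => exact hinv _ hs
  | mul x y hx hy => exact hmul x y hx hy

/-- if `a = 1` on `j(Gam)` and `j'(Gam)` and `g` conjugates `j` into `j'`, then `a g` is constant -/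
theorem ACoc.const_of_conj [IsProbabilityMeasure m] [Countable L] [DiscreteMeasurableSpace L]
    {a : FF → Z → L} (ha : ACoc A a) (haN : ∀ n ∈ NN d, ∀ᵐ z ∂m, a n z = 1) (j j' : Gam →* FF)
    (hgap : GapPair m (A.T (j (FreeGroup.of true))) (A.T (j (FreeGroup.of false))))
    (h1 : ∀ γ, ∀ᵐ z ∂m, a (j γ) z = 1) (h1' : ∀ γ, ∀ᵐ z ∂m, a (j' γ) z = 1) (g : FF)
    (hg : ∀ γ, Phi d (g * j γ) = Phi d (j' γ * g)) : ∃ l, ∀ᵐ z ∂m, a g z = l := by
  have key : ∀ γ, ∀ᵐ z ∂m, a g (A.T (j γ) z) = a g z := by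
    intro γ
    have h2 := (A.mp g).quasiMeasurePreserving.ae (h1' γ)
    filter_upwards [ha.ae_eq_of_Phi haN (hg γ), ha.mul g (j γ), ha.mul (j' γ) g, h1 γ, h2]
      with z e1 e2 e3 e4 e5
    rw [e2, e3, e4, e5, mul_one, one_mul] at e1
    exact e1
  exact hgap.ae_const (a g) (ha.meas g) (key _) (key _)

end Pool.Agent.CR
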