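import Pool.Agent.H.MP_894ea6_lc.L.Grp

/-! MP_894ea6_lc, module GrpB: the range of `Phi y` and dependence on `y` -/

open Topology Filter

namespace Pool.Agent.CR

theorem grpb_AA_eventually (d : ℕ → Bool) (i : ℤ) : ∀ᶠ y in 𝓝 d, (i ∈ AA y ↔ i ∈ AA d) := by
  have h1 : ∀ᶠ y in 𝓝 d, ∀ j ∈ Finset.range (i.natAbs + 1), y j = d j := by
    rw [Filter.eventually_all_finset]
    intro j _
    have hc : Continuous (fun y : ℕ → Bool => y j) := continuous_apply j
    have ho : IsOpen ((fun y : ℕ → Bool => y j) ⁻¹' {d j}) := (isOpen_discrete _).preimage hc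
    exact ho.mem_nhds rfl
  filter_upwards [h1] with y hy
  have key : ∀ j : ℕ, i = ((2 * j + 3).factorial : ℤ) → y j = d j := by
    intro j hj
    apply hy
    rw [Finset.mem_range]
    have h2 : 2 * j + 3 ≤ (2 * j + 3).factorial := Nat.self_le_factorial _
    have h3 : i.natAbs = (2 * j + 3).factorial := by rw [hj]; rfl
    omega
  unfold AA
  simp only [Set.mem_ofPred_eq]
  constructor
  · rintro (h | h | ⟨j, hj, hj'⟩)
    · exact Or.inl h
    · exact Or.inr (Or.inl h)
    · exact Or.inr (Or.inr ⟨j, hj, by rw [← key j hj]; exact hj'⟩)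
  · rintro (h | h | ⟨j, hj, hj'⟩)
    · exact Or.inl h
    · exact Or.inr (Or.inl h)
    · exact Or.inr (Or.inr ⟨j, hj, by rw [key j hj]; exact hj'⟩)

theorem grpb_HH_eventually (d : ℕ → Bool) (x : V) : ∀ᶠ y in 𝓝 d, (x ∈ HH y ↔ x ∈ HH d) := by
  have h1 : ∀ᶠ y in 𝓝 d, ∀ i ∈ x.n.support, (i ∈ AA y ↔ i ∈ AA d) := by
    rw [Filter.eventually_all_finset]
    intro i _
    exact grpb_AA_eventually d i
  filter_upwards [h1] with y hy
  show (x.k = 0 ∧ ∀ i, x.n i ≠ 0 → i ∈ AA y) ↔ (x.k = 0 ∧ ∀ i, x.n i ≠ 0 → i ∈ AA d)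
  refine and_congr_right fun _ => forall_congr' fun i => ?_
  refine imp_congr_right fun hi => hy i ?_
  rw [Finsupp.mem_support_iff]
  exact hi

theorem grpb_one_mul_HH (y : ℕ → Bool) (x h : V) (hh : h ∈ HH y) : x * h ∈ HH y ↔ x ∈ HH y :=
  (HH y).mul_mem_cancel_right hh

theorem Phi_c_right (y : ℕ → Bool) (w : FF) (x h : V) (hh : h ∈ HH y) :
    (Phi y w).c (x * h) = (Phi y w).c x := by
  classical
  revert x
  induction w using FreeGroup.induction_on with
  | C1 => intro x; rw [map_one]; rfl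
  | of g =>
    intro x
    show (Phi y (FreeGroup.of g)).c (x * h) = (Phi y (FreeGroup.of g)).c x
    unfold Phi
    rw [FreeGroup.lift_apply_of]
    cases g with
    | p => exact if_congr (grpb_one_mul_HH y x h hh) rfl rfl
    | q => exact if_congr (grpb_one_mul_HH y x h hh) rfl rfl
    | a => rfl
    | t => rfl
  | inv_of g ih =>
    intro x
    rw [map_inv, WW.inv_c, WW.inv_c, ← mul_assoc, ih]
  | mul u v hu hv =>
    intro x
    rw [map_mul, WW.mul_c, WW.mul_c, ← mul_assoc, hu, hv]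

/-- the finite set of cosets does not depend on `y` -/
theorem grpb_fin (w : FF) : ∃ S : Set V, S.Finite ∧ ∀ (y : ℕ → Bool) (x : V), (Phi y w).c x ≠ 1 →
    ∃ s ∈ S, s⁻¹ * x ∈ HH y := by
  induction w using FreeGroup.induction_on with
  | C1 =>
    refine ⟨∅, Set.finite_empty, fun y x hx => ?_⟩
    rw [map_one] at hx
    exact absurd rfl hx
  | of g =>
    refine ⟨{1}, Set.finite_singleton 1, fun y x hx => ⟨1, rfl, ?_⟩⟩
    rw [inv_one, one_mul]
    have hx' : (Phi y (FreeGroup.of g)).c x ≠ 1 := hx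
    unfold Phi at hx'
    rw [FreeGroup.lift_apply_of] at hx'
    cases g with
    | p =>
      by_contra hc
      exact hx' (by simp only [PhiGen, if_neg hc])
    | q =>
      by_contra hc
      exact hx' (by simp only [PhiGen, if_neg hc])
    | a => exact absurd rfl hx'
    | t => exact absurd rfl hx'
  | inv_of g ih =>
    obtain ⟨S, hS, h⟩ := ih
    refine ⟨(fun s => (piV (FreeGroup.of g))⁻¹ * s) '' S, hS.image _, fun y x hx => ?_⟩
    rw [map_inv, WW.inv_c] at hx
    have hx' : (Phi y (FreeGroup.of g)).c ((Phi y (FreeGroup.of g)).v * x) ≠ 1 := by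
      intro hc
      exact hx (by rw [hc, inv_one])
    obtain ⟨s, hs, hs'⟩ := h y _ hx'
    refine ⟨_, ⟨s, hs, rfl⟩, ?_⟩
    rw [Phi_v] at hs'
    simp only [mul_inv_rev, inv_inv]
    rw [mul_assoc]
    exact hs'
  | mul u v hu hv =>
    obtain ⟨S, hS, h⟩ := hu
    obtain ⟨S', hS', h'⟩ := hv
    refine ⟨S ∪ (fun s => piV u * s) '' S', hS.union (hS'.image _), fun y x hx => ?_⟩
    rw [map_mul, WW.mul_c] at hx
    by_cases hc : (Phi y u).c x = 1
    · rw [hc, one_mul] at hx
      obtain ⟨s, hs, hs'⟩ := h' y _ hx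
      refine ⟨_, Or.inr ⟨s, hs, rfl⟩, ?_⟩
      rw [Phi_v] at hs'
      simp only [mul_inv_rev]
      rw [mul_assoc]
      exact hs'
    · obtain ⟨s, hs, hs'⟩ := h y x hc
      exact ⟨s, Or.inl hs, hs'⟩

theorem grpb_const (d : ℕ → Bool) (w : FF) (x : V) :
    ∀ᶠ y in 𝓝 d, (Phi y w).c x = (Phi d w).c x := by
  classical
  revert x
  induction w using FreeGroup.induction_on with
  | C1 => intro x; exact Filter.Eventually.of_forall fun y => by rw [map_one, map_one]
  | of g =>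
    intro x
    filter_upwards [grpb_HH_eventually d x] with y hy
    show (Phi y (FreeGroup.of g)).c x = (Phi d (FreeGroup.of g)).c x
    unfold Phi
    rw [FreeGroup.lift_apply_of, FreeGroup.lift_apply_of]
    cases g with
    | p => exact if_congr hy rfl rfl
    | q => exact if_congr hy rfl rfl
    | a => rfl
    | t => rfl
  | inv_of g ih =>
    intro x
    filter_upwards [ih (piV (FreeGroup.of g) * x)] with y hy
    rw [map_inv, map_inv, WW.inv_c, WW.inv_c, Phi_v, Phi_v, hy]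
  | mul u v hu hv =>
    intro x
    filter_upwards [hu x, hv ((piV u)⁻¹ * x)] with y hy hy'
    rw [map_mul, map_mul, WW.mul_c, WW.mul_c, Phi_v, Phi_v, hy, hy']

/-- elements of `NN d` belong to `NN y` for all `y` near `d` -/
theorem NN_open (d : ℕ → Bool) {w : FF} (hw : w ∈ NN d) : ∀ᶠ y in 𝓝 d, w ∈ NN y := by
  have hw1 : Phi d w = 1 := hw
  have hv : piV w = 1 := by rw [← Phi_v d w, hw1]; rfl
  obtain ⟨S, hS, hfin⟩ := grpb_fin w
  have h1 : ∀ᶠ y in 𝓝 d, ∀ s ∈ hS.toFinset, (Phi y w).c s = (Phi d w).c s := by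
    rw [Filter.eventually_all_finset]
    intro s _
    exact grpb_const d w s
  filter_upwards [h1] with y hy
  show Phi y w = 1
  apply WW.ext
  · funext x
    by_contra hx
    obtain ⟨s, hs, hs'⟩ := hfin y x hx
    have h2 := Phi_c_right y w s (s⁻¹ * x) hs'
    rw [mul_inv_cancel_left, hy s (hS.mem_toFinset.2 hs), hw1] at h2
    exact hx h2
  · rw [Phi_v, hv]; rfl

theorem Phi_c_fin (y : ℕ → Bool) (w : FF) :
    ∃ S : Set V, S.Finite ∧ ∀ x, (Phi y w).c x ≠ 1 → ∃ s ∈ S, s⁻¹ * x ∈ HH y := by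
  obtain ⟨S, hS, h⟩ := grpb_fin w
  exact ⟨S, hS, h y⟩

theorem grpb_shift_zero (n : ℤ →₀ ℤ) : shift 0 n = n := by
  ext i
  simp

noncomputable def grpbN : Multiplicative (ℤ →₀ ℤ) →* V where
  toFun n := ⟨n.toAdd, 0⟩
  map_one' := rfl
  map_mul' a b := by
    apply V.ext
    · rw [V.mul_n]
      show a.toAdd + b.toAdd = a.toAdd + shift 0 b.toAdd
      rw [grpb_shift_zero]
    · show (0 : ℤ) = 0 + 0
      rfl

noncomputable def grpbK : Multiplicative ℤ →* V where
  toFun k := ⟨0, k.toAdd⟩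
  map_one' := rfl
  map_mul' a b := by
    apply V.ext
    · rw [V.mul_n]
      show (0 : ℤ →₀ ℤ) = 0 + shift _ 0
      ext i
      simp
    · rfl

theorem exists_hat (v : V) : ∃ w : FF, Pure w ∧ piV w = v := by
  have h1 : ∀ n : ℤ →₀ ℤ, ∃ w : FF, Pure w ∧ piV w = ⟨n, 0⟩ := by
    intro n
    induction n using Finsupp.induction_linear with
    | zero => exact ⟨1, pure_one, by rw [map_one]; rfl⟩
    | add f g hf hg =>
      obtain ⟨w, hw, hw'⟩ := hf
      obtain ⟨u, hu, hu'⟩ := hg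
      refine ⟨w * u, Subgroup.mul_mem _ hw hu, ?_⟩
      rw [map_mul, hw', hu']
      exact (map_mul grpbN (Multiplicative.ofAdd f) (Multiplicative.ofAdd g)).symm
    | single i z =>
      refine ⟨Tw i ^ z, Subgroup.zpow_mem _ (pure_Tw i) z, ?_⟩
      rw [map_zpow, piV_Tw]
      have h2 := map_zpow grpbN (Multiplicative.ofAdd (Finsupp.single i (1 : ℤ))) z
      rw [← ofAdd_zsmul] at h2
      have h3 : z • Finsupp.single i (1 : ℤ) = Finsupp.single i z := by
        rw [Finsupp.smul_single, smul_eq_mul, mul_one]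
      rw [h3] at h2
      exact h2.symm
  obtain ⟨w, hw, hw'⟩ := h1 v.n
  refine ⟨w * FreeGroup.of Gen.t ^ v.k, Subgroup.mul_mem _ hw (Subgroup.zpow_mem _ pure_t _), ?_⟩
  rw [map_mul, hw', map_zpow, piV_t]
  have h2 : tV ^ v.k = ⟨0, v.k⟩ := by
    have h3 := map_zpow grpbK (Multiplicative.ofAdd (1 : ℤ)) v.k
    rw [← ofAdd_zsmul, smul_eq_mul, mul_one] at h3
    exact h3.symm
  rw [h2]
  apply V.ext
  · rw [V.mul_n]
    ext i
    simp
  · rw [V.mul_k]
    exact zero_add _

/-- every finitely supported (modulo `HH y`) function is in the range -/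
theorem Phi_range (y : ℕ → Bool) (c : V → Gam) (h1 : ∀ x, ∀ h ∈ HH y, c (x * h) = c x)
    (h2 : ∃ S : Set V, S.Finite ∧ ∀ x, c x ≠ 1 → ∃ s ∈ S, s⁻¹ * x ∈ HH y) :
    ∃ w : FF, Phi y w = ⟨c, 1⟩ := by
  classical
  obtain ⟨S, hS, hc⟩ := h2
  revert c
  induction S, hS using Set.Finite.induction_on with
  | empty =>
    intro c _ hc
    refine ⟨1, ?_⟩
    rw [map_one]
    apply WW.ext
    · funext x
      by_contra hx
      obtain ⟨s, hs, _⟩ := hc x (fun h => hx h.symm)
      exact hs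
    · rfl
  | @insert s S hs hSf ih =>
    intro c h1 hc
    obtain ⟨v, hv, hv'⟩ := exists_hat s
    have hw1 := Phi_conj y hv (c s)
    rw [hv'] at hw1
    set c₁ : V → Gam := fun x => if s⁻¹ * x ∈ HH y then c s else 1 with hc₁
    have hcs : ∀ x, s⁻¹ * x ∈ HH y → c x = c s := by
      intro x hx
      have := h1 s _ hx
      rwa [mul_inv_cancel_left] at this
    have h1' : ∀ x, ∀ h ∈ HH y, (c₁ (x * h))⁻¹ * c (x * h) = (c₁ x)⁻¹ * c x := by
      intro x h hh
      have h3 : s⁻¹ * (x * h) ∈ HH y ↔ s⁻¹ * x ∈ HH y := by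
        rw [← mul_assoc]; exact grpb_one_mul_HH y _ h hh
      rw [h1 x h hh]
      simp only [hc₁, h3]
    obtain ⟨w₂, hw₂⟩ := ih (fun x => (c₁ x)⁻¹ * c x) h1' (by
      intro x hx
      by_cases h : s⁻¹ * x ∈ HH y
      · exfalso
        apply hx
        simp only [hc₁, if_pos h, hcs x h, inv_mul_cancel]
      · simp only [hc₁, if_neg h, inv_one, one_mul] at hx
        obtain ⟨s', hs', hs''⟩ := hc x hx
        rcases Set.mem_insert_iff.1 hs' with rfl | h'
        · exact absurd hs'' h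
        · exact ⟨s', h', hs''⟩)
    refine ⟨v * iota (c s) * v⁻¹ * w₂, ?_⟩
    rw [map_mul, hw₂, hw1]
    apply WW.ext
    · funext x
      rw [WW.mul_c]
      simp only [inv_one, one_mul, hc₁]
      rw [mul_inv_cancel_left]
    · rw [WW.mul_v, one_mul]

end Pool.Agent.CR
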