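import Pool.Agent.H.MP_894ea6_lc.L.GrpDefs

/-! MP_894ea6_lc, module HInj: the commutator endomorphism is injective -/

namespace Pool.Agent.CR

/-- the reduced word of the image of a letter -/
def hinj_block : Bool × Bool → List (Bool × Bool)
  | (true, true) => [(true, true), (false, true), (true, false), (false, false)]
  | (true, false) => [(false, true), (true, true), (false, false), (true, false)]
  | (false, true) => [(true, false), (false, false), (true, true), (false, true)]
  | (false, false) => [(false, false), (true, false), (false, true), (true, true)]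

theorem hinj_letter (x : Bool × Bool) : hh (FreeGroup.mk [x]) = FreeGroup.mk (hinj_block x) := by
  obtain ⟨a, b⟩ := x
  cases a <;> cases b <;> rfl

theorem hinj_mk (L : List (Bool × Bool)) :
    hh (FreeGroup.mk L) = FreeGroup.mk (L.flatMap hinj_block) := by
  induction L with
  | nil => exact map_one hh
  | cons x L ih =>
    have h1 : FreeGroup.mk (x :: L) = FreeGroup.mk [x] * FreeGroup.mk L := by
      rw [FreeGroup.mul_mk]; rfl
    rw [h1, map_mul, hinj_letter, ih, FreeGroup.mul_mk, List.flatMap_cons]

theorem hinj_block_red (x : Bool × Bool) : FreeGroup.IsReduced (hinj_block x) := by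
  obtain ⟨a, b⟩ := x
  unfold FreeGroup.IsReduced
  cases a <;> cases b <;> simp [hinj_block]

theorem hinj_junction (x y : Bool × Bool) (h : x.1 = y.1 → x.2 = y.2) :
    ∀ u ∈ (hinj_block x).getLast?, ∀ v ∈ (hinj_block y).head?, u.1 = v.1 → u.2 = v.2 := by
  obtain ⟨a, b⟩ := x
  obtain ⟨c, d⟩ := y
  cases a <;> cases b <;> cases c <;> cases d <;> simp_all [hinj_block]

theorem hinj_red (L : List (Bool × Bool)) (hL : FreeGroup.IsReduced L) :
    FreeGroup.IsReduced (L.flatMap hinj_block) := by
  unfold FreeGroup.IsReduced at *
  induction L with
  | nil => simp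
  | cons x L ih =>
    rw [List.flatMap_cons, List.isChain_append]
    refine ⟨hinj_block_red x, ih hL.of_cons, ?_⟩
    cases L with
    | nil => simp
    | cons y L =>
      rw [List.isChain_cons_cons] at hL
      intro u hu v hv
      apply hinj_junction x y hL.1 u hu v
      rw [List.flatMap_cons] at hv
      have : hinj_block y ≠ [] := by
        obtain ⟨c, d⟩ := y
        cases c <;> cases d <;> simp [hinj_block]
      rwa [List.head?_append_of_ne_nil _ this] at hv

theorem hh_injective : Function.Injective hh := by
  rw [injective_iff_map_eq_one]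
  intro w hw
  have h1 : hh w = FreeGroup.mk (w.toWord.flatMap hinj_block) := by
    rw [← hinj_mk, FreeGroup.mk_toWord]
  have h2 : (hh w).toWord = w.toWord.flatMap hinj_block := by
    rw [h1, FreeGroup.toWord_mk]
    exact (hinj_red _ FreeGroup.isReduced_toWord).reduce_eq
  rw [hw, FreeGroup.toWord_one] at h2
  rw [← FreeGroup.toWord_eq_nil_iff]
  cases h3 : w.toWord with
  | nil => rfl
  | cons x L =>
    rw [h3, List.flatMap_cons] at h2
    have : hinj_block x ≠ [] := by
      obtain ⟨c, d⟩ := x
      cases c <;> cases d <;> simp [hinj_block]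
    simp [this] at h2

end Pool.Agent.CR
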