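import Pool.Agent.H.MP_894ea6_lc.L.RigDefs
import Pool.Agent.H.MP_894ea6_lc.L.Coc
import Pool.Agent.H.MP_894ea6_lc.L.GrpB
import Pool.Agent.H.MP_894ea6_lc.L.HInj

/-! MP_894ea6_lc, module Comp: the components of the cocycle -/

open MeasureTheory

namespace Pool.Agent.CR

variable {d y' : ℕ → Bool} {Z : Type*} [MeasurableSpace Z] {m : Measure Z}
  {A : PAct FF m} {x' : Z → Bits} {α : FF → Z → FF} {τ : FF →* V}

theorem RigData.gapPair [IsProbabilityMeasure m] (D : RigData d y' A x' α τ) (v : FF) :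
    GapPair m (A.T (jj v (FreeGroup.of true))) (A.T (jj v (FreeGroup.of false))) := by
  have h := D.gap v (hh.comp hh) (hh_injective.comp hh_injective)
  exact GapPair.of_diag3_one (A.mp _).measurable (A.mp _).measurable h

theorem RigData.τjj (D : RigData d y' A x' α τ) (v : FF) (γ : Gam) : τ (jj v γ) = 1 := by
  rw [jj_apply, map_mul, map_mul, D.τ1, mul_one, map_inv, mul_inv_cancel]

private theorem comp_act_eq {x : Bits} (hx : x ∈ XX y') {u u' : FF} (h : act u x = act u' x) :
    Phi y' u = Phi y' u' := by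
  have h1 : act (u⁻¹ * u') x = x := by
    rw [act_mul, ← h, ← act_mul, inv_mul_cancel, act_one]
  have h2 : u⁻¹ * u' ∈ NN y' := (hx _).1 h1
  have h3 : Phi y' (u⁻¹ * u') = 1 := (MonoidHom.mem_ker).1 h2
  rw [map_mul, map_inv] at h3
  exact (inv_mul_eq_one.1 h3)

/-- the cocycle identity in `WW` -/
theorem RigData.Phi_mul (D : RigData d y' A x' α τ) (g h : FF) :
    ∀ᵐ z ∂m, Phi y' (α (g * h) z) = Phi y' (α g (A.T h z)) * Phi y' (α h z) := by
  have h1 := (A.mp h).quasiMeasurePreserving.ae (D.αeq g)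
  filter_upwards [D.αeq (g * h), h1, D.αeq h, D.free] with z e1 e2 e3 hz
  rw [← map_mul]
  apply comp_act_eq hz
  rw [← e1, A.mul, e2, e3, act_mul]

theorem RigData.Phi_congr (D : RigData d y' A x' α τ) {g g' : FF} (h : Phi d g = Phi d g') :
    ∀ᵐ z ∂m, Phi y' (α g z) = Phi y' (α g' z) := by
  filter_upwards [D.αeq g, D.αeq g', D.free, ae_T_eq D.triv h] with z e1 e2 hz e3
  apply comp_act_eq hz
  rw [← e1, ← e2, e3]

theorem RigData.cw_meas (D : RigData d y' A x' α τ) (w : V) (g : FF) :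
    Measurable (cw y' α w g) := by
  have h : Measurable (fun u : FF => (Phi y' u).c w) := Measurable.of_discrete
  exact h.comp (D.αmeas g)

theorem RigData.cw_mul (D : RigData d y' A x' α τ) (w : V) (g h : FF) :
    ∀ᵐ z ∂m, cw y' α w (g * h) z = cw y' α w g (A.T h z) * cw y' α ((τ g)⁻¹ * w) h z := by
  have h1 := (A.mp h).quasiMeasurePreserving.ae (D.αv g)
  filter_upwards [D.Phi_mul g h, h1] with z e1 e2
  unfold cw
  rw [e1, WW.mul_c, Phi_v, e2]

theorem RigData.cw_congr (D : RigData d y' A x' α τ) (w : V) {g g' : FF}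
    (h : Phi d g = Phi d g') : ∀ᵐ z ∂m, cw y' α w g z = cw y' α w g' z := by
  filter_upwards [D.Phi_congr h] with z e
  unfold cw
  rw [e]

/-- on `jj v (Gam)` the component at `w` is a cocycle -/
theorem RigData.cw_coc (D : RigData d y' A x' α τ) (w : V) (v : FF) :
    ACoc (A.comp (jj v)) (fun γ => cw y' α w (jj v γ)) := by
  refine ⟨fun γ => D.cw_meas w _, fun g h => ?_⟩
  filter_upwards [D.cw_mul w (jj v g) (jj v h)] with z e
  rw [map_mul, e, D.τjj, inv_one, one_mul]
  rfl

theorem cw_right (α : FF → Z → FF) (w h : V) (hh' : h ∈ HH y') (g : FF) (z : Z) :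
    cw y' α (w * h) g z = cw y' α w g z :=
  Phi_c_right y' _ w h hh'

private theorem comp_tail [IsProbabilityMeasure m] {φ : Z → FF} (hφ : Measurable φ) {η : ℝ}
    (hη : 0 < η) : ∃ E : Finset FF, m.real {z | φ z ∉ E} ≤ η := by
  classical
  obtain ⟨f, hf⟩ := exists_surjective_nat FF
  set s : ℕ → Set Z := fun n => {z | φ z ∉ (Finset.range n).image f} with hs
  have hmeas : ∀ n, MeasurableSet (s n) := fun n =>
    hφ (MeasurableSet.of_discrete (s := {u : FF | u ∉ (Finset.range n).image f}))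
  have hanti : Antitone s := by
    intro a b hab z hz hza
    apply hz
    exact Finset.image_subset_image (Finset.range_mono hab) hza
  have hempty : ⋂ n, s n = ∅ := by
    rw [Set.eq_empty_iff_forall_notMem]
    intro z hz
    obtain ⟨n, hn⟩ := hf (φ z)
    refine Set.mem_iInter.1 hz (n + 1) ?_
    rw [Finset.mem_image]
    exact ⟨n, Finset.self_mem_range_succ n, hn⟩
  have hlim := tendsto_measure_iInter_atTop (μ := m) (s := s)
    (fun n => (hmeas n).nullMeasurableSet) hanti ⟨0, measure_ne_top m _⟩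
  rw [hempty, measure_empty] at hlim
  have hη' : (0 : ENNReal) < ENNReal.ofReal η := ENNReal.ofReal_pos.2 hη
  obtain ⟨n, hn⟩ := (hlim.eventually (gt_mem_nhds hη')).exists
  refine ⟨(Finset.range n).image f, ?_⟩
  have h1 : m (s n) ≤ ENNReal.ofReal η := le_of_lt hn
  rw [Measure.real]
  exact ENNReal.toReal_le_of_le_ofReal hη.le h1

/-- the components are trivial with large probability outside finitely many cosets -/
theorem RigData.cw_tail [IsProbabilityMeasure m] (D : RigData d y' A x' α τ) (g : FF) {η : ℝ}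
    (hη : 0 < η) : ∃ S : Set V, S.Finite ∧
      ∀ w, (∀ s ∈ S, s⁻¹ * w ∉ HH y') → m.real {z | cw y' α w g z ≠ 1} ≤ η := by
  obtain ⟨E, hE⟩ := comp_tail (m := m) (D.αmeas g) hη
  choose S hS1 hS2 using fun u : FF => Phi_c_fin y' u
  refine ⟨⋃ u ∈ E, S u, Set.Finite.biUnion E.finite_toSet fun u _ => hS1 u, fun w hw => ?_⟩
  refine le_trans (measureReal_mono ?_ (measure_ne_top m _)) hE
  intro z hz hzE
  apply hz
  by_contra hne
  obtain ⟨s, hs, hsw⟩ := hS2 (α g z) w hne
  exact hw s (Set.mem_biUnion hzE hs) hsw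

/-- twists by components of commuting elements -/
theorem RigData.cw_comm (D : RigData d y' A x' α τ) (w : V) {g h : FF} (hg : τ g = 1)
    (hh' : τ h = 1) (hgh : Phi d (g * h) = Phi d (h * g)) :
    ∀ᵐ z ∂m, cw y' α w g (A.T h z) * cw y' α w h z = cw y' α w h (A.T g z) * cw y' α w g z := by
  filter_upwards [D.cw_mul w g h, D.cw_mul w h g, D.cw_congr w hgh] with z e1 e2 e3
  rw [hg, inv_one, one_mul] at e1
  rw [hh', inv_one, one_mul] at e2
  rw [← e1, ← e2, e3]

end Pool.Agent.CR
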