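import Pool.Agent.H.MP_894ea6_lc.L.LemIFib

/-! MP_894ea6_lc, module LemI: a twisted gap on a direct sum comes from one coordinate -/

open MeasureTheory

namespace Pool.Agent.CR

/-- the group of finitely supported maps `Ω → L` -/
def FS (Ω L : Type*) [Group L] : Subgroup (Ω → L) where
  carrier := {c | (Function.mulSupport c).Finite}
  mul_mem' := by
    intro c c' hc hc'
    exact (hc.union hc').subset (Function.mulSupport_mul c c')
  one_mem' := by simp
  inv_mem' := by
    intro c hc
    simpa [Function.mulSupport_inv] using hc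

instance instMSFS (Ω L : Type*) [Group L] : MeasurableSpace (FS Ω L) := ⊤
instance instDMSFS (Ω L : Type*) [Group L] : DiscreteMeasurableSpace (FS Ω L) :=
  ⟨fun _ => trivial⟩

instance instCountableFS (Ω L : Type*) [Group L] [Countable Ω] [Countable L] :
    Countable (FS Ω L) := by
  classical
  let e : FS Ω L → Finset (Ω × L) := fun c =>
    (Set.Finite.toFinset (show (Function.mulSupport (c : Ω → L)).Finite from c.2)).image
      (fun ω => (ω, (c : Ω → L) ω))
  refine Function.Injective.countable (f := e) ?_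
  intro c c' h
  apply Subtype.ext
  funext ω
  have key : ∀ (d : FS Ω L) (l : L), l ≠ 1 → ((ω, l) ∈ e d ↔ (d : Ω → L) ω = l) := by
    intro d l hl
    simp only [e, Finset.mem_image, Set.Finite.mem_toFinset, Function.mem_mulSupport,
      Prod.mk.injEq]
    constructor
    · rintro ⟨ω', _, h1, h2⟩
      rw [← h1]; exact h2
    · intro h1
      exact ⟨ω, by rw [h1]; exact hl, rfl, h1⟩
  by_cases h1 : (c : Ω → L) ω = 1
  · by_cases h2 : (c' : Ω → L) ω = 1
    · rw [h1, h2]
    · have := (key c' _ h2).2 rfl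
      rw [← h] at this
      exact (key c _ h2).1 this
  · have := (key c _ h1).2 rfl
    rw [h] at this
    exact ((key c' _ h1).1 this).symm

/-- erase a coordinate -/
private def lemi_er {Ω L : Type*} [Group L] [DecidableEq Ω] (a : Ω) (c : FS Ω L) : FS Ω L :=
  ⟨Function.update (c : Ω → L) a 1, by
    show (Function.mulSupport (Function.update (c : Ω → L) a 1)).Finite
    rw [Function.mulSupport_update_one]
    exact (show (Function.mulSupport (c : Ω → L)).Finite from c.2).subset Set.sdiff_subset⟩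

open Classical in
/-- sums over finitely supported functions of products -/
private theorem lemi_hasSum {Ω L : Type*} [Group L] (g : Ω → L → ℝ) (s : Ω → ℝ) (S : Finset Ω)
    (h0 : ∀ ω l, 0 ≤ g ω l) (hs : ∀ ω ∈ S, HasSum (g ω) (s ω)) :
    HasSum (fun c : FS Ω L => if Function.mulSupport (c : Ω → L) ⊆ S then
      ∏ ω ∈ S, g ω ((c : Ω → L) ω) else 0) (∏ ω ∈ S, s ω) := by
  induction S using Finset.induction_on with
  | empty =>
    have h1 : (fun c : FS Ω L => if Function.mulSupport (c : Ω → L) ⊆ (∅ : Finset Ω) then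
        ∏ ω ∈ (∅ : Finset Ω), g ω ((c : Ω → L) ω) else 0) = fun c => if c = 1 then 1 else 0 := by
      funext c
      have : Function.mulSupport (c : Ω → L) ⊆ (∅ : Finset Ω) ↔ c = 1 := by
        rw [Finset.coe_empty, Set.subset_empty_iff, Function.mulSupport_eq_empty_iff]
        constructor
        · intro h; exact Subtype.ext h
        · intro h; rw [h]; rfl
      simp only [this, Finset.prod_empty]
    rw [h1]
    simpa using hasSum_ite_eq (1 : FS Ω L) (1 : ℝ)
  | insert a S ha ih =>
    have ih' := ih (fun ω hω => hs ω (Finset.mem_insert_of_mem hω))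
    have hga := hs a (Finset.mem_insert_self a S)
    rw [Finset.prod_insert ha]
    set F : FS Ω L → ℝ := fun c => if Function.mulSupport (c : Ω → L) ⊆ S then
      ∏ ω ∈ S, g ω ((c : Ω → L) ω) else 0 with hF
    have hF0 : ∀ c, 0 ≤ F c := by
      intro c
      simp only [hF]
      split_ifs
      · exact Finset.prod_nonneg fun ω _ => h0 _ _
      · exact le_rfl
    have hmul : HasSum (fun x : L × FS Ω L => g a x.1 * F x.2) (s a * ∏ ω ∈ S, s ω) :=
      hga.mul ih' (hga.summable.mul_of_nonneg ih'.summable (h0 a) hF0)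
    let i : FS Ω L → L × FS Ω L := fun c => ((c : Ω → L) a, lemi_er a c)
    have hi : Function.Injective i := by
      intro c c' h
      have h1 : (c : Ω → L) a = (c' : Ω → L) a := congrArg Prod.fst h
      have h2 : lemi_er a c = lemi_er a c' := congrArg Prod.snd h
      apply Subtype.ext
      funext ω
      by_cases hω : ω = a
      · rw [hω, h1]
      · have h3 := congrFun (congrArg Subtype.val h2) ω
        simpa [lemi_er, Function.update_of_ne hω] using h3
    have hoff : ∀ x ∉ Set.range i, (fun x : L × FS Ω L => g a x.1 * F x.2) x = 0 := by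
      intro x hx
      have : ¬ Function.mulSupport (x.2 : Ω → L) ⊆ S := by
        intro hsup
        apply hx
        have hxa : (x.2 : Ω → L) a = 1 := by
          by_contra hne
          exact ha (by exact_mod_cast hsup (Function.mem_mulSupport.2 hne))
        have hmem : (Function.mulSupport (Function.update (x.2 : Ω → L) a x.1)).Finite := by
          refine ((show (Function.mulSupport (x.2 : Ω → L)).Finite from x.2.2).union
            (Set.finite_singleton a)).subset ?_
          intro ω hω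
          by_cases hωa : ω = a
          · right; exact hωa
          · left
            rw [Function.mem_mulSupport, Function.update_of_ne hωa] at hω
            exact hω
        refine ⟨⟨Function.update (x.2 : Ω → L) a x.1, hmem⟩, ?_⟩
        apply Prod.ext
        · simp [i]
        · apply Subtype.ext
          funext ω
          by_cases hωa : ω = a
          · rw [hωa, hxa]; simp [i, lemi_er]
          · simp [i, lemi_er, Function.update_of_ne hωa]
      simp only [hF, if_neg this, mul_zero]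
    have hcomp := (hi.hasSum_iff hoff).2 hmul
    have heq : ((fun x : L × FS Ω L => g a x.1 * F x.2) ∘ i) = fun c : FS Ω L =>
        if Function.mulSupport (c : Ω → L) ⊆ (insert a S : Finset Ω) then
        ∏ ω ∈ insert a S, g ω ((c : Ω → L) ω) else 0 := by
      funext c
      have hiff : Function.mulSupport ((lemi_er a c : FS Ω L) : Ω → L) ⊆ S ↔
          Function.mulSupport (c : Ω → L) ⊆ (insert a S : Finset Ω) := by
        show Function.mulSupport (Function.update (c : Ω → L) a 1) ⊆ S ↔ _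
        rw [Function.mulSupport_update_one, Finset.coe_insert, Set.sdiff_subset_iff,
          Set.insert_eq]
      have hprod : ∏ ω ∈ S, g ω ((lemi_er a c : Ω → L) ω) = ∏ ω ∈ S, g ω ((c : Ω → L) ω) := by
        refine Finset.prod_congr rfl fun ω hω => ?_
        have : ω ≠ a := fun h => ha (h ▸ hω)
        simp [lemi_er, Function.update_of_ne this]
      simp only [Function.comp, i, hF, hprod, hiff]
      by_cases hc : Function.mulSupport (c : Ω → L) ⊆ (insert a S : Finset Ω)
      · rw [if_pos hc, if_pos hc, Finset.prod_insert ha]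
      · rw [if_neg hc, if_neg hc, mul_zero]
    rw [heq] at hcomp
    exact hcomp

/-- `1 - ∏ p ≤ ∑ (1 - p)` -/
private theorem lemi_prod {Ω : Type*} (p : Ω → ℝ) (S : Finset Ω) (h0 : ∀ ω ∈ S, 0 ≤ p ω)
    (h1 : ∀ ω ∈ S, p ω ≤ 1) : 1 - ∏ ω ∈ S, p ω ≤ ∑ ω ∈ S, (1 - p ω) := by
  classical
  induction S using Finset.induction_on with
  | empty => simp
  | insert a S ha ih =>
    rw [Finset.prod_insert ha, Finset.sum_insert ha]
    have ih' := ih (fun ω hω => h0 ω (Finset.mem_insert_of_mem hω))
      (fun ω hω => h1 ω (Finset.mem_insert_of_mem hω))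
    have ha0 := h0 a (Finset.mem_insert_self a S)
    have ha1 := h1 a (Finset.mem_insert_self a S)
    have hP0 : 0 ≤ ∏ ω ∈ S, p ω :=
      Finset.prod_nonneg fun ω hω => h0 ω (Finset.mem_insert_of_mem hω)
    have hP1 : ∏ ω ∈ S, p ω ≤ 1 :=
      Finset.prod_le_one (fun ω hω => h0 ω (Finset.mem_insert_of_mem hω))
        (fun ω hω => h1 ω (Finset.mem_insert_of_mem hω))
    nlinarith [mul_nonneg (sub_nonneg.2 ha1) (sub_nonneg.2 hP1)]

/-- Fubini for nonnegative functions on `Z × K`, `K` countable -/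
private theorem lemi_fub {Z K : Type*} [MeasurableSpace Z] {m : Measure Z} [IsProbabilityMeasure m]
    [MeasurableSpace K] [DiscreteMeasurableSpace K] [Countable K] (G : Z × K → ℝ)
    (hG : Measurable G) (h0 : ∀ p, 0 ≤ G p) (s : Z → ℝ) (B : ℝ) (hB : ∀ z, s z ≤ B)
    (hs : ∀ z, HasSum (fun k => G (z, k)) (s z)) :
    Integrable G (m.prod Measure.count) ∧ Integrable s m ∧
      ∫ p, G p ∂(m.prod Measure.count) = ∫ z, s z ∂m := by
  have hint : ∀ z, Integrable (fun k => G (z, k)) (Measure.count : Measure K) := by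
    intro z
    rw [integrable_count_iff]
    exact (hs z).summable.norm
  have hval : ∀ z, ∫ k, G (z, k) ∂(Measure.count : Measure K) = s z := by
    intro z
    rw [integral_countable (hint z), ← (hs z).tsum_eq]
    refine tsum_congr fun k => ?_
    simp
  have hnorm : ∀ z, ∫ k, ‖G (z, k)‖ ∂(Measure.count : Measure K) = s z := by
    intro z
    rw [← hval z]
    refine integral_congr_ae (Filter.Eventually.of_forall fun k => ?_)
    exact Real.norm_of_nonneg (h0 _)
  have hs0 : ∀ z, 0 ≤ s z := fun z => (hs z).nonneg fun k => h0 _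
  have hsm : AEStronglyMeasurable s m := by
    have := (hG.aestronglyMeasurable (μ := m.prod (Measure.count : Measure K))).integral_prod_right'
    refine this.congr (Filter.Eventually.of_forall fun z => ?_)
    exact hval z
  have hsi : Integrable s m := by
    refine Integrable.of_bound hsm B (Filter.Eventually.of_forall fun z => ?_)
    rw [Real.norm_of_nonneg (hs0 z)]
    exact hB z
  have hGi : Integrable G (m.prod (Measure.count : Measure K)) := by
    rw [integrable_prod_iff hG.aestronglyMeasurable]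
    refine ⟨Filter.Eventually.of_forall hint, ?_⟩
    simp only [hnorm]
    exact hsi
  refine ⟨hGi, hsi, ?_⟩
  rw [integral_prod _ hGi]
  simp only [hval]

/-- inner products of nonnegative normalized functions -/
private theorem lemi_inner {K : Type*} (u v : K → ℝ) (hu : ∀ k, 0 ≤ u k) (hv : ∀ k, 0 ≤ v k)
    (hu1 : HasSum (fun k => u k ^ 2) 1) (hv1 : HasSum (fun k => v k ^ 2) 1) :
    Summable (fun k => u k * v k) ∧ 0 ≤ ∑' k, u k * v k ∧ ∑' k, u k * v k ≤ 1 ∧
      HasSum (fun k => (u k - v k) ^ 2) (2 - 2 * ∑' k, u k * v k) := by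
  have hsum : Summable (fun k => u k * v k) := by
    refine Summable.of_nonneg_of_le (fun k => mul_nonneg (hu k) (hv k)) (fun k => ?_)
      (hu1.summable.add hv1.summable)
    nlinarith [sq_nonneg (u k - v k), sq_nonneg (u k), sq_nonneg (v k)]
  have hsub : HasSum (fun k => (u k - v k) ^ 2) (2 - 2 * ∑' k, u k * v k) := by
    have h := (hu1.add hv1).sub (hsum.hasSum.mul_left 2)
    have he : (1 : ℝ) + 1 - 2 * ∑' k, u k * v k = 2 - 2 * ∑' k, u k * v k := by ring
    rw [he] at h
    refine h.congr_fun ?_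
    intro k
    ring
  refine ⟨hsum, tsum_nonneg fun k => mul_nonneg (hu k) (hv k), ?_, hsub⟩
  have := hsub.nonneg (fun k => sq_nonneg _)
  linarith

private theorem lemi_shift {K : Type*} [Group K] (h : K → ℝ) (b : K) (s : ℝ) (hh : HasSum h s) :
    HasSum (fun l => h (b * l)) s :=
  (Equiv.hasSum_iff (f := h) (Equiv.mulLeft b)).2 hh

open Classical in
/-- the tensor product of the vectors `f ω`, `ω ∈ S` -/
private noncomputable def lemi_F {Ω L Z : Type*} [Group L] (S : Finset Ω) (f : Ω → Z × L → ℝ) :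
    Z × FS Ω L → ℝ := fun p =>
  if Function.mulSupport (p.2 : Ω → L) ⊆ S then ∏ ω ∈ S, f ω (p.1, (p.2 : Ω → L) ω) else 0

private theorem lemi_F_meas {Ω L Z : Type*} [Group L] [Countable Ω] [Countable L]
    [MeasurableSpace L] [DiscreteMeasurableSpace L] [MeasurableSpace Z] (S : Finset Ω)
    (f : Ω → Z × L → ℝ) (hf : ∀ ω, Measurable (f ω)) : Measurable (lemi_F S f) := by
  refine measurable_from_prod_countable_left fun c => ?_
  unfold lemi_F
  by_cases hc : Function.mulSupport (c : Ω → L) ⊆ S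
  · simp only [if_pos hc]
    exact Finset.measurable_prod _ fun ω _ => (hf ω).comp (measurable_id.prodMk measurable_const)
  · simp only [if_neg hc]
    exact measurable_const

private theorem lemi_F_nonneg {Ω L Z : Type*} [Group L] (S : Finset Ω)
    (f : Ω → Z × L → ℝ) (hf : ∀ ω p, 0 ≤ f ω p) (p : Z × FS Ω L) : 0 ≤ lemi_F S f p := by
  unfold lemi_F
  split_ifs
  · exact Finset.prod_nonneg fun ω _ => hf _ _
  · exact le_rfl

private theorem lemi_F_sq {Ω L Z : Type*} [Group L] (S : Finset Ω)
    (f : Ω → Z × L → ℝ) (hf1 : ∀ ω z, HasSum (fun l => f ω (z, l) ^ 2) 1) (z : Z) :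
    HasSum (fun c : FS Ω L => lemi_F S f (z, c) ^ 2) 1 := by
  classical
  have h := lemi_hasSum (fun ω l => f ω (z, l) ^ 2) (fun _ => 1) S (fun ω l => sq_nonneg _)
    (fun ω _ => hf1 ω z)
  rw [Finset.prod_const_one] at h
  refine h.congr_fun fun c => ?_
  unfold lemi_F
  by_cases hc : Function.mulSupport (c : Ω → L) ⊆ S
  · simp only [if_pos hc, Finset.prod_pow]
  · simp only [if_neg hc]
    norm_num

/-- the main estimate -/
private theorem lemi_main {Ω L Z : Type*} [Countable Ω] [Group L] [Countable L] [MeasurableSpace L]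
    [DiscreteMeasurableSpace L] [MeasurableSpace Z] {m : Measure Z} [IsProbabilityMeasure m]
    {T : Z → Z} (hT : Measurable T) (β : Z → FS Ω L) (hβ : Measurable β) (S : Finset Ω) (η : ℝ)
    (hη : 0 ≤ η)
    (hbad : m.real {z | ¬ Function.mulSupport (β z : Ω → L) ⊆ S} ≤ η)
    (f : Ω → Z × L → ℝ) (hf : ∀ ω, Measurable (f ω)) (hf0 : ∀ ω p, 0 ≤ f ω p)
    (hf1 : ∀ ω z, HasSum (fun l => f ω (z, l) ^ 2) 1)
    (hfe : ∀ ω, ∫ z, (1 - ∑' l, f ω (T z, (β z : Ω → L) ω * l) * f ω (z, l)) ∂m ≤
      η / (S.card + 1)) :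
    ∫ p, (lemi_F S f (tw T β p) - lemi_F S f p) ^ 2 ∂(m.prod Measure.count) ≤ 4 * η := by
  classical
  set F := lemi_F (L := L) S f with hF
  have hFm : Measurable F := lemi_F_meas S f hf
  have hF0 : ∀ p, 0 ≤ F p := lemi_F_nonneg S f hf0
  have hF1 : ∀ z, HasSum (fun c : FS Ω L => F (z, c) ^ 2) 1 := lemi_F_sq S f hf1
  have htw : Measurable (tw T β) := by
    have h1 : Measurable (fun q : Z × FS Ω L => T q.1) := hT.comp measurable_fst
    have h2 : Measurable (fun q : Z × FS Ω L => β q.1 * q.2) :=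
      measurable_from_prod_countable_left fun c =>
        (measurable_from_top (f := fun b : FS Ω L => b * c)).comp hβ
    exact h1.prodMk h2
  have hF1' : ∀ z, HasSum (fun c : FS Ω L => F (tw T β (z, c)) ^ 2) 1 := fun z =>
    lemi_shift (fun c => F (T z, c) ^ 2) (β z) 1 (hF1 (T z))
  -- the inner products of the coordinates
  have hp : ∀ ω z, Summable (fun l => f ω (T z, (β z : Ω → L) ω * l) * f ω (z, l)) ∧
      0 ≤ ∑' l, f ω (T z, (β z : Ω → L) ω * l) * f ω (z, l) ∧
      ∑' l, f ω (T z, (β z : Ω → L) ω * l) * f ω (z, l) ≤ 1 := by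
    intro ω z
    have h1 : HasSum (fun l => f ω (T z, (β z : Ω → L) ω * l) ^ 2) 1 :=
      lemi_shift (fun l => f ω (T z, l) ^ 2) ((β z : Ω → L) ω) 1 (hf1 ω (T z))
    obtain ⟨a, b, c, _⟩ := lemi_inner (fun l => f ω (T z, (β z : Ω → L) ω * l))
      (fun l => f ω (z, l)) (fun _ => hf0 _ _) (fun _ => hf0 _ _) h1 (hf1 ω z)
    exact ⟨a, b, c⟩
  set p : Ω → Z → ℝ := fun ω z => ∑' l, f ω (T z, (β z : Ω → L) ω * l) * f ω (z, l) with hpdef
  have hpi : ∀ ω, Integrable (p ω) m := by
    intro ω
    have hmeas : Measurable (fun q : Z × L => f ω (T q.1, (β q.1 : Ω → L) ω * q.2) * f ω q) := by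
      have h1 : Measurable (fun q : Z × L => T q.1) := hT.comp measurable_fst
      have h2 : Measurable (fun q : Z × L => (β q.1 : Ω → L) ω * q.2) :=
        measurable_from_prod_countable_left fun l =>
          (measurable_from_top (f := fun b : FS Ω L => (b : Ω → L) ω * l)).comp hβ
      have h3 : Measurable (fun q : Z × L => (T q.1, (β q.1 : Ω → L) ω * q.2)) := h1.prodMk h2
      have h4 : Measurable (fun q : Z × L => f ω (T q.1, (β q.1 : Ω → L) ω * q.2)) :=
        (hf ω).comp h3
      exact h4.mul (hf ω)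
    exact (lemi_fub (m := m) _ hmeas (fun q => mul_nonneg (hf0 _ _) (hf0 _ _)) (p ω) 1
      (fun z => (hp ω z).2.2) (fun z => (hp ω z).1.hasSum)).2.1
  -- the squared distance
  have hin : ∀ z, Summable (fun c : FS Ω L => F (tw T β (z, c)) * F (z, c)) ∧
      0 ≤ ∑' c, F (tw T β (z, c)) * F (z, c) ∧ ∑' c, F (tw T β (z, c)) * F (z, c) ≤ 1 ∧
      HasSum (fun c => (F (tw T β (z, c)) - F (z, c)) ^ 2)
        (2 - 2 * ∑' c, F (tw T β (z, c)) * F (z, c)) := fun z =>
    lemi_inner (fun c => F (tw T β (z, c))) (fun c => F (z, c)) (fun _ => hF0 _) (fun _ => hF0 _)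
      (hF1' z) (hF1 z)
  set q : Z → ℝ := fun z => ∑' c, F (tw T β (z, c)) * F (z, c) with hqdef
  have hDm : Measurable (fun x : Z × FS Ω L => (F (tw T β x) - F x) ^ 2) :=
    ((hFm.comp htw).sub hFm).pow_const 2
  obtain ⟨_, hDi, hDe⟩ := lemi_fub (m := m) _ hDm (fun x => sq_nonneg _) (fun z => 2 - 2 * q z) 2
    (fun z => by have := (hin z).2.1; simp only [hqdef]; linarith) (fun z => (hin z).2.2.2)
  rw [hDe]
  -- the good event
  have hgood : ∀ z, Function.mulSupport (β z : Ω → L) ⊆ S → q z = ∏ ω ∈ S, p ω z := by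
    intro z hz
    have h := lemi_hasSum (fun ω l => f ω (T z, (β z : Ω → L) ω * l) * f ω (z, l))
      (fun ω => p ω z) S (fun ω l => mul_nonneg (hf0 _ _) (hf0 _ _))
      (fun ω _ => (hp ω z).1.hasSum)
    rw [← h.tsum_eq]
    refine tsum_congr fun c => ?_
    simp only [hF, lemi_F, tw]
    by_cases hc : Function.mulSupport (c : Ω → L) ⊆ S
    · have hc' : Function.mulSupport ((β z * c : FS Ω L) : Ω → L) ⊆ S :=
        (Function.mulSupport_mul (β z : Ω → L) (c : Ω → L)).trans (Set.union_subset hz hc)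
      rw [if_pos hc, if_pos hc, if_pos hc', ← Finset.prod_mul_distrib]
      rfl
    · rw [if_neg hc, if_neg hc, mul_zero]
  set bad : Set Z := {z | ¬ Function.mulSupport (β z : Ω → L) ⊆ S} with hbadset
  have hbadm : MeasurableSet bad :=
    hβ (t := {b : FS Ω L | ¬ Function.mulSupport (b : Ω → L) ⊆ S}) (MeasurableSet.of_discrete)
  have hptw : ∀ z, 2 - 2 * q z ≤ 2 * ∑ ω ∈ S, (1 - p ω z) + 2 * bad.indicator (fun _ => 1) z := by
    intro z
    have hsum0 : 0 ≤ ∑ ω ∈ S, (1 - p ω z) :=
      Finset.sum_nonneg fun ω _ => sub_nonneg.2 (hp ω z).2.2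
    by_cases hz : z ∈ bad
    · rw [Set.indicator_of_mem hz]
      have := (hin z).2.1
      simp only [hqdef]
      linarith
    · rw [Set.indicator_of_notMem hz]
      have hz' : Function.mulSupport (β z : Ω → L) ⊆ S := by
        by_contra hcon
        exact hz hcon
      have h1 := lemi_prod (fun ω => p ω z) S (fun ω _ => (hp ω z).2.1) (fun ω _ => (hp ω z).2.2)
      rw [hgood z hz']
      linarith
  have hindi : Integrable (bad.indicator (fun _ => (1 : ℝ))) m :=
    (integrable_const (1 : ℝ)).indicator hbadm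
  have hpi' : ∀ ω, Integrable (fun z => 1 - p ω z) m := fun ω =>
    (integrable_const (1 : ℝ)).sub (hpi ω)
  have hsumi : Integrable (fun z => ∑ ω ∈ S, (1 - p ω z)) m :=
    integrable_finsetSum _ fun ω _ => hpi' ω
  calc ∫ z, (2 - 2 * q z) ∂m
      ≤ ∫ z, (2 * ∑ ω ∈ S, (1 - p ω z) + 2 * bad.indicator (fun _ => 1) z) ∂m :=
        integral_mono hDi ((hsumi.const_mul 2).add (hindi.const_mul 2)) hptw
    _ = 2 * ∑ ω ∈ S, ∫ z, (1 - p ω z) ∂m + 2 * m.real bad := by
        rw [integral_add (hsumi.const_mul 2) (hindi.const_mul 2), integral_const_mul,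
          integral_const_mul, integral_finsetSum _ fun ω _ => hpi' ω]
        congr 2
        rw [integral_indicator hbadm]
        simp
    _ ≤ 2 * ∑ ω ∈ S, η / (S.card + 1) + 2 * η := by
        have : ∑ ω ∈ S, ∫ z, (1 - p ω z) ∂m ≤ ∑ ω ∈ S, η / (S.card + 1) :=
          Finset.sum_le_sum fun ω _ => hfe ω
        linarith
    _ ≤ 4 * η := by
        rw [Finset.sum_const, nsmul_eq_mul]
        have h1 : (S.card : ℝ) * (η / (S.card + 1)) ≤ η := by
          rw [← mul_div_assoc, div_le_iff₀ (by positivity)]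
          nlinarith
        linarith

theorem lemI {Ω L Z : Type*} [Countable Ω] [Group L] [Countable L] [MeasurableSpace L]
    [DiscreteMeasurableSpace L] [MeasurableSpace Z] {m : Measure Z} [IsProbabilityMeasure m]
    {T₁ T₂ : Z → Z} (hT : GapPair m T₁ T₂) (β₁ β₂ : Z → FS Ω L) (hβ₁ : Measurable β₁)
    (hβ₂ : Measurable β₂) (C : ℝ)
    (hC : TwGap C (m.prod Measure.count) (tw T₁ β₁) (tw T₂ β₂)) :
    ∃ (ω : Ω) (C' : ℝ), TwGap C' (m.prod Measure.count) (tw T₁ (fun z => (β₁ z : Ω → L) ω))
      (tw T₂ (fun z => (β₂ z : Ω → L) ω)) := by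
  classical
  by_contra hcon
  push Not at hcon
  set K : ℝ := max C 1 with hK
  have hK1 : 1 ≤ K := le_max_right _ _
  have hCK : C ≤ K := le_max_left _ _
  set η : ℝ := 1 / (16 * K) with hη
  have hη0 : 0 < η := by positivity
  -- choice of the finite set
  obtain ⟨e, he⟩ := exists_injective_nat Ω
  have hfin : ∀ n : ℕ, {ω | e ω < n}.Finite := fun n =>
    (Set.finite_lt_nat n).preimage he.injOn
  let Sn : ℕ → Finset Ω := fun n => (hfin n).toFinset
  have hSn : ∀ n, ((Sn n : Finset Ω) : Set Ω) = {ω | e ω < n} := fun n => (hfin n).coe_toFinset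
  let B : ℕ → Set Z := fun n => {z | ¬ (Function.mulSupport (β₁ z : Ω → L) ⊆ Sn n ∧
    Function.mulSupport (β₂ z : Ω → L) ⊆ Sn n)}
  have hBanti : Antitone B := by
    intro n n' hnn z hz hz'
    apply hz
    have hmono : ((Sn n : Finset Ω) : Set Ω) ⊆ Sn n' := by
      rw [hSn, hSn]
      intro ω hω
      exact lt_of_lt_of_le hω hnn
    exact ⟨hz'.1.trans hmono, hz'.2.trans hmono⟩
  have hBm : ∀ n, MeasurableSet (B n) := by
    intro n
    have h1 : MeasurableSet {z | Function.mulSupport (β₁ z : Ω → L) ⊆ Sn n} :=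
      hβ₁ (t := {b : FS Ω L | Function.mulSupport (b : Ω → L) ⊆ Sn n}) (MeasurableSet.of_discrete)
    have h2 : MeasurableSet {z | Function.mulSupport (β₂ z : Ω → L) ⊆ Sn n} :=
      hβ₂ (t := {b : FS Ω L | Function.mulSupport (b : Ω → L) ⊆ Sn n}) (MeasurableSet.of_discrete)
    exact (h1.inter h2).compl
  have hBemp : ⋂ n, B n = ∅ := by
    rw [Set.eq_empty_iff_forall_notMem]
    intro z hz
    rw [Set.mem_iInter] at hz
    have hfinz : (Function.mulSupport (β₁ z : Ω → L) ∪ Function.mulSupport (β₂ z : Ω → L)).Finite :=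
      (show (Function.mulSupport (β₁ z : Ω → L)).Finite from (β₁ z).2).union
        (show (Function.mulSupport (β₂ z : Ω → L)).Finite from (β₂ z).2)
    obtain ⟨N, hN⟩ := (hfinz.image e).bddAbove
    apply hz (N + 1)
    rw [hSn]
    constructor
    · intro ω hω
      exact Nat.lt_succ_of_le (hN ⟨ω, Or.inl hω, rfl⟩)
    · intro ω hω
      exact Nat.lt_succ_of_le (hN ⟨ω, Or.inr hω, rfl⟩)
  have htend := tendsto_measure_iInter_atTop (μ := m) (fun n => (hBm n).nullMeasurableSet) hBanti
    ⟨0, measure_ne_top m _⟩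
  rw [hBemp, measure_empty] at htend
  obtain ⟨n, hn⟩ := ((tendsto_order.1 htend).2 (ENNReal.ofReal η) (by simpa using hη0)).exists
  have hn' : m.real (B n) ≤ η := by
    rw [measureReal_def]
    exact ENNReal.toReal_le_of_le_ofReal hη0.le hn.le
  set S := Sn n with hS
  -- the vectors
  have hfib := fun ω => fib_normalize hT (fun z => (β₁ z : Ω → L) ω) (fun z => (β₂ z : Ω → L) ω)
    ((measurable_from_top (f := fun b : FS Ω L => (b : Ω → L) ω)).comp hβ₁)
    ((measurable_from_top (f := fun b : FS Ω L => (b : Ω → L) ω)).comp hβ₂)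
    (hcon ω) (η / (S.card + 1)) (by positivity)
  choose f hfm hf0 hf1 hfe₁ hfe₂ using hfib
  have hsub₁ : {z | ¬ Function.mulSupport (β₁ z : Ω → L) ⊆ S} ⊆ B n :=
    fun z hz hz' => hz hz'.1
  have hsub₂ : {z | ¬ Function.mulSupport (β₂ z : Ω → L) ⊆ S} ⊆ B n :=
    fun z hz hz' => hz hz'.2
  have hbad₁ : m.real {z | ¬ Function.mulSupport (β₁ z : Ω → L) ⊆ S} ≤ η :=
    (measureReal_mono hsub₁).trans hn'
  have hbad₂ : m.real {z | ¬ Function.mulSupport (β₂ z : Ω → L) ⊆ S} ≤ η :=
    (measureReal_mono hsub₂).trans hn'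
  have hI₁ := lemi_main hT.mp1.measurable β₁ hβ₁ S η hη0.le hbad₁ f hfm hf0 hf1 hfe₁
  have hI₂ := lemi_main hT.mp2.measurable β₂ hβ₂ S η hη0.le hbad₂ f hfm hf0 hf1 hfe₂
  have hFm : Measurable (lemi_F (L := L) S f) := lemi_F_meas S f hfm
  obtain ⟨hFi, _, hFe⟩ := lemi_fub (m := m) (fun x => lemi_F (L := L) S f x ^ 2)
    (hFm.pow_const 2) (fun x => sq_nonneg _) (fun _ => 1) 1 (fun _ => le_rfl)
    (fun z => lemi_F_sq S f hf1 z)
  have hFL : MemLp (lemi_F (L := L) S f) 2 (m.prod Measure.count) :=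
    (memLp_two_iff_integrable_sq hFm.aestronglyMeasurable).2 hFi
  have hfinal := hC.gap _ hFm hFL
  rw [hFe, integral_const, smul_eq_mul, mul_one] at hfinal
  rw [probReal_univ] at hfinal
  set I₁ := ∫ y, (lemi_F (L := L) S f (tw T₁ β₁ y) - lemi_F S f y) ^ 2 ∂(m.prod Measure.count)
  set I₂ := ∫ y, (lemi_F (L := L) S f (tw T₂ β₂ y) - lemi_F S f y) ^ 2 ∂(m.prod Measure.count)
  have hI₁0 : 0 ≤ I₁ := integral_nonneg fun _ => sq_nonneg _
  have hI₂0 : 0 ≤ I₂ := integral_nonneg fun _ => sq_nonneg _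
  have h1 : C * (I₁ + I₂) ≤ K * (I₁ + I₂) := mul_le_mul_of_nonneg_right hCK (by positivity)
  have h2 : K * (I₁ + I₂) ≤ K * (8 * η) :=
    mul_le_mul_of_nonneg_left (by linarith) (by positivity)
  have h3 : K * (8 * η) = 1 / 2 := by
    rw [hη]
    field_simp
    norm_num
  linarith

end Pool.Agent.CR
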