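import Pool.Agent.H.MP_894ea6_lc.L.LemNFin

/-! MP_894ea6_lc, module LemN: the twisted gap for the cocycle of a map into a free action -/

open MeasureTheory

namespace Pool.Agent.CR

private theorem lemn_trunc_abs (x : ℝ) (n : ℕ) : |max (-(n : ℝ)) (min x n)| ≤ |x| := by
  have hn : (0 : ℝ) ≤ n := Nat.cast_nonneg n
  rcases le_total 0 x with hx | hx
  · rw [abs_of_nonneg hx, abs_of_nonneg]
    · exact max_le (by linarith) (min_le_left _ _)
    · exact le_max_of_le_right (le_min hx hn)
  · rw [abs_of_nonpos hx, min_eq_left (hx.trans hn), abs_of_nonpos (max_le (by linarith) hx)]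
    exact neg_le_neg (le_max_right _ _)

private theorem lemn_trunc_bound (x : ℝ) (n : ℕ) : |max (-(n : ℝ)) (min x n)| ≤ n := by
  have hn : (0 : ℝ) ≤ n := Nat.cast_nonneg n
  rw [abs_le]
  exact ⟨le_max_left _ _, max_le (by linarith) (min_le_right _ _)⟩

/-- bounded finitely supported functions suffice for `TwGap` on `Z × L` -/
theorem TwGap.of_fin {Z L : Type*} [MeasurableSpace Z] {m : Measure Z} [IsProbabilityMeasure m]
    [Countable L] [MeasurableSpace L] [DiscreteMeasurableSpace L] {S₁ S₂ : Z × L → Z × L}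
    (h1 : MeasurePreserving S₁ (m.prod Measure.count) (m.prod Measure.count))
    (h2 : MeasurePreserving S₂ (m.prod Measure.count) (m.prod Measure.count)) (K : ℝ)
    (h : ∀ f : Z × L → ℝ, Measurable f → (∃ S : Finset L, ∀ z, ∀ g ∉ S, f (z, g) = 0) →
      (∃ C : ℝ, ∀ p, |f p| ≤ C) → ∫ p, (f p) ^ 2 ∂(m.prod Measure.count) ≤
      K * (∫ p, (f (S₁ p) - f p) ^ 2 ∂(m.prod Measure.count) +
        ∫ p, (f (S₂ p) - f p) ^ 2 ∂(m.prod Measure.count))) :
    TwGap K (m.prod Measure.count) S₁ S₂ := by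
  classical
  haveI : Encodable L := Encodable.ofCountable L
  refine ⟨h1, h2, fun f hf hf2 => ?_⟩
  set F : ℕ → Z × L → ℝ := fun n p =>
    if Encodable.encode p.2 < n then max (-(n : ℝ)) (min (f p) n) else 0 with hF
  have hset : ∀ n : ℕ, MeasurableSet {p : Z × L | Encodable.encode p.2 < n} := by
    intro n
    have : MeasurableSet {l : L | Encodable.encode l < n} := MeasurableSet.of_discrete
    exact measurable_snd this
  have hFm : ∀ n, Measurable (F n) := fun n =>
    Measurable.ite (hset n) (measurable_const.max (hf.min measurable_const)) measurable_const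
  have hFle : ∀ n p, |F n p| ≤ |f p| := by
    intro n p
    simp only [hF]
    split_ifs
    · exact lemn_trunc_abs _ _
    · simp
  have hFb : ∀ n p, |F n p| ≤ n := by
    intro n p
    simp only [hF]
    split_ifs
    · exact lemn_trunc_bound _ _
    · simp
  have hFlim : ∀ p, Filter.Tendsto (fun n => F n p) Filter.atTop (nhds (f p)) := by
    intro p
    refine tendsto_const_nhds.congr' ?_
    obtain ⟨k, hk⟩ := exists_nat_ge |f p|
    filter_upwards [Filter.eventually_ge_atTop (max k (Encodable.encode p.2 + 1))] with n hn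
    have h3 : Encodable.encode p.2 < n := by
      have := le_max_right k (Encodable.encode p.2 + 1)
      omega
    have h4 : |f p| ≤ n := hk.trans (by exact_mod_cast (le_max_left _ _).trans hn)
    rw [abs_le] at h4
    simp only [hF, if_pos h3]
    rw [min_eq_left h4.2, max_eq_right h4.1]
  have hFsupp : ∀ n, ∃ S : Finset L, ∀ z, ∀ g ∉ S, F n (z, g) = 0 := by
    intro n
    have hfin : {l : L | Encodable.encode l < n}.Finite :=
      (Set.finite_lt_nat n).preimage (Encodable.encode_injective.injOn)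
    refine ⟨hfin.toFinset, fun z g hg => ?_⟩
    have : ¬ Encodable.encode g < n := by simpa using hg
    simp only [hF, if_neg this]
  have hsq : Integrable (fun p => (f p) ^ 2) (m.prod Measure.count) := hf2.integrable_sq
  have hlim0 : Filter.Tendsto (fun n => ∫ p, (F n p) ^ 2 ∂(m.prod Measure.count)) Filter.atTop
      (nhds (∫ p, (f p) ^ 2 ∂(m.prod Measure.count))) := by
    refine tendsto_integral_of_dominated_convergence (fun p => (f p) ^ 2)
      (fun n => ((hFm n).pow_const 2).aestronglyMeasurable) hsq ?_ ?_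
    · refine fun n => Filter.Eventually.of_forall fun p => ?_
      rw [Real.norm_eq_abs, abs_pow, sq_le_sq, abs_abs]
      exact hFle n p
    · exact Filter.Eventually.of_forall fun p => (hFlim p).pow 2
  have hlimS : ∀ S : Z × L → Z × L,
      MeasurePreserving S (m.prod Measure.count) (m.prod Measure.count) →
      Filter.Tendsto (fun n => ∫ p, (F n (S p) - F n p) ^ 2 ∂(m.prod Measure.count)) Filter.atTop
      (nhds (∫ p, (f (S p) - f p) ^ 2 ∂(m.prod Measure.count))) := by
    intro S hS
    have hsqS : Integrable (fun p => (f (S p)) ^ 2) (m.prod Measure.count) :=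
      (hS.integrable_comp hsq.aestronglyMeasurable).2 hsq
    refine tendsto_integral_of_dominated_convergence (fun p => 2 * (f (S p)) ^ 2 + 2 * (f p) ^ 2)
      (fun n => ?_) ((hsqS.const_mul 2).add (hsq.const_mul 2)) ?_ ?_
    · exact ((((hFm n).comp hS.measurable).sub (hFm n)).pow_const 2).aestronglyMeasurable
    · refine fun n => Filter.Eventually.of_forall fun p => ?_
      have ha : (F n (S p)) ^ 2 ≤ (f (S p)) ^ 2 := by
        rw [sq_le_sq]; exact hFle n (S p)
      have hb : (F n p) ^ 2 ≤ (f p) ^ 2 := by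
        rw [sq_le_sq]; exact hFle n p
      rw [Real.norm_eq_abs, abs_of_nonneg (sq_nonneg _)]
      nlinarith [sq_nonneg (F n (S p) + F n p)]
    · exact Filter.Eventually.of_forall fun p => ((hFlim (S p)).sub (hFlim p)).pow 2
  refine le_of_tendsto_of_tendsto' hlim0 (((hlimS S₁ h1).add (hlimS S₂ h2)).const_mul K)
    (fun n => ?_)
  exact h (F n) (hFm n) (hFsupp n) ⟨n, hFb n⟩

theorem lemN {Z X G' : Type*} [MeasurableSpace Z] {m : Measure Z} [IsProbabilityMeasure m]
    [Group G'] [Countable G'] [MeasurableSpace G'] [DiscreteMeasurableSpace G']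
    [MeasurableSpace X] [StandardBorelSpace X] (U : G' → X → X) (hU : ∀ g, Measurable (U g))
    (hUmul : ∀ g h x, U (g * h) x = U g (U h x)) (hUone : ∀ x, U 1 x = x)
    (x' : Z → X) (hx' : Measurable x') {T₁ T₂ : Z → Z} (hT : GapPair m T₁ T₂)
    (α₁ α₂ : Z → G') (hα₁ : Measurable α₁) (hα₂ : Measurable α₂)
    (h₁ : ∀ᵐ z ∂m, x' (T₁ z) = U (α₁ z) (x' z)) (h₂ : ∀ᵐ z ∂m, x' (T₂ z) = U (α₂ z) (x' z))
    (hfree : ∀ᵐ z ∂m, ∀ g, U g (x' z) = x' z → g = 1)
    (hnt : ∀ᵐ p ∂(m.prod m), ∀ g, x' p.2 ≠ U g (x' p.1)) :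
    TwGap 8 (m.prod Measure.count) (tw T₁ α₁) (tw T₂ α₂) := by
  apply TwGap.of_fin (tw_mp hT.mp1 hα₁) (tw_mp hT.mp2 hα₂)
  rintro f hf ⟨S, hS⟩ ⟨C, hC⟩
  exact lemN_fin U hU hUmul hUone x' hx' hT α₁ α₂ hα₁ hα₂ h₁ h₂ hfree hnt f hf S hS C hC

end Pool.Agent.CR
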