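import Pool.Agent.H.MP_894ea6_lc.L.GapA

/-! MP_894ea6_lc, module TwBasic: transfer of twisted gaps -/

open MeasureTheory

namespace Pool.Agent.CR

/-- factors of twisted gaps -/
theorem TwGap.factor {Y Y' : Type*} [MeasurableSpace Y] [MeasurableSpace Y'] {ν : Measure Y}
    {ν' : Measure Y'} {C : ℝ} {S₁ S₂ : Y → Y} {S₁' S₂' : Y' → Y'} (h : TwGap C ν S₁ S₂)
    (R : Y → Y') (hR : MeasurePreserving R ν ν') (h1 : MeasurePreserving S₁' ν' ν')
    (h2 : MeasurePreserving S₂' ν' ν') (hc1 : ∀ᵐ y ∂ν, R (S₁ y) = S₁' (R y))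
    (hc2 : ∀ᵐ y ∂ν, R (S₂ y) = S₂' (R y)) : TwGap C ν' S₁' S₂' := by
  refine ⟨h1, h2, fun f hf hf2 => ?_⟩
  have hgap := h.gap (fun y => f (R y)) (hf.comp hR.measurable) (hf2.comp_measurePreserving hR)
  have e : ∀ {g : Y' → ℝ}, Measurable g → ∫ y, g y ∂ν' = ∫ z, g (R z) ∂ν := by
    intro g hg
    rw [← hR.map_eq]
    exact integral_map hR.measurable.aemeasurable hg.aestronglyMeasurable
  have m1 : Measurable (fun y => (f (S₁' y) - f y) ^ 2) :=
    ((hf.comp h1.measurable).sub hf).pow_const 2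
  have m2 : Measurable (fun y => (f (S₂' y) - f y) ^ 2) :=
    ((hf.comp h2.measurable).sub hf).pow_const 2
  rw [e (hf.pow_const 2), e m1, e m2]
  have e1 : ∫ z, (f (S₁' (R z)) - f (R z)) ^ 2 ∂ν = ∫ z, (f (R (S₁ z)) - f (R z)) ^ 2 ∂ν :=
    integral_congr_ae (hc1.mono fun z hz => by simp only [hz])
  have e2 : ∫ z, (f (S₂' (R z)) - f (R z)) ^ 2 ∂ν = ∫ z, (f (R (S₂ z)) - f (R z)) ^ 2 ∂ν :=
    integral_congr_ae (hc2.mono fun z hz => by simp only [hz])
  rw [e1, e2]
  exact hgap

variable {Z : Type*} [MeasurableSpace Z] {m : Measure Z} [IsProbabilityMeasure m]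
  {L : Type*} [Group L] [Countable L] [MeasurableSpace L] [DiscreteMeasurableSpace L]

omit [IsProbabilityMeasure m] in
private theorem twbasic_meas {T : Z → Z} {β : Z → L} (hT : Measurable T) (hβ : Measurable β) :
    Measurable (tw T β) := by
  refine (hT.comp measurable_fst).prodMk ?_
  exact (measurable_of_countable (fun p : L × L => p.1 * p.2)).comp
    ((hβ.comp measurable_fst).prodMk measurable_snd)

omit [IsProbabilityMeasure m] [Countable L] [DiscreteMeasurableSpace L] in
private theorem twbasic_ae {T T' : Z → Z} {β β' : Z → L} (e : ∀ᵐ z ∂m, T z = T' z)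
    (f : ∀ᵐ z ∂m, β z = β' z) :
    ∀ᵐ y ∂(m.prod (Measure.count : Measure L)), tw T β y = tw T' β' y := by
  have h1 : ∀ᵐ y ∂(m.prod (Measure.count : Measure L)), T y.1 = T' y.1 :=
    Measure.quasiMeasurePreserving_fst.ae e
  have h2 : ∀ᵐ y ∂(m.prod (Measure.count : Measure L)), β y.1 = β' y.1 :=
    Measure.quasiMeasurePreserving_fst.ae f
  filter_upwards [h1, h2] with y hy1 hy2
  simp only [tw, hy1, hy2]

/-- almost everywhere equal twists -/
theorem TwGap.congr {C : ℝ} {T₁ T₂ T₁' T₂' : Z → Z} {β₁ β₂ β₁' β₂' : Z → L}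
    (h : TwGap C (m.prod Measure.count) (tw T₁ β₁) (tw T₂ β₂)) (hT₁ : Measurable T₁')
    (hT₂ : Measurable T₂') (hβ₁ : Measurable β₁') (hβ₂ : Measurable β₂')
    (e1 : ∀ᵐ z ∂m, T₁ z = T₁' z) (e2 : ∀ᵐ z ∂m, T₂ z = T₂' z)
    (f1 : ∀ᵐ z ∂m, β₁ z = β₁' z) (f2 : ∀ᵐ z ∂m, β₂ z = β₂' z) :
    TwGap C (m.prod Measure.count) (tw T₁' β₁') (tw T₂' β₂') := by
  have a1 := twbasic_ae (L := L) e1 f1
  have a2 := twbasic_ae (L := L) e2 f2
  refine ⟨h.mp1.congr (twbasic_meas hT₁ hβ₁) a1, h.mp2.congr (twbasic_meas hT₂ hβ₂) a2,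
    fun f hf hf2 => ?_⟩
  have hgap := h.gap f hf hf2
  have i1 : ∫ y, (f (tw T₁ β₁ y) - f y) ^ 2 ∂(m.prod Measure.count) =
      ∫ y, (f (tw T₁' β₁' y) - f y) ^ 2 ∂(m.prod Measure.count) :=
    integral_congr_ae (a1.mono fun z hz => by simp only [hz])
  have i2 : ∫ y, (f (tw T₂ β₂ y) - f y) ^ 2 ∂(m.prod Measure.count) =
      ∫ y, (f (tw T₂' β₂' y) - f y) ^ 2 ∂(m.prod Measure.count) :=
    integral_congr_ae (a2.mono fun z hz => by simp only [hz])
  rw [i1, i2] at hgap
  exact hgap

/-- the embedding of `Z × L'` -/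
private def twbasic_E {Z L L' : Type*} [Group L] [Group L'] (e : L' →* L) : Z × L' → Z × L :=
  Prod.map id e

private theorem twbasic_emb {L' : Type*} [Group L'] [Countable L'] [MeasurableSpace L']
    [DiscreteMeasurableSpace L'] (e : L' →* L) (he : Function.Injective e) :
    MeasurableEmbedding (twbasic_E (Z := Z) e) := by
  have h1 : MeasurableEmbedding (e : L' → L) :=
    ⟨he, Measurable.of_discrete, fun _ _ => MeasurableSet.of_discrete⟩
  exact MeasurableEmbedding.id.prodMap h1

omit [Countable L] in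
private theorem twbasic_count {L' : Type*} [Group L'] [Countable L'] [MeasurableSpace L']
    [DiscreteMeasurableSpace L'] (e : L' →* L) (he : Function.Injective e) :
    Measure.map e (Measure.count : Measure L') = (Measure.count : Measure L).restrict
      (Set.range e) := by
  ext s hs
  rw [Measure.map_apply Measurable.of_discrete hs, Measure.restrict_apply hs,
    ← Measure.count_injective_image he, Set.image_preimage_eq_inter_range]

private theorem twbasic_map {L' : Type*} [Group L'] [Countable L'] [MeasurableSpace L']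
    [DiscreteMeasurableSpace L'] (e : L' →* L) (he : Function.Injective e) :
    Measure.map (twbasic_E (Z := Z) e) (m.prod (Measure.count : Measure L')) =
      (m.prod (Measure.count : Measure L)).restrict (Set.range (twbasic_E (Z := Z) e)) := by
  have h1 : Set.range (twbasic_E (Z := Z) e) = Set.univ ×ˢ Set.range e := by
    rw [twbasic_E, Set.range_prodMap, Set.range_id]
  rw [h1, ← Measure.prod_restrict, Measure.restrict_univ, ← twbasic_count e he, twbasic_E,
    ← Measure.map_prod_map _ _ measurable_id Measurable.of_discrete, Measure.map_id]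

/-- integral of the square of an extension -/
private theorem twbasic_int {L' : Type*} [Group L'] [Countable L'] [MeasurableSpace L']
    [DiscreteMeasurableSpace L'] (e : L' →* L) (he : Function.Injective e) (g : Z × L' → ℝ) :
    ∫ y, (Function.extend (twbasic_E (Z := Z) e) g 0 y) ^ 2 ∂(m.prod (Measure.count : Measure L)) =
      ∫ y, (g y) ^ 2 ∂(m.prod (Measure.count : Measure L')) := by
  have hE := twbasic_emb (Z := Z) e he
  rw [← setIntegral_eq_integral_of_forall_compl_eq_zero
    (s := Set.range (twbasic_E (Z := Z) e))]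
  · rw [← twbasic_map e he, hE.integral_map]
    simp only [hE.injective.extend_apply]
  · intro y hy
    rw [Function.extend_apply' _ _ _ (fun ⟨x, hx⟩ => hy ⟨x, hx⟩)]
    simp

/-- restriction to a subgroup containing the twists -/
theorem TwGap.restrict {L' : Type*} [Group L'] [Countable L'] [MeasurableSpace L']
    [DiscreteMeasurableSpace L'] {C : ℝ} {T₁ T₂ : Z → Z} {α₁ α₂ : Z → L} {β₁ β₂ : Z → L'}
    (hT₁ : MeasurePreserving T₁ m m) (hT₂ : MeasurePreserving T₂ m m)
    (hβ₁ : Measurable β₁) (hβ₂ : Measurable β₂)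
    (h : TwGap C (m.prod Measure.count) (tw T₁ α₁) (tw T₂ α₂)) (e : L' →* L)
    (he : Function.Injective e) (h1 : ∀ᵐ z ∂m, α₁ z = e (β₁ z)) (h2 : ∀ᵐ z ∂m, α₂ z = e (β₂ z)) :
    TwGap C (m.prod Measure.count) (tw T₁ β₁) (tw T₂ β₂) := by
  refine ⟨tw_mp hT₁ hβ₁, tw_mp hT₂ hβ₂, fun f hf hf2 => ?_⟩
  have hE := twbasic_emb (Z := Z) e he
  set F : Z × L → ℝ := Function.extend (twbasic_E (Z := Z) e) f 0 with hF
  have hFE : ∀ x, F (twbasic_E (Z := Z) e x) = f x := fun x => hE.injective.extend_apply _ _ _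
  have hF0 : ∀ y, y ∉ Set.range (twbasic_E (Z := Z) e) → F y = 0 := fun y hy => by
    rw [hF, Function.extend_apply' _ _ _ (fun ⟨x, hx⟩ => hy ⟨x, hx⟩)]
    rfl
  have hFm : Measurable F := hE.measurable_extend hf measurable_const
  have hF2 : MemLp F 2 (m.prod (Measure.count : Measure L)) := by
    have e1 : F = (Set.range (twbasic_E (Z := Z) e)).indicator F := by
      funext y
      by_cases hy : y ∈ Set.range (twbasic_E (Z := Z) e)
      · rw [Set.indicator_of_mem hy]
      · rw [Set.indicator_of_notMem hy, hF0 y hy]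
    rw [e1, memLp_indicator_iff_restrict hE.measurableSet_range, ← twbasic_map e he,
      hE.memLp_map_measure_iff]
    have e2 : F ∘ twbasic_E (Z := Z) e = f := funext hFE
    rwa [e2]
  have hgap := h.gap F hFm hF2
  have key : ∀ {T : Z → Z} {α : Z → L} {β : Z → L'}, (∀ᵐ z ∂m, α z = e (β z)) →
      ∫ y, (F (tw T α y) - F y) ^ 2 ∂(m.prod (Measure.count : Measure L)) =
      ∫ y, (f (tw T β y) - f y) ^ 2 ∂(m.prod (Measure.count : Measure L')) := by
    intro T α β hα
    rw [← twbasic_int e he (fun y => f (tw T β y) - f y)]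
    have h3 : ∀ᵐ y ∂(m.prod (Measure.count : Measure L)), α y.1 = e (β y.1) :=
      Measure.quasiMeasurePreserving_fst.ae hα
    refine integral_congr_ae (h3.mono fun y hy => ?_)
    simp only
    congr 1
    by_cases hyr : y ∈ Set.range (twbasic_E (Z := Z) e)
    · obtain ⟨x, rfl⟩ := hyr
      rw [hE.injective.extend_apply, hFE]
      have h4 : tw T α (twbasic_E (Z := Z) e x) = twbasic_E (Z := Z) e (tw T β x) := by
        have hy' : α x.1 = e (β x.1) := hy
        simp only [tw, twbasic_E, Prod.map, id, hy', map_mul]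
      rw [h4, hFE]
    · rw [Function.extend_apply' _ _ _ (fun ⟨x, hx⟩ => hyr ⟨x, hx⟩), hF0 y hyr, hF0]
      · simp
      · rintro ⟨x, hx⟩
        apply hyr
        refine ⟨(y.1, (β y.1)⁻¹ * x.2), ?_⟩
        have hx2 : e x.2 = α y.1 * y.2 := congrArg Prod.snd hx
        simp only [twbasic_E, Prod.map, id, map_mul, map_inv, hx2, hy, inv_mul_cancel_left]
  rw [key h1, key h2, twbasic_int e he f] at hgap
  exact hgap

/-- coboundaries have invariant vectors -/
theorem not_twGap_of_cob {C : ℝ} {T₁ T₂ : Z → Z} {β₁ β₂ : Z → L} (φ : Z → L) (hφ : Measurable φ)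
    (h1 : ∀ᵐ z ∂m, β₁ z = φ (T₁ z) * (φ z)⁻¹) (h2 : ∀ᵐ z ∂m, β₂ z = φ (T₂ z) * (φ z)⁻¹) :
    ¬ TwGap C (m.prod Measure.count) (tw T₁ β₁) (tw T₂ β₂) := by
  intro h
  set S : Set (Z × L) := {p | p.2 = φ p.1} with hS
  have hSm : MeasurableSet S := by
    have h3 : Measurable (fun p : Z × L => (p.2, φ p.1)) :=
      measurable_snd.prodMk (hφ.comp measurable_fst)
    exact h3 (MeasurableSet.of_discrete (s := {q : L × L | q.1 = q.2}))
  have hSμ : (m.prod (Measure.count : Measure L)) S = 1 := by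
    rw [Measure.prod_apply hSm]
    have h3 : ∀ z, (Measure.count : Measure L) (Prod.mk z ⁻¹' S) = 1 := by
      intro z
      have h4 : Prod.mk z ⁻¹' S = {φ z} := by
        ext l
        simp [hS]
      rw [h4, Measure.count_singleton]
    simp only [h3]
    simp
  set f : Z × L → ℝ := S.indicator (fun _ => (1 : ℝ)) with hf
  have hfm : Measurable f := measurable_const.indicator hSm
  have hf2 : MemLp f 2 (m.prod (Measure.count : Measure L)) :=
    memLp_indicator_const 2 hSm 1 (Or.inr (by rw [hSμ]; exact ENNReal.one_ne_top))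
  have hgap := h.gap f hfm hf2
  have e0 : ∫ y, (f y) ^ 2 ∂(m.prod (Measure.count : Measure L)) = 1 := by
    have e1 : ∀ y, (f y) ^ 2 = S.indicator (fun _ => (1 : ℝ)) y := by
      intro y
      by_cases hy : y ∈ S <;> simp [hf, hy]
    simp only [e1]
    have e2 : ∫ y, S.indicator (fun _ => (1 : ℝ)) y ∂(m.prod (Measure.count : Measure L)) =
        (m.prod (Measure.count : Measure L)).real S := integral_indicator_one hSm
    rw [e2, measureReal_def, hSμ, ENNReal.toReal_one]
  have key : ∀ {T : Z → Z} {β : Z → L}, (∀ᵐ z ∂m, β z = φ (T z) * (φ z)⁻¹) →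
      ∫ y, (f (tw T β y) - f y) ^ 2 ∂(m.prod (Measure.count : Measure L)) = 0 := by
    intro T β hβ
    have h3 : ∀ᵐ y ∂(m.prod (Measure.count : Measure L)), β y.1 = φ (T y.1) * (φ y.1)⁻¹ :=
      Measure.quasiMeasurePreserving_fst.ae hβ
    have h4 : ∀ᵐ y ∂(m.prod (Measure.count : Measure L)), (f (tw T β y) - f y) ^ 2 = 0 := by
      filter_upwards [h3] with y hy
      have h5 : tw T β y ∈ S ↔ y ∈ S := by
        simp only [hS, tw, Set.mem_ofPred_eq, hy]
        constructor
        · intro h6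
          rw [mul_assoc] at h6
          have h7 := mul_left_cancel (a := φ (T y.1)) (b := (φ y.1)⁻¹ * y.2) (c := 1)
            (by rw [mul_one]; exact h6)
          rw [inv_mul_eq_one] at h7
          exact h7.symm
        · intro h6
          rw [h6, inv_mul_cancel_right]
      by_cases hy2 : y ∈ S
      · rw [hf, Set.indicator_of_mem (h5.2 hy2), Set.indicator_of_mem hy2]
        simp
      · rw [hf, Set.indicator_of_notMem (fun h6 => hy2 (h5.1 h6)), Set.indicator_of_notMem hy2]
        simp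
    rw [integral_congr_ae h4]
    simp
  rw [e0, key h1, key h2] at hgap
  norm_num at hgap

end Pool.Agent.CR
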