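import Pool.Agent.H.MP_894ea6_lc.L.Comp
import Pool.Agent.H.MP_894ea6_lc.L.LemN
import Pool.Agent.H.MP_894ea6_lc.L.LemI
import Pool.Agent.H.MP_894ea6_lc.L.TwBasic
import Pool.Agent.H.MP_894ea6_lc.L.MuY

/-! MP_894ea6_lc, module CompO1: some component has a twisted gap -/

open MeasureTheory

namespace Pool.Agent.CR

variable {d y' : ℕ → Bool} {Z : Type*} [MeasurableSpace Z] {m : Measure Z}
  {A : PAct FF m} {x' : Z → Bits} {α : FF → Z → FF} {τ : FF →* V}

/-- the range of `Phi y` as a countable group -/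
abbrev GY (y : ℕ → Bool) : Type := ↥(Phi y).range

instance instMSGY (y : ℕ → Bool) : MeasurableSpace (GY y) := ⊤
instance instDMSGY (y : ℕ → Bool) : DiscreteMeasurableSpace (GY y) := ⟨fun _ => trivial⟩
instance instCountableGY (y : ℕ → Bool) : Countable (GY y) :=
  (Phi y).rangeRestrict_surjective.countable

/-- functions on the coset space as elements of `WW` -/
noncomputable def compo1_hom (y : ℕ → Bool) : FS (V ⧸ HH y) Gam →* WW where
  toFun c := ⟨fun w => (c : V ⧸ HH y → Gam) (w : V ⧸ HH y), 1⟩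
  map_one' := rfl
  map_mul' c c' := by
    apply WW.ext
    · funext w
      simp
    · simp

theorem compo1_mem (y : ℕ → Bool) (c : FS (V ⧸ HH y) Gam) : compo1_hom y c ∈ (Phi y).range := by
  have hfin : (Function.mulSupport (c : V ⧸ HH y → Gam)).Finite := c.2
  obtain ⟨w, hw⟩ := Phi_range y (fun w => (c : V ⧸ HH y → Gam) (w : V ⧸ HH y))
    (fun x h hh => by
      have : ((x * h : V) : V ⧸ HH y) = (x : V ⧸ HH y) := by
        rw [QuotientGroup.mk_mul_of_mem x hh]
      simp only [this])
    ⟨Quotient.out '' (Function.mulSupport (c : V ⧸ HH y → Gam)), hfin.image _, fun x hx =>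
      ⟨(x : V ⧸ HH y).out, ⟨_, hx, rfl⟩, by
        rw [← QuotientGroup.eq, QuotientGroup.out_eq']⟩⟩
  exact ⟨w, hw⟩

/-- functions on the coset space give elements of the range -/
theorem exists_emb (y : ℕ → Bool) : ∃ e : FS (V ⧸ HH y) Gam →* GY y, Function.Injective e ∧
    ∀ c, (e c : WW).v = 1 ∧ ∀ w : V, (e c : WW).c w = (c : V ⧸ HH y → Gam) (w : V ⧸ HH y) := by
  refine ⟨(compo1_hom y).codRestrict (Phi y).range (compo1_mem y), ?_, fun c => ⟨rfl, fun w => rfl⟩⟩
  intro c c' h
  have h1 : compo1_hom y c = compo1_hom y c' := congrArg Subtype.val h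
  apply Subtype.ext
  funext q
  obtain ⟨w, rfl⟩ := QuotientGroup.mk_surjective q
  exact congrFun (congrArg WW.c h1) w

/-- every element of the range with trivial `V`-part comes from `FS` -/
theorem exists_fs (y : ℕ → Bool) (g : FF) (hg : piV g = 1) : ∃ c : FS (V ⧸ HH y) Gam,
    ∀ w : V, (Phi y g).c w = (c : V ⧸ HH y → Gam) (w : V ⧸ HH y) := by
  have _ := hg
  refine ⟨⟨fun q => (Phi y g).c q.out, ?_⟩, fun w => ?_⟩
  · obtain ⟨S, hS, h⟩ := Phi_c_fin y g
    refine (hS.image (fun s : V => (s : V ⧸ HH y))).subset fun q hq => ?_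
    obtain ⟨s, hs, hs'⟩ := h q.out hq
    refine ⟨s, hs, ?_⟩
    have h1 : (s : V ⧸ HH y) = (q.out : V ⧸ HH y) := QuotientGroup.eq.2 hs'
    simp only
    rw [h1, QuotientGroup.out_eq']
  · simp only
    obtain ⟨h, hh⟩ := QuotientGroup.mk_out_eq_mul (HH y) w
    rw [hh, Phi_c_right y g w h h.2]

/-! ### the action of the range on the free part -/

theorem compo1_act_mem {y : ℕ → Bool} {x : Bits} (hx : x ∈ XX y) (u : FF) : act u x ∈ XX y := by
  intro g
  have h1 : act g (act u x) = act u x ↔ act (u⁻¹ * g * u) x = x := by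
    rw [← act_mul]
    constructor
    · intro h
      rw [mul_assoc, act_mul, h, ← act_mul, inv_mul_cancel, act_one]
    · intro h
      have h2 := congrArg (act u) h
      rw [← act_mul] at h2
      rw [← h2]
      congr 1
      group
  rw [h1, hx (u⁻¹ * g * u)]
  have hn : (NN y).Normal := by unfold NN; infer_instance
  constructor
  · intro h
    have := hn.conj_mem _ h u
    have e : u * (u⁻¹ * g * u) * u⁻¹ = g := by group
    rwa [e] at this
  · intro h
    have := hn.conj_mem _ h u⁻¹
    rwa [inv_inv] at this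

theorem compo1_act_eq {y : ℕ → Bool} {x : Bits} (hx : x ∈ XX y) {u v : FF}
    (h : Phi y u = Phi y v) : act u x = act v x := by
  have h1 : v⁻¹ * u ∈ NN y := by
    unfold NN
    rw [MonoidHom.mem_ker, map_mul, map_inv, h, inv_mul_cancel]
  have h2 := congrArg (act v) ((hx _).2 h1)
  rwa [← act_mul, mul_inv_cancel_left] at h2

/-- a preimage in `FF` -/
noncomputable def compo1_lift (y : ℕ → Bool) (g : GY y) : FF := Classical.choose g.2

theorem compo1_lift_spec (y : ℕ → Bool) (g : GY y) : Phi y (compo1_lift y g) = (g : WW) :=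
  Classical.choose_spec g.2

/-- the action of the range of `Phi y` on the free part -/
noncomputable def compo1_U (y : ℕ → Bool) (g : GY y) (x : {x : Bits // x ∈ XX y}) :
    {x : Bits // x ∈ XX y} := ⟨act (compo1_lift y g) x.1, compo1_act_mem x.2 _⟩

theorem compo1_U_phi (y : ℕ → Bool) (u : FF) (x : {x : Bits // x ∈ XX y}) :
    compo1_U y ((Phi y).rangeRestrict u) x = ⟨act u x.1, compo1_act_mem x.2 _⟩ := by
  apply Subtype.ext
  simp only [compo1_U]
  apply compo1_act_eq x.2
  rw [compo1_lift_spec]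
  rfl

theorem RigData.twGap_GY [IsProbabilityMeasure m] (D : RigData d y' A x' α τ) :
    TwGap 8 (m.prod Measure.count)
      (tw (A.T (jj 1 (FreeGroup.of true)))
        (fun z => (Phi y').rangeRestrict (α (jj 1 (FreeGroup.of true)) z)))
      (tw (A.T (jj 1 (FreeGroup.of false)))
        (fun z => (Phi y').rangeRestrict (α (jj 1 (FreeGroup.of false)) z))) := by
  classical
  have hne : ∃ z, x' z ∈ XX y' := D.free.exists
  obtain ⟨z₀, hz₀⟩ := hne
  have hXm : MeasurableSet (XX y') := measurableSet_XX y'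
  have : StandardBorelSpace {x : Bits // x ∈ XX y'} := hXm.standardBorel
  set xg : Z → Bits := fun z => if x' z ∈ XX y' then x' z else x' z₀ with hxg
  have hxgm : Measurable xg := Measurable.ite (D.meas hXm) D.meas measurable_const
  have hxgX : ∀ z, xg z ∈ XX y' := by
    intro z
    simp only [hxg]
    split_ifs with h
    · exact h
    · exact hz₀
  have hxge : ∀ z, x' z ∈ XX y' → xg z = x' z := fun z h => by simp only [hxg, if_pos h]
  set x'' : Z → {x : Bits // x ∈ XX y'} := fun z => ⟨xg z, hxgX z⟩ with hx''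
  have hx''m : Measurable x'' := hxgm.subtype_mk
  have hα : ∀ g : FF, Measurable (fun z => (Phi y').rangeRestrict (α g z)) := fun g =>
    Measurable.comp (g := fun u : FF => (Phi y').rangeRestrict u) Measurable.of_discrete
      (D.αmeas g)
  have heq : ∀ g : FF, ∀ᵐ z ∂m, x'' (A.T g z) =
      compo1_U y' ((Phi y').rangeRestrict (α g z)) (x'' z) := by
    intro g
    filter_upwards [D.αeq g, D.free, (A.mp g).quasiMeasurePreserving.ae D.free] with z h1 h2 h3
    rw [compo1_U_phi]
    apply Subtype.ext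
    simp only [hx'']
    rw [hxge _ h3, hxge _ h2, h1]
  refine lemN (compo1_U y') ?_ ?_ ?_ x'' hx''m (D.gapPair 1) _ _ (hα _) (hα _) (heq _) (heq _) ?_ ?_
  · intro g
    exact ((measurable_act _).comp measurable_subtype_coe).subtype_mk
  · intro g h x
    apply Subtype.ext
    simp only [compo1_U]
    rw [← act_mul]
    apply compo1_act_eq x.2
    rw [compo1_lift_spec, map_mul, compo1_lift_spec, compo1_lift_spec]
    rfl
  · intro x
    apply Subtype.ext
    simp only [compo1_U]
    have : Phi y' (compo1_lift y' 1) = Phi y' 1 := by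
      rw [compo1_lift_spec, map_one]
      rfl
    rw [compo1_act_eq x.2 this, act_one]
  · refine Filter.Eventually.of_forall fun z g hg => ?_
    have h1 : act (compo1_lift y' g) (x'' z).1 = (x'' z).1 := congrArg Subtype.val hg
    have h2 : compo1_lift y' g ∈ NN y' := ((x'' z).2 _).1 h1
    unfold NN at h2
    rw [MonoidHom.mem_ker, compo1_lift_spec] at h2
    exact Subtype.ext h2
  · have hf1 : ∀ᵐ p ∂(m.prod m), x' p.1 ∈ XX y' :=
      (Measure.quasiMeasurePreserving_fst (μ := m) (ν := m)).ae D.free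
    have hf2 : ∀ᵐ p ∂(m.prod m), x' p.2 ∈ XX y' :=
      (Measure.quasiMeasurePreserving_snd (μ := m) (ν := m)).ae D.free
    filter_upwards [D.nt, hf1, hf2] with p h1 h2 h3 g hg
    apply h1 (compo1_lift y' g)
    have h4 := congrArg Subtype.val hg
    simp only [hx'', compo1_U] at h4
    rwa [hxge _ h2, hxge _ h3] at h4

open scoped Classical in
/-- the element of `FS` given by an element of `FF` with trivial `V`-part -/
noncomputable def compo1_b (y : ℕ → Bool) (u : FF) : FS (V ⧸ HH y) Gam :=
  if h : piV u = 1 then Classical.choose (exists_fs y u h) else 1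

theorem compo1_b_spec (y : ℕ → Bool) (u : FF) (h : piV u = 1) (w : V) :
    (Phi y u).c w = (compo1_b y u : V ⧸ HH y → Gam) (w : V ⧸ HH y) := by
  unfold compo1_b
  rw [dif_pos h]
  exact Classical.choose_spec (exists_fs y u h) w

theorem RigData.OO_nonempty [IsProbabilityMeasure m] (D : RigData d y' A x' α τ) :
    (OO y' A α 1).Nonempty := by
  have hcount : Countable (V ⧸ HH y') :=
    Function.Surjective.countable (f := fun w : V => (w : V ⧸ HH y')) QuotientGroup.mk_surjective
  obtain ⟨e, he, hec⟩ := exists_emb y'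
  have hbm : ∀ g : FF, Measurable (fun z => compo1_b y' (α g z)) := fun g =>
    Measurable.comp (g := fun u : FF => compo1_b y' u) Measurable.of_discrete (D.αmeas g)
  have hv : ∀ γ : Gam, ∀ᵐ z ∂m, piV (α (jj 1 γ) z) = 1 := by
    intro γ
    filter_upwards [D.αv (jj 1 γ)] with z hz
    rw [hz, D.τjj]
  have hre : ∀ γ : Gam, ∀ᵐ z ∂m, (Phi y').rangeRestrict (α (jj 1 γ) z) =
      e (compo1_b y' (α (jj 1 γ) z)) := by
    intro γ
    filter_upwards [hv γ] with z hz
    apply Subtype.ext
    apply WW.ext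
    · funext w
      rw [(hec _).2 w, ← compo1_b_spec y' _ hz w]
      rfl
    · rw [(hec _).1]
      show (Phi y' _).v = 1
      rw [Phi_v, hz]
  have h1 := TwGap.restrict (A.mp _) (A.mp _) (hbm _) (hbm _) D.twGap_GY e he
    (hre (FreeGroup.of true)) (hre (FreeGroup.of false))
  obtain ⟨ω, C', h2⟩ := lemI (D.gapPair 1) _ _ (hbm _) (hbm _) 8 h1
  obtain ⟨w, rfl⟩ := QuotientGroup.mk_surjective ω
  refine ⟨w, C', h2.congr (A.mp _).measurable (A.mp _).measurable (D.cw_meas w _) (D.cw_meas w _)
    (Filter.Eventually.of_forall fun _ => rfl) (Filter.Eventually.of_forall fun _ => rfl) ?_ ?_⟩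
  · filter_upwards [hv (FreeGroup.of true)] with z hz
    rw [← compo1_b_spec y' _ hz w]
    rfl
  · filter_upwards [hv (FreeGroup.of false)] with z hz
    rw [← compo1_b_spec y' _ hz w]
    rfl

end Pool.Agent.CR
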