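import Pool.Agent.H.MP_894ea6_lc.L.Defs

/-! MP_894ea6_lc, module InvVec: an invariant vector from a uniform lower bound -/

open MeasureTheory

namespace Pool.Agent.CR

theorem inv_vec {G Y : Type*} [Group G] [MeasurableSpace Y] (ν : Measure Y) (R : G → Y → Y)
    (hR : ∀ g, MeasurePreserving (R g) ν ν)
    (hmul : ∀ g h, ∀ᵐ y ∂ν, R (g * h) y = R g (R h y))
    (S S' : Set Y) (hS : MeasurableSet S) (hS' : MeasurableSet S') (hSf : ν S ≠ ⊤)
    (hSf' : ν S' ≠ ⊤) (c : ℝ) (hc : ∀ g, c ≤ ν.real (R g ⁻¹' S ∩ S')) :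
    ∃ ξ : Y → ℝ, Measurable ξ ∧ (∀ y, 0 ≤ ξ y) ∧ MemLp ξ 2 ν ∧ ∫ y, ξ y ^ 2 ∂ν ≤ ν.real S ∧
      (∀ g, ∀ᵐ y ∂ν, ξ (R g y) = ξ y) ∧ c ≤ ∫ y in S', ξ y ∂ν := by
  classical
  let U : G → (Lp ℝ 2 ν →ₗᵢ[ℝ] Lp ℝ 2 ν) := fun g =>
    Lp.compMeasurePreservingₗᵢ ℝ (R g) (hR g)
  have hUae : ∀ g (f : Lp ℝ 2 ν), ∀ᵐ y ∂ν, U g f y = f (R g y) := fun g f =>
    Lp.coeFn_compMeasurePreserving f (hR g)
  set v : Lp ℝ 2 ν := indicatorConstLp 2 hS hSf (1 : ℝ) with hv
  have hUU : ∀ g h (f : Lp ℝ 2 ν), U h (U g f) = U (g * h) f := by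
    intro g h f
    apply Lp.ext
    have h1 := hUae h (U g f)
    have h2 := (hR h).quasiMeasurePreserving.ae (hUae g f)
    filter_upwards [h1, h2, hUae (g * h) f, hmul g h] with y h1 h2 h3 h4
    rw [h1, h2, h3, h4]
  set K : Set (Lp ℝ 2 ν) := convexHull ℝ (Set.range fun g => U g v) with hK
  have hKU : ∀ h, Set.MapsTo (U h) K K := by
    intro h f hf
    have h1 : U h '' K = convexHull ℝ (U h '' (Set.range fun g => U g v)) := by
      rw [hK]
      exact (U h).toLinearMap.image_convexHull _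
    have h2 : U h f ∈ U h '' K := Set.mem_image_of_mem _ hf
    rw [h1] at h2
    refine convexHull_mono ?_ h2
    rintro _ ⟨_, ⟨g, rfl⟩, rfl⟩
    exact ⟨g * h, (hUU g h v).symm⟩
  set C : Set (Lp ℝ 2 ν) := closure K with hC
  have hCU : ∀ h, Set.MapsTo (U h) C C := fun h => (hKU h).closure (U h).continuous
  have hgC : ∀ g, U g v ∈ C := fun g =>
    subset_closure (subset_convexHull ℝ _ (Set.mem_range_self g))
  have hCne : C.Nonempty := ⟨_, hgC 1⟩
  have hCconv : Convex ℝ C := (convex_convexHull ℝ _).closure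
  have hCcompl : IsComplete C := isClosed_closure.isComplete
  obtain ⟨x, hxC, hx⟩ := exists_norm_eq_iInf_of_complete_convex hCne hCcompl hCconv 0
  have hchar := (norm_eq_iInf_iff_real_inner_le_zero hCconv hxC).1 hx
  have hchar' : ∀ w ∈ C, ‖x‖ ^ 2 ≤ inner ℝ x w := by
    intro w hw
    have := hchar w hw
    rw [zero_sub, inner_neg_left, inner_sub_right, real_inner_self_eq_norm_sq] at this
    linarith
  have hxinv : ∀ h, U h x = x := by
    intro h
    have h1 := hchar' _ (hCU h hxC)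
    have h2 : ‖U h x - x‖ ^ 2 ≤ 0 := by
      rw [norm_sub_sq_real, (U h).norm_map, real_inner_comm]
      linarith
    have h3 : ‖U h x - x‖ = 0 := by
      have := sq_nonneg ‖U h x - x‖
      exact pow_eq_zero_iff (two_ne_zero) |>.1 (le_antisymm h2 this)
    exact sub_eq_zero.1 (norm_eq_zero.1 h3)
  have hvn : ‖v‖ ^ 2 = ν.real S := by
    rw [← real_inner_self_eq_norm_sq, hv, L2.inner_indicatorConstLp_one]
    rw [setIntegral_congr_ae (g := fun _ => (1 : ℝ)) hS]
    · simp
    · filter_upwards [indicatorConstLp_coeFn (p := 2) (hs := hS) (hμs := hSf) (c := (1 : ℝ))]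
        with y hy hyS
      rw [hy, Set.indicator_of_mem hyS]
  have hxn : ‖x‖ ^ 2 ≤ ν.real S := by
    have h1 := hchar' _ (hgC 1)
    have h2 := real_inner_le_norm x (U 1 v)
    rw [(U 1).norm_map] at h2
    rw [← hvn]
    by_cases hx0 : ‖x‖ = 0
    · rw [hx0, zero_pow two_ne_zero]; exact sq_nonneg _
    · have hpos : 0 < ‖x‖ := lt_of_le_of_ne (norm_nonneg _) (Ne.symm hx0)
      have h3 : ‖x‖ ≤ ‖v‖ := by
        have h4 : ‖x‖ * ‖x‖ ≤ ‖x‖ * ‖v‖ := by nlinarith
        exact le_of_mul_le_mul_left h4 hpos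
      exact pow_le_pow_left₀ (norm_nonneg _) h3 2
  have hxS : c ≤ ∫ y in S', x y ∂ν := by
    have h1 : C ⊆ {f | c ≤ inner ℝ (indicatorConstLp 2 hS' hSf' (1 : ℝ)) f} := by
      have hcl : IsClosed {f : Lp ℝ 2 ν | c ≤ inner ℝ (indicatorConstLp 2 hS' hSf' (1 : ℝ)) f} :=
        isClosed_le continuous_const (continuous_const.inner continuous_id)
      refine closure_minimal (convexHull_min ?_ ?_) hcl
      · rintro _ ⟨g, rfl⟩
        simp only [Set.mem_ofPred_eq]
        rw [L2.inner_indicatorConstLp_one]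
        refine (hc g).trans (le_of_eq ?_)
        have h2 : ∫ y in S', U g v y ∂ν = ∫ y in S', (R g ⁻¹' S).indicator (fun _ => (1 : ℝ)) y ∂ν := by
          refine setIntegral_congr_ae hS' ?_
          have h3 := (hR g).quasiMeasurePreserving.ae
            (indicatorConstLp_coeFn (p := 2) (hs := hS) (hμs := hSf) (c := (1 : ℝ)))
          filter_upwards [hUae g v, h3] with y h4 h5 _
          rw [h4, hv, h5]
          rfl
        rw [h2, integral_indicator ((hR g).measurable hS)]
        rw [Measure.restrict_restrict ((hR g).measurable hS)]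
        simp
      · intro f hf f' hf' s t hs ht hst
        simp only [Set.mem_ofPred_eq] at hf hf' ⊢
        rw [inner_add_right, inner_smul_right, inner_smul_right]
        have : c = s * c + t * c := by rw [← add_mul, hst, one_mul]
        rw [this]
        exact add_le_add (mul_le_mul_of_nonneg_left hf hs) (mul_le_mul_of_nonneg_left hf' ht)
    have h2 := h1 hxC
    simp only [Set.mem_ofPred_eq] at h2
    rw [L2.inner_indicatorConstLp_one] at h2
    exact h2
  refine ⟨fun y => |x y|, ?_, fun y => abs_nonneg _, ?_, ?_, ?_, ?_⟩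
  · exact (Lp.stronglyMeasurable x).measurable.abs
  · exact (Lp.memLp x).abs
  · refine le_trans (le_of_eq ?_) hxn
    rw [← real_inner_self_eq_norm_sq, L2.inner_def]
    refine integral_congr_ae (Filter.Eventually.of_forall fun y => ?_)
    simp [sq]
  · intro g
    have h1 := hUae g x
    rw [hxinv g] at h1
    filter_upwards [h1] with y hy
    rw [hy]
  · exact hxS.trans ((le_abs_self _).trans (abs_integral_le_integral_abs))

end Pool.Agent.CR
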