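import Pool.Agent.H.MP_894ea6_lc.L.GapB
import Pool.Agent.H.MP_894ea6_lc.L.InvVec

/-! MP_894ea6_lc, module TC: tight cocycles into torsion free groups are coboundaries -/

open MeasureTheory

namespace Pool.Agent.CR

/-- translates of a nonempty finite set by different elements are different -/
theorem tc_uniq {L : Type*} [Group L] [IsMulTorsionFree L] (F : Set L) (hF : F.Finite)
    (hne : F.Nonempty) {u v : L} (h : ∀ x, u * x ∈ F ↔ v * x ∈ F) : u = v := by
  classical
  set w : L := u * v⁻¹ with hw
  have h1 : ∀ x, x ∈ F → w * x ∈ F := by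
    intro x hx
    have := (h (v⁻¹ * x)).2 (by simpa using hx)
    rw [hw, mul_assoc]; exact this
  obtain ⟨x, hx⟩ := hne
  have h2 : ∀ n : ℕ, w ^ n * x ∈ F := by
    intro n
    induction n with
    | zero => simpa using hx
    | succ n ih => rw [pow_succ', mul_assoc]; exact h1 _ ih
  have h3 : ¬ Function.Injective (fun n : ℕ => w ^ n * x) := by
    intro hinj
    have : (Set.range (fun n : ℕ => w ^ n * x)).Finite :=
      hF.subset (by rintro _ ⟨n, rfl⟩; exact h2 n)
    exact (Set.infinite_range_of_injective hinj) this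
  have h4 : ∃ n : ℕ, n ≠ 0 ∧ w ^ n = 1 := by
    simp only [Function.Injective, not_forall] at h3
    obtain ⟨i, j, hij, hne⟩ := h3
    have hij' : w ^ i = w ^ j := mul_right_cancel hij
    rcases lt_or_gt_of_ne hne with hlt | hlt
    · refine ⟨j - i, by omega, ?_⟩
      have : w ^ i * w ^ (j - i) = w ^ i * 1 := by
        rw [← pow_add, mul_one, hij']; congr 1; omega
      exact mul_left_cancel this
    · refine ⟨i - j, by omega, ?_⟩
      have : w ^ j * w ^ (i - j) = w ^ j * 1 := by
        rw [← pow_add, mul_one, ← hij']; congr 1; omega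
      exact mul_left_cancel this
  obtain ⟨n, hn, hwn⟩ := h4
  have h5 : w = 1 := pow_left_injective hn (by simpa using hwn)
  rw [hw] at h5
  exact mul_inv_eq_one.1 h5

theorem tight_cob {G Z L : Type*} [Group G] [Countable G] [MeasurableSpace Z] {m : Measure Z}
    [IsProbabilityMeasure m] (A : PAct G m) (hE : Erg A) [Group L] [Countable L]
    [MeasurableSpace L] [DiscreteMeasurableSpace L] [IsMulTorsionFree L] (a : G → Z → L)
    (ha : ACoc A a) (B : Set L) (hB : B.Finite) (h : ∀ g, 3 / 4 ≤ m.real {z | a g z ∈ B}) :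
    ∃ φ : Z → L, Measurable φ ∧ ∀ g, ∀ᵐ z ∂m, a g z = φ (A.T g z) * (φ z)⁻¹ := by
  classical
  set ν : Measure (Z × L) := m.prod Measure.count with hν
  set R : G → Z × L → Z × L := fun g => tw (A.T g) (a g) with hRdef
  have hR : ∀ g, MeasurePreserving (R g) ν ν := fun g => tw_mp (A.mp g) (ha.meas g)
  have hmul : ∀ g h, ∀ᵐ y ∂ν, R (g * h) y = R g (R h y) := by
    intro g h
    have h1 : ∀ᵐ y ∂ν, a (g * h) y.1 = a g (A.T h y.1) * a h y.1 :=
      Measure.quasiMeasurePreserving_fst.ae (ha.mul g h)
    filter_upwards [h1] with y hy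
    simp only [hRdef, tw, hy, A.mul, mul_assoc]
  set S : Set (Z × L) := Set.univ ×ˢ {1} with hSdef
  set S' : Set (Z × L) := Set.univ ×ˢ {l | l⁻¹ ∈ B} with hS'def
  have hS : MeasurableSet S := MeasurableSet.univ.prod (MeasurableSet.of_discrete)
  have hS' : MeasurableSet S' := MeasurableSet.univ.prod (MeasurableSet.of_discrete)
  have hSf : ν S ≠ ⊤ := by
    rw [hν, hSdef, Measure.prod_prod]
    simp
  have hBfin : {l : L | l⁻¹ ∈ B}.Finite := by
    have : {l : L | l⁻¹ ∈ B} = Inv.inv ⁻¹' B := rfl
    rw [this]
    exact hB.preimage inv_injective.injOn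
  have hSf' : ν S' ≠ ⊤ := by
    rw [hν, hS'def, Measure.prod_prod]
    simp only [measure_univ, one_mul]
    exact (Measure.count_apply_lt_top.2 hBfin).ne
  have hc : ∀ g, (3 / 4 : ℝ) ≤ ν.real (R g ⁻¹' S ∩ S') := by
    intro g
    refine (h g).trans (le_of_eq ?_)
    have h1 : ν (R g ⁻¹' S ∩ S') = m {z | a g z ∈ B} := by
      have hms : MeasurableSet (R g ⁻¹' S ∩ S') := ((hR g).measurable hS).inter hS'
      rw [hν, Measure.prod_apply hms]
      have h2 : ∀ z, Measure.count (Prod.mk z ⁻¹' (R g ⁻¹' S ∩ S')) =
          ({z | a g z ∈ B}.indicator (fun _ => (1 : ENNReal))) z := by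
        intro z
        by_cases hz : a g z ∈ B
        · have : Prod.mk z ⁻¹' (R g ⁻¹' S ∩ S') = {(a g z)⁻¹} := by
            ext l
            simp only [hRdef, tw, hSdef, hS'def, Set.mem_preimage, Set.mem_inter_iff, Set.mem_prod,
              Set.mem_univ, true_and, Set.mem_singleton_iff, Set.mem_ofPred_eq]
            constructor
            · rintro ⟨h1, _⟩
              exact eq_inv_of_mul_eq_one_right h1
            · rintro rfl
              simpa using hz
          rw [this, Measure.count_singleton, Set.indicator_of_mem (by exact hz)]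
        · have : Prod.mk z ⁻¹' (R g ⁻¹' S ∩ S') = ∅ := by
            ext l
            simp only [hRdef, tw, hSdef, hS'def, Set.mem_preimage, Set.mem_inter_iff, Set.mem_prod,
              Set.mem_univ, true_and, Set.mem_singleton_iff, Set.mem_ofPred_eq,
              Set.mem_empty_iff_false, iff_false, not_and]
            intro h1 h2
            apply hz
            have : l = (a g z)⁻¹ := eq_inv_of_mul_eq_one_right h1
            rw [this] at h2
            simpa using h2
          rw [this, measure_empty, Set.indicator_of_notMem (by exact hz)]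
      have hmB : MeasurableSet {z | a g z ∈ B} := ha.meas g (MeasurableSet.of_discrete (s := B))
      simp_rw [h2]
      rw [lintegral_indicator hmB]
      simp
    simp only [Measure.real, h1]
  obtain ⟨ξ, hξm, hξ0, hξ2, -, hξinv, hξS⟩ := inv_vec ν R hR hmul S S' hS hS' hSf hSf' (3 / 4) hc
  -- a threshold
  have ht : ∃ n : ℕ, ν {y | 1 / ((n : ℝ) + 1) < ξ y} ≠ 0 := by
    by_contra hcon
    push Not at hcon
    have h1 : ∀ᵐ y ∂ν, ξ y = 0 := by
      have h2 : ∀ᵐ y ∂ν, ∀ n : ℕ, ξ y ≤ 1 / ((n : ℝ) + 1) := by
        rw [ae_all_iff]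
        intro n
        rw [ae_iff]
        simpa only [not_le] using hcon n
      filter_upwards [h2] with y hy
      refine le_antisymm ?_ (hξ0 y)
      by_contra hpos
      push Not at hpos
      obtain ⟨n, hn⟩ := exists_nat_one_div_lt hpos
      exact absurd (hy n) (not_le.2 hn)
    have h3 : ∫ y in S', ξ y ∂ν = 0 := by
      rw [integral_congr_ae (ae_restrict_of_ae h1)]
      simp
    rw [h3] at hξS
    norm_num at hξS
  obtain ⟨n, hn⟩ := ht
  set t : ℝ := 1 / ((n : ℝ) + 1) with ht
  have ht0 : 0 < t := Nat.one_div_pos_of_nat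
  -- level sets
  set P : Z → Set L := fun z => {l | t < ξ (z, l)} with hP
  have hPm : ∀ l, MeasurableSet {z | l ∈ P z} := by
    intro l
    exact measurableSet_lt measurable_const (hξm.comp (measurable_id.prodMk measurable_const))
  have hPinv : ∀ g, ∀ᵐ z ∂m, ∀ l, a g z * l ∈ P (A.T g z) ↔ l ∈ P z := by
    intro g
    have h1 := Measure.ae_ae_of_ae_prod (hξinv g)
    filter_upwards [h1] with z hz
    rw [Measure.ae_count_iff] at hz
    intro l
    have := hz l
    simp only [hRdef, tw] at this
    simp only [hP, Set.mem_ofPred_eq, this]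
  have hPfin : ∀ᵐ z ∂m, (P z).Finite := by
    have hms : MeasurableSet {y | t < ξ y} := measurableSet_lt measurable_const hξm
    have h1 : ν {y | t < ξ y} ≠ ⊤ := by
      have h2 : ν {y | t ≤ ‖ξ y‖} < ⊤ := by
        have := hξ2.meas_ge_lt_top (by norm_num) (by norm_num) (ε := t.toNNReal) (by simpa using ht0)
        refine lt_of_le_of_lt (measure_mono ?_) this
        intro y hy
        simp only [Set.mem_ofPred_eq] at hy ⊢
        exact Real.toNNReal_le_iff_le_coe.2 hy
      refine (lt_of_le_of_lt (measure_mono ?_) h2).ne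
      intro y hy
      simp only [Set.mem_ofPred_eq] at hy ⊢
      rw [Real.norm_of_nonneg (hξ0 y)]
      exact hy.le
    have h3 := Measure.ae_measure_lt_top hms h1
    filter_upwards [h3] with z hz
    exact Measure.count_apply_lt_top.1 hz
  -- the set of points with nonempty level set is full
  have hPne : ∀ᵐ z ∂m, (P z).Nonempty := by
    set E : Set Z := {z | (P z).Nonempty} with hEdef
    have hEeq : E = ⋃ l, {z | l ∈ P z} := by
      ext z; simp [hEdef, Set.Nonempty]
    have hEm : MeasurableSet E := by
      rw [hEeq]; exact MeasurableSet.iUnion hPm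
    have hEi : ∀ g, ∀ᵐ z ∂m, A.T g z ∈ E ↔ z ∈ E := by
      intro g
      filter_upwards [hPinv g] with z hz
      constructor
      · rintro ⟨l, hl⟩
        refine ⟨(a g z)⁻¹ * l, ?_⟩
        rw [← hz]; simpa using hl
      · rintro ⟨l, hl⟩
        exact ⟨a g z * l, (hz l).2 hl⟩
    rcases hE E hEm hEi with h0 | h0
    · exfalso
      apply hn
      have h1 : ν (E ×ˢ Set.univ) = 0 := by
        rw [hν, Measure.prod_prod, h0, zero_mul]
      refine measure_mono_null ?_ h1
      intro y hy
      exact ⟨⟨y.2, hy⟩, Set.mem_univ _⟩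
    · rw [ae_iff]
      exact h0
  -- classes
  set D : Finset L → L → Set Z := fun F l => {z | ∀ x, x ∈ P z ↔ l⁻¹ * x ∈ F} with hD
  have hDm : ∀ F l, MeasurableSet (D F l) := by
    intro F l
    have : D F l = ⋂ x, {z | x ∈ P z ↔ l⁻¹ * x ∈ F} := by
      ext z; simp [hD]
    rw [this]
    refine MeasurableSet.iInter fun x => ?_
    by_cases hx : l⁻¹ * x ∈ F
    · simp only [hx, iff_true]; exact hPm x
    · simp only [hx, iff_false]; exact (hPm x).compl
  have hDi : ∀ g, ∀ᵐ z ∂m, ∀ F l, A.T g z ∈ D F (a g z * l) ↔ z ∈ D F l := by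
    intro g
    filter_upwards [hPinv g] with z hz F l
    simp only [hD, Set.mem_ofPred_eq]
    constructor
    · intro h1 x
      have := h1 (a g z * x)
      rw [hz] at this
      rw [this]
      simp [mul_assoc]
    · intro h1 x
      have := h1 ((a g z)⁻¹ * x)
      rw [← hz] at this
      rw [show a g z * ((a g z)⁻¹ * x) = x by group] at this
      rw [this]
      simp [mul_assoc]
  -- a finite set whose class is full
  have hF : ∃ F : Finset L, F.Nonempty ∧ m (⋃ l, D F l) ≠ 0 := by
    by_contra hcon
    push Not at hcon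
    have h1 : ∀ᵐ z ∂m, ∀ F : Finset L, F.Nonempty → z ∉ ⋃ l, D F l := by
      rw [ae_all_iff]
      intro F
      by_cases hFn : F.Nonempty
      · have := hcon F hFn
        filter_upwards [measure_eq_zero_iff_ae_notMem.1 this] with z hz _
        exact hz
      · exact Filter.Eventually.of_forall fun z hh => absurd hh hFn
    have h2 : ∀ᵐ _z ∂m, False := by
      filter_upwards [h1, hPfin, hPne] with z hz hfin hne
      refine hz hfin.toFinset (by simpa using hne) ?_
      rw [Set.mem_iUnion]
      refine ⟨1, ?_⟩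
      intro x
      simp
    rw [ae_iff] at h2
    simp at h2
  obtain ⟨F, hFne, hF0⟩ := hF
  have hUm : MeasurableSet (⋃ l, D F l) := MeasurableSet.iUnion (hDm F)
  have hfull : ∀ᵐ z ∂m, z ∈ ⋃ l, D F l := by
    have hEi : ∀ g, ∀ᵐ z ∂m, A.T g z ∈ ⋃ l, D F l ↔ z ∈ ⋃ l, D F l := by
      intro g
      filter_upwards [hDi g] with z hz
      simp only [Set.mem_iUnion]
      constructor
      · rintro ⟨l, hl⟩
        refine ⟨(a g z)⁻¹ * l, ?_⟩
        rw [← hz]; simpa using hl
      · rintro ⟨l, hl⟩
        exact ⟨a g z * l, (hz F l).2 hl⟩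
    rcases hE _ hUm hEi with h0 | h0
    · exact absurd h0 hF0
    · rw [ae_iff]
      exact h0
  have huniq : ∀ z l l', z ∈ D F l → z ∈ D F l' → l = l' := by
    intro z l l' h1 h2
    have : l⁻¹ = l'⁻¹ := tc_uniq (F : Set L) F.finite_toSet hFne (fun x => by
      have h3 := h1 x
      have h4 := h2 x
      exact (h3.symm.trans h4))
    exact inv_injective this
  set φ : Z → L := fun z => if hz : ∃ l, z ∈ D F l then hz.choose else 1 with hφ
  have hφD : ∀ z l, z ∈ D F l → φ z = l := by
    intro z l hl
    have hex : ∃ l, z ∈ D F l := ⟨l, hl⟩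
    have h1 : φ z = hex.choose := by simp only [hφ, dif_pos hex]
    rw [h1]
    exact huniq z _ _ hex.choose_spec hl
  refine ⟨φ, ?_, ?_⟩
  · refine measurable_to_countable' fun l => ?_
    have h1 : φ ⁻¹' {l} = D F l ∪ (if l = 1 then (⋃ l, D F l)ᶜ else ∅) := by
      ext z
      simp only [Set.mem_preimage, Set.mem_singleton_iff, Set.mem_union]
      constructor
      · intro hz
        by_cases hex : ∃ l', z ∈ D F l'
        · obtain ⟨l', hl'⟩ := hex
          left
          rw [hφD z l' hl'] at hz
          rw [← hz]; exact hl'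
        · right
          have h2 : φ z = 1 := by simp only [hφ, dif_neg hex]
          rw [if_pos (by rw [← hz, h2])]
          simpa using hex
      · rintro (hz | hz)
        · exact hφD z l hz
        · by_cases hl : l = 1
          · rw [if_pos hl] at hz
            have hex : ¬ ∃ l', z ∈ D F l' := by simpa using hz
            rw [hl]
            simp only [hφ, dif_neg hex]
          · rw [if_neg hl] at hz
            exact absurd hz (Set.notMem_empty _)
    rw [h1]
    refine (hDm F l).union ?_
    split_ifs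
    · exact hUm.compl
    · exact MeasurableSet.empty
  · intro g
    filter_upwards [hfull, hDi g] with z h1 h2
    obtain ⟨l, hl⟩ := Set.mem_iUnion.1 h1
    rw [hφD z l hl, hφD (A.T g z) (a g z * l) ((h2 F l).2 hl)]
    group

end Pool.Agent.CR
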