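import Pool.Agent.H.MP_894ea6_lc.L.Defs

/-! MP_894ea6_lc, module FreeComb: initial segments of reduced words -/

namespace Pool.Agent.CR

open scoped Classical in
/-- the initial segments of length `< min L |b|` of the reduced word of `b` -/
noncomputable def Pre (L : ℕ) (b : Gam) : Finset Gam :=
  (Finset.range (min L b.norm)).image (fun j => FreeGroup.mk (b.toWord.take j))

private theorem freecomb_red_take {w : List (Bool × Bool)} (hw : FreeGroup.IsReduced w) (j : ℕ) :
    FreeGroup.IsReduced (w.take j) :=
  List.IsChain.take hw j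

theorem card_Pre (L : ℕ) (b : Gam) : (Pre L b).card = min L b.norm := by
  classical
  unfold Pre
  rw [Finset.card_image_of_injOn, Finset.card_range]
  intro i hi j hj hij
  simp only [Finset.coe_range, Set.mem_Iio] at hi hj
  have hi' : i < b.toWord.length := lt_of_lt_of_le hi (min_le_right _ _)
  have hj' : j < b.toWord.length := lt_of_lt_of_le hj (min_le_right _ _)
  have h := congrArg FreeGroup.toWord hij
  simp only [FreeGroup.toWord_mk] at h
  rw [(freecomb_red_take FreeGroup.isReduced_toWord i).reduce_eq,
    (freecomb_red_take FreeGroup.isReduced_toWord j).reduce_eq] at h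
  have h2 := congrArg List.length h
  rw [List.length_take, List.length_take] at h2
  omega

open scoped Classical in
private noncomputable def freecomb_PL (L : ℕ) (w : List (Bool × Bool)) : Finset Gam :=
  (Finset.range (min L w.length)).image (fun j => FreeGroup.mk (w.take j))

private theorem freecomb_Pre_mk (L : ℕ) {w : List (Bool × Bool)} (hw : FreeGroup.IsReduced w) :
    Pre L (FreeGroup.mk w) = freecomb_PL L w := by
  unfold Pre freecomb_PL
  have h : (FreeGroup.mk w).toWord = w := by rw [FreeGroup.toWord_mk, hw.reduce_eq]
  have h2 : (FreeGroup.mk w).norm = w.length := by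
    show (FreeGroup.mk w).toWord.length = _
    rw [h]
  rw [h, h2]

open scoped Classical in
private theorem freecomb_tri (X Y Z : Finset Gam) :
    (symmDiff X Z).card ≤ (symmDiff X Y).card + (symmDiff Y Z).card := by
  refine le_trans (Finset.card_le_card ?_) (Finset.card_union_le _ _)
  exact symmDiff_triangle X Y Z

open scoped Classical in
private theorem freecomb_img (g : Gam) (X Y : Finset Gam) :
    (symmDiff (X.image (fun x => g * x)) (Y.image (fun x => g * x))).card =
      (symmDiff X Y).card := by
  rw [← Finset.image_symmDiff _ _ (mul_right_injective g),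
    Finset.card_image_of_injective _ (mul_right_injective g)]

open scoped Classical in
private theorem freecomb_symm (X Y : Finset Gam) :
    (symmDiff X Y).card = (symmDiff Y X).card := by
  rw [symmDiff_comm]

/-- right multiplication, reduced case -/
private theorem freecomb_right0 (L : ℕ) (w : List (Bool × Bool)) (s : Bool × Bool) :
    (open scoped Classical in symmDiff (freecomb_PL L (w ++ [s])) (freecomb_PL L w)).card ≤ 1 := by
  classical
  refine le_trans (Finset.card_le_card (t := {FreeGroup.mk w}) ?_) (by simp)
  intro x hx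
  rw [Finset.mem_singleton]
  rw [Finset.mem_symmDiff] at hx
  unfold freecomb_PL at hx
  simp only [Finset.mem_image, Finset.mem_range, List.length_append, List.length_singleton] at hx
  rcases hx with ⟨⟨j, hj, rfl⟩, h2⟩ | ⟨⟨j, hj, rfl⟩, h2⟩
  · by_cases h : j < w.length
    · exfalso
      apply h2
      refine ⟨j, by omega, ?_⟩
      rw [List.take_append_of_le_length h.le]
    · have : j = w.length := by omega
      subst this
      rw [List.take_append_of_le_length le_rfl, List.take_length]
  · exfalso
    apply h2
    refine ⟨j, by omega, ?_⟩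
    rw [List.take_append_of_le_length (by omega)]

/-- left multiplication, reduced case -/
private theorem freecomb_left0 (L : ℕ) (w : List (Bool × Bool)) (s : Bool × Bool) :
    (open scoped Classical in symmDiff (freecomb_PL L (s :: w))
      ((freecomb_PL L w).image (fun x => FreeGroup.mk [s] * x))).card ≤ 2 := by
  classical
  refine le_trans (Finset.card_le_card (t := {1, FreeGroup.mk [s] * FreeGroup.mk (w.take (L - 1))})
    ?_) (Finset.card_le_two)
  intro x hx
  rw [Finset.mem_insert, Finset.mem_singleton]
  rw [Finset.mem_symmDiff] at hx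
  unfold freecomb_PL at hx
  simp only [Finset.mem_image, Finset.mem_range, List.length_cons] at hx
  rcases hx with ⟨⟨j, hj, rfl⟩, h2⟩ | ⟨⟨_, ⟨j, hj, rfl⟩, rfl⟩, h2⟩
  · rcases j with _ | j
    · left; simp [FreeGroup.one_eq_mk]
    · exfalso
      apply h2
      refine ⟨_, ⟨j, by omega, rfl⟩, ?_⟩
      rw [FreeGroup.mul_mk, List.take_succ_cons]
      rfl
  · by_cases h : j + 1 < L
    · exfalso
      apply h2
      refine ⟨j + 1, by omega, ?_⟩
      rw [FreeGroup.mul_mk, List.take_succ_cons]
      rfl
    · right
      have : j = L - 1 := by omega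
      rw [this]

/-- either `w ++ [s]` is reduced or `w` ends with the inverse of `s` -/
private theorem freecomb_casesR (w : List (Bool × Bool)) (s : Bool × Bool)
    (hw : FreeGroup.IsReduced w) :
    FreeGroup.IsReduced (w ++ [s]) ∨ ∃ w', w = w' ++ [(s.1, !s.2)] := by
  rcases List.eq_nil_or_concat w with h | ⟨w', t, h⟩
  · left; subst h; exact FreeGroup.IsReduced.singleton
  · rw [List.concat_eq_append] at h
    by_cases hts : t.1 = s.1 → t.2 = s.2
    · left
      subst h
      unfold FreeGroup.IsReduced at *
      rw [List.append_assoc, List.singleton_append]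
      rw [List.isChain_append] at hw ⊢
      refine ⟨hw.1, ?_, ?_⟩
      · rw [List.isChain_cons_cons]
        exact ⟨hts, List.isChain_singleton _⟩
      · intro x hx y hy
        simp only [List.head?_cons, Option.mem_def, Option.some.injEq] at hy
        subst hy
        exact hw.2.2 x hx t (by simp)
    · right
      push Not at hts
      refine ⟨w', ?_⟩
      rw [h]
      congr 2
      ext
      · exact hts.1
      · show t.2 = !s.2
        rcases h1 : t.2 <;> rcases h2 : s.2 <;> simp_all

private theorem freecomb_casesL (w : List (Bool × Bool)) (s : Bool × Bool)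
    (hw : FreeGroup.IsReduced w) :
    FreeGroup.IsReduced (s :: w) ∨ ∃ w', w = (s.1, !s.2) :: w' := by
  rcases w with _ | ⟨t, w'⟩
  · left; exact FreeGroup.IsReduced.singleton
  · by_cases hts : s.1 = t.1 → s.2 = t.2
    · left
      unfold FreeGroup.IsReduced at *
      rw [List.isChain_cons_cons]
      exact ⟨hts, hw⟩
    · right
      push Not at hts
      refine ⟨w', ?_⟩
      congr 1
      ext
      · exact hts.1.symm
      · show t.2 = !s.2
        rcases h1 : t.2 <;> rcases h2 : s.2 <;> simp_all

private theorem freecomb_mk_inv (s : Bool × Bool) :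
    (FreeGroup.mk [s] : Gam)⁻¹ = FreeGroup.mk [(s.1, !s.2)] := by
  rw [FreeGroup.inv_mk]
  rfl

private theorem freecomb_right1 (L : ℕ) (b : Gam) (s : Bool × Bool) :
    (open scoped Classical in symmDiff (Pre L (b * FreeGroup.mk [s])) (Pre L b)).card ≤ 1 := by
  classical
  have hb : FreeGroup.mk b.toWord = b := FreeGroup.mk_toWord
  have hred : FreeGroup.IsReduced b.toWord := FreeGroup.isReduced_toWord
  rcases freecomb_casesR b.toWord s hred with h | ⟨w', h⟩
  · have e1 : b * FreeGroup.mk [s] = FreeGroup.mk (b.toWord ++ [s]) := by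
      rw [← FreeGroup.mul_mk, hb]
    rw [e1, freecomb_Pre_mk L h, ← hb, freecomb_Pre_mk L hred, hb]
    exact freecomb_right0 L _ s
  · have hred' : FreeGroup.IsReduced (w' ++ [(s.1, !s.2)]) := by rw [← h]; exact hred
    have hw' : FreeGroup.IsReduced w' := List.IsChain.left_of_append hred'
    have e2 : b = FreeGroup.mk w' * FreeGroup.mk [(s.1, !s.2)] := by
      rw [FreeGroup.mul_mk, ← h, hb]
    have e1 : b * FreeGroup.mk [s] = FreeGroup.mk w' := by
      rw [e2, ← freecomb_mk_inv, inv_mul_cancel_right]
    rw [e1, freecomb_Pre_mk L hw', symmDiff_comm]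
    have e3 : b = FreeGroup.mk (w' ++ [(s.1, !s.2)]) := by rw [← h, hb]
    rw [e3, freecomb_Pre_mk L hred']
    exact freecomb_right0 L _ _

private theorem freecomb_left1 (L : ℕ) (b : Gam) (s : Bool × Bool) :
    (open scoped Classical in symmDiff (Pre L (FreeGroup.mk [s] * b))
      ((Pre L b).image (fun x => FreeGroup.mk [s] * x))).card ≤ 2 := by
  classical
  have hb : FreeGroup.mk b.toWord = b := FreeGroup.mk_toWord
  have hred : FreeGroup.IsReduced b.toWord := FreeGroup.isReduced_toWord
  rcases freecomb_casesL b.toWord s hred with h | ⟨w', h⟩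
  · have e1 : FreeGroup.mk [s] * b = FreeGroup.mk (s :: b.toWord) := by
      rw [← hb, FreeGroup.mul_mk, hb]; rfl
    rw [e1, freecomb_Pre_mk L h, ← hb, freecomb_Pre_mk L hred, hb]
    exact freecomb_left0 L _ s
  · have hred' : FreeGroup.IsReduced ((s.1, !s.2) :: w') := by rw [← h]; exact hred
    have hw' : FreeGroup.IsReduced w' := List.IsChain.of_cons hred'
    have e2 : b = FreeGroup.mk [(s.1, !s.2)] * FreeGroup.mk w' := by
      rw [FreeGroup.mul_mk, List.singleton_append, ← h, hb]
    have e1 : FreeGroup.mk [s] * b = FreeGroup.mk w' := by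
      rw [e2, ← freecomb_mk_inv, mul_inv_cancel_left]
    have e3 : b = FreeGroup.mk ((s.1, !s.2) :: w') := by rw [← h, hb]
    have key := freecomb_left0 L w' (s.1, !s.2)
    rw [← freecomb_Pre_mk L hred', ← freecomb_Pre_mk L hw', ← e3, ← freecomb_mk_inv] at key
    rw [e1]
    rw [← freecomb_img (FreeGroup.mk [s])] at key
    rw [Finset.image_image] at key
    have e4 : ((fun x : Gam => FreeGroup.mk [s] * x) ∘ fun x => (FreeGroup.mk [s])⁻¹ * x) = id := by
      funext x
      exact mul_inv_cancel_left _ _
    rw [e4, Finset.image_id, symmDiff_comm] at key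
    exact key

private theorem freecomb_right2 (L : ℕ) (l : List (Bool × Bool)) : ∀ b : Gam,
    (open scoped Classical in symmDiff (Pre L (b * FreeGroup.mk l)) (Pre L b)).card ≤
      l.length := by
  classical
  induction l with
  | nil =>
    intro b
    rw [← FreeGroup.one_eq_mk, mul_one, symmDiff_self]
    simp
  | cons s l ih =>
    intro b
    have e : FreeGroup.mk (s :: l) = FreeGroup.mk [s] * FreeGroup.mk l := by
      rw [FreeGroup.mul_mk]; rfl
    rw [e, ← mul_assoc, List.length_cons]
    refine le_trans (freecomb_tri _ (Pre L (b * FreeGroup.mk [s])) _) ?_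
    have h1 := ih (b * FreeGroup.mk [s])
    have h2 := freecomb_right1 L b s
    exact Nat.add_le_add h1 h2

private theorem freecomb_left2 (L : ℕ) (b : Gam) (l : List (Bool × Bool)) :
    (open scoped Classical in symmDiff (Pre L (FreeGroup.mk l * b))
      ((Pre L b).image (fun x => FreeGroup.mk l * x))).card ≤ 2 * l.length := by
  classical
  induction l with
  | nil =>
    rw [← FreeGroup.one_eq_mk]
    simp
  | cons s l ih =>
    have e : FreeGroup.mk (s :: l) = FreeGroup.mk [s] * FreeGroup.mk l := by
      rw [FreeGroup.mul_mk]; rfl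
    rw [e, mul_assoc, List.length_cons]
    refine le_trans (freecomb_tri _
      ((Pre L (FreeGroup.mk l * b)).image (fun x => FreeGroup.mk [s] * x)) _) ?_
    have h1 := freecomb_left1 L (FreeGroup.mk l * b) s
    rw [← freecomb_img (FreeGroup.mk [s]), Finset.image_image] at ih
    have e4 : ((fun x : Gam => FreeGroup.mk [s] * x) ∘ fun x => FreeGroup.mk l * x) =
        fun x => FreeGroup.mk [s] * FreeGroup.mk l * x := by
      funext x
      exact (mul_assoc _ _ _).symm
    rw [e4] at ih
    refine le_trans (Nat.add_le_add h1 ih) ?_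
    omega

open scoped Classical in
theorem card_symmDiff_Pre (L : ℕ) (u b v : Gam) :
    (symmDiff (Pre L (u * b * v)) ((Pre L b).image (fun x => u * x))).card ≤
      2 * (u.norm + v.norm) := by
  have h1 := freecomb_left2 L (b * v) u.toWord
  rw [FreeGroup.mk_toWord] at h1
  have h2 := freecomb_right2 L v.toWord b
  rw [FreeGroup.mk_toWord] at h2
  rw [← freecomb_img u] at h2
  rw [mul_assoc]
  refine le_trans (freecomb_tri _ ((Pre L (b * v)).image (fun x => u * x)) _) ?_
  have e1 : u.toWord.length = u.norm := rfl
  have e2 : v.toWord.length = v.norm := rfl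
  rw [e1] at h1
  rw [e2] at h2
  refine le_trans (Nat.add_le_add h1 h2) ?_
  omega

theorem finite_norm_le (L : ℕ) : {b : Gam | b.norm ≤ L}.Finite := by
  have h : {l : List (Bool × Bool) | l.length ≤ L}.Finite := List.finite_length_le _ L
  exact h.preimage (f := FreeGroup.toWord) (FreeGroup.toWord_injective.injOn)

end Pool.Agent.CR
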