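import Pool.Agent.H.MP_894ea6_lc.L.GapA
import Pool.Agent.H.MP_894ea6_lc.L.FreeComb

/-! MP_894ea6_lc, module Zeta: a twisted gap makes the commuting cocycle tight -/

open MeasureTheory

namespace Pool.Agent.CR

/-- tails of a group valued function have small measure -/
private theorem zeta_tail {Z : Type*} [MeasurableSpace Z] {m : Measure Z}
    [IsProbabilityMeasure m] (β : Z → Gam) (hβ : Measurable β) {η : ℝ} (hη : 0 < η) :
    ∃ K : ℕ, ∀ K' : ℕ, K ≤ K' → m {z | K' < (β z).norm} ≤ ENNReal.ofReal η := by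
  have hmeas : ∀ n : ℕ, MeasurableSet {z | n < (β z).norm} := fun n =>
    hβ (MeasurableSet.of_discrete (s := {b : Gam | n < b.norm}))
  have hanti : Antitone fun n : ℕ => {z | n < (β z).norm} := by
    intro a b hab z hz
    show a < (β z).norm
    have hz' : b < (β z).norm := hz
    omega
  have hinter : (⋂ n : ℕ, {z | n < (β z).norm}) = (∅ : Set Z) := by
    ext z
    simp only [Set.mem_iInter, Set.mem_empty_iff_false, iff_false, not_forall]
    exact ⟨(β z).norm, lt_irrefl (β z).norm⟩
  have ht := tendsto_measure_iInter_atTop (μ := m) (fun n => (hmeas n).nullMeasurableSet) hanti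
    ⟨0, measure_ne_top _ _⟩
  rw [hinter, measure_empty] at ht
  have hpos : (0 : ENNReal) < ENNReal.ofReal η := ENNReal.ofReal_pos.2 hη
  have := (ht.eventually (ge_mem_nhds hpos)).exists_forall_of_atTop
  exact this

private theorem zeta_gap_set {Y : Type*} [MeasurableSpace Y] {C : ℝ} {ν : Measure Y}
    {S₁ S₂ : Y → Y} (h : TwGap C ν S₁ S₂) {S : Set Y} (hS : MeasurableSet S) (hfin : ν S ≠ ⊤) :
    ν.real S ≤ C * (ν.real (symmDiff (S₁ ⁻¹' S) S) + ν.real (symmDiff (S₂ ⁻¹' S) S)) := by
  classical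
  have hf : Measurable (S.indicator (fun _ => (1 : ℝ))) := measurable_const.indicator hS
  have hL : MemLp (S.indicator (fun _ => (1 : ℝ))) 2 ν := by
    exact memLp_indicator_const 2 hS 1 (Or.inr hfin)
  have key := h.gap _ hf hL
  have e1 : ∫ y, (S.indicator (fun _ => (1 : ℝ)) y) ^ 2 ∂ν = ν.real S := by
    have : (fun y => (S.indicator (fun _ => (1 : ℝ)) y) ^ 2) = S.indicator (fun _ => (1 : ℝ)) := by
      funext y
      by_cases hy : y ∈ S <;> simp [hy]
    rw [this, integral_indicator hS]
    simp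
  have e2 : ∀ T : Y → Y, Measurable T →
      ∫ y, (S.indicator (fun _ => (1 : ℝ)) (T y) - S.indicator (fun _ => (1 : ℝ)) y) ^ 2 ∂ν =
        ν.real (symmDiff (T ⁻¹' S) S) := by
    intro T hT
    have : (fun y => (S.indicator (fun _ => (1 : ℝ)) (T y) - S.indicator (fun _ => (1 : ℝ)) y) ^ 2) =
        (symmDiff (T ⁻¹' S) S).indicator (fun _ => (1 : ℝ)) := by
      funext y
      by_cases hy : y ∈ S <;> by_cases hy' : T y ∈ S <;>
        simp [hy, hy', Set.mem_symmDiff, Set.indicator]
    rw [this, integral_indicator ((hT hS).symmDiff hS)]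
    simp
  rw [e1, e2 _ h.mp1.measurable, e2 _ h.mp2.measurable] at key
  exact key

private theorem zeta_meas {Z : Type*} [MeasurableSpace Z] (b : Z → Gam) (hb : Measurable b)
    (L : ℕ) : MeasurableSet {p : Z × Gam | p.2 ∈ Pre L ((b p.1)⁻¹)} := by
  have h : Measurable fun p : Z × Gam => (b p.1, p.2) :=
    (hb.comp measurable_fst).prodMk measurable_snd
  exact h (MeasurableSet.of_discrete (s := {q : Gam × Gam | q.2 ∈ Pre L (q.1⁻¹)}))

private theorem zeta_count {Z : Type*} [MeasurableSpace Z] {m : Measure Z}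
    [IsProbabilityMeasure m] (b : Z → Gam) (hb : Measurable b) (L : ℕ) :
    (m.prod Measure.count) {p : Z × Gam | p.2 ∈ Pre L ((b p.1)⁻¹)} =
      ∫⁻ z, (min L (b z).norm : ℕ) ∂m := by
  rw [Measure.prod_apply (zeta_meas b hb L)]
  refine lintegral_congr fun z => ?_
  have : (Prod.mk z ⁻¹' {p : Z × Gam | p.2 ∈ Pre L ((b p.1)⁻¹)}) =
      ((Pre L ((b z)⁻¹) : Finset Gam) : Set Gam) := by
    ext l; simp
  rw [this, Measure.count_apply_finset, card_Pre, FreeGroup.norm_inv_eq]

private theorem zeta_side {Z : Type*} [MeasurableSpace Z] {m : Measure Z}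
    [IsProbabilityMeasure m] (b : Z → Gam) (hb : Measurable b) (L K : ℕ) {T : Z → Z}
    (hT : MeasurePreserving T m m) {R : Z → Z} (hR : MeasurePreserving R m m) (β : Z → Gam)
    (hβ : Measurable β) (h : ∀ᵐ z ∂m, b (T z) * β z = β (R z) * b z) {η : ENNReal}
    (hK : m {z | K < (β z).norm} ≤ η) :
    (m.prod Measure.count) (symmDiff
      ((tw T β) ⁻¹' {p : Z × Gam | p.2 ∈ Pre L ((b p.1)⁻¹)})
      {p : Z × Gam | p.2 ∈ Pre L ((b p.1)⁻¹)}) ≤ 4 * K + 4 * L * η := by
  classical
  have hS := zeta_meas b hb L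
  have hTw : Measurable (tw T β) := (tw_mp hT hβ).measurable
  rw [Measure.prod_apply ((hTw hS).symmDiff hS)]
  have hmE : MeasurableSet {z | K < (β z).norm} :=
    hβ (MeasurableSet.of_discrete (s := {b : Gam | K < b.norm}))
  have hmE' : MeasurableSet {z | K < (β (R z)).norm} := hR.measurable hmE
  have hbound : ∀ᵐ z ∂m, Measure.count (Prod.mk z ⁻¹' (symmDiff
      ((tw T β) ⁻¹' {p : Z × Gam | p.2 ∈ Pre L ((b p.1)⁻¹)})
      {p : Z × Gam | p.2 ∈ Pre L ((b p.1)⁻¹)})) ≤
      4 * K + (({z | K < (β z).norm}.indicator (fun _ => (2 * L : ENNReal)) z) +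
        ({z | K < (β (R z)).norm}.indicator (fun _ => (2 * L : ENNReal)) z)) := by
    filter_upwards [h] with z hz
    have hinv : (b (T z))⁻¹ = β z * (b z)⁻¹ * (β (R z))⁻¹ := by
      have : b (T z) = β (R z) * b z * (β z)⁻¹ := by rw [← hz]; group
      rw [this]; group
    have hset : (Prod.mk z ⁻¹' (symmDiff
      ((tw T β) ⁻¹' {p : Z × Gam | p.2 ∈ Pre L ((b p.1)⁻¹)})
      {p : Z × Gam | p.2 ∈ Pre L ((b p.1)⁻¹)})) =
      (fun x => β z * x) ⁻¹' ((symmDiff (Pre L (β z * (b z)⁻¹ * (β (R z))⁻¹))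
        ((Pre L ((b z)⁻¹)).image (fun x => β z * x)) : Finset Gam) : Set Gam) := by
      ext l
      simp [tw, Set.mem_symmDiff, hinv]
    rw [hset]
    set F : Finset Gam := symmDiff (Pre L (β z * (b z)⁻¹ * (β (R z))⁻¹))
        ((Pre L ((b z)⁻¹)).image (fun x => β z * x)) with hF
    have hcount : Measure.count ((fun x => β z * x) ⁻¹' (F : Set Gam)) = (F.card : ENNReal) := by
      have e : (fun x => β z * x) ⁻¹' (F : Set Gam) =
          ((F.image (fun x => (β z)⁻¹ * x) : Finset Gam) : Set Gam) := by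
        ext l
        simp only [Set.mem_preimage, Finset.coe_image, Set.mem_image, Finset.mem_coe]
        constructor
        · intro hl
          exact ⟨_, hl, by group⟩
        · rintro ⟨x, hx, rfl⟩
          simpa using hx
      rw [e, Measure.count_apply_finset, Finset.card_image_of_injective]
      exact mul_right_injective _
    rw [hcount]
    have c1 : F.card ≤ 2 * ((β z).norm + (β (R z)).norm) := by
      have := card_symmDiff_Pre L (β z) ((b z)⁻¹) ((β (R z))⁻¹)
      rw [FreeGroup.norm_inv_eq] at this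
      convert this using 2
    have c2 : F.card ≤ 2 * L := by
      have : F ⊆ (Pre L (β z * (b z)⁻¹ * (β (R z))⁻¹)) ∪
          ((Pre L ((b z)⁻¹)).image (fun x => β z * x)) := by
        intro x hx
        rw [hF, Finset.mem_symmDiff] at hx
        rw [Finset.mem_union]
        tauto
      have h2 := (Finset.card_le_card this).trans (Finset.card_union_le _ _)
      have h3 : (Pre L (β z * (b z)⁻¹ * (β (R z))⁻¹)).card ≤ L := by
        rw [card_Pre]; exact min_le_left _ _
      have h4 : ((Pre L ((b z)⁻¹)).image (fun x => β z * x)).card ≤ L :=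
        Finset.card_image_le.trans (by rw [card_Pre]; exact min_le_left _ _)
      omega
    by_cases k1 : K < (β z).norm
    · have : (F.card : ENNReal) ≤ 2 * L := by exact_mod_cast c2
      refine this.trans ?_
      have hi : ({z | K < (β z).norm}.indicator (fun _ => (2 * L : ENNReal)) z) = 2 * L := by
        rw [Set.indicator_of_mem]; exact k1
      rw [hi]
      exact le_add_left (le_add_right le_rfl)
    · by_cases k2 : K < (β (R z)).norm
      · have : (F.card : ENNReal) ≤ 2 * L := by exact_mod_cast c2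
        refine this.trans ?_
        have hi : ({z | K < (β (R z)).norm}.indicator (fun _ => (2 * L : ENNReal)) z) = 2 * L := by
          rw [Set.indicator_of_mem]; exact k2
        rw [hi]
        exact le_add_left (le_add_left le_rfl)
      · have : F.card ≤ 4 * K := by omega
        have : (F.card : ENNReal) ≤ 4 * K := by exact_mod_cast this
        exact this.trans (le_add_right le_rfl)
  refine (lintegral_mono_ae hbound).trans ?_
  rw [lintegral_add_left measurable_const, lintegral_const, measure_univ, mul_one,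
    lintegral_add_left (measurable_const.indicator hmE), lintegral_indicator hmE,
    lintegral_indicator hmE', setLIntegral_const, setLIntegral_const]
  have hK' : m {z | K < (β (R z)).norm} ≤ η := by
    have : m {z | K < (β (R z)).norm} = m {z | K < (β z).norm} :=
      hR.measure_preimage hmE.nullMeasurableSet
    rw [this]; exact hK
  calc 4 * (K : ENNReal) + (2 * L * m {z | K < (β z).norm} + 2 * L * m {z | K < (β (R z)).norm})
      ≤ 4 * K + (2 * L * η + 2 * L * η) := by gcongr
    _ = 4 * K + 4 * L * η := by ring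

theorem zeta_tight {G Z : Type*} [Group G] [MeasurableSpace Z] {m : Measure Z}
    [IsProbabilityMeasure m] (A : PAct G m) {T₁ T₂ : Z → Z} (hT₁ : MeasurePreserving T₁ m m)
    (hT₂ : MeasurePreserving T₂ m m) (a : G → Z → Gam) (ham : ∀ g, Measurable (a g))
    (β₁ β₂ : Z → Gam) (hβ₁ : Measurable β₁) (hβ₂ : Measurable β₂) (C : ℝ)
    (hC : TwGap C (m.prod Measure.count) (tw T₁ β₁) (tw T₂ β₂))
    (h₁ : ∀ g, ∀ᵐ z ∂m, a g (T₁ z) * β₁ z = β₁ (A.T g z) * a g z)
    (h₂ : ∀ g, ∀ᵐ z ∂m, a g (T₂ z) * β₂ z = β₂ (A.T g z) * a g z) :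
    ∃ B : Set Gam, B.Finite ∧ ∀ g, 3 / 4 ≤ m.real {z | a g z ∈ B} := by
  classical
  obtain ⟨K₁, hK₁⟩ := zeta_tail (m := m) β₁ hβ₁ (η := 1 / (64 * (|C| + 1))) (by positivity)
  obtain ⟨K₂, hK₂⟩ := zeta_tail (m := m) β₂ hβ₂ (η := 1 / (64 * (|C| + 1))) (by positivity)
  set η : ℝ := 1 / (64 * (|C| + 1)) with hη
  have hη0 : 0 < η := by positivity
  set K : ℕ := max K₁ K₂ with hKdef
  obtain ⟨L, hL⟩ := exists_nat_gt (64 * (|C| + 1) * (K + 1))
  have hL0 : (0 : ℝ) < L := lt_of_le_of_lt (by positivity) hL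
  refine ⟨{b | b.norm ≤ L}, finite_norm_le L, fun g => ?_⟩
  have hS := zeta_meas (a g) (ham g) L
  set S : Set (Z × Gam) := {p : Z × Gam | p.2 ∈ Pre L ((a g p.1)⁻¹)} with hSdef
  have hcount := zeta_count (m := m) (a g) (ham g) L
  have hSle : (m.prod Measure.count) S ≤ L := by
    rw [hSdef, hcount]
    calc ∫⁻ z, ((min L (a g z).norm : ℕ) : ENNReal) ∂m ≤ ∫⁻ z, (L : ENNReal) ∂m := by
          refine lintegral_mono fun z => ?_
          exact Nat.cast_le.2 (min_le_left _ _)
      _ = L := by simp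
  have hSfin : (m.prod Measure.count) S ≠ ⊤ := ne_top_of_le_ne_top (by simp) hSle
  have key := zeta_gap_set hC hS hSfin
  have side : ∀ (T : Z → Z) (β : Z → Gam), MeasurePreserving T m m → Measurable β →
      (∀ᵐ z ∂m, a g (T z) * β z = β (A.T g z) * a g z) →
      m {z | K < (β z).norm} ≤ ENNReal.ofReal η →
      (m.prod Measure.count).real (symmDiff ((tw T β) ⁻¹' S) S) ≤ 4 * K + 4 * L * η := by
    intro T β hT hβ h hK
    have := zeta_side (m := m) (a g) (ham g) L K hT (A.mp g) β hβ h hK
    refine ENNReal.toReal_le_of_le_ofReal (by positivity) (this.trans (le_of_eq ?_))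
    rw [ENNReal.ofReal_add (by positivity) (by positivity),
      ENNReal.ofReal_mul (by positivity), ENNReal.ofReal_mul (by positivity),
      ENNReal.ofReal_mul (by positivity)]
    simp
  have s1 := side T₁ β₁ hT₁ hβ₁ (h₁ g) (hK₁ K (le_max_left _ _))
  have s2 := side T₂ β₂ hT₂ hβ₂ (h₂ g) (hK₂ K (le_max_right _ _))
  have hlow : (L : ℝ) * m.real {z | L < (a g z).norm} ≤ (m.prod Measure.count).real S := by
    have hmE : MeasurableSet {z | L < (a g z).norm} :=
      ham g (MeasurableSet.of_discrete (s := {b : Gam | L < b.norm}))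
    have : (L : ENNReal) * m {z | L < (a g z).norm} ≤ (m.prod Measure.count) S := by
      rw [hSdef, hcount, ← setLIntegral_const, ← lintegral_indicator hmE]
      refine lintegral_mono fun z => ?_
      by_cases hz : z ∈ {z | L < (a g z).norm}
      · rw [Set.indicator_of_mem hz]
        have hz' : L < (a g z).norm := hz
        have : L ≤ min L (a g z).norm := le_min le_rfl hz'.le
        exact Nat.cast_le.2 this
      · rw [Set.indicator_of_notMem hz]
        exact bot_le
    have h3 := ENNReal.toReal_mono hSfin this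
    rw [ENNReal.toReal_mul] at h3
    simpa [Measure.real] using h3
  have hmain : (L : ℝ) * m.real {z | L < (a g z).norm} ≤ L * (1 / 4) := by
    have c1 : C * ((m.prod Measure.count).real (symmDiff ((tw T₁ β₁) ⁻¹' S) S) +
        (m.prod Measure.count).real (symmDiff ((tw T₂ β₂) ⁻¹' S) S)) ≤
        |C| * (2 * (4 * K + 4 * L * η)) := by
      refine mul_le_mul (le_abs_self C) (by linarith) (by positivity) (abs_nonneg C)
    have c2 : |C| * η ≤ 1 / 64 := by
      rw [hη, mul_one_div, div_le_div_iff₀ (by positivity) (by norm_num)]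
      nlinarith [abs_nonneg C]
    have c3 : |C| * K ≤ L / 64 := by
      have : 64 * (|C| * K) ≤ 64 * (|C| + 1) * (K + 1) := by
        nlinarith [abs_nonneg C, Nat.cast_nonneg (α := ℝ) K,
          mul_nonneg (abs_nonneg C) (Nat.cast_nonneg (α := ℝ) K)]
      linarith
    have c4 : |C| * (2 * (4 * K + 4 * L * η)) = 8 * (|C| * K) + 8 * L * (|C| * η) := by ring
    have c5 : 8 * L * (|C| * η) ≤ 8 * L * (1 / 64) := by gcongr
    linarith
  have hfin : m.real {z | L < (a g z).norm} ≤ 1 / 4 := le_of_mul_le_mul_left hmain hL0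
  have hmB : MeasurableSet {z | a g z ∈ {b : Gam | b.norm ≤ L}} :=
    ham g (MeasurableSet.of_discrete (s := {b : Gam | b.norm ≤ L}))
  have hcompl : m.real {z | a g z ∈ {b : Gam | b.norm ≤ L}} =
      1 - m.real {z | L < (a g z).norm} := by
    have e : {z | L < (a g z).norm} = {z | a g z ∈ {b : Gam | b.norm ≤ L}}ᶜ := by
      ext z; simp
    rw [e, probReal_compl_eq_one_sub hmB]
    ring
  rw [hcompl]
  linarith

end Pool.Agent.CR
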