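import Pool.Agent.H.MP_894ea6_lc.L.Comp
import Pool.Agent.H.MP_894ea6_lc.L.Zeta
import Pool.Agent.H.MP_894ea6_lc.L.TC
import Pool.Agent.H.MP_894ea6_lc.L.TwBasic

/-! MP_894ea6_lc, module CompO2: commuting pairs do not share components with a twisted gap -/

open MeasureTheory

namespace Pool.Agent.CR

variable {d y' : ℕ → Bool} {Z : Type*} [MeasurableSpace Z] {m : Measure Z}
  {A : PAct FF m} {x' : Z → Bits} {α : FF → Z → FF} {τ : FF →* V}

theorem RigData.cob_of_mem_OO [IsProbabilityMeasure m] (D : RigData d y' A x' α τ) {v v' : FF}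
    (hcomm : ∀ γ γ', Phi d (jj v γ * jj v' γ') = Phi d (jj v' γ' * jj v γ)) {w : V}
    (hw : w ∈ OO y' A α v) :
    ∃ φ : Z → Gam, Measurable φ ∧
      ∀ γ, ∀ᵐ z ∂m, cw y' α w (jj v' γ) z = φ (A.T (jj v' γ) z) * (φ z)⁻¹ := by
  obtain ⟨C, hC⟩ := hw
  have hcm : ∀ γ' γ, ∀ᵐ z ∂m,
      cw y' α w (jj v' γ) (A.T (jj v γ') z) * cw y' α w (jj v γ') z =
      cw y' α w (jj v γ') (A.T (jj v' γ) z) * cw y' α w (jj v' γ) z := fun γ' γ =>
    D.cw_comm w (D.τjj v' γ) (D.τjj v γ') (hcomm γ' γ).symm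
  obtain ⟨B, hBf, hB⟩ := zeta_tight (A.comp (jj v')) (A.mp (jj v (FreeGroup.of true)))
    (A.mp (jj v (FreeGroup.of false))) (fun γ => cw y' α w (jj v' γ))
    (fun γ => D.cw_meas w _) (cw y' α w (jj v (FreeGroup.of true)))
    (cw y' α w (jj v (FreeGroup.of false))) (D.cw_meas w _) (D.cw_meas w _) C hC
    (fun γ => hcm (FreeGroup.of true) γ) (fun γ => hcm (FreeGroup.of false) γ)
  have hE : Erg (A.comp (jj v')) :=
    GapPair.erg (A := A.comp (jj v')) (g₁ := FreeGroup.of true) (g₂ := FreeGroup.of false)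
      (D.gapPair v')
  exact tight_cob (A.comp (jj v')) hE _ (D.cw_coc w v') B hBf hB

theorem RigData.OO_disjoint [IsProbabilityMeasure m] (D : RigData d y' A x' α τ) {v v' : FF}
    (hcomm : ∀ γ γ', Phi d (jj v γ * jj v' γ') = Phi d (jj v' γ' * jj v γ)) {w : V}
    (hw : w ∈ OO y' A α v) : w ∉ OO y' A α v' := by
  rintro ⟨C, hC⟩
  obtain ⟨φ, hφ, h⟩ := D.cob_of_mem_OO hcomm hw
  exact not_twGap_of_cob φ hφ (h (FreeGroup.of true)) (h (FreeGroup.of false)) hC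

end Pool.Agent.CR
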