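import Pool.Agent.H.MP_894ea6_lc.L.CompO2

/-! MP_894ea6_lc, module CompO3: finitely many components have a twisted gap -/

open MeasureTheory

namespace Pool.Agent.CR

variable {d y' : ℕ → Bool} {Z : Type*} [MeasurableSpace Z] {m : Measure Z}
  {A : PAct FF m} {x' : Z → Bits} {α : FF → Z → FF} {τ : FF →* V}

theorem compo3_mono_ae [IsProbabilityMeasure m] {S T : Set Z} (h : ∀ᵐ z ∂m, z ∈ S → z ∈ T) :
    m.real S ≤ m.real T := by
  refine ENNReal.toReal_mono (measure_ne_top m T) (measure_mono_ae ?_)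
  filter_upwards [h] with z hz using hz

theorem compo3_comm (d : ℕ → Bool) (γ γ' : Gam) :
    Phi d (jj 1 γ * jj (FreeGroup.of Gen.t) γ') =
      Phi d (jj (FreeGroup.of Gen.t) γ' * jj 1 γ) := by
  have h := Phi_comm d pure_one pure_t
    (by rw [map_one, inv_one, one_mul, piV_t]; exact tV_not_mem d) (hh (hh γ)) (hh (hh γ'))
  simpa only [← jj_apply] using h

/-- the twisted difference is invariant -/
theorem RigData.compo3_inv [IsProbabilityMeasure m] (D : RigData d y' A x' α τ) {w : V}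
    {φ : Z → Gam} {u h : FF} (hu : τ u = 1) (hh' : τ h = 1)
    (huh : Phi d (u * h) = Phi d (h * u))
    (hcob : ∀ᵐ z ∂m, cw y' α w h z = φ (A.T h z) * (φ z)⁻¹) :
    ∀ᵐ z ∂m, (φ (A.T u (A.T h z)))⁻¹ * cw y' α w u (A.T h z) * φ (A.T h z) =
      (φ (A.T u z))⁻¹ * cw y' α w u z * φ z := by
  filter_upwards [D.cw_comm w hu hh' huh, hcob,
    (A.mp u).quasiMeasurePreserving.ae hcob, ae_T_eq D.triv huh] with z h1 h2 h3 h4
  rw [A.mul, A.mul] at h4
  rw [h2, h3, ← h4] at h1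
  have h5 : cw y' α w u (A.T h z) = φ (A.T u (A.T h z)) * (φ (A.T u z))⁻¹ * cw y' α w u z *
      (φ (A.T h z) * (φ z)⁻¹)⁻¹ := by
    rw [← h1]
    group
  rw [h5]
  group

theorem RigData.OO_finite [IsProbabilityMeasure m] (D : RigData d y' A x' α τ) :
    ∃ S : Set V, S.Finite ∧ ∀ w ∈ OO y' A α 1, ∃ s ∈ S, s⁻¹ * w ∈ HH y' := by
  set t : FF := FreeGroup.of Gen.t with ht
  obtain ⟨S1, hS1, h1⟩ := D.cw_tail (jj 1 (FreeGroup.of true)) (η := 1 / 1000) (by norm_num)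
  obtain ⟨S2, hS2, h2⟩ := D.cw_tail (jj 1 (FreeGroup.of false)) (η := 1 / 1000) (by norm_num)
  obtain ⟨S3, hS3, h3⟩ := D.cw_tail (jj t (FreeGroup.of true)) (η := 1 / 1000) (by norm_num)
  obtain ⟨S4, hS4, h4⟩ := D.cw_tail (jj t (FreeGroup.of false)) (η := 1 / 1000) (by norm_num)
  refine ⟨S1 ∪ S2 ∪ S3 ∪ S4, ((hS1.union hS2).union hS3).union hS4, fun w hw => ?_⟩
  by_contra hcon
  push Not at hcon
  have e1 := h1 w (fun s hs => hcon s (by simp [hs]))
  have e2 := h2 w (fun s hs => hcon s (by simp [hs]))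
  have e3 := h3 w (fun s hs => hcon s (by simp [hs]))
  have e4 := h4 w (fun s hs => hcon s (by simp [hs]))
  obtain ⟨φ, hφ, hcob⟩ := D.cob_of_mem_OO (compo3_comm d) hw
  have hmove : ∀ γ : Gam, m.real {z | cw y' α w (jj t γ) z ≠ 1} ≤ 1 / 1000 →
      m.real {z | φ (A.T (jj t γ) z) ≠ φ z} ≤ 1 / 1000 := by
    intro γ hγ
    refine le_trans (compo3_mono_ae ?_) hγ
    filter_upwards [hcob γ] with z hz
    intro (hne : φ (A.T (jj t γ) z) ≠ φ z)
    show cw y' α w (jj t γ) z ≠ 1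
    rw [hz]
    intro hc
    exact hne (mul_inv_eq_one.1 hc)
  obtain ⟨b, hb⟩ := (D.gapPair t).atom φ hφ (η := 1 / 1000) le_rfl (hmove _ e3) (hmove _ e4)
  have hmeas : MeasurableSet {z | φ z = b} := hφ (measurableSet_singleton b)
  have hb' : m.real {z | φ z ≠ b} ≤ 40 / 1000 := by
    have : {z | φ z ≠ b} = {z | φ z = b}ᶜ := rfl
    rw [this, measureReal_compl hmeas, probReal_univ]
    linarith
  have hbu : ∀ u : FF, m.real {z | φ (A.T u z) ≠ b} ≤ 40 / 1000 := by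
    intro u
    have h5 : {z | φ (A.T u z) ≠ b} = A.T u ⁻¹' {z | φ z ≠ b} := rfl
    have h6 : NullMeasurableSet {z | φ z ≠ b} m := hmeas.compl.nullMeasurableSet
    rw [h5, (A.mp u).measureReal_preimage h6]
    exact hb'
  have key : ∀ γ0 : Gam, m.real {z | cw y' α w (jj 1 γ0) z ≠ 1} ≤ 1 / 1000 →
      ∀ᵐ z ∂m, cw y' α w (jj 1 γ0) z = φ (A.T (jj 1 γ0) z) * (φ z)⁻¹ := by
    intro γ0 hγ0
    have hm : Measurable (fun z => (φ (A.T (jj 1 γ0) z))⁻¹ * cw y' α w (jj 1 γ0) z * φ z) := by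
      have h6 : Measurable (fun p : Gam × Gam × Gam => p.1⁻¹ * p.2.1 * p.2.2) :=
        measurable_of_countable _
      have h7 : Measurable (fun z => (φ (A.T (jj 1 γ0) z), cw y' α w (jj 1 γ0) z, φ z)) :=
        (hφ.comp (A.mp _).measurable).prodMk ((D.cw_meas w _).prodMk hφ)
      have h8 := h6.comp h7
      exact h8
    obtain ⟨l, hl⟩ := (D.gapPair t).ae_const _ hm
      (D.compo3_inv (D.τjj 1 γ0) (D.τjj t _) (compo3_comm d _ _) (hcob _))
      (D.compo3_inv (D.τjj 1 γ0) (D.τjj t _) (compo3_comm d _ _) (hcob _))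
    have hl1 : l = 1 := by
      by_contra hne
      have hall : ∀ᵐ z ∂m, z ∈ (Set.univ : Set Z) → z ∈
          ({z | cw y' α w (jj 1 γ0) z ≠ 1} ∪ {z | φ z ≠ b}) ∪
            {z | φ (A.T (jj 1 γ0) z) ≠ b} := by
        filter_upwards [hl] with z hz
        intro _
        by_contra hc
        simp only [Set.mem_union, Set.mem_ofPred_eq, not_or, not_not] at hc
        obtain ⟨⟨c1, c2⟩, c3⟩ := hc
        rw [c1, c2, c3] at hz
        apply hne
        rw [← hz]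
        group
      have h9 := compo3_mono_ae hall
      rw [probReal_univ] at h9
      have h10 := measureReal_union_le (μ := m)
        ({z | cw y' α w (jj 1 γ0) z ≠ 1} ∪ {z | φ z ≠ b}) {z | φ (A.T (jj 1 γ0) z) ≠ b}
      have h11 := measureReal_union_le (μ := m) {z | cw y' α w (jj 1 γ0) z ≠ 1} {z | φ z ≠ b}
      have h12 := hbu (jj 1 γ0)
      linarith
    filter_upwards [hl] with z hz
    rw [hl1] at hz
    have h13 : cw y' α w (jj 1 γ0) z = φ (A.T (jj 1 γ0) z) *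
        ((φ (A.T (jj 1 γ0) z))⁻¹ * cw y' α w (jj 1 γ0) z * φ z) * (φ z)⁻¹ := by
      group
    rw [h13, hz, mul_one]
  obtain ⟨C, hC⟩ := hw
  exact not_twGap_of_cob φ hφ (key _ e1) (key _ e2) hC

end Pool.Agent.CR
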