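import Pool.Agent.H.MP_894ea6_lc.L.Comp
import Pool.Agent.H.MP_894ea6_lc.L.TwBasic

/-! MP_894ea6_lc, module CompO4: equivariance of the sets OO -/

open MeasureTheory

namespace Pool.Agent.CR

variable {d y' : ℕ → Bool} {Z : Type*} [MeasurableSpace Z] {m : Measure Z}
  {A : PAct FF m} {x' : Z → Bits} {α : FF → Z → FF} {τ : FF →* V}

/-- the basic conjugation identity -/
private theorem compO4_conj (D : RigData d y' A x' α τ) (v u : FF) (hu : τ u = 1) (w : V) :
    ∀ᵐ z ∂m, cw y' α (τ v * w) (v * u * v⁻¹) (A.T v z) * cw y' α (τ v * w) v z =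
      cw y' α (τ v * w) v (A.T u z) * cw y' α w u z := by
  have h1 := D.cw_mul (τ v * w) v u
  have h2 := D.cw_mul (τ v * w) (v * u * v⁻¹) v
  have e1 : v * u * v⁻¹ * v = v * u := by group
  have e2 : (τ (v * u * v⁻¹))⁻¹ * (τ v * w) = τ v * w := by
    rw [map_mul, map_mul, hu, mul_one, map_inv, mul_inv_cancel, inv_one, one_mul]
  rw [e1, e2] at h2
  rw [inv_mul_cancel_left] at h1
  filter_upwards [h1, h2] with z hz1 hz2
  rw [← hz2, hz1]

theorem RigData.OO_equivariant [IsProbabilityMeasure m] (D : RigData d y' A x' α τ) (v : FF)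
    {w : V} (hw : w ∈ OO y' A α 1) : τ v * w ∈ OO y' A α v := by
  obtain ⟨C, hC⟩ := hw
  have hjj : ∀ γ, jj v γ = v * jj 1 γ * v⁻¹ := by
    intro γ
    rw [jj_apply, jj_apply, one_mul, inv_one, mul_one]
  have hf : Measurable (cw y' α (τ v * w) v) := D.cw_meas _ _
  refine ⟨C, hC.factor (tw (A.T v) (cw y' α (τ v * w) v)) (tw_mp (A.mp v) hf)
    (tw_mp (A.mp _) (D.cw_meas _ _)) (tw_mp (A.mp _) (D.cw_meas _ _)) ?_ ?_⟩
  · have h := compO4_conj D v (jj 1 (FreeGroup.of true)) (D.τjj 1 _) w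
    rw [← hjj] at h
    have h' : ∀ᵐ p ∂(m.prod (Measure.count : Measure Gam)), _ :=
      Measure.quasiMeasurePreserving_fst.ae h
    filter_upwards [h'] with p hp
    have e : A.T v (A.T (jj 1 (FreeGroup.of true)) p.1) =
        A.T (jj v (FreeGroup.of true)) (A.T v p.1) := by
      rw [← A.mul, ← A.mul, hjj]
      congr 1
      group
    simp only [tw]
    rw [e, ← mul_assoc, ← mul_assoc, hp]
  · have h := compO4_conj D v (jj 1 (FreeGroup.of false)) (D.τjj 1 _) w
    rw [← hjj] at h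
    have h' : ∀ᵐ p ∂(m.prod (Measure.count : Measure Gam)), _ :=
      Measure.quasiMeasurePreserving_fst.ae h
    filter_upwards [h'] with p hp
    have e : A.T v (A.T (jj 1 (FreeGroup.of false)) p.1) =
        A.T (jj v (FreeGroup.of false)) (A.T v p.1) := by
      rw [← A.mul, ← A.mul, hjj]
      congr 1
      group
    simp only [tw]
    rw [e, ← mul_assoc, ← mul_assoc, hp]

theorem RigData.OO_same [IsProbabilityMeasure m] (D : RigData d y' A x' α τ) {v v' : FF}
    (h : ∀ γ, Phi d (jj v γ) = Phi d (jj v' γ)) : OO y' A α v ⊆ OO y' A α v' := by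
  rintro w ⟨C, hC⟩
  exact ⟨C, hC.congr (A.mp _).measurable (A.mp _).measurable (D.cw_meas _ _) (D.cw_meas _ _)
    (ae_T_eq D.triv (h _)) (ae_T_eq D.triv (h _)) (D.cw_congr w (h _)) (D.cw_congr w (h _))⟩

theorem OO_right {w h : V} (hw : w ∈ OO y' A α 1) (hh' : h ∈ HH y') :
    w * h ∈ OO y' A α 1 := by
  obtain ⟨C, hC⟩ := hw
  have e : ∀ g, cw y' α (w * h) g = cw y' α w g := fun g => funext fun z => cw_right α w h hh' g z
  refine ⟨C, ?_⟩
  rw [e, e]
  exact hC

end Pool.Agent.CR
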