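import Mathlib

/-! MP_894ea6_lc, module Defs: gap pairs, explicit p.m.p. actions, almost everywhere cocycles -/

open MeasureTheory

namespace Pool.Agent.CR

/-- the free group of rank 2 with generators `FreeGroup.of true` (called p) and `FreeGroup.of false` (called q) -/
abbrev Gam : Type := FreeGroup Bool

instance instMSGam : MeasurableSpace Gam := ⊤
instance instDMSGam : DiscreteMeasurableSpace Gam := ⟨fun _ => trivial⟩

/-- Spectral gap inequality (with constant 8) for a pair of measure preserving maps of a probability space. -/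
structure GapPair {Z : Type*} [MeasurableSpace Z] (m : Measure Z) (T₁ T₂ : Z → Z) : Prop where
  mp1 : MeasurePreserving T₁ m m
  mp2 : MeasurePreserving T₂ m m
  gap : ∀ f : Z → ℝ, Measurable f → (∃ C, ∀ z, |f z| ≤ C) →
    ∫ z, (f z) ^ 2 ∂m - (∫ z, f z ∂m) ^ 2 ≤
      8 * (∫ z, (f (T₁ z) - f z) ^ 2 ∂m + ∫ z, (f (T₂ z) - f z) ^ 2 ∂m)

/-- Absence of almost invariant vectors, with constant `C`, for a pair of measure preserving maps of a measure space
(typically of infinite measure). -/
structure TwGap {Y : Type*} [MeasurableSpace Y] (C : ℝ) (ν : Measure Y) (S₁ S₂ : Y → Y) : Prop where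
  mp1 : MeasurePreserving S₁ ν ν
  mp2 : MeasurePreserving S₂ ν ν
  gap : ∀ f : Y → ℝ, Measurable f → MemLp f 2 ν →
    ∫ y, (f y) ^ 2 ∂ν ≤ C * (∫ y, (f (S₁ y) - f y) ^ 2 ∂ν + ∫ y, (f (S₂ y) - f y) ^ 2 ∂ν)

/-- the skew product of `T` by `β` -/
def tw {Z L : Type*} [Mul L] (T : Z → Z) (β : Z → L) : Z × L → Z × L :=
  fun p => (T p.1, β p.1 * p.2)

/-- diagonal maps -/
def diag2 {Z : Type*} (T : Z → Z) : Z × Z → Z × Z := fun p => (T p.1, T p.2)
def diag3 {Z : Type*} (T : Z → Z) : Z × Z × Z → Z × Z × Z := fun p => (T p.1, T p.2.1, T p.2.2)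

/-- A probability measure preserving action of the group `G` on `(Z,m)` by explicit maps. -/
structure PAct (G : Type*) [Group G] {Z : Type*} [MeasurableSpace Z] (m : Measure Z) where
  T : G → Z → Z
  mp : ∀ g, MeasurePreserving (T g) m m
  mul : ∀ g h z, T (g * h) z = T g (T h z)
  one : ∀ z, T 1 z = z

/-- restriction of an action along a homomorphism -/
def PAct.comp {G H : Type*} [Group G] [Group H] {Z : Type*} [MeasurableSpace Z] {m : Measure Z}
    (A : PAct G m) (j : H →* G) : PAct H m where
  T := fun h => A.T (j h)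
  mp := fun h => A.mp (j h)
  mul := fun g h z => by rw [map_mul]; exact A.mul _ _ z
  one := fun z => by rw [map_one]; exact A.one z

/-- ergodicity of a p.m.p. action of a countable group -/
def Erg {G : Type*} [Group G] {Z : Type*} [MeasurableSpace Z] {m : Measure Z} (A : PAct G m) : Prop :=
  ∀ S : Set Z, MeasurableSet S → (∀ g, ∀ᵐ z ∂m, A.T g z ∈ S ↔ z ∈ S) → m S = 0 ∨ m Sᶜ = 0

/-- (almost everywhere) measurable cocycle with values in a group `L` -/
structure ACoc {G : Type*} [Group G] {Z : Type*} [MeasurableSpace Z] {m : Measure Z} (A : PAct G m)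
    {L : Type*} [Group L] [MeasurableSpace L] (a : G → Z → L) : Prop where
  meas : ∀ g, Measurable (a g)
  mul : ∀ g h, ∀ᵐ z ∂m, a (g * h) z = a g (A.T h z) * a h z

end Pool.Agent.CR
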