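import Mathlib

/-! MP_894ea6_lc, module Statement: the notions of the problem -/

namespace Pool.Agent.CR

universe u v

/-- `E` is a countable Borel equivalence relation. -/
structure IsCBER {X : Type u} [MeasurableSpace X] (E : X → X → Prop) : Prop where
  equivalence : Equivalence E
  measurableSet : MeasurableSet {p : X × X | E p.1 p.2}
  countable_class : ∀ x, {y | E x y}.Countable

/-- The class AE: aperiodic countable Borel equivalence relations on uncountable standard Borel
spaces. -/
structure InAE {X : Type u} [MeasurableSpace X] (E : X → X → Prop) : Prop where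
  standardBorel : StandardBorelSpace X
  uncountable : Uncountable X
  cber : IsCBER E
  aperiodic : ∀ x, {y | E x y}.Infinite

/-- `E` admits a Borel transversal. -/
def IsSmooth {X : Type u} [MeasurableSpace X] (E : X → X → Prop) : Prop :=
  ∃ T : Set X, MeasurableSet T ∧ ∀ x, ∃! y, y ∈ T ∧ E x y

/-- Borel reducibility `E ≤_B F`. -/
def BorelReducible {X : Type u} {Y : Type v} [MeasurableSpace X] [MeasurableSpace Y]
    (E : X → X → Prop) (F : Y → Y → Prop) : Prop :=
  ∃ f : X → Y, Measurable f ∧ ∀ x x', E x x' ↔ F (f x) (f x')

/-- Borel bireducibility. -/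
def BorelBireducible {X : Type u} {Y : Type v} [MeasurableSpace X] [MeasurableSpace Y]
    (E : X → X → Prop) (F : Y → Y → Prop) : Prop :=
  BorelReducible E F ∧ BorelReducible F E

/-- `F` is Borel isomorphic to the orbit equivalence relation of a continuous action of a
countable (discrete) group on a compact Polish space. -/
def HasCompactActionRealization {Y : Type u} [MeasurableSpace Y] (F : Y → Y → Prop) : Prop :=
  ∃ (K : Type u) (_ : TopologicalSpace K) (_ : CompactSpace K) (_ : PolishSpace K)
    (_ : MeasurableSpace K) (_ : BorelSpace K) (G : Type v) (_ : Group G) (_ : Countable G)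
    (_ : MulAction G K) (_ : ContinuousConstSMul G K) (f : Y ≃ᵐ K),
    ∀ y y', F y y' ↔ ∃ g : G, g • f y = f y'

end Pool.Agent.CR
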