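import Pool.Agent.H.MP_894ea6_lc.L.MuY
import Pool.Agent.H.MP_894ea6_lc.L.Statement
import Pool.Agent.H.MP_894ea6_lc.L.GrpB

/-! MP_894ea6_lc, module ESpace: `EE` is a non-smooth aperiodic CBER -/

open MeasureTheory

namespace Pool.Agent.CR

theorem measurableSet_BB : MeasurableSet BB := by
  have h : BB = ⋂ n : ℕ, ⋃ k : ℕ, {y : ℕ → Bool | n ≤ k ∧ y k = true} := by
    ext y
    simp [BB]
  rw [h]
  refine MeasurableSet.iInter fun n => MeasurableSet.iUnion fun k => ?_
  refine (MeasurableSet.const (n ≤ k)).inter ?_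
  exact measurableSet_eq_fun (measurable_pi_apply k) measurable_const

theorem espace_isOpen_NN (g : FF) : IsOpen {y : ℕ → Bool | g ∈ NN y} := by
  rw [isOpen_iff_mem_nhds]
  intro d hd
  exact NN_open d hd

theorem measurableSet_XEset :
    MeasurableSet {p : (ℕ → Bool) × Bits | p.1 ∈ BB ∧ p.2 ∈ XX p.1} := by
  have h1 : MeasurableSet {p : (ℕ → Bool) × Bits | p.1 ∈ BB} :=
    measurable_fst measurableSet_BB
  have h2 : MeasurableSet {p : (ℕ → Bool) × Bits | p.2 ∈ XX p.1} := by
    have h3 : {p : (ℕ → Bool) × Bits | p.2 ∈ XX p.1} =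
        {p : (ℕ → Bool) × Bits | ∀ g : FF, act g p.2 = p.2 ↔ g ∈ NN p.1} := rfl
    rw [h3]
    apply measurableSet_setOfPred.2
    refine Measurable.forall fun g => Measurable.iff ?_ ?_
    · apply measurableSet_setOfPred.1
      exact measurableSet_eq_fun ((measurable_act g).comp measurable_snd) measurable_snd
    · apply measurableSet_setOfPred.1
      exact measurable_fst (espace_isOpen_NN g).measurableSet
  exact h1.inter h2

/-- the `k`-part as a homomorphism -/
noncomputable def espace_kHom : V →* Multiplicative ℤ where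
  toFun v := Multiplicative.ofAdd v.k
  map_one' := rfl
  map_mul' v w := by simp

theorem tpow_not_mem (y : ℕ → Bool) {n : ℤ} (hn : n ≠ 0) : (FreeGroup.of Gen.t) ^ n ∉ NN y := by
  intro h
  have h1 : Phi y ((FreeGroup.of Gen.t) ^ n) = 1 := h
  have h2 := Phi_v y ((FreeGroup.of Gen.t) ^ n)
  rw [h1, map_zpow, piV_t] at h2
  have h3 := congrArg espace_kHom h2
  rw [map_zpow, WW.one_v, map_one] at h3
  have h4 : espace_kHom tV = Multiplicative.ofAdd (1 : ℤ) := rfl
  rw [h4, ← ofAdd_zsmul] at h3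
  have h5 := congrArg Multiplicative.toAdd h3
  simp at h5
  exact hn h5.symm

theorem espace_NN_conj {y : ℕ → Bool} {g h : FF} : g⁻¹ * h * g ∈ NN y ↔ h ∈ NN y := by
  have h1 : ∀ x : FF, x ∈ NN y ↔ Phi y x = 1 := fun x => Iff.rfl
  rw [h1, h1, map_mul, map_mul, map_inv]
  constructor
  · intro h2
    have h3 : Phi y h = Phi y g * ((Phi y g)⁻¹ * Phi y h * Phi y g) * (Phi y g)⁻¹ := by group
    rw [h3, h2]
    group
  · intro h2
    rw [h2]
    group

theorem espace_XX_act {y : ℕ → Bool} {x : Bits} (hx : x ∈ XX y) (g : FF) : act g x ∈ XX y := by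
  intro h
  rw [← espace_NN_conj (g := g), ← hx (g⁻¹ * h * g)]
  constructor
  · intro h1
    rw [act_mul, act_mul, h1, ← act_mul, inv_mul_cancel, act_one]
  · intro h1
    have h2 := congrArg (act g) h1
    rw [← act_mul] at h2
    have h3 : g * (g⁻¹ * h * g) = h * g := by group
    rw [h3, act_mul] at h2
    exact h2

theorem espace_act_eq {y : ℕ → Bool} {x : Bits} (hx : x ∈ XX y) {g h : FF}
    (he : act g x = act h x) : h⁻¹ * g ∈ NN y := by
  rw [← hx (h⁻¹ * g), act_mul, he, ← act_mul, inv_mul_cancel, act_one]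

theorem espace_tpow_inj {y : ℕ → Bool} {x : Bits} (hx : x ∈ XX y) {n m : ℤ}
    (he : act ((FreeGroup.of Gen.t) ^ n) x = act ((FreeGroup.of Gen.t) ^ m) x) : n = m := by
  have h1 := espace_act_eq hx he
  rw [← zpow_neg, ← zpow_add] at h1
  by_contra hne
  exact tpow_not_mem y (by omega : -m + n ≠ 0) h1

theorem espace_nonempty (y : ℕ → Bool) : ∃ x, x ∈ XX y := by
  have h := muY_XX y
  have : (ae (muY y)).NeBot := inferInstance
  exact h.exists

theorem espace_uncountable_seq : Uncountable (ℕ → Bool) := by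
  rw [← not_countable_iff]
  intro hc
  obtain ⟨f, hf⟩ := exists_surjective_nat (ℕ → Bool)
  obtain ⟨n, hn⟩ := hf (fun n => !(f n n))
  have := congrFun hn n
  simp at this

theorem espace_uncountable : Uncountable XE := by
  have := espace_uncountable_seq
  let φ : (ℕ → Bool) → (ℕ → Bool) := fun y n => if n % 2 = 0 then true else y (n / 2)
  have hφB : ∀ y, φ y ∈ BB := by
    intro y n
    refine ⟨2 * n, by omega, ?_⟩
    simp [φ]
  have hφi : Function.Injective φ := by
    intro y y' h
    funext n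
    have h1 := congrFun h (2 * n + 1)
    have h2 : (2 * n + 1) % 2 ≠ 0 := by omega
    have h3 : (2 * n + 1) / 2 = n := by omega
    simp only [φ, if_neg h2, h3] at h1
    exact h1
  choose x hx using fun y => espace_nonempty (φ y)
  have hinj : Function.Injective (fun y => (⟨(φ y, x y), hφB y, hx y⟩ : XE)) := by
    intro y y' h
    have h1 := congrArg (fun v : XE => v.1.1) h
    exact hφi h1
  exact hinj.uncountable

theorem espace_measurable_fst : Measurable (fun u : XE => u.1.1) :=
  measurable_fst.comp measurable_subtype_coe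

theorem espace_measurable_snd : Measurable (fun u : XE => u.1.2) :=
  measurable_snd.comp measurable_subtype_coe

theorem EE_inAE : InAE EE := by
  refine ⟨?_, espace_uncountable, ⟨?_, ?_, ?_⟩, ?_⟩
  · exact measurableSet_XEset.standardBorel
  · refine ⟨fun u => ⟨rfl, 1, act_one _⟩, ?_, ?_⟩
    · rintro u v ⟨h1, g, h2⟩
      refine ⟨h1.symm, g⁻¹, ?_⟩
      rw [← h2, ← act_mul, inv_mul_cancel, act_one]
    · rintro u v w ⟨h1, g, h2⟩ ⟨h3, g', h4⟩
      refine ⟨h1.trans h3, g' * g, ?_⟩
      rw [act_mul, h2, h4]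
  · have h1 : MeasurableSet {p : XE × XE | p.1.1.1 = p.2.1.1} :=
      measurableSet_eq_fun (espace_measurable_fst.comp measurable_fst)
        (espace_measurable_fst.comp measurable_snd)
    have h2 : MeasurableSet {p : XE × XE | ∃ g : FF, act g p.1.1.2 = p.2.1.2} := by
      have h3 : {p : XE × XE | ∃ g : FF, act g p.1.1.2 = p.2.1.2} =
          ⋃ g : FF, {p : XE × XE | act g p.1.1.2 = p.2.1.2} := by
        ext p
        simp
      rw [h3]
      refine MeasurableSet.iUnion fun g => ?_
      exact measurableSet_eq_fun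
        ((measurable_act g).comp (espace_measurable_snd.comp measurable_fst))
        (espace_measurable_snd.comp measurable_snd)
    exact h1.inter h2
  · intro u
    have h1 : (Set.range fun g : FF => (u.1.1, act g u.1.2)).Countable := Set.countable_range _
    refine (h1.preimage_of_injOn (f := fun v : XE => v.1) (Subtype.val_injective.injOn)).mono ?_
    rintro v ⟨h2, g, h3⟩
    exact ⟨g, Prod.ext h2 h3⟩
  · intro u
    have hx : u.1.2 ∈ XX u.1.1 := u.2.2
    refine Set.infinite_of_injective_forall_mem (f := fun n : ℕ =>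
      (⟨(u.1.1, act ((FreeGroup.of Gen.t) ^ (n : ℤ)) u.1.2), u.2.1, espace_XX_act hx _⟩ : XE)) ?_ ?_
    · intro n m h
      have h1 := congrArg (fun v : XE => v.1.2) h
      have h2 := espace_tpow_inj hx h1
      exact_mod_cast h2
    · intro n
      exact ⟨rfl, _, rfl⟩

theorem EE_not_smooth : ¬ IsSmooth EE := by
  rintro ⟨T, hT, hu⟩
  set y : ℕ → Bool := fun _ => true with hy
  have hyB : y ∈ BB := fun n => ⟨n, le_rfl, rfl⟩
  set Ty : Set Bits := {x | (y, x) ∈ (Subtype.val '' T : Set ((ℕ → Bool) × Bits))} with hTy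
  have hTym : MeasurableSet Ty := by
    have h1 : MeasurableSet (Subtype.val '' T : Set ((ℕ → Bool) × Bits)) :=
      (MeasurableEmbedding.subtype_coe measurableSet_XEset).measurableSet_image.2 hT
    exact measurable_prodMk_left h1
  have hmem : ∀ x, x ∈ Ty → ∃ h : x ∈ XX y, (⟨(y, x), hyB, h⟩ : XE) ∈ T := by
    rintro x ⟨v, hv, hvx⟩
    have h1 : x ∈ XX y := by
      have h2 := v.2.2
      rw [hvx] at h2
      exact h2
    refine ⟨h1, ?_⟩
    have h3 : (⟨(y, x), hyB, h1⟩ : XE) = v := Subtype.ext hvx.symm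
    rw [h3]
    exact hv
  -- translates of `Ty` cover `XX y`
  have hcover : XX y ⊆ ⋃ g : FF, act g ⁻¹' Ty := by
    intro x hx
    obtain ⟨v, ⟨hvT, hv1, g, hv2⟩, -⟩ := hu ⟨(y, x), hyB, hx⟩
    refine Set.mem_iUnion.2 ⟨g, v, hvT, ?_⟩
    exact Prod.ext hv1.symm hv2.symm
  have hpre : ∀ g : FF, muY y (act g ⁻¹' Ty) = muY y Ty :=
    fun g => (muY_act y g).measure_preimage hTym.nullMeasurableSet
  have hpos : muY y Ty ≠ 0 := by
    intro h0
    have h1 : muY y (⋃ g : FF, act g ⁻¹' Ty) = 0 := by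
      rw [measure_iUnion_null_iff]
      intro g
      rw [hpre, h0]
    have h2 : muY y (XX y) = 0 := measure_mono_null hcover h1
    have h3 : muY y (XX y) = 1 := by
      rw [← prob_compl_eq_zero_iff (measurableSet_XX y)]
      exact muY_XX y
    rw [h3] at h2
    exact one_ne_zero h2
  -- translates by powers of `t` are disjoint
  have hdisj : Pairwise (Function.onFun Disjoint
      (fun n : ℕ => act ((FreeGroup.of Gen.t) ^ (n : ℤ)) ⁻¹' Ty)) := by
    intro n m hnm
    rw [Function.onFun, Set.disjoint_left]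
    intro x hxn hxm
    obtain ⟨h1, h2⟩ := hmem _ hxn
    obtain ⟨h3, h4⟩ := hmem _ hxm
    have hx : x ∈ XX y := by
      have h5 := espace_XX_act h1 ((FreeGroup.of Gen.t) ^ (n : ℤ))⁻¹
      rwa [← act_mul, inv_mul_cancel, act_one] at h5
    obtain ⟨v, -, hv⟩ := hu ⟨(y, x), hyB, hx⟩
    have e1 := hv _ ⟨h2, rfl, _, rfl⟩
    have e2 := hv _ ⟨h4, rfl, _, rfl⟩
    have e3 := congrArg (fun v : XE => v.1.2) (e1.trans e2.symm)
    have e4 := espace_tpow_inj hx e3
    exact hnm (by exact_mod_cast e4)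
  have hsum : muY y (⋃ n : ℕ, act ((FreeGroup.of Gen.t) ^ (n : ℤ)) ⁻¹' Ty) = ⊤ := by
    rw [measure_iUnion hdisj (fun n => measurable_act _ hTym)]
    simp only [hpre]
    exact ENNReal.tsum_const_eq_top_of_ne_zero hpos
  exact measure_ne_top _ _ hsum

end Pool.Agent.CR
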