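import Pool.Agent.H.MP_894ea6_lc.L.GapB
import Pool.Agent.H.MP_894ea6_lc.L.InvVec

/-! MP_894ea6_lc, module Major: the majority class -/

open MeasureTheory

namespace Pool.Agent.CR

theorem major_measurable_sInf {Z : Type*} [MeasurableSpace Z] (p : Z → ℕ → Prop)
    (hp : ∀ n, MeasurableSet {z | p z n}) : Measurable fun z => sInf {n | p z n} := by
  apply measurable_of_Iic
  intro k
  have : (fun z => sInf {n | p z n}) ⁻¹' Set.Iic k =
      (⋃ n ∈ Set.Iic k, {z | p z n}) ∪ ⋂ n, {z | p z n}ᶜ := by
    ext z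
    simp only [Set.mem_preimage, Set.mem_Iic, Set.mem_union, Set.mem_iUnion, Set.mem_ofPred_eq,
      Set.mem_iInter, Set.mem_compl_iff, exists_prop]
    constructor
    · intro hz
      by_cases hne : {n | p z n}.Nonempty
      · exact Or.inl ⟨_, hz, Nat.sInf_mem hne⟩
      · right
        intro n hn
        exact hne ⟨n, hn⟩
    · rintro (⟨n, hn, hpn⟩ | h)
      · exact (Nat.sInf_le hpn).trans hn
      · have : {n | p z n} = ∅ := by
          ext n
          simp [h n]
        rw [this, Nat.sInf_empty]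
        exact Nat.zero_le _
  rw [this]
  refine MeasurableSet.union ?_ ?_
  · exact MeasurableSet.biUnion (Set.to_countable _) fun n _ => hp n
  · exact MeasurableSet.iInter fun n => (hp n).compl

section Major

variable {G Z K : Type*} [Group G] [MeasurableSpace Z] {m : Measure Z} (A : PAct G m)
  (F : K → K → Prop) (κ : Z → K) (e : ℕ → G)

/-- the label of the class of `κ (h z)` -/
noncomputable def majorLab (z : Z) (h : G) : ℕ :=
  sInf {n | F (κ (A.T (e n) z)) (κ (A.T h z))}

/-- the set of labels -/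
def majorL : Set (Z × ℕ) := {y | majorLab A F κ e y.1 (e y.2) = y.2}

/-- the action on labels -/
noncomputable def majorR (g : G) (y : Z × ℕ) : Z × ℕ :=
  (A.T g y.1, majorLab A F κ e (A.T g y.1) (e y.2 * g⁻¹))

variable {F κ e}

theorem major_spec (hF : Equivalence F) (he : Function.Surjective e) (z : Z) (h : G) :
    F (κ (A.T (e (majorLab A F κ e z h)) z)) (κ (A.T h z)) := by
  have : (majorLab A F κ e z h) ∈ {n | F (κ (A.T (e n) z)) (κ (A.T h z))} := by
    apply Nat.sInf_mem
    obtain ⟨n, hn⟩ := he h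
    refine ⟨n, ?_⟩
    show F (κ (A.T (e n) z)) (κ (A.T h z))
    rw [hn]
    exact hF.refl _
  exact this

theorem major_eq_iff (hF : Equivalence F) (he : Function.Surjective e) (z : Z) (h k : G) :
    majorLab A F κ e z h = majorLab A F κ e z k ↔ F (κ (A.T h z)) (κ (A.T k z)) := by
  constructor
  · intro hh
    have h1 := major_spec A (κ := κ) hF he z h
    have h2 := major_spec A (κ := κ) hF he z k
    rw [hh] at h1
    exact hF.trans (hF.symm h1) h2
  · intro hh
    unfold majorLab
    congr 1
    ext n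
    exact ⟨fun h1 => hF.trans h1 hh, fun h1 => hF.trans h1 (hF.symm hh)⟩

theorem major_isLab (hF : Equivalence F) (he : Function.Surjective e) (z : Z) (h : G) :
    majorLab A F κ e z (e (majorLab A F κ e z h)) = majorLab A F κ e z h :=
  (major_eq_iff A hF he z _ _).2 (major_spec A hF he z h)

theorem major_T_inv (g h : G) (z : Z) : A.T (h * g⁻¹) (A.T g z) = A.T h z := by
  rw [← A.mul, inv_mul_cancel_right]

theorem major_R_mul (hF : Equivalence F) (he : Function.Surjective e) (g h : G) (y : Z × ℕ) :
    majorR A F κ e (g * h) y = majorR A F κ e g (majorR A F κ e h y) := by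
  unfold majorR
  refine Prod.ext (A.mul _ _ _) ?_
  show majorLab A F κ e (A.T (g * h) y.1) (e y.2 * (g * h)⁻¹) =
    majorLab A F κ e (A.T g (A.T h y.1))
      (e (majorLab A F κ e (A.T h y.1) (e y.2 * h⁻¹)) * g⁻¹)
  rw [A.mul, major_eq_iff A hF he, major_T_inv]
  have h1 := major_spec A (κ := κ) hF he (A.T h y.1) (e y.2 * h⁻¹)
  refine hF.symm ?_
  rw [mul_inv_rev, ← mul_assoc, major_T_inv]
  exact h1

/-- the bijection between the labels at `z` and at `g z` -/
noncomputable def majorEquiv (hF : Equivalence F) (he : Function.Surjective e) (g : G) (z : Z) :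
    {n // majorLab A F κ e z (e n) = n} ≃ {n // majorLab A F κ e (A.T g z) (e n) = n} where
  toFun n := ⟨majorLab A F κ e (A.T g z) (e n * g⁻¹), major_isLab A hF he _ _⟩
  invFun n := ⟨majorLab A F κ e z (e n * g), major_isLab A hF he _ _⟩
  left_inv n := by
    apply Subtype.ext
    show majorLab A F κ e z (e (majorLab A F κ e (A.T g z) (e n * g⁻¹)) * g) = n
    conv_rhs => rw [← n.2]
    rw [major_eq_iff A hF he, A.mul]
    have h1 := major_spec A (κ := κ) hF he (A.T g z) (e n * g⁻¹)
    rw [major_T_inv] at h1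
    exact h1
  right_inv n := by
    apply Subtype.ext
    show majorLab A F κ e (A.T g z) (e (majorLab A F κ e z (e n * g)) * g⁻¹) = n
    conv_rhs => rw [← n.2]
    rw [major_eq_iff A hF he, major_T_inv]
    have h1 := major_spec A (κ := κ) hF he z (e n * g)
    rw [A.mul] at h1
    exact h1

/-- sum over the labels -/
noncomputable def majorJ (F : K → K → Prop) (κ : Z → K) (e : ℕ → G) (f : Z × ℕ → ENNReal)
    (z : Z) : ENNReal := ∑' n : {n // majorLab A F κ e z (e n) = n}, f (z, n)

theorem major_J_eq (f : Z × ℕ → ENNReal) (z : Z) :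
    majorJ A F κ e f z = ∑' n, (majorL A F κ e).indicator f (z, n) := by
  unfold majorJ
  have := tsum_subtype {n | majorLab A F κ e z (e n) = n} (fun n => f (z, n))
  refine Eq.trans this ?_
  apply tsum_congr
  intro n
  by_cases hn : majorLab A F κ e z (e n) = n
  · rw [Set.indicator_of_mem (show n ∈ {n | majorLab A F κ e z (e n) = n} from hn),
      Set.indicator_of_mem (show (z, n) ∈ majorL A F κ e from hn)]
  · rw [Set.indicator_of_notMem (show n ∉ {n | majorLab A F κ e z (e n) = n} from hn),
      Set.indicator_of_notMem (show (z, n) ∉ majorL A F κ e from hn)]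

theorem major_J_comp (hF : Equivalence F) (he : Function.Surjective e) (f : Z × ℕ → ENNReal)
    (g : G) (z : Z) :
    majorJ A F κ e (fun y => f (majorR A F κ e g y)) z = majorJ A F κ e f (A.T g z) := by
  unfold majorJ
  rw [← (majorEquiv A hF he g z).tsum_eq]
  rfl

variable [MeasurableSpace K]

theorem major_set_meas (hFm : MeasurableSet {p : K × K | F p.1 p.2}) (hκ : Measurable κ)
    (g h : G) : MeasurableSet {z | F (κ (A.T g z)) (κ (A.T h z))} :=
  ((hκ.comp (A.mp g).measurable).prodMk (hκ.comp (A.mp h).measurable)) hFm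

theorem major_lab_meas (hFm : MeasurableSet {p : K × K | F p.1 p.2}) (hκ : Measurable κ)
    (h : G) : Measurable fun z => majorLab A F κ e z h :=
  major_measurable_sInf _ fun n => major_set_meas A hFm hκ (e n) h

theorem major_L_meas (hFm : MeasurableSet {p : K × K | F p.1 p.2}) (hκ : Measurable κ) :
    MeasurableSet (majorL A F κ e) := by
  have h1 : Measurable fun y : Z × ℕ => majorLab A F κ e y.1 (e y.2) :=
    measurable_from_prod_countable_left fun n => major_lab_meas A hFm hκ (e n)
  exact measurableSet_eq_fun h1 measurable_snd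

theorem major_R_meas (hFm : MeasurableSet {p : K × K | F p.1 p.2}) (hκ : Measurable κ)
    (g : G) : Measurable (majorR A F κ e g) := by
  refine measurable_from_prod_countable_left fun n => ?_
  exact (A.mp g).measurable.prodMk
    ((major_lab_meas A (e := e) hFm hκ (e n * g⁻¹)).comp (A.mp g).measurable)

/-- the measure on the space of labels -/
noncomputable def majorNu (F : K → K → Prop) (κ : Z → K) (e : ℕ → G) : Measure (Z × ℕ) :=
  (m.prod Measure.count).restrict (majorL A F κ e)

theorem major_lintegral [SFinite m] (hFm : MeasurableSet {p : K × K | F p.1 p.2})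
    (hκ : Measurable κ) (f : Z × ℕ → ENNReal) (hf : Measurable f) :
    ∫⁻ y, f y ∂(majorNu A F κ e) = ∫⁻ z, majorJ A F κ e f z ∂m := by
  unfold majorNu
  rw [← lintegral_indicator (major_L_meas A hFm hκ),
    lintegral_prod _ ((hf.indicator (major_L_meas A hFm hκ)).aemeasurable)]
  apply lintegral_congr
  intro z
  rw [lintegral_count, major_J_eq]

theorem major_J_meas (hFm : MeasurableSet {p : K × K | F p.1 p.2}) (hκ : Measurable κ)
    (f : Z × ℕ → ENNReal) (hf : Measurable f) : Measurable (majorJ A F κ e f) := by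
  have : majorJ A F κ e f = fun z => ∑' n, (majorL A F κ e).indicator f (z, n) :=
    funext fun z => major_J_eq A f z
  rw [this]
  apply Measurable.tsum
  intro n
  exact (hf.indicator (major_L_meas A hFm hκ)).comp (measurable_id.prodMk measurable_const)

theorem major_mp [SFinite m] (hF : Equivalence F) (he : Function.Surjective e)
    (hFm : MeasurableSet {p : K × K | F p.1 p.2}) (hκ : Measurable κ) (g : G) :
    MeasurePreserving (majorR A F κ e g) (majorNu A F κ e) (majorNu A F κ e) := by
  refine ⟨major_R_meas A hFm hκ g, ?_⟩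
  ext s hs
  rw [Measure.map_apply (major_R_meas A hFm hκ g) hs]
  have h1 : Measurable (s.indicator (1 : Z × ℕ → ENNReal)) := measurable_one.indicator hs
  have h2 : (majorR A F κ e g ⁻¹' s).indicator (1 : Z × ℕ → ENNReal) =
      fun y => s.indicator (1 : Z × ℕ → ENNReal) (majorR A F κ e g y) := by
    ext y
    by_cases hy : majorR A F κ e g y ∈ s
    · rw [Set.indicator_of_mem hy, Set.indicator_of_mem (show y ∈ majorR A F κ e g ⁻¹' s from hy)]
      rfl
    · rw [Set.indicator_of_notMem hy,
        Set.indicator_of_notMem (show y ∉ majorR A F κ e g ⁻¹' s from hy)]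
  have h3 : Measurable fun y => s.indicator (1 : Z × ℕ → ENNReal) (majorR A F κ e g y) :=
    h1.comp (major_R_meas A hFm hκ g)
  rw [← lintegral_indicator_one (major_R_meas A hFm hκ g hs), ← lintegral_indicator_one hs, h2,
    major_lintegral A hFm hκ _ h3, major_lintegral A hFm hκ _ h1]
  simp_rw [major_J_comp A hF he]
  exact (A.mp g).lintegral_comp (major_J_meas A hFm hκ _ h1)

theorem major_ae [SFinite m] (hFm : MeasurableSet {p : K × K | F p.1 p.2}) (hκ : Measurable κ)
    {P : Z × ℕ → Prop} (h : ∀ᵐ y ∂(majorNu A F κ e), P y) :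
    ∀ᵐ z ∂m, ∀ n, majorLab A F κ e z (e n) = n → P (z, n) := by
  unfold majorNu at h
  rw [ae_restrict_iff' (major_L_meas A hFm hκ)] at h
  have h1 := Measure.ae_ae_of_ae_prod h
  filter_upwards [h1] with z hz
  rw [Measure.ae_count_iff] at hz
  intro n hn
  exact hz n hn

/-- the section -/
def majorS (F : K → K → Prop) (κ : Z → K) (e : ℕ → G) : Set (Z × ℕ) :=
  {y | majorLab A F κ e y.1 1 = y.2}

theorem major_S_meas (hFm : MeasurableSet {p : K × K | F p.1 p.2}) (hκ : Measurable κ) :
    MeasurableSet (majorS A F κ e) :=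
  measurableSet_eq_fun ((major_lab_meas A hFm hκ 1).comp measurable_fst)
    measurable_snd

theorem major_s_meas (hFm : MeasurableSet {p : K × K | F p.1 p.2}) (hκ : Measurable κ) :
    Measurable fun z => (z, majorLab A F κ e z 1) :=
  measurable_id.prodMk (major_lab_meas A hFm hκ 1)

theorem major_S_apply [SFinite m] (hF : Equivalence F) (he : Function.Surjective e)
    (hFm : MeasurableSet {p : K × K | F p.1 p.2}) (hκ : Measurable κ) {D : Set (Z × ℕ)}
    (hD : MeasurableSet D) :
    majorNu A F κ e (D ∩ majorS A F κ e) = m {z | (z, majorLab A F κ e z 1) ∈ D} := by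
  have hDS := hD.inter (major_S_meas A (e := e) hFm hκ)
  have hD' : MeasurableSet {z | (z, majorLab A F κ e z 1) ∈ D} := major_s_meas A hFm hκ hD
  rw [← lintegral_indicator_one hDS, ← lintegral_indicator_one hD',
    major_lintegral A hFm hκ _ (measurable_one.indicator hDS)]
  apply lintegral_congr
  intro z
  unfold majorJ
  rw [tsum_eq_single ⟨majorLab A F κ e z 1, major_isLab A hF he z 1⟩]
  · by_cases hz : (z, majorLab A F κ e z 1) ∈ D
    · rw [Set.indicator_of_mem (show z ∈ {z | (z, majorLab A F κ e z 1) ∈ D} from hz),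
        Set.indicator_of_mem (show (z, majorLab A F κ e z 1) ∈ D ∩ majorS A F κ e from ⟨hz, rfl⟩)]
      rfl
    · rw [Set.indicator_of_notMem (show z ∉ {z | (z, majorLab A F κ e z 1) ∈ D} from hz),
        Set.indicator_of_notMem fun h => hz h.1]
  · intro n hn
    apply Set.indicator_of_notMem
    intro h
    apply hn
    apply Subtype.ext
    exact h.2.symm

end Major

/-- If `κ(gz) F κ(z)` with probability at least `1 - δ` for all `g` in an ergodic group, then `κ` can
be replaced by an exactly equivariant map `κ'` that chooses, in the `F`-class structure of the orbit,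
the majority class. -/
theorem majority {G Z K : Type*} [Group G] [Countable G] [MeasurableSpace Z] {m : Measure Z}
    [IsProbabilityMeasure m] (A : PAct G m) (hE : Erg A) [MeasurableSpace K] (F : K → K → Prop)
    (hF : Equivalence F) (hFm : MeasurableSet {p : K × K | F p.1 p.2}) (κ : Z → K)
    (hκ : Measurable κ) {δ : ℝ} (hδ : δ ≤ 1 / 100)
    (h : ∀ g, m.real {z | ¬ F (κ (A.T g z)) (κ z)} ≤ δ) :
    ∃ κ' : Z → K, Measurable κ' ∧ (∀ g, ∀ᵐ z ∂m, F (κ' (A.T g z)) (κ' z)) ∧
      m.real {z | ¬ F (κ' z) (κ z)} ≤ 4 * δ := by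
  obtain ⟨e, he⟩ := exists_surjective_nat G
  set lab : Z → G → ℕ := majorLab A F κ e with hlab
  set ν := majorNu A F κ e with hν
  set S := majorS A F κ e with hS
  have hSm : MeasurableSet S := major_S_meas A hFm hκ
  set s : Z → Z × ℕ := fun z => (z, lab z 1) with hs
  have hsm : Measurable s := major_s_meas A hFm hκ
  have hrestr : ν.restrict S = m.map s := by
    ext D hD
    rw [Measure.restrict_apply hD, Measure.map_apply hsm hD]
    exact major_S_apply A hF he hFm hκ hD
  have hS1 : ν S = 1 := by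
    have := major_S_apply A (e := e) hF he hFm hκ (D := Set.univ) MeasurableSet.univ
    rw [Set.univ_inter] at this
    rw [hν, hS, this]
    simp
  have hSf : ν S ≠ ⊤ := by rw [hS1]; exact ENNReal.one_ne_top
  have hc : ∀ g, 1 - δ ≤ ν.real (majorR A F κ e g ⁻¹' S ∩ S) := by
    intro g
    have h1 : ν.real (majorR A F κ e g ⁻¹' S ∩ S) = m.real {z | F (κ (A.T g z)) (κ z)} := by
      rw [Measure.real, Measure.real, hν, hS,
        major_S_apply A hF he hFm hκ (major_R_meas A hFm hκ g (major_S_meas A hFm hκ))]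
      congr 2
      ext z
      simp only [Set.mem_preimage, Set.mem_ofPred_eq, majorS, majorR]
      rw [major_eq_iff A hF he, major_T_inv, A.one]
      have h2 := major_spec A (κ := κ) hF he z 1
      rw [A.one] at h2
      exact ⟨fun h3 => hF.trans h3 h2, fun h3 => hF.trans h3 (hF.symm h2)⟩
    rw [h1]
    have h2 : MeasurableSet {z | F (κ (A.T g z)) (κ z)} := by
      have := major_set_meas A hFm hκ g 1
      simpa only [A.one] using this
    have h3 := h g
    have h4 : {z | ¬ F (κ (A.T g z)) (κ z)} = {z | F (κ (A.T g z)) (κ z)}ᶜ := rfl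
    rw [h4, measureReal_compl h2, probReal_univ] at h3
    linarith
  obtain ⟨ξ, hξm, hξ0, hξL, hξ1, hξinv, hξS⟩ := inv_vec ν (majorR A F κ e)
    (major_mp A hF he hFm hκ) (fun g h => Filter.Eventually.of_forall fun y =>
      major_R_mul A hF he g h y) S S hSm hSm hSf hSf (1 - δ) hc
  have hνS : ν.real S = 1 := by rw [Measure.real, hS1]; rfl
  rw [hνS] at hξ1
  rw [hrestr, integral_map hsm.aemeasurable hξm.aestronglyMeasurable] at hξS
  -- invariance
  have hinv : ∀ g, ∀ᵐ z ∂m, ∀ n, lab z (e n) = n →
      ξ (A.T g z, lab (A.T g z) (e n * g⁻¹)) = ξ (z, n) := fun g =>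
    major_ae A hFm hκ (hξinv g)
  -- the function N
  set f : Z × ℕ → ENNReal := fun y => ENNReal.ofReal (ξ y ^ 2) with hf
  have hfm : Measurable f := (hξm.pow_const 2).ennreal_ofReal
  set N : Z → ENNReal := majorJ A F κ e f with hN
  have hNm : Measurable N := major_J_meas A hFm hκ f hfm
  have hNinv : ∀ g, ∀ᵐ z ∂m, N (A.T g z) = N z := by
    intro g
    filter_upwards [hinv g] with z hz
    rw [hN, ← major_J_comp A hF he]
    unfold majorJ
    apply tsum_congr
    intro n
    have := hz n n.2
    show ENNReal.ofReal (ξ (A.T g z, lab (A.T g z) (e n * g⁻¹)) ^ 2) = ENNReal.ofReal (ξ (z, n) ^ 2)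
    rw [this]
  obtain ⟨c, hcN⟩ := hE.ae_const N hNm hNinv
  have hNint : ∫⁻ z, N z ∂m ≤ 1 := by
    rw [hN, ← major_lintegral A hFm hκ f hfm, ← hν, hf,
      ← ofReal_integral_eq_lintegral_ofReal hξL.integrable_sq
        (Filter.Eventually.of_forall fun y => sq_nonneg _)]
    rw [← ENNReal.ofReal_one]
    exact ENNReal.ofReal_le_ofReal hξ1
  have hc1 : c ≤ 1 := by
    rw [lintegral_congr_ae hcN, lintegral_const, measure_univ, mul_one] at hNint
    exact hNint
  have hN1 : ∀ᵐ z ∂m, N z ≤ 1 := by
    filter_upwards [hcN] with z hz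
    rw [hz]; exact hc1
  have hlabs : ∀ z, lab z (e (lab z 1)) = lab z 1 := fun z => major_isLab A hF he z 1
  have hξle : ∀ᵐ z ∂m, ξ (s z) ≤ 1 := by
    filter_upwards [hN1] with z hz
    have h1 : f (z, lab z 1) ≤ N z :=
      ENNReal.le_tsum (f := fun n : {n // majorLab A F κ e z (e n) = n} => f (z, n))
        ⟨lab z 1, hlabs z⟩
    have h2 : ENNReal.ofReal (ξ (s z) ^ 2) ≤ 1 := h1.trans hz
    rw [ENNReal.ofReal_le_one] at h2
    nlinarith [hξ0 (s z)]
  have huniq : ∀ᵐ z ∂m, ∀ n n', lab z (e n) = n → lab z (e n') = n' → 3 / 4 < ξ (z, n) →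
      3 / 4 < ξ (z, n') → n = n' := by
    filter_upwards [hN1] with z hz n n' hn hn' h1 h2
    by_contra hne
    have hne' : (⟨n, hn⟩ : {n // majorLab A F κ e z (e n) = n}) ≠ ⟨n', hn'⟩ := fun h =>
      hne (congrArg Subtype.val h)
    have h3 : ∑ k ∈ ({⟨n, hn⟩, ⟨n', hn'⟩} : Finset {n // majorLab A F κ e z (e n) = n}),
        f (z, k) ≤ N z := ENNReal.sum_le_tsum _
    rw [Finset.sum_pair hne'] at h3
    have h4 : ENNReal.ofReal (ξ (z, n) ^ 2) + ENNReal.ofReal (ξ (z, n') ^ 2) ≤ 1 := h3.trans hz
    rw [← ENNReal.ofReal_add (sq_nonneg _) (sq_nonneg _), ENNReal.ofReal_le_one] at h4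
    nlinarith
  -- the bound
  have hsint : Integrable (fun z => ξ (s z)) m := by
    refine Integrable.of_bound (hξm.comp hsm).aestronglyMeasurable 1 ?_
    filter_upwards [hξle] with z hz
    rw [Real.norm_eq_abs, abs_of_nonneg (hξ0 _)]
    exact hz
  have hbad : m.real {z | ξ (s z) ≤ 3 / 4} ≤ 4 * δ := by
    have h1 := mul_meas_ge_le_integral_of_nonneg (μ := m) (f := fun z => 1 - ξ (s z))
      (by filter_upwards [hξle] with z hz; show (0 : ℝ) ≤ 1 - ξ (s z); linarith)
      ((integrable_const _).sub hsint) (1 / 4)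
    rw [integral_sub (integrable_const _) hsint, integral_const, probReal_univ, one_smul] at h1
    have h2 : {z | (1 : ℝ) / 4 ≤ 1 - ξ (s z)} = {z | ξ (s z) ≤ 3 / 4} := by
      ext z
      simp only [Set.mem_ofPred_eq]
      constructor <;> intro h <;> linarith
    rw [h2] at h1
    linarith
  -- the set of good points
  set P : Z → ℕ → Prop := fun z n => lab z (e n) = n ∧ 3 / 4 < ξ (z, n) with hP
  have hPm : ∀ n, MeasurableSet {z | P z n} := by
    intro n
    refine MeasurableSet.inter ?_ ?_
    · exact major_lab_meas A hFm hκ (e n) (measurableSet_singleton n)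
    · exact measurableSet_lt measurable_const (hξm.comp (measurable_id.prodMk measurable_const))
  set E : Set Z := {z | ∃ n, P z n} with hEd
  have hEm : MeasurableSet E := by
    have : E = ⋃ n, {z | P z n} := by
      ext z
      simp [hEd]
    rw [this]
    exact MeasurableSet.iUnion hPm
  have hPinv : ∀ g, ∀ᵐ z ∂m, ∀ n, P z n → P (A.T g z) (lab (A.T g z) (e n * g⁻¹)) := by
    intro g
    filter_upwards [hinv g] with z hz n hn
    refine ⟨major_isLab A hF he _ _, ?_⟩
    rw [hz n hn.1]
    exact hn.2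
  have hEinv : ∀ g, ∀ᵐ z ∂m, A.T g z ∈ E ↔ z ∈ E := by
    intro g
    filter_upwards [hPinv g, (A.mp g).quasiMeasurePreserving.ae (hPinv g⁻¹)] with z hz hz'
    constructor
    · rintro ⟨n, hn⟩
      have := hz' n hn
      rw [← A.mul, inv_mul_cancel, A.one] at this
      exact ⟨_, this⟩
    · rintro ⟨n, hn⟩
      exact ⟨_, hz n hn⟩
  have hEsub : {z | ξ (s z) ≤ 3 / 4}ᶜ ⊆ E := by
    intro z hz
    simp only [Set.mem_compl_iff, Set.mem_ofPred_eq, not_le] at hz
    exact ⟨lab z 1, hlabs z, hz⟩
  have hE1 : ∀ᵐ z ∂m, ∃ n, P z n := by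
    rcases hE E hEm hEinv with h0 | h0
    · exfalso
      have h1 : m.real {z | ξ (s z) ≤ 3 / 4}ᶜ ≤ m.real E :=
        measureReal_mono hEsub (measure_ne_top _ _)
      have h2 : MeasurableSet {z | ξ (s z) ≤ 3 / 4} :=
        measurableSet_le (hξm.comp hsm) measurable_const
      rw [measureReal_compl h2, probReal_univ, Measure.real, Measure.real, h0] at h1
      have h3 : (m {z | ξ (s z) ≤ 3 / 4}).toReal ≤ 4 * δ := hbad
      simp only [ENNReal.toReal_zero] at h1
      linarith
    · rw [ae_iff]
      exact h0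
  -- the new map
  set nn : Z → ℕ := fun z => sInf {n | P z n} with hnn
  have hnnm : Measurable nn := major_measurable_sInf P hPm
  have hnnP : ∀ᵐ z ∂m, P z (nn z) := by
    filter_upwards [hE1] with z hz
    exact Nat.sInf_mem (s := {n | P z n}) hz
  refine ⟨fun z => κ (A.T (e (nn z)) z), ?_, ?_, ?_⟩
  · have h1 : Measurable fun y : Z × ℕ => κ (A.T (e y.2) y.1) :=
      measurable_from_prod_countable_left fun n => hκ.comp (A.mp (e n)).measurable
    exact h1.comp (measurable_id.prodMk hnnm)
  · intro g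
    filter_upwards [hPinv g, hnnP, (A.mp g).quasiMeasurePreserving.ae hnnP,
      (A.mp g).quasiMeasurePreserving.ae huniq] with z h1 h2 h3 h4
    have h5 := h1 _ h2
    have h6 := h4 _ _ h3.1 h5.1 h3.2 h5.2
    show F (κ (A.T (e (nn (A.T g z))) (A.T g z))) (κ (A.T (e (nn z)) z))
    rw [h6]
    have h7 := major_spec A (κ := κ) hF he (A.T g z) (e (nn z) * g⁻¹)
    rw [major_T_inv] at h7
    exact h7
  · refine le_trans ?_ hbad
    apply ENNReal.toReal_mono (measure_ne_top _ _)
    apply measure_mono_ae
    filter_upwards [hnnP, huniq] with z h1 h2 h3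
    show ξ (s z) ≤ 3 / 4
    by_contra h4
    rw [not_le] at h4
    apply h3
    have h5 := h2 _ _ h1.1 (hlabs z) h1.2 h4
    show F (κ (A.T (e (nn z)) z)) (κ z)
    rw [h5]
    have h7 := major_spec A (κ := κ) hF he z 1
    rw [A.one] at h7
    exact h7

end Pool.Agent.CR
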