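import Pool.Agent.H.MP_894ea6_lc.L.ExactE
import Pool.Agent.H.MP_894ea6_lc.L.Major

/-! MP_894ea6_lc, module Exact: exact equivariance for all of `FF` -/

open MeasureTheory

namespace Pool.Agent.CR

section aux

variable {Z K : Type*} [MeasurableSpace Z] {m : Measure Z}

private theorem exact_meas [MeasurableSpace K] {F : K → K → Prop}
    (hFm : MeasurableSet {p : K × K | F p.1 p.2}) {κ₁ κ₂ : Z → K} (h₁ : Measurable κ₁)
    (h₂ : Measurable κ₂) : MeasurableSet {z | F (κ₁ z) (κ₂ z)} :=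
  (h₁.prodMk h₂) hFm

private theorem exact_ae {G : Type*} [Group G] (A : PAct G m) (g : G) {P : Z → Prop}
    (h : ∀ᵐ z ∂m, P z) : ∀ᵐ z ∂m, P (A.T g z) :=
  (A.mp g).quasiMeasurePreserving.ae h

private theorem exact_pre {G : Type*} [Group G] (A : PAct G m) (g : G) {S : Set Z}
    (hS : MeasurableSet S) : m.real {z | A.T g z ∈ S} = m.real S := by
  have h := (A.mp g).measure_preimage hS.nullMeasurableSet
  have h' : {z | A.T g z ∈ S} = A.T g ⁻¹' S := rfl
  rw [h', Measure.real, Measure.real, h]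

private theorem exact_Emul [IsProbabilityMeasure m] (A : PAct FF m) [MeasurableSpace K]
    {F : K → K → Prop} (hF : Equivalence F) (hFm : MeasurableSet {p : K × K | F p.1 p.2})
    {κ : Z → K} (hκ : Measurable κ) (g h : FF) :
    m.real {z | ¬ F (κ (A.T (g * h) z)) (κ z)} ≤
      m.real {z | ¬ F (κ (A.T g z)) (κ z)} + m.real {z | ¬ F (κ (A.T h z)) (κ z)} := by
  have hm : MeasurableSet {z | ¬ F (κ (A.T g z)) (κ z)} :=
    (exact_meas hFm (hκ.comp (A.mp g).measurable) hκ).compl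
  rw [← exact_pre A h hm]
  refine le_trans (measureReal_mono ?_) (measureReal_union_le _ _)
  intro z hz
  by_contra hc
  simp only [Set.mem_union, Set.mem_ofPred_eq, not_or, not_not] at hc hz
  apply hz
  rw [A.mul]
  exact hF.trans hc.1 hc.2

private theorem exact_Einv [IsProbabilityMeasure m] (A : PAct FF m) [MeasurableSpace K]
    {F : K → K → Prop} (hF : Equivalence F) (hFm : MeasurableSet {p : K × K | F p.1 p.2})
    {κ : Z → K} (hκ : Measurable κ) (g : FF) :
    m.real {z | ¬ F (κ (A.T g⁻¹ z)) (κ z)} = m.real {z | ¬ F (κ (A.T g z)) (κ z)} := by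
  have hm : MeasurableSet {z | ¬ F (κ (A.T g z)) (κ z)} :=
    (exact_meas hFm (hκ.comp (A.mp g).measurable) hκ).compl
  rw [← exact_pre A g⁻¹ hm]
  congr 1
  ext z
  simp only [Set.mem_ofPred_eq, ← A.mul, mul_inv_cancel, A.one]
  exact not_congr ⟨fun h => hF.symm h, fun h => hF.symm h⟩

/-- `κ'` close to `κ` and `κ` almost invariant under `u`: then the set of failure for `κ'` is small -/
private theorem exact_close [IsProbabilityMeasure m] (A : PAct FF m) [MeasurableSpace K]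
    {F : K → K → Prop} (hF : Equivalence F) (hFm : MeasurableSet {p : K × K | F p.1 p.2})
    {κ κ' : Z → K} (hκ : Measurable κ) (hκ' : Measurable κ') (u : FF) {α β : ℝ}
    (hα : m.real {z | ¬ F (κ' z) (κ z)} ≤ α) (hβ : m.real {z | ¬ F (κ (A.T u z)) (κ z)} ≤ β) :
    m.real {z | ¬ F (κ' (A.T u z)) (κ' z)} ≤ 2 * α + β := by
  have hm : MeasurableSet {z | ¬ F (κ' z) (κ z)} := (exact_meas hFm hκ' hκ).compl
  have h1 := exact_pre A u hm
  have h2 : m.real {z | ¬ F (κ' (A.T u z)) (κ' z)} ≤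
      m.real ({z | A.T u z ∈ {z | ¬ F (κ' z) (κ z)}} ∪
        ({z | ¬ F (κ (A.T u z)) (κ z)} ∪ {z | ¬ F (κ' z) (κ z)})) := by
    refine measureReal_mono ?_
    intro z hz
    by_contra hc
    simp only [Set.mem_union, Set.mem_ofPred_eq, not_or, not_not] at hc hz
    exact hz (hF.trans hc.1 (hF.trans hc.2.1 (hF.symm hc.2.2)))
  have h3 := measureReal_union_le (μ := m) {z | A.T u z ∈ {z | ¬ F (κ' z) (κ z)}}
    ({z | ¬ F (κ (A.T u z)) (κ z)} ∪ {z | ¬ F (κ' z) (κ z)})
  have h4 := measureReal_union_le (μ := m) {z | ¬ F (κ (A.T u z)) (κ z)} {z | ¬ F (κ' z) (κ z)}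
  linarith

/-- zero-one law -/
private theorem exact_step [IsProbabilityMeasure m] (A : PAct FF m) (hE : Erg (A.comp iota))
    [MeasurableSpace K] {F : K → K → Prop} (hF : Equivalence F)
    (hFm : MeasurableSet {p : K × K | F p.1 p.2}) {κ' : Z → K} (hκ' : Measurable κ')
    (hinv : ∀ γ : Gam, ∀ᵐ z ∂m, F (κ' (A.T (iota γ) z)) (κ' z)) (u : FF)
    (H : ∀ γ : Gam, ∀ᵐ z ∂m, F (κ' (A.T (u * iota γ) z)) (κ' (A.T u z)))
    (hlt : m.real {z | ¬ F (κ' (A.T u z)) (κ' z)} < 1) :
    ∀ᵐ z ∂m, F (κ' (A.T u z)) (κ' z) := by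
  have hm : MeasurableSet {z | F (κ' (A.T u z)) (κ' z)} :=
    exact_meas hFm (hκ'.comp (A.mp u).measurable) hκ'
  have h := hE {z | F (κ' (A.T u z)) (κ' z)} hm ?_
  · rcases h with h | h
    · exfalso
      have h1 : m.real {z | F (κ' (A.T u z)) (κ' z)} = 0 := by
        rw [Measure.real, h]; simp
      have h2 := measureReal_compl (μ := m) hm
      have h3 : {z | F (κ' (A.T u z)) (κ' z)}ᶜ = {z | ¬ F (κ' (A.T u z)) (κ' z)} := rfl
      rw [h3, h1] at h2
      simp only [probReal_univ, sub_zero] at h2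
      linarith
    · rw [ae_iff]
      exact h
  · intro γ
    filter_upwards [H γ, hinv γ] with z h1 h2
    show F (κ' (A.T u ((A.comp iota).T γ z))) (κ' ((A.comp iota).T γ z)) ↔ F (κ' (A.T u z)) (κ' z)
    have h3 : A.T u ((A.comp iota).T γ z) = A.T (u * iota γ) z := (A.mul _ _ _).symm
    have h4 : (A.comp iota).T γ z = A.T (iota γ) z := rfl
    rw [h3, h4]
    constructor
    · intro h
      exact hF.trans (hF.symm h1) (hF.trans h h2)
    · intro h
      exact hF.trans h1 (hF.trans h (hF.symm h2))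

/-- elements commuting with `iota Gam` modulo the kernel -/
private theorem exact_comm [IsProbabilityMeasure m] (A : PAct FF m) {d : ℕ → Bool}
    (hN : ∀ n ∈ NN d, ∀ᵐ z ∂m, A.T n z = z) {F : K → K → Prop} {κ' : Z → K}
    (hinv : ∀ γ : Gam, ∀ᵐ z ∂m, F (κ' (A.T (iota γ) z)) (κ' z)) (u : FF) (γ : Gam)
    (hc : Phi d (u * iota γ) = Phi d (iota γ * u)) :
    ∀ᵐ z ∂m, F (κ' (A.T (u * iota γ) z)) (κ' (A.T u z)) := by
  have hn : (iota γ * u)⁻¹ * (u * iota γ) ∈ NN d := by
    rw [NN, MonoidHom.mem_ker, map_mul, map_inv, hc, inv_mul_cancel]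
  filter_upwards [hN _ hn, exact_ae A u (hinv γ)] with z h1 h2
  have h3 : A.T (u * iota γ) z = A.T (iota γ) (A.T u z) := by
    have h4 : A.T (u * iota γ) z = A.T (iota γ * u) (A.T ((iota γ * u)⁻¹ * (u * iota γ)) z) := by
      rw [← A.mul, mul_inv_cancel_left]
    rw [h4, h1, A.mul]
  rw [h3]
  exact h2

end aux

theorem exactness {Z K : Type*} [MeasurableSpace Z] {m : Measure Z} [IsProbabilityMeasure m]
    (A : PAct FF m) (hA : Gap3All A) (d : ℕ → Bool) (hN : ∀ n ∈ NN d, ∀ᵐ z ∂m, A.T n z = z)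
    [MeasurableSpace K] (F : K → K → Prop) (hF : Equivalence F)
    (hFm : MeasurableSet {p : K × K | F p.1 p.2}) (κ : Z → K) (hκ : Measurable κ)
    (hs : ∀ s : Gen, m.real {z | ¬ F (κ (A.T (FreeGroup.of s) z)) (κ z)} ≤ 1 / 1000000) :
    ∃ κ' : Z → K, Measurable κ' ∧ (∀ g, ∀ᵐ z ∂m, F (κ' (A.T g z)) (κ' z)) ∧
      m.real {z | ¬ F (κ' z) (κ z)} ≤ 1 / 1000 := by
  have hE : Erg (A.comp iota) := by
    have h1 := hA 1 (MonoidHom.id Gam) Function.injective_id
    have h2 := GapPair.of_diag3_one (A.mp _).measurable (A.mp _).measurable h1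
    simp only [MonoidHom.id_apply, one_mul, inv_one, mul_one] at h2
    exact GapPair.erg (A := A.comp iota) (g₁ := FreeGroup.of true) (g₂ := FreeGroup.of false) h2
  have hdef : ∀ γ : Gam, m.real {z | ¬ F (κ (A.T (iota γ) z)) (κ z)} ≤ 192 * (1 / 1000000) :=
    fun γ => defect_small A hA d hN F hF hFm κ hκ le_rfl hs γ
  obtain ⟨κ', hκ', hinv, hclose⟩ := majority (A.comp iota) hE F hF hFm κ hκ
    (δ := 192 * (1 / 1000000)) (by norm_num) hdef
  replace hinv : ∀ γ : Gam, ∀ᵐ z ∂m, F (κ' (A.T (iota γ) z)) (κ' z) := hinv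
  -- conjugates by t
  have hconj : ∀ γ : Gam, ∀ᵐ z ∂m,
      F (κ' (A.T (FreeGroup.of Gen.t * iota γ * (FreeGroup.of Gen.t)⁻¹) z)) (κ' z) := by
    intro γ
    refine exact_step A hE hF hFm hκ' hinv _ (fun γ' => exact_comm A hN hinv _ γ' ?_) ?_
    · have h := Phi_comm d pure_t pure_one (v := FreeGroup.of Gen.t) (v' := 1) ?_ γ γ'
      · simpa using h
      · intro hc
        apply tV_not_mem d
        have h2 := (HH d).inv_mem hc
        simpa using h2
    · have h1 := exact_Emul A hF hFm hκ (FreeGroup.of Gen.t * iota γ) (FreeGroup.of Gen.t)⁻¹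
      have h2 := exact_Emul A hF hFm hκ (FreeGroup.of Gen.t) (iota γ)
      have h3 := exact_Einv A hF hFm hκ (FreeGroup.of Gen.t)
      have h4 := exact_close A hF hFm hκ hκ' (FreeGroup.of Gen.t * iota γ * (FreeGroup.of Gen.t)⁻¹)
        hclose (β := 194 * (1 / 1000000)) (by linarith [hs Gen.t, hdef γ])
      norm_num at h4 ⊢
      linarith
  have ht : ∀ᵐ z ∂m, F (κ' (A.T (FreeGroup.of Gen.t) z)) (κ' z) := by
    refine exact_step A hE hF hFm hκ' hinv _ (fun γ => ?_) ?_
    · filter_upwards [exact_ae A (FreeGroup.of Gen.t) (hconj γ)] with z hz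
      rw [← A.mul, inv_mul_cancel_right] at hz
      exact hz
    · have h4 := exact_close A hF hFm hκ hκ' (FreeGroup.of Gen.t) hclose (hs Gen.t)
      norm_num at h4 ⊢
      linarith
  have ha : ∀ᵐ z ∂m, F (κ' (A.T (FreeGroup.of Gen.a) z)) (κ' z) := by
    refine exact_step A hE hF hFm hκ' hinv _
      (fun γ => exact_comm A hN hinv _ γ (Phi_a_comm d γ)) ?_
    have h4 := exact_close A hF hFm hκ hκ' (FreeGroup.of Gen.a) hclose (hs Gen.a)
    norm_num at h4 ⊢
    linarith
  have hp : ∀ᵐ z ∂m, F (κ' (A.T (FreeGroup.of Gen.p) z)) (κ' z) := by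
    have h := hinv (FreeGroup.of true)
    simpa [iota] using h
  have hq : ∀ᵐ z ∂m, F (κ' (A.T (FreeGroup.of Gen.q) z)) (κ' z) := by
    have h := hinv (FreeGroup.of false)
    simpa [iota] using h
  have hgen : ∀ s : Gen, ∀ᵐ z ∂m, F (κ' (A.T (FreeGroup.of s) z)) (κ' z) := by
    intro s
    cases s
    · exact hp
    · exact hq
    · exact ha
    · exact ht
  refine ⟨κ', hκ', ?_, le_trans hclose (by norm_num)⟩
  intro g
  induction g using FreeGroup.induction_on with
  | C1 =>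
    filter_upwards with z
    rw [A.one]
    exact hF.refl _
  | of s => exact hgen s
  | inv_of s h =>
    filter_upwards [exact_ae A (FreeGroup.of s)⁻¹ (hgen s)] with z hz
    rw [← A.mul, mul_inv_cancel, A.one] at hz
    exact hF.symm hz
  | mul g h hg hh =>
    filter_upwards [exact_ae A h hg, hh] with z h1 h2
    rw [A.mul]
    exact hF.trans h1 h2

end Pool.Agent.CR
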