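import Pool.Agent.H.MP_894ea6_lc.L.GapA

/-! MP_894ea6_lc, module GapB: ergodicity and atoms -/

open MeasureTheory

namespace Pool.Agent.CR

variable {Z : Type*} [MeasurableSpace Z] {m : Measure Z} {T₁ T₂ : Z → Z}

/-- solving the quadratic inequality -/
theorem gapb_quad {x η : ℝ} (h0 : 0 ≤ x) (h1 : x ≤ 1) (hη0 : 0 ≤ η) (hη : η ≤ 1 / 1000)
    (h : x * (1 - x) ≤ 16 * η) : x ≤ 17 * η ∨ 1 - 17 * η ≤ x := by
  by_contra hcon
  push Not at hcon
  obtain ⟨ha, hb⟩ := hcon
  rcases eq_or_lt_of_le hη0 with h00 | h00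
  · subst h00
    nlinarith
  · nlinarith [mul_pos (sub_pos.mpr ha) (sub_pos.mpr hb)]

/-- zero one dichotomy gives constants -/
theorem gapb_const [IsProbabilityMeasure m] {β : Type*} [MeasurableSpace β]
    [StandardBorelSpace β] (φ : Z → β)
    (h : ∀ U : Set β, MeasurableSet U → (∀ᵐ z ∂m, φ z ∈ U) ∨ (∀ᵐ z ∂m, φ z ∉ U)) :
    ∃ b, ∀ᵐ z ∂m, φ z = b := by
  obtain ⟨z0⟩ : Nonempty Z := nonempty_of_isProbabilityMeasure m
  have : Nonempty β := ⟨φ z0⟩
  obtain ⟨a, ha⟩ := Filter.exists_eventuallyEq_const_of_forall_separating (l := ae m) (f := φ)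
    MeasurableSet h
  exact ⟨a, ha⟩

theorem gapb_zero_one [IsProbabilityMeasure m] {S : Set Z} (hS : MeasurableSet S)
    (h : m.real S * (1 - m.real S) ≤ 0) : m S = 0 ∨ m Sᶜ = 0 := by
  have h0 : 0 ≤ m.real S := measureReal_nonneg
  have h1 : m.real S ≤ 1 := measureReal_le_one
  have hor : m.real S = 0 ∨ m.real S = 1 := by
    have : m.real S * (1 - m.real S) = 0 :=
      le_antisymm h (mul_nonneg h0 (by linarith))
    rcases mul_eq_zero.mp this with h2 | h2
    · exact Or.inl h2
    · exact Or.inr (by linarith)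
  rcases hor with h2 | h2
  · left
    exact (measureReal_eq_zero_iff (measure_ne_top m S)).mp h2
  · right
    have h3 : m.real Sᶜ = 0 := by
      rw [measureReal_compl hS, h2]
      simp
    exact (measureReal_eq_zero_iff (measure_ne_top m _)).mp h3

/-- the sets of the form `φ ⁻¹' U` are almost invariant -/
theorem gapb_pre [IsProbabilityMeasure m] {β : Type*} (φ : Z → β) (T : Z → Z) (U : Set β)
    {η : ℝ} (h1 : m.real {z | φ (T z) ≠ φ z} ≤ η) :
    m.real {z | ¬ (T z ∈ φ ⁻¹' U ↔ z ∈ φ ⁻¹' U)} ≤ η := by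
  refine le_trans (measureReal_mono ?_ (measure_ne_top m _)) h1
  intro z hz hcon
  apply hz
  simp only [Set.mem_preimage]
  rw [hcon]

/-- ergodicity: invariant maps are constant -/
theorem GapPair.ae_const [IsProbabilityMeasure m] {β : Type*} [MeasurableSpace β]
    [StandardBorelSpace β] (h : GapPair m T₁ T₂) (φ : Z → β) (hφ : Measurable φ)
    (h1 : ∀ᵐ z ∂m, φ (T₁ z) = φ z) (h2 : ∀ᵐ z ∂m, φ (T₂ z) = φ z) :
    ∃ b, ∀ᵐ z ∂m, φ z = b := by
  apply gapb_const
  intro U hU
  have h1' : m.real {z | φ (T₁ z) ≠ φ z} ≤ 0 := by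
    rw [(measureReal_eq_zero_iff (measure_ne_top m _)).mpr (ae_iff.mp h1)]
  have h2' : m.real {z | φ (T₂ z) ≠ φ z} ≤ 0 := by
    rw [(measureReal_eq_zero_iff (measure_ne_top m _)).mpr (ae_iff.mp h2)]
  have h3 := h.set_le (hφ hU) (gapb_pre φ T₁ U h1') (gapb_pre φ T₂ U h2')
  rw [mul_zero] at h3
  rcases gapb_zero_one (hφ hU) h3 with h4 | h4
  · right
    exact measure_eq_zero_iff_ae_notMem.mp h4
  · left
    have := measure_eq_zero_iff_ae_notMem.mp h4
    filter_upwards [this] with z hz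
    simpa using hz

/-- almost 0-1 laws on the line give an atom -/
theorem gapb_real (ν : Measure ℝ) [IsProbabilityMeasure ν] {η : ℝ} (hη0 : 0 ≤ η)
    (hη : η ≤ 1 / 1000)
    (h : ∀ t : ℝ, ν.real (Set.Iic t) ≤ 17 * η ∨ 1 - 17 * η ≤ ν.real (Set.Iic t)) :
    ∃ t, 1 - 34 * η ≤ ν.real {t} := by
  have hmono : ∀ s t : ℝ, s ≤ t → ν.real (Set.Iic s) ≤ ν.real (Set.Iic t) := fun s t hst =>
    measureReal_mono (Set.Iic_subset_Iic.mpr hst) (measure_ne_top ν _)
  set A : Set ℝ := {t | ν.real (Set.Iic t) ≤ 17 * η} with hA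
  have hbot : Filter.Tendsto (fun t => ν.real (Set.Iic t)) Filter.atBot (nhds 0) := by
    have h1 := ProbabilityTheory.tendsto_cdf_atBot ν
    refine h1.congr fun t => ?_
    rw [ProbabilityTheory.cdf_eq_real]
  have htop : Filter.Tendsto (fun t => ν.real (Set.Iic t)) Filter.atTop (nhds 1) := by
    have h1 := ProbabilityTheory.tendsto_cdf_atTop ν
    refine h1.congr fun t => ?_
    rw [ProbabilityTheory.cdf_eq_real]
  have hne : A.Nonempty := by
    have h1 : ∀ᶠ t in Filter.atBot, ν.real (Set.Iic t) < 1 / 2 :=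
      hbot.eventually_lt_const (by norm_num)
    obtain ⟨t, ht⟩ := h1.exists
    refine ⟨t, ?_⟩
    rcases h t with h2 | h2
    · exact h2
    · exfalso; linarith
  obtain ⟨t1, ht1⟩ : ∃ t1, 1 / 2 < ν.real (Set.Iic t1) :=
    (htop.eventually_const_lt (by norm_num)).exists
  have hbdd : BddAbove A := by
    refine ⟨t1, fun t ht => ?_⟩
    by_contra hcon
    push Not at hcon
    have := hmono t1 t hcon.le
    have h3 : ν.real (Set.Iic t) ≤ 17 * η := ht
    linarith
  set t0 := sSup A with ht0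
  refine ⟨t0, ?_⟩
  have hlt : ∀ t, t < t0 → ν.real (Set.Iic t) ≤ 17 * η := by
    intro t ht
    obtain ⟨s, hs, hts⟩ := exists_lt_of_lt_csSup hne ht
    exact le_trans (hmono _ _ hts.le) hs
  have hgt : ∀ t, t0 < t → 1 - 17 * η ≤ ν.real (Set.Iic t) := by
    intro t ht
    rcases h t with h2 | h2
    · exact absurd (le_csSup hbdd h2) (not_le.mpr ht)
    · exact h2
  -- the open half line
  have hIio : ν.real (Set.Iio t0) ≤ 17 * η := by
    have hU : (Set.Iio t0) = ⋃ n : ℕ, Set.Iic (t0 - 1 / ((n : ℝ) + 1)) := by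
      ext x
      simp only [Set.mem_Iio, Set.mem_iUnion, Set.mem_Iic]
      constructor
      · intro hx
        obtain ⟨n, hn⟩ := exists_nat_one_div_lt (sub_pos.mpr hx)
        exact ⟨n, by linarith⟩
      · rintro ⟨n, hn⟩
        have : (0 : ℝ) < 1 / ((n : ℝ) + 1) := by positivity
        linarith
    have hm : Monotone (fun n : ℕ => Set.Iic (t0 - 1 / ((n : ℝ) + 1))) := by
      intro a b hab
      apply Set.Iic_subset_Iic.mpr
      have h5 : 1 / ((b : ℝ) + 1) ≤ 1 / ((a : ℝ) + 1) := by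
        apply one_div_le_one_div_of_le (by positivity)
        have : (a : ℝ) ≤ b := by exact_mod_cast hab
        linarith
      linarith
    have h1 := tendsto_measure_iUnion_atTop (μ := ν) hm
    rw [← hU] at h1
    have h2 := (ENNReal.tendsto_toReal (measure_ne_top ν _)).comp h1
    refine le_of_tendsto h2 (Filter.Eventually.of_forall fun n => ?_)
    have h4 : t0 - 1 / ((n : ℝ) + 1) < t0 := by
      have : (0 : ℝ) < 1 / ((n : ℝ) + 1) := by positivity
      linarith
    exact hlt _ h4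
  have hIic : 1 - 17 * η ≤ ν.real (Set.Iic t0) := by
    have hU : (Set.Iic t0) = ⋂ n : ℕ, Set.Iic (t0 + 1 / ((n : ℝ) + 1)) := by
      ext x
      simp only [Set.mem_iInter, Set.mem_Iic]
      constructor
      · intro hx n
        have : (0 : ℝ) < 1 / ((n : ℝ) + 1) := by positivity
        linarith
      · intro hx
        by_contra hcon
        push Not at hcon
        obtain ⟨n, hn⟩ := exists_nat_one_div_lt (sub_pos.mpr hcon)
        have := hx n
        linarith
    have hm : Antitone (fun n : ℕ => Set.Iic (t0 + 1 / ((n : ℝ) + 1))) := by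
      intro a b hab
      apply Set.Iic_subset_Iic.mpr
      have h5 : 1 / ((b : ℝ) + 1) ≤ 1 / ((a : ℝ) + 1) := by
        apply one_div_le_one_div_of_le (by positivity)
        have : (a : ℝ) ≤ b := by exact_mod_cast hab
        linarith
      linarith
    have h1 := tendsto_measure_iInter_atTop (μ := ν)
      (fun n : ℕ => (measurableSet_Iic (a := t0 + 1 / ((n : ℝ) + 1))).nullMeasurableSet) hm
      ⟨0, measure_ne_top ν _⟩
    rw [← hU] at h1
    have h2 := (ENNReal.tendsto_toReal (measure_ne_top ν _)).comp h1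
    refine ge_of_tendsto h2 (Filter.Eventually.of_forall fun n => ?_)
    have h4 : t0 < t0 + 1 / ((n : ℝ) + 1) := by
      have : (0 : ℝ) < 1 / ((n : ℝ) + 1) := by positivity
      linarith
    exact hgt _ h4
  have hsum : ν.real (Set.Iic t0) ≤ ν.real (Set.Iio t0) + ν.real {t0} := by
    have : Set.Iic t0 = Set.Iio t0 ∪ {t0} := by
      ext x
      simp [le_iff_lt_or_eq]
    rw [this]
    exact measureReal_union_le _ _
  linarith

/-- almost invariant maps have a large atom -/
theorem GapPair.atom [IsProbabilityMeasure m] {β : Type*} [MeasurableSpace β]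
    [StandardBorelSpace β] (h : GapPair m T₁ T₂) (φ : Z → β) (hφ : Measurable φ) {η : ℝ}
    (hη : η ≤ 1 / 1000) (h1 : m.real {z | φ (T₁ z) ≠ φ z} ≤ η)
    (h2 : m.real {z | φ (T₂ z) ≠ φ z} ≤ η) :
    ∃ b, 1 - 40 * η ≤ m.real {z | φ z = b} := by
  have hη0 : 0 ≤ η := le_trans measureReal_nonneg h1
  obtain ⟨e, he⟩ := exists_measurableEmbedding_real β
  have hmeas : Measurable (fun z => e (φ z)) := he.measurable.comp hφ
  have : IsProbabilityMeasure (m.map (fun z => e (φ z))) :=
    Measure.isProbabilityMeasure_map hmeas.aemeasurable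
  have hval : ∀ U : Set ℝ, MeasurableSet U →
      (m.map (fun z => e (φ z))).real U = m.real (φ ⁻¹' (e ⁻¹' U)) := by
    intro U hU
    rw [map_measureReal_apply hmeas hU]
    rfl
  obtain ⟨t, ht⟩ := gapb_real (m.map (fun z => e (φ z))) hη0 hη (by
    intro t
    rw [hval _ measurableSet_Iic]
    have hU : MeasurableSet (e ⁻¹' Set.Iic t) := he.measurable measurableSet_Iic
    exact gapb_quad measureReal_nonneg measureReal_le_one hη0 hη
      (h.set_le (hφ hU) (gapb_pre φ T₁ _ h1) (gapb_pre φ T₂ _ h2)))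
  rw [hval _ (measurableSet_singleton t)] at ht
  have hpos : 0 < m.real (φ ⁻¹' (e ⁻¹' {t})) := by linarith
  have hne : (φ ⁻¹' (e ⁻¹' {t})).Nonempty := by
    by_contra hcon
    rw [Set.not_nonempty_iff_eq_empty] at hcon
    rw [hcon] at hpos
    simp at hpos
  obtain ⟨z0, hz0⟩ := hne
  refine ⟨φ z0, ?_⟩
  have hsub : φ ⁻¹' (e ⁻¹' {t}) ⊆ {z | φ z = φ z0} := by
    intro z hz
    apply he.injective
    have h3 : e (φ z) = t := hz
    have h4 : e (φ z0) = t := hz0
    rw [h3, h4]
  have := measureReal_mono hsub (measure_ne_top m _)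
  linarith

/-- a gap pair in a group gives ergodicity -/
theorem GapPair.erg [IsProbabilityMeasure m] {G : Type*} [Group G] {A : PAct G m} {g₁ g₂ : G}
    (h : GapPair m (A.T g₁) (A.T g₂)) : Erg A := by
  intro S hS hinv
  have hz : ∀ g, m.real {z | ¬ (A.T g z ∈ S ↔ z ∈ S)} ≤ 0 := by
    intro g
    rw [(measureReal_eq_zero_iff (measure_ne_top m _)).mpr (ae_iff.mp (hinv g))]
  have h3 := h.set_le hS (hz g₁) (hz g₂)
  rw [mul_zero] at h3
  exact gapb_zero_one hS h3

/-- invariant maps of ergodic actions are constant -/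
theorem Erg.ae_const [IsProbabilityMeasure m] {G : Type*} [Group G] {A : PAct G m} (hE : Erg A)
    {β : Type*} [MeasurableSpace β] [StandardBorelSpace β] (φ : Z → β) (hφ : Measurable φ)
    (h : ∀ g, ∀ᵐ z ∂m, φ (A.T g z) = φ z) : ∃ b, ∀ᵐ z ∂m, φ z = b := by
  apply gapb_const
  intro U hU
  rcases hE (φ ⁻¹' U) (hφ hU) (fun g => by
    filter_upwards [h g] with z hz
    simp only [Set.mem_preimage]
    rw [hz]) with h4 | h4
  · right
    exact measure_eq_zero_iff_ae_notMem.mp h4
  · left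
    have := measure_eq_zero_iff_ae_notMem.mp h4
    filter_upwards [this] with z hz
    simpa using hz

end Pool.Agent.CR
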