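import Pool.Agent.H.MP_894ea6_lc.L.Space
import Pool.Agent.H.MP_894ea6_lc.L.GapB
import Pool.Agent.H.MP_894ea6_lc.L.Coc

/-! MP_894ea6_lc, module ExactE: the defects `e_g` are uniformly small on `iota Gam` -/

open MeasureTheory

namespace Pool.Agent.CR

/-- the defect set of `g` -/
private def exacte_D {Z K : Type*} [MeasurableSpace Z] {m : Measure Z} (A : PAct FF m)
    (F : K → K → Prop) (κ : Z → K) (g : FF) : Set Z := {z | ¬ F (κ (A.T g z)) (κ z)}

private theorem exacte_meas {Z K : Type*} [MeasurableSpace Z] {m : Measure Z}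
    (A : PAct FF m) [MeasurableSpace K] (F : K → K → Prop)
    (hFm : MeasurableSet {p : K × K | F p.1 p.2}) (κ : Z → K) (hκ : Measurable κ) (g : FF) :
    MeasurableSet (exacte_D A F κ g) := by
  have h : MeasurableSet ((fun z => (κ (A.T g z), κ z)) ⁻¹' {p : K × K | F p.1 p.2}ᶜ) :=
    ((hκ.comp (A.mp g).measurable).prodMk hκ) hFm.compl
  exact h

private theorem exacte_mul {Z K : Type*} [MeasurableSpace Z] {m : Measure Z}
    [IsProbabilityMeasure m]
    (A : PAct FF m) [MeasurableSpace K] (F : K → K → Prop) (hF : Equivalence F)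
    (hFm : MeasurableSet {p : K × K | F p.1 p.2}) (κ : Z → K) (hκ : Measurable κ) (g h : FF) :
    m.real (exacte_D A F κ (g * h)) ≤ m.real (exacte_D A F κ g) + m.real (exacte_D A F κ h) := by
  have hsub : exacte_D A F κ (g * h) ⊆ (A.T h) ⁻¹' (exacte_D A F κ g) ∪ exacte_D A F κ h := by
    intro z hz
    by_contra hcon
    rw [Set.mem_union, not_or] at hcon
    obtain ⟨h1, h2⟩ := hcon
    have h1' : F (κ (A.T g (A.T h z))) (κ (A.T h z)) := by
      by_contra h3
      exact h1 h3
    have h2' : F (κ (A.T h z)) (κ z) := by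
      by_contra h3
      exact h2 h3
    apply hz
    rw [A.mul]
    exact hF.trans h1' h2'
  refine le_trans (measureReal_mono hsub (measure_ne_top m _)) ?_
  refine le_trans (measureReal_union_le _ _) ?_
  have h3 : m.real ((A.T h) ⁻¹' (exacte_D A F κ g)) = m.real (exacte_D A F κ g) := by
    unfold Measure.real
    rw [(A.mp h).measure_preimage (exacte_meas A F hFm κ hκ g).nullMeasurableSet]
  rw [h3]

private theorem exacte_inv {Z K : Type*} [MeasurableSpace Z] {m : Measure Z}
    (A : PAct FF m) [MeasurableSpace K] (F : K → K → Prop) (hF : Equivalence F)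
    (hFm : MeasurableSet {p : K × K | F p.1 p.2}) (κ : Z → K) (hκ : Measurable κ) (g : FF) :
    m.real (exacte_D A F κ g⁻¹) = m.real (exacte_D A F κ g) := by
  have h3 : m.real ((A.T g) ⁻¹' (exacte_D A F κ g⁻¹)) = m.real (exacte_D A F κ g⁻¹) := by
    unfold Measure.real
    rw [(A.mp g).measure_preimage (exacte_meas A F hFm κ hκ g⁻¹).nullMeasurableSet]
  rw [← h3]
  congr 1
  ext z
  have h4 : A.T g⁻¹ (A.T g z) = z := by
    rw [← A.mul, inv_mul_cancel, A.one]
  show ¬ F (κ (A.T g⁻¹ (A.T g z))) (κ (A.T g z)) ↔ ¬ F (κ (A.T g z)) (κ z)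
  rw [h4]
  exact not_congr ⟨fun h => hF.symm h, fun h => hF.symm h⟩

private theorem exacte_comm {Z K : Type*} [MeasurableSpace Z] {m : Measure Z}
    [IsProbabilityMeasure m]
    (A : PAct FF m) [MeasurableSpace K] (F : K → K → Prop) (hF : Equivalence F)
    (hFm : MeasurableSet {p : K × K | F p.1 p.2}) (κ : Z → K) (hκ : Measurable κ) (g u : FF)
    (hgu : ∀ᵐ z ∂m, A.T (g * u) z = A.T (u * g) z) :
    m.real {z | ¬ (A.T u z ∈ (exacte_D A F κ g)ᶜ ↔ z ∈ (exacte_D A F κ g)ᶜ)} ≤
      2 * m.real (exacte_D A F κ u) := by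
  have hsub : ∀ᵐ z ∂m, z ∈ {z | ¬ (A.T u z ∈ (exacte_D A F κ g)ᶜ ↔ z ∈ (exacte_D A F κ g)ᶜ)} →
      z ∈ (A.T g) ⁻¹' (exacte_D A F κ u) ∪ exacte_D A F κ u := by
    filter_upwards [hgu] with z hz hz2
    by_contra hcon
    rw [Set.mem_union, not_or] at hcon
    obtain ⟨h1, h2⟩ := hcon
    have h1' : F (κ (A.T u (A.T g z))) (κ (A.T g z)) := by
      by_contra h3
      exact h1 h3
    have h2' : F (κ (A.T u z)) (κ z) := by
      by_contra h3
      exact h2 h3
    rw [A.mul, A.mul] at hz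
    apply hz2
    show (¬ ¬ F (κ (A.T g (A.T u z))) (κ (A.T u z))) ↔ (¬ ¬ F (κ (A.T g z)) (κ z))
    rw [not_not, not_not, hz]
    constructor
    · intro h
      exact hF.trans (hF.symm h1') (hF.trans h h2')
    · intro h
      exact hF.trans h1' (hF.trans h (hF.symm h2'))
  have h5 : m {z | ¬ (A.T u z ∈ (exacte_D A F κ g)ᶜ ↔ z ∈ (exacte_D A F κ g)ᶜ)} ≤
      m ((A.T g) ⁻¹' (exacte_D A F κ u) ∪ exacte_D A F κ u) := measure_mono_ae hsub
  have h6 : m.real {z | ¬ (A.T u z ∈ (exacte_D A F κ g)ᶜ ↔ z ∈ (exacte_D A F κ g)ᶜ)} ≤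
      m.real ((A.T g) ⁻¹' (exacte_D A F κ u) ∪ exacte_D A F κ u) :=
    ENNReal.toReal_mono (measure_ne_top m _) h5
  refine le_trans h6 ?_
  refine le_trans (measureReal_union_le _ _) ?_
  have h3 : m.real ((A.T g) ⁻¹' (exacte_D A F κ u)) = m.real (exacte_D A F κ u) := by
    unfold Measure.real
    rw [(A.mp g).measure_preimage (exacte_meas A F hFm κ hκ u).nullMeasurableSet]
  rw [h3]
  linarith

theorem defect_small {Z K : Type*} [MeasurableSpace Z] {m : Measure Z} [IsProbabilityMeasure m]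
    (A : PAct FF m) (hA : Gap3All A) (d : ℕ → Bool) (hN : ∀ n ∈ NN d, ∀ᵐ z ∂m, A.T n z = z)
    [MeasurableSpace K] (F : K → K → Prop) (hF : Equivalence F)
    (hFm : MeasurableSet {p : K × K | F p.1 p.2}) (κ : Z → K) (hκ : Measurable κ) {ε : ℝ}
    (hε : ε ≤ 1 / 1000000)
    (hs : ∀ s : Gen, m.real {z | ¬ F (κ (A.T (FreeGroup.of s) z)) (κ z)} ≤ ε) (γ : Gam) :
    m.real {z | ¬ F (κ (A.T (iota γ) z)) (κ z)} ≤ 192 * ε := by
  have hs' : ∀ s : Gen, m.real (exacte_D A F κ (FreeGroup.of s)) ≤ ε := hs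
  have hε0 : 0 ≤ ε := le_trans measureReal_nonneg (hs Gen.p)
  -- conjugates of the generators
  have hu : ∀ s : Gen, m.real (exacte_D A F κ
      (FreeGroup.of Gen.t * FreeGroup.of s * (FreeGroup.of Gen.t)⁻¹)) ≤ 3 * ε := by
    intro s
    have h1 := exacte_mul A F hF hFm κ hκ (FreeGroup.of Gen.t * FreeGroup.of s)
      (FreeGroup.of Gen.t)⁻¹
    have h2 := exacte_mul A F hF hFm κ hκ (FreeGroup.of Gen.t) (FreeGroup.of s)
    rw [exacte_inv A F hF hFm κ hκ] at h1
    have h3 := hs' Gen.t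
    have h4 := hs' s
    linarith
  have hi1 : iota (FreeGroup.of true) = FreeGroup.of Gen.p := by simp [iota]
  have hi2 : iota (FreeGroup.of false) = FreeGroup.of Gen.q := by simp [iota]
  have hgap : GapPair m
      (A.T (FreeGroup.of Gen.t * iota (FreeGroup.of true) * (FreeGroup.of Gen.t)⁻¹))
      (A.T (FreeGroup.of Gen.t * iota (FreeGroup.of false) * (FreeGroup.of Gen.t)⁻¹)) :=
    GapPair.of_diag3_one (A.mp _).measurable (A.mp _).measurable
      (hA (FreeGroup.of Gen.t) (MonoidHom.id Gam) Function.injective_id)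
  have hcomm : ∀ γ γ' : Gam, ∀ᵐ z ∂m,
      A.T (iota γ * (FreeGroup.of Gen.t * iota γ' * (FreeGroup.of Gen.t)⁻¹)) z =
      A.T ((FreeGroup.of Gen.t * iota γ' * (FreeGroup.of Gen.t)⁻¹) * iota γ) z := by
    intro γ γ'
    apply ae_T_eq hN
    have h := Phi_comm d pure_one pure_t
      (by rw [map_one, inv_one, one_mul, piV_t]; exact tV_not_mem d) γ γ'
    simpa only [one_mul, inv_one, mul_one] using h
  -- the dichotomy
  have hdich : ∀ γ : Gam, m.real (exacte_D A F κ (iota γ)) ≤ 192 * ε ∨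
      1 - 192 * ε ≤ m.real (exacte_D A F κ (iota γ)) := by
    intro γ
    have hm := exacte_meas A F hFm κ hκ (iota γ)
    have h1 := exacte_comm A F hF hFm κ hκ (iota γ) _ (hcomm γ (FreeGroup.of true))
    have h2 := exacte_comm A F hF hFm κ hκ (iota γ) _ (hcomm γ (FreeGroup.of false))
    have h3 := hu Gen.p
    have h4 := hu Gen.q
    rw [← hi1] at h3
    rw [← hi2] at h4
    have h5 := hgap.set_le hm.compl (η := 6 * ε) (by linarith) (by linarith)
    rw [measureReal_compl hm, probReal_univ] at h5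
    have h6 : 0 ≤ m.real (exacte_D A F κ (iota γ)) := measureReal_nonneg
    have h7 : m.real (exacte_D A F κ (iota γ)) ≤ 1 := measureReal_le_one
    rcases le_total (m.real (exacte_D A F κ (iota γ))) (1 / 2) with h8 | h8
    · left
      nlinarith
    · right
      nlinarith
  show m.real (exacte_D A F κ (iota γ)) ≤ 192 * ε
  refine FreeGroup.induction_on (C := fun γ => m.real (exacte_D A F κ (iota γ)) ≤ 192 * ε)
    γ ?_ ?_ ?_ ?_
  · have h0 : exacte_D A F κ (iota 1) = ∅ := by
      ext z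
      simp only [Set.mem_empty_iff_false, iff_false]
      intro hz
      apply hz
      rw [map_one, A.one]
      exact hF.refl _
    show m.real (exacte_D A F κ (iota 1)) ≤ 192 * ε
    rw [h0]
    simp only [measureReal_empty]
    linarith
  · intro b
    show m.real (exacte_D A F κ (iota (FreeGroup.of b))) ≤ 192 * ε
    cases b
    · rw [hi2]
      have := hs' Gen.q
      linarith
    · rw [hi1]
      have := hs' Gen.p
      linarith
  · intro b ih
    show m.real (exacte_D A F κ (iota (FreeGroup.of b)⁻¹)) ≤ 192 * ε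
    rw [map_inv, exacte_inv A F hF hFm κ hκ]
    exact ih
  · intro x y hx hy
    have h1 := exacte_mul A F hF hFm κ hκ (iota x) (iota y)
    rw [← map_mul] at h1
    rcases hdich (x * y) with h2 | h2
    · exact h2
    · exfalso
      have hx' : m.real (exacte_D A F κ (iota x)) ≤ 192 * ε := hx
      have hy' : m.real (exacte_D A F κ (iota y)) ≤ 192 * ε := hy
      linarith

end Pool.Agent.CR
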