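import Pool.Agent.H.MP_894ea6_lc.L.GapB

/-! MP_894ea6_lc, module FinSupp: sequences with finitely supported increments -/

open MeasureTheory

namespace Pool.Agent.CR

private lemma finsupp_tendsto {Z : Type*} [MeasurableSpace Z] {m : Measure Z}
    [IsProbabilityMeasure m] (φ : Z → ℤ → ℤ) (ψ : ℕ → Z → (ℤ → ℤ))
    (hψ : ∀ n z j, ψ n z j = if (n : ℤ) ≤ |j| then φ z j else 0)
    (hψm : ∀ n, Measurable (ψ n)) {T : Z → Z} (hT : Measurable T)
    (hfin : ∀ᵐ z ∂m, {i | φ (T z) i ≠ φ z i}.Finite) :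
    Filter.Tendsto (fun n => m.real {z | ψ n (T z) ≠ ψ n z}) Filter.atTop (nhds 0) := by
  have hmeas : ∀ n, MeasurableSet {z | ψ n (T z) ≠ ψ n z} := fun n =>
    (measurableSet_eq_fun ((hψm n).comp hT) (hψm n)).compl
  have hanti : Antitone fun n => {z | ψ n (T z) ≠ ψ n z} := by
    intro a b hab z hz hz2
    apply hz
    funext j
    have h1 := congrFun hz2 j
    rw [hψ, hψ] at h1 ⊢
    by_cases hj : (b : ℤ) ≤ |j|
    · have : (a : ℤ) ≤ |j| := le_trans (by exact_mod_cast hab) hj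
      simpa [hj, this] using h1
    · simp [hj]
  have hlim := tendsto_measure_iInter_atTop (μ := m) (fun n => (hmeas n).nullMeasurableSet) hanti
    ⟨0, measure_ne_top _ _⟩
  have hzero : m (⋂ n, {z | ψ n (T z) ≠ ψ n z}) = 0 := by
    refine measure_mono_null ?_ (ae_iff.1 hfin)
    intro z hz hz2
    rw [Set.mem_iInter] at hz
    obtain ⟨N, hN⟩ : ∃ N : ℕ, ∀ j ∈ {i | φ (T z) i ≠ φ z i}, |j| < (N : ℤ) := by
      obtain ⟨B, hB⟩ := (hz2.image fun j => |j|).bddAbove
      refine ⟨B.toNat + 1, fun j hj => ?_⟩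
      have h1 : |j| ≤ B := hB ⟨j, hj, rfl⟩
      have h2 : B ≤ B.toNat := Int.self_le_toNat B
      push_cast
      omega
    apply hz N
    funext j
    rw [hψ, hψ]
    by_cases hj : (N : ℤ) ≤ |j|
    · have h3 : ¬ (φ (T z) j ≠ φ z j) := fun h => absurd (hN j h) (not_lt.2 hj)
      simp [hj, not_not.1 h3]
    · simp [hj]
  rw [hzero] at hlim
  exact (ENNReal.tendsto_toReal (by simp)).comp hlim

theorem finsupp_const {Z : Type*} [MeasurableSpace Z] {m : Measure Z} [IsProbabilityMeasure m]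
    {T₁ T₂ : Z → Z} (h : GapPair m T₁ T₂) (φ : Z → ℤ → ℤ) (hφ : ∀ i, Measurable (fun z => φ z i))
    (h1 : ∀ᵐ z ∂m, {i | φ (T₁ z) i ≠ φ z i}.Finite)
    (h2 : ∀ᵐ z ∂m, {i | φ (T₂ z) i ≠ φ z i}.Finite) :
    ∃ c : ℤ → ℤ, ∀ᵐ z ∂m, {i | φ z i ≠ c i}.Finite := by
  classical
  obtain ⟨ψ, hψ⟩ : ∃ ψ : ℕ → Z → (ℤ → ℤ),
      ∀ n z j, ψ n z j = if (n : ℤ) ≤ |j| then φ z j else 0 :=
    ⟨fun n z j => if (n : ℤ) ≤ |j| then φ z j else 0, fun _ _ _ => rfl⟩
  have hψm : ∀ n, Measurable (ψ n) := by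
    intro n
    refine measurable_pi_lambda _ fun j => ?_
    simp_rw [hψ]
    by_cases hj : (n : ℤ) ≤ |j|
    · simpa [hj] using hφ j
    · simp [hj]
  have e1 := finsupp_tendsto (m := m) φ ψ hψ hψm h.mp1.measurable h1
  have e2 := finsupp_tendsto (m := m) φ ψ hψ hψm h.mp2.measurable h2
  set η : ℕ → ℝ := fun n => max (m.real {z | ψ n (T₁ z) ≠ ψ n z}) (m.real {z | ψ n (T₂ z) ≠ ψ n z})
    with hη
  have eη : Filter.Tendsto η Filter.atTop (nhds 0) := by
    have := e1.max e2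
    simpa using this
  obtain ⟨n0, hn0⟩ := Filter.eventually_atTop.1
    (eη.eventually (ge_mem_nhds (by norm_num : (0 : ℝ) < 1 / 1000)))
  have hb : ∀ n, n0 ≤ n → ∃ b : ℤ → ℤ, 1 - 40 * η n ≤ m.real {z | ψ n z = b} := fun n hn =>
    h.atom (ψ n) (hψm n) (hn0 n hn) (le_max_left _ _) (le_max_right _ _)
  obtain ⟨c, hc⟩ := hb n0 le_rfl
  refine ⟨c, ?_⟩
  have hmes : ∀ n (b : ℤ → ℤ), MeasurableSet {z | ψ n z = b} := fun n b =>
    hψm n (measurableSet_singleton b)
  -- the bad set has measure at most 40 η n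
  have hbad : ∀ n, n0 ≤ n → m.real {z | ¬ {i | φ z i ≠ c i}.Finite} ≤ 40 * η n := by
    intro n hn
    obtain ⟨b, hb⟩ := hb n hn
    have hsub : {z | ¬ {i | φ z i ≠ c i}.Finite} ⊆ {z | ψ n z = b}ᶜ := by
      -- a common point
      obtain ⟨z0, hz0, hz0'⟩ : ∃ z0, ψ n0 z0 = c ∧ ψ n z0 = b := by
        by_contra hcon
        push Not at hcon
        have hdis : Disjoint {z | ψ n0 z = c} {z | ψ n z = b} := by
          rw [Set.disjoint_left]
          intro z hz hz'
          exact hcon z hz hz'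
        have h5 := measureReal_union (μ := m) hdis (hmes n b)
        have h6 : m.real ({z | ψ n0 z = c} ∪ {z | ψ n z = b}) ≤ 1 := measureReal_le_one
        have h7 := hn0 n0 le_rfl
        have h8 := hn0 n hn
        linarith
      intro z hz hzb
      apply hz
      have hfin : {i : ℤ | |i| < (n : ℤ)}.Finite := by
        refine (Set.finite_Ioo (-(n : ℤ)) n).subset fun i hi => ?_
        exact abs_lt.1 hi
      refine hfin.subset fun i hi => ?_
      by_contra hcon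
      have hni : (n : ℤ) ≤ |i| := not_lt.1 hcon
      have hni0 : (n0 : ℤ) ≤ |i| := le_trans (by exact_mod_cast hn) hni
      apply hi
      have g1 := hψ n z i
      rw [if_pos hni] at g1
      have g2 := hψ n z0 i
      rw [if_pos hni] at g2
      have g3 := hψ n0 z0 i
      rw [if_pos hni0] at g3
      rw [← g1, show ψ n z = b from hzb, ← hz0', g2, ← g3, hz0]
    calc m.real {z | ¬ {i | φ z i ≠ c i}.Finite} ≤ m.real {z | ψ n z = b}ᶜ :=
          measureReal_mono hsub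
      _ = 1 - m.real {z | ψ n z = b} := probReal_compl_eq_one_sub (hmes n b)
      _ ≤ 40 * η n := by linarith
  have hz : m.real {z | ¬ {i | φ z i ≠ c i}.Finite} ≤ 0 := by
    have hlim : Filter.Tendsto (fun n => 40 * η n) Filter.atTop (nhds 0) := by
      simpa using eη.const_mul 40
    exact ge_of_tendsto hlim (Filter.eventually_atTop.2 ⟨n0, hbad⟩)
  have hz2 : m.real {z | ¬ {i | φ z i ≠ c i}.Finite} = 0 := le_antisymm hz measureReal_nonneg
  rw [ae_iff]
  exact (measureReal_eq_zero_iff).1 hz2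

end Pool.Agent.CR
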