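import Pool.Agent.H.MP_894ea6_lc.L.Defs

/-! MP_894ea6_lc, module Free2: the paradoxical decomposition inequality -/

namespace Pool.Agent.CR

private theorem free2_exists_word {J : Type*} [MulAction Gam J]
    (hfree : ∀ (w : Gam) (j : J), w • j = j → w = 1) :
    ∃ w : J → Gam, ∀ (g : Gam) (j : J), w (g • j) = g * w j := by
  let r : J → J := fun j => (Quotient.mk (MulAction.orbitRel Gam J) j).out
  have hr : ∀ (g : Gam) (j : J), r (g • j) = r j := by
    intro g j
    have h : Quotient.mk (MulAction.orbitRel Gam J) (g • j) =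
        Quotient.mk (MulAction.orbitRel Gam J) j := Quotient.sound ⟨g, rfl⟩
    show (Quotient.mk (MulAction.orbitRel Gam J) (g • j)).out = _
    rw [h]
  have hw : ∀ j, ∃ g : Gam, g • r j = j := by
    intro j
    have h : (MulAction.orbitRel Gam J).r j (r j) :=
      (MulAction.orbitRel Gam J).symm (Quotient.mk_out (s := MulAction.orbitRel Gam J) j)
    exact h
  choose w hw using hw
  refine ⟨w, fun g j => ?_⟩
  have h1 : w (g • j) • r j = (g * w j) • r j := by
    rw [mul_smul, hw j]
    have := hw (g • j)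
    rwa [hr] at this
  have h2 : ((g * w j)⁻¹ * w (g • j)) • r j = r j := by
    rw [mul_smul, h1, inv_smul_smul]
  exact (inv_mul_eq_one.mp (hfree _ _ h2)).symm

private theorem free2_word (x : Bool) (g : Gam) :
    g.toWord.head? = some (x, true) ∨
      ((FreeGroup.of x : Gam)⁻¹ * g).toWord.head? = some (x, false) := by
  have h1 : ((FreeGroup.of x : Gam)⁻¹ * g).toWord = FreeGroup.reduce ((x, false) :: g.toWord) := by
    conv_lhs => rw [← FreeGroup.mk_toWord (x := g)]
    rfl
  rw [h1, FreeGroup.reduce.cons, FreeGroup.reduce_toWord]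
  rcases hg : g.toWord with _ | ⟨⟨y, b⟩, tl⟩
  · right; rfl
  · by_cases h : x = y ∧ false = !b
    · left
      obtain ⟨rfl, hb⟩ := h
      have : b = true := by
        cases b
        · exact absurd hb (by decide)
        · rfl
      rw [this]; rfl
    · right
      simp only [List.head?_cons]
      rw [if_neg h]
      rfl

private theorem free2_alg (a b : ℝ) : a ^ 2 ≤ b ^ 2 + 4 * (a - b) ^ 2 + 1 / 8 * (a ^ 2 + b ^ 2) := by
  nlinarith [sq_nonneg (a + b - 8 * (a - b)), sq_nonneg (a - b)]

theorem paradox {J : Type*} [MulAction Gam J] (hfree : ∀ (w : Gam) (j : J), w • j = j → w = 1)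
    (f : J → ℝ) (hf : Summable fun j => f j ^ 2) :
    ∑' j, f j ^ 2 ≤ 8 * (∑' j, (f ((FreeGroup.of true : Gam) • j) - f j) ^ 2 +
      ∑' j, (f ((FreeGroup.of false : Gam) • j) - f j) ^ 2) := by
  classical
  obtain ⟨w, hw⟩ := free2_exists_word hfree
  have hfx : ∀ g : Gam, Summable fun j => f (g • j) ^ 2 := fun g =>
    (MulAction.toPerm g).summable_iff.mpr hf
  have hfx' : ∀ g : Gam, ∑' j, f (g • j) ^ 2 = ∑' j, f j ^ 2 := fun g =>
    (MulAction.toPerm g).tsum_eq (fun j => f j ^ 2)
  have hd : ∀ g : Gam, Summable fun j => (f (g • j) - f j) ^ 2 := by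
    intro g
    refine Summable.of_nonneg_of_le (fun j => sq_nonneg _) (fun j => ?_)
      (((hfx g).mul_left 2).add (hf.mul_left 2))
    nlinarith [sq_nonneg (f (g • j) + f j)]
  -- the sets
  let W : Bool → Bool → J → ℝ := fun x s j => if (w j).toWord.head? = some (x, s) then 1 else 0
  have hW0 : ∀ x s j, 0 ≤ W x s j := by
    intro x s j
    show 0 ≤ (if _ then (1 : ℝ) else 0)
    split_ifs <;> norm_num
  have hW1 : ∀ x s j, W x s j ≤ 1 := by
    intro x s j
    show (if _ then (1 : ℝ) else 0) ≤ 1
    split_ifs <;> norm_num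
  have hWs : ∀ j, W true true j + W true false j + W false true j + W false false j ≤ 1 := by
    intro j
    show (if _ then (1 : ℝ) else 0) + (if _ then (1 : ℝ) else 0) + (if _ then (1 : ℝ) else 0) +
      (if _ then (1 : ℝ) else 0) ≤ 1
    rcases h : (w j).toWord.head? with _ | ⟨y, b⟩
    · simp
    · cases y <;> cases b <;> simp
  have hS1 : ∀ x s, Summable fun j => W x s j * f j ^ 2 := by
    intro x s
    refine Summable.of_nonneg_of_le (fun j => mul_nonneg (hW0 _ _ _) (sq_nonneg _)) (fun j => ?_) hf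
    have := mul_le_mul_of_nonneg_right (hW1 x s j) (sq_nonneg (f j))
    linarith
  have hS2 : ∀ x s (g : Gam), Summable fun j => W x s j * f (g • j) ^ 2 := by
    intro x s g
    refine Summable.of_nonneg_of_le (fun j => mul_nonneg (hW0 _ _ _) (sq_nonneg _)) (fun j => ?_)
      (hfx g)
    have := mul_le_mul_of_nonneg_right (hW1 x s j) (sq_nonneg (f (g • j)))
    linarith
  -- first inequality
  have key1 : ∀ x : Bool, ∑' j, f j ^ 2 ≤ ∑' j, W x true j * f j ^ 2 +
      ∑' j, W x false j * f ((FreeGroup.of x : Gam) • j) ^ 2 := by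
    intro x
    have e : ∑' j, W x false j * f ((FreeGroup.of x : Gam) • j) ^ 2 =
        ∑' j, W x false ((FreeGroup.of x : Gam)⁻¹ • j) * f j ^ 2 := by
      rw [← (MulAction.toPerm (FreeGroup.of x : Gam)).tsum_eq
        (fun j => W x false ((FreeGroup.of x : Gam)⁻¹ • j) * f j ^ 2)]
      refine tsum_congr fun j => ?_
      simp only [MulAction.toPerm_apply, inv_smul_smul]
    have s2 : Summable fun j => W x false ((FreeGroup.of x : Gam)⁻¹ • j) * f j ^ 2 := by
      refine Summable.of_nonneg_of_le (fun j => mul_nonneg (hW0 _ _ _) (sq_nonneg _))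
        (fun j => ?_) hf
      have := mul_le_mul_of_nonneg_right (hW1 x false ((FreeGroup.of x : Gam)⁻¹ • j))
        (sq_nonneg (f j))
      linarith
    rw [e, ← (hS1 x true).tsum_add s2]
    refine hf.tsum_le_tsum (fun j => ?_) ((hS1 x true).add s2)
    have hsq := sq_nonneg (f j)
    rcases free2_word x (w j) with h | h
    · have h1 : W x true j = 1 := if_pos h
      have h2 := hW0 x false ((FreeGroup.of x : Gam)⁻¹ • j)
      rw [h1]
      nlinarith
    · rw [← hw] at h
      have h1 : W x false ((FreeGroup.of x : Gam)⁻¹ • j) = 1 := if_pos h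
      have h2 := hW0 x true j
      rw [h1]
      nlinarith
  -- second inequality
  have key2 : ∀ x : Bool, ∑' j, W x false j * f ((FreeGroup.of x : Gam) • j) ^ 2 ≤
      ∑' j, W x false j * f j ^ 2 + 4 * ∑' j, (f ((FreeGroup.of x : Gam) • j) - f j) ^ 2 +
        1 / 4 * ∑' j, f j ^ 2 := by
    intro x
    have s3 : Summable fun j => 4 * (f ((FreeGroup.of x : Gam) • j) - f j) ^ 2 :=
      (hd _).mul_left 4
    have s4 : Summable fun j => 1 / 8 * f ((FreeGroup.of x : Gam) • j) ^ 2 := (hfx _).mul_left _
    have s5 : Summable fun j => 1 / 8 * f j ^ 2 := hf.mul_left _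
    have e : ∑' j, W x false j * f j ^ 2 + 4 * ∑' j, (f ((FreeGroup.of x : Gam) • j) - f j) ^ 2 +
        1 / 4 * ∑' j, f j ^ 2 = ∑' j, (W x false j * f j ^ 2 +
          4 * (f ((FreeGroup.of x : Gam) • j) - f j) ^ 2 +
          (1 / 8 * f ((FreeGroup.of x : Gam) • j) ^ 2 + 1 / 8 * f j ^ 2)) := by
      rw [((hS1 x false).add s3).tsum_add (s4.add s5), (hS1 x false).tsum_add s3,
        s4.tsum_add s5, tsum_mul_left, tsum_mul_left, tsum_mul_left, hfx']
      ring
    rw [e]
    refine (hS2 x false _).tsum_le_tsum (fun j => ?_) (((hS1 x false).add s3).add (s4.add s5))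
    have hx0 := hW0 x false j
    have hx1 := hW1 x false j
    have ha := free2_alg (f ((FreeGroup.of x : Gam) • j)) (f j)
    have hb := mul_le_mul_of_nonneg_left ha hx0
    have hc : W x false j * (4 * (f ((FreeGroup.of x : Gam) • j) - f j) ^ 2 +
        1 / 8 * (f ((FreeGroup.of x : Gam) • j) ^ 2 + f j ^ 2)) ≤
        1 * (4 * (f ((FreeGroup.of x : Gam) • j) - f j) ^ 2 +
        1 / 8 * (f ((FreeGroup.of x : Gam) • j) ^ 2 + f j ^ 2)) :=
      mul_le_mul_of_nonneg_right hx1 (by positivity)
    linarith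
  have key3 : ∑' j, W true true j * f j ^ 2 + ∑' j, W true false j * f j ^ 2 +
      (∑' j, W false true j * f j ^ 2 + ∑' j, W false false j * f j ^ 2) ≤ ∑' j, f j ^ 2 := by
    rw [← (hS1 true true).tsum_add (hS1 true false), ← (hS1 false true).tsum_add (hS1 false false),
      ← ((hS1 true true).add (hS1 true false)).tsum_add ((hS1 false true).add (hS1 false false))]
    refine (((hS1 true true).add (hS1 true false)).add
      ((hS1 false true).add (hS1 false false))).tsum_le_tsum (fun j => ?_) hf
    have := mul_le_mul_of_nonneg_right (hWs j) (sq_nonneg (f j))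
    linarith
  have k1 := key1 true
  have k2 := key1 false
  have k3 := key2 true
  have k4 := key2 false
  linarith

end Pool.Agent.CR
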