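import Pool.Agent.H.MP_894ea6_lc.L.Defs

/-! MP_894ea6_lc, module GapCont: continuous functions suffice -/

open MeasureTheory

namespace Pool.Agent.CR

private lemma gapcont_alg {t : ℝ} (ht : 0 < t) (a b : ℝ) :
    (a + b) ^ 2 ≤ (1 + t) * a ^ 2 + (1 + 1 / t) * b ^ 2 := by
  have h : 0 ≤ (t * a - b) ^ 2 / t := by positivity
  have h2 : (t * a - b) ^ 2 / t = t * a ^ 2 - 2 * a * b + b ^ 2 / t := by
    field_simp
    ring
  rw [h2] at h
  have h3 : (1 + 1 / t) * b ^ 2 = b ^ 2 + b ^ 2 / t := by ring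
  nlinarith

private lemma gapcont_int {Z : Type*} [MeasurableSpace Z] {m : Measure Z} [IsProbabilityMeasure m]
    {u : Z → ℝ} (hu : Measurable u) {C : ℝ} (hC : ∀ z, |u z| ≤ C) : Integrable u m :=
  Integrable.of_bound hu.aestronglyMeasurable C
    (Filter.Eventually.of_forall fun z => by simpa [Real.norm_eq_abs] using hC z)

private lemma gapcont_int2 {Z : Type*} [MeasurableSpace Z] {m : Measure Z} [IsProbabilityMeasure m]
    {u : Z → ℝ} (hu : Measurable u) {C : ℝ} (hC : ∀ z, |u z| ≤ C) :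
    Integrable (fun z => (u z) ^ 2) m := by
  refine gapcont_int (hu.pow_const 2) (C := C ^ 2) fun z => ?_
  rw [abs_pow]
  exact pow_le_pow_left₀ (abs_nonneg _) (hC z) 2

private lemma gapcont_comp {Z : Type*} [MeasurableSpace Z] {m : Measure Z} [IsProbabilityMeasure m]
    {T : Z → Z} (hT : MeasurePreserving T m m) {u : Z → ℝ} (hu : Measurable u) :
    ∫ z, (u (T z)) ^ 2 ∂m = ∫ z, (u z) ^ 2 ∂m := by
  have h := integral_map (μ := m) hT.measurable.aemeasurable
    (f := fun z => (u z) ^ 2) (hu.pow_const 2).aestronglyMeasurable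
  rw [hT.map_eq] at h
  exact h.symm

private lemma gapcont_D {Z : Type*} [MeasurableSpace Z] {m : Measure Z} [IsProbabilityMeasure m]
    {T : Z → Z} (hT : MeasurePreserving T m m) {f g : Z → ℝ} (hf : Measurable f)
    (hg : Measurable g) {C : ℝ} (hfC : ∀ z, |f z| ≤ C) (hgC : ∀ z, |g z| ≤ C) {t : ℝ}
    (ht : 0 < t) :
    ∫ z, (g (T z) - g z) ^ 2 ∂m ≤
      (1 + t) * ∫ z, (f (T z) - f z) ^ 2 ∂m + (1 + 1 / t) * (4 * ∫ z, (f z - g z) ^ 2 ∂m) := by
  have hm := hT.measurable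
  have hfT : Measurable fun z => f (T z) - f z := (hf.comp hm).sub hf
  have hw : Measurable fun z => f z - g z := hf.sub hg
  have hwT : Measurable fun z => f (T z) - g (T z) := hw.comp hm
  have b1 : ∀ z, |f (T z) - f z| ≤ 2 * C := fun z => by
    have h1 := hfC (T z)
    have h2 := hfC z
    rw [abs_le] at *
    constructor <;> linarith [h1.1, h1.2, h2.1, h2.2]
  have b2 : ∀ z, |f z - g z| ≤ 2 * C := fun z => by
    have h1 := hfC z
    have h2 := hgC z
    rw [abs_le] at *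
    constructor <;> linarith [h1.1, h1.2, h2.1, h2.2]
  have i1 := gapcont_int2 (m := m) hfT b1
  have i2 := gapcont_int2 (m := m) hw b2
  have i3 := gapcont_int2 (m := m) hwT (fun z => b2 (T z))
  have hpt : ∀ z, (g (T z) - g z) ^ 2 ≤ (1 + t) * (f (T z) - f z) ^ 2 +
      (1 + 1 / t) * (2 * (f (T z) - g (T z)) ^ 2 + 2 * (f z - g z) ^ 2) := by
    intro z
    have h1 := gapcont_alg ht (f (T z) - f z) ((f z - g z) - (f (T z) - g (T z)))
    have h2 : ((f z - g z) - (f (T z) - g (T z))) ^ 2 ≤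
        2 * (f (T z) - g (T z)) ^ 2 + 2 * (f z - g z) ^ 2 := by
      nlinarith [sq_nonneg ((f z - g z) + (f (T z) - g (T z)))]
    have h3 : 0 ≤ 1 + 1 / t := by positivity
    have h4 := mul_le_mul_of_nonneg_left h2 h3
    have h5 : f (T z) - f z + ((f z - g z) - (f (T z) - g (T z))) = g (T z) - g z := by ring
    rw [h5] at h1
    linarith
  calc ∫ z, (g (T z) - g z) ^ 2 ∂m
      ≤ ∫ z, ((1 + t) * (f (T z) - f z) ^ 2 +
          (1 + 1 / t) * (2 * (f (T z) - g (T z)) ^ 2 + 2 * (f z - g z) ^ 2)) ∂m := by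
        refine integral_mono_of_nonneg (Filter.Eventually.of_forall fun z => sq_nonneg _) ?_
          (Filter.Eventually.of_forall hpt)
        exact (i1.const_mul _).add (((i3.const_mul 2).add (i2.const_mul 2)).const_mul _)
    _ = (1 + t) * ∫ z, (f (T z) - f z) ^ 2 ∂m +
          (1 + 1 / t) * (4 * ∫ z, (f z - g z) ^ 2 ∂m) := by
        have k1 : Integrable (fun z => 2 * (f (T z) - g (T z)) ^ 2 + 2 * (f z - g z) ^ 2) m :=
          (i3.const_mul 2).add (i2.const_mul 2)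
        rw [integral_add (i1.const_mul _) (k1.const_mul _),
          integral_const_mul, integral_const_mul, integral_add (i3.const_mul 2) (i2.const_mul 2),
          integral_const_mul, integral_const_mul, gapcont_comp hT hw]
        ring

private lemma gapcont_V {Z : Type*} [MeasurableSpace Z] {m : Measure Z} [IsProbabilityMeasure m]
    {f g : Z → ℝ} (hf : Measurable f)
    (hg : Measurable g) {C : ℝ} (hfC : ∀ z, |f z| ≤ C) (hgC : ∀ z, |g z| ≤ C) {t : ℝ}
    (ht : 0 < t) :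
    ∫ z, (f z) ^ 2 ∂m - (∫ z, f z ∂m) ^ 2 ≤
      (1 + t) * (∫ z, (g z) ^ 2 ∂m - (∫ z, g z ∂m) ^ 2) +
        (1 + 1 / t) * ∫ z, (f z - g z) ^ 2 ∂m := by
  have hw : Measurable fun z => f z - g z := hf.sub hg
  have b2 : ∀ z, |f z - g z| ≤ 2 * C := fun z => by
    have h1 := hfC z
    have h2 := hgC z
    rw [abs_le] at *
    constructor <;> linarith [h1.1, h1.2, h2.1, h2.2]
  have i0 := gapcont_int (m := m) hf hfC
  have j0 := gapcont_int (m := m) hg hgC
  have i1 := gapcont_int2 (m := m) hf hfC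
  have j1 := gapcont_int2 (m := m) hg hgC
  have i2 := gapcont_int2 (m := m) hw b2
  set c := ∫ z, g z ∂m with hc
  have e1 : ∫ z, (f z - c) ^ 2 ∂m = ∫ z, (f z) ^ 2 ∂m - 2 * c * ∫ z, f z ∂m + c ^ 2 := by
    have : ∀ z, (f z - c) ^ 2 = (f z) ^ 2 - 2 * c * f z + c ^ 2 := fun z => by ring
    simp_rw [this]
    have k1 : Integrable (fun z => (f z) ^ 2 - 2 * c * f z) m := i1.sub (i0.const_mul _)
    rw [integral_add k1 (integrable_const _),
      integral_sub i1 (i0.const_mul _), integral_const_mul]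
    simp
  have e2 : ∫ z, (g z - c) ^ 2 ∂m = ∫ z, (g z) ^ 2 ∂m - c ^ 2 := by
    have : ∀ z, (g z - c) ^ 2 = (g z) ^ 2 - 2 * c * g z + c ^ 2 := fun z => by ring
    simp_rw [this]
    have k1 : Integrable (fun z => (g z) ^ 2 - 2 * c * g z) m := j1.sub (j0.const_mul _)
    rw [integral_add k1 (integrable_const _),
      integral_sub j1 (j0.const_mul _), integral_const_mul, ← hc]
    simp
    ring
  have i3 : Integrable (fun z => (g z - c) ^ 2) m := by
    refine gapcont_int2 (hg.sub_const c) (C := C + |c|) fun z => ?_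
    calc |g z - c| ≤ |g z| + |c| := abs_sub _ _
      _ ≤ C + |c| := by linarith [hgC z]
  have hpt : ∀ z, (f z - c) ^ 2 ≤ (1 + t) * (g z - c) ^ 2 + (1 + 1 / t) * (f z - g z) ^ 2 := by
    intro z
    have h1 := gapcont_alg ht (g z - c) (f z - g z)
    have h5 : g z - c + (f z - g z) = f z - c := by ring
    rwa [h5] at h1
  have h6 : ∫ z, (f z - c) ^ 2 ∂m ≤ (1 + t) * ∫ z, (g z - c) ^ 2 ∂m +
      (1 + 1 / t) * ∫ z, (f z - g z) ^ 2 ∂m := by
    calc ∫ z, (f z - c) ^ 2 ∂m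
        ≤ ∫ z, ((1 + t) * (g z - c) ^ 2 + (1 + 1 / t) * (f z - g z) ^ 2) ∂m := by
          refine integral_mono_of_nonneg (Filter.Eventually.of_forall fun z => sq_nonneg _) ?_
            (Filter.Eventually.of_forall hpt)
          exact (i3.const_mul _).add (i2.const_mul _)
      _ = _ := by
          rw [integral_add (i3.const_mul _) (i2.const_mul _), integral_const_mul,
            integral_const_mul]
  rw [e1, e2] at h6
  nlinarith [sq_nonneg (∫ z, f z ∂m - c)]

/-- the gap inequality needs to be checked on continuous functions only -/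
theorem GapPair.of_continuous {Z : Type*} [TopologicalSpace Z] [CompactSpace Z]
    [PolishSpace Z] [MeasurableSpace Z] [BorelSpace Z] {m : Measure Z} [IsProbabilityMeasure m]
    {T₁ T₂ : Z → Z} (h1 : MeasurePreserving T₁ m m) (h2 : MeasurePreserving T₂ m m)
    (h : ∀ f : Z → ℝ, Continuous f → ∫ z, (f z) ^ 2 ∂m - (∫ z, f z ∂m) ^ 2 ≤
      8 * (∫ z, (f (T₁ z) - f z) ^ 2 ∂m + ∫ z, (f (T₂ z) - f z) ^ 2 ∂m)) :
    GapPair m T₁ T₂ := by
  refine ⟨h1, h2, fun f hf ⟨C, hC⟩ => ?_⟩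
  have hC0 : ∀ z, ‖f z‖ ≤ C := fun z => by simpa [Real.norm_eq_abs] using hC z
  have hmem : MemLp f (ENNReal.ofReal 2) m :=
    MemLp.of_bound hf.aestronglyMeasurable C (Filter.Eventually.of_forall hC0)
  set V := ∫ z, (f z) ^ 2 ∂m - (∫ z, f z ∂m) ^ 2 with hV
  set D₁ := ∫ z, (f (T₁ z) - f z) ^ 2 ∂m with hD₁
  set D₂ := ∫ z, (f (T₂ z) - f z) ^ 2 ∂m with hD₂
  have key : ∀ t : ℝ, 0 < t → ∀ ε : ℝ, 0 < ε →
      V ≤ (1 + t) * (8 * ((1 + t) * D₁ + (1 + t) * D₂ + 8 * (1 + 1 / t) * ε)) +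
        (1 + 1 / t) * ε := by
    intro t ht ε hε
    obtain ⟨g, hg, -⟩ := hmem.exists_boundedContinuous_integral_rpow_sub_le (p := 2) two_pos
      (ε := ε) hε
    have hg' : ∫ z, (f z - g z) ^ 2 ∂m ≤ ε := by
      refine le_trans (le_of_eq ?_) hg
      congr 1
      funext z
      rw [Real.rpow_two, Real.norm_eq_abs, sq_abs]
    have hgm : Measurable g := g.continuous.measurable
    have hfC : ∀ z, |f z| ≤ max C ‖g‖ := fun z => (hC z).trans (le_max_left _ _)
    have hgC : ∀ z, |g z| ≤ max C ‖g‖ := fun z =>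
      (by simpa [Real.norm_eq_abs] using g.norm_coe_le_norm z : |g z| ≤ ‖g‖).trans
        (le_max_right _ _)
    have a1 := gapcont_D h1 hf hgm hfC hgC ht
    have a2 := gapcont_D h2 hf hgm hfC hgC ht
    have a3 := gapcont_V (m := m) hf hgm hfC hgC ht
    have a4 := h g g.continuous
    have ht1 : 0 ≤ 1 + t := by positivity
    have ht2 : 0 ≤ 1 + 1 / t := by positivity
    have a5 := mul_le_mul_of_nonneg_left hg' ht2
    have a6 : ∫ z, (g (T₁ z) - g z) ^ 2 ∂m + ∫ z, (g (T₂ z) - g z) ^ 2 ∂m ≤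
        (1 + t) * D₁ + (1 + t) * D₂ + 8 * (1 + 1 / t) * ε := by linarith
    calc V ≤ _ := a3
      _ ≤ (1 + t) * (8 * ((1 + t) * D₁ + (1 + t) * D₂ + 8 * (1 + 1 / t) * ε)) +
        (1 + 1 / t) * ε := by
        refine add_le_add (mul_le_mul_of_nonneg_left (a4.trans ?_) ht1) a5
        exact mul_le_mul_of_nonneg_left a6 (by norm_num)
  have key2 : ∀ t : ℝ, 0 < t → V ≤ (1 + t) ^ 2 * (8 * (D₁ + D₂)) := by
    intro t ht
    refine le_of_forall_pos_le_add fun δ hδ => ?_
    have hK : 0 < (1 + t) * (8 * (8 * (1 + 1 / t))) + (1 + 1 / t) := by positivity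
    have := key t ht (δ / ((1 + t) * (8 * (8 * (1 + 1 / t))) + (1 + 1 / t))) (by positivity)
    refine this.trans (le_of_eq ?_)
    have h5 : ((1 + t) * (8 * (8 * (1 + 1 / t))) + (1 + 1 / t)) *
        (δ / ((1 + t) * (8 * (8 * (1 + 1 / t))) + (1 + 1 / t))) = δ :=
      mul_div_cancel₀ _ hK.ne'
    linear_combination h5
  have hD0 : 0 ≤ 8 * (D₁ + D₂) := by
    have : 0 ≤ D₁ := integral_nonneg fun z => sq_nonneg _
    have : 0 ≤ D₂ := integral_nonneg fun z => sq_nonneg _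
    positivity
  have hlim : Filter.Tendsto (fun t : ℝ => (1 + t) ^ 2 * (8 * (D₁ + D₂)))
      (nhdsWithin 0 (Set.Ioi 0)) (nhds ((1 + 0) ^ 2 * (8 * (D₁ + D₂)))) := by
    refine Filter.Tendsto.mono_left ?_ nhdsWithin_le_nhds
    exact Continuous.tendsto (by fun_prop) 0
  have := ge_of_tendsto hlim (Filter.Eventually.mono self_mem_nhdsWithin fun t ht => key2 t ht)
  simpa using this

end Pool.Agent.CR
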