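import Pool.Agent.H.MP_894ea6_lc.L.GapA
import Pool.Agent.H.MP_894ea6_lc.L.Free2

/-! MP_894ea6_lc, module GapWalsh: gap from an orthonormal basis permuted freely -/

open MeasureTheory

namespace Pool.Agent.CR

private theorem gapwalsh_int {Z : Type*} [MeasurableSpace Z] {m : Measure Z}
    [IsProbabilityMeasure m] {f : Z → ℝ} (hf : Measurable f) {C : ℝ} (hC : ∀ z, |f z| ≤ C) :
    Integrable f m :=
  Integrable.of_bound hf.aestronglyMeasurable C (Filter.Eventually.of_forall hC)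

private theorem gapwalsh_mulb {Z : Type*} {f g : Z → ℝ} {C D : ℝ} (hC : ∀ z, |f z| ≤ C)
    (hD : ∀ z, |g z| ≤ D) (z : Z) : |f z * g z| ≤ C * D := by
  rw [abs_mul]
  exact mul_le_mul (hC z) (hD z) (abs_nonneg _) ((abs_nonneg _).trans (hC z))

private theorem gapwalsh_shift {Z : Type*} [MeasurableSpace Z] {m : Measure Z} {T : Z → Z}
    (hT : MeasurePreserving T m m) {F : Z → ℝ} (hF : Measurable F) :
    ∫ z, F (T z) ∂m = ∫ z, F z ∂m := by
  have := integral_map (μ := m) hT.measurable.aemeasurable (f := F) hF.aestronglyMeasurable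
  rw [hT.map_eq] at this
  exact this.symm

private theorem gapwalsh_expand {Z ι : Type*} [MeasurableSpace Z] {m : Measure Z}
    [IsProbabilityMeasure m]
    (v : ι → Z → ℝ) (hvm : ∀ i, Measurable (v i)) (hvb : ∀ i z, |v i z| ≤ 1)
    (horth : ∀ i j, i ≠ j → ∫ z, v i z * v j z ∂m = 0) (hnorm : ∀ i, ∫ z, (v i z) ^ 2 ∂m = 1)
    (f : Z → ℝ) (hf : Measurable f) (C : ℝ) (hC : ∀ z, |f z| ≤ C) (a : ι → ℝ) (S : Finset ι) :
    (Measurable fun z => f z - ∑ i ∈ S, a i * v i z) ∧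
    (∃ D, ∀ z, |f z - ∑ i ∈ S, a i * v i z| ≤ D) ∧
    (∀ j, j ∉ S → ∫ z, (f z - ∑ i ∈ S, a i * v i z) * v j z ∂m = ∫ z, f z * v j z ∂m) ∧
    ∫ z, (f z - ∑ i ∈ S, a i * v i z) ^ 2 ∂m =
      ∫ z, (f z) ^ 2 ∂m - 2 * ∑ i ∈ S, a i * ∫ z, f z * v i z ∂m + ∑ i ∈ S, a i ^ 2 := by
  classical
  induction S using Finset.induction_on with
  | empty =>
    refine ⟨by simpa using hf, ⟨C, by simpa using hC⟩, fun j _ => by simp, by simp⟩
  | insert i S hi ih =>
    obtain ⟨hm, ⟨D, hD⟩, ho, hsq⟩ := ih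
    have e : ∀ z, f z - ∑ k ∈ insert i S, a k * v k z =
        (f z - ∑ k ∈ S, a k * v k z) - a i * v i z := by
      intro z
      rw [Finset.sum_insert hi]; ring
    simp only [e]
    generalize hg : (fun z => f z - ∑ k ∈ S, a k * v k z) = g at *
    have hg' : ∀ z, f z - ∑ k ∈ S, a k * v k z = g z := fun z => congrFun hg z
    simp only [hg'] at *
    have hav : ∀ z, |a i * v i z| ≤ |a i| := by
      intro z
      rw [abs_mul]
      calc |a i| * |v i z| ≤ |a i| * 1 := mul_le_mul_of_nonneg_left (hvb i z) (abs_nonneg _)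
        _ = |a i| := mul_one _
    have hgi : ∀ j, Integrable (fun z => g z * v j z) m := fun j =>
      gapwalsh_int (hm.mul (hvm j)) (gapwalsh_mulb hD (hvb j))
    have hvv : ∀ j k, Integrable (fun z => v j z * v k z) m := fun j k =>
      gapwalsh_int ((hvm j).mul (hvm k)) (gapwalsh_mulb (hvb j) (hvb k))
    have hgg : Integrable (fun z => g z ^ 2) m :=
      (gapwalsh_int (m := m) (hm.mul hm) (gapwalsh_mulb hD hD)).congr
        (Filter.Eventually.of_forall fun z => (sq (g z)).symm)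
    have hv2 : Integrable (fun z => v i z ^ 2) m :=
      (hvv i i).congr (Filter.Eventually.of_forall fun z => (sq (v i z)).symm)
    have hA : Integrable (fun z => g z ^ 2 - (2 * a i) * (g z * v i z)) m :=
      hgg.sub ((hgi i).const_mul _)
    refine ⟨hm.sub ((hvm i).const_mul _), ⟨D + |a i|, fun z => ?_⟩, fun j hj => ?_, ?_⟩
    · have h1 := abs_sub (g z) (a i * v i z)
      exact h1.trans (add_le_add (hD z) (hav z))
    · rw [Finset.mem_insert, not_or] at hj
      have e2 : ∀ z, (g z - a i * v i z) * v j z = g z * v j z - a i * (v i z * v j z) := by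
        intro z; ring
      simp only [e2]
      rw [integral_sub (hgi j) ((hvv i j).const_mul _), integral_const_mul,
        horth i j (fun h => hj.1 h.symm), mul_zero, sub_zero, ho j hj.2]
    · have e2 : ∀ z, (g z - a i * v i z) ^ 2 =
          g z ^ 2 - (2 * a i) * (g z * v i z) + a i ^ 2 * v i z ^ 2 := by
        intro z; ring
      simp only [e2]
      rw [integral_add hA (hv2.const_mul _),
        integral_sub hgg ((hgi i).const_mul _), integral_const_mul, integral_const_mul, hsq,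
        ho i hi, hnorm i, Finset.sum_insert hi, Finset.sum_insert hi]
      ring

private theorem gapwalsh_bessel {Z ι : Type*} [MeasurableSpace Z] {m : Measure Z}
    [IsProbabilityMeasure m]
    (v : ι → Z → ℝ) (hvm : ∀ i, Measurable (v i)) (hvb : ∀ i z, |v i z| ≤ 1)
    (horth : ∀ i j, i ≠ j → ∫ z, v i z * v j z ∂m = 0) (hnorm : ∀ i, ∫ z, (v i z) ^ 2 ∂m = 1)
    (f : Z → ℝ) (hf : Measurable f) (C : ℝ) (hC : ∀ z, |f z| ≤ C) (S : Finset ι) :
    ∑ i ∈ S, (∫ z, f z * v i z ∂m) ^ 2 ≤ ∫ z, (f z) ^ 2 ∂m := by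
  obtain ⟨-, -, -, h⟩ := gapwalsh_expand v hvm hvb horth hnorm f hf C hC
    (fun i => ∫ z, f z * v i z ∂m) S
  have h0 : 0 ≤ ∫ z, (f z - ∑ i ∈ S, (∫ z, f z * v i z ∂m) * v i z) ^ 2 ∂m :=
    integral_nonneg fun z => sq_nonneg _
  rw [h] at h0
  have e : ∑ i ∈ S, (∫ z, f z * v i z ∂m) * ∫ z, f z * v i z ∂m =
      ∑ i ∈ S, (∫ z, f z * v i z ∂m) ^ 2 := Finset.sum_congr rfl fun i _ => (sq _).symm
  rw [e] at h0
  linarith

theorem gap_of_basis {Z : Type*} [MeasurableSpace Z] {m : Measure Z} [IsProbabilityMeasure m]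
    {T₁ T₂ : Z → Z} (hT₁ : MeasurePreserving T₁ m m) (hT₂ : MeasurePreserving T₂ m m)
    {J : Type*} [MulAction Gam J] (hfree : ∀ (w : Gam) (j : J), w • j = j → w = 1)
    (w : J → Z → ℝ) (hwm : ∀ j, Measurable (w j)) (hwb : ∀ j z, |w j z| ≤ 1)
    (horth : ∀ i j, i ≠ j → ∫ z, w i z * w j z ∂m = 0) (hnorm : ∀ j, ∫ z, (w j z) ^ 2 ∂m = 1)
    (hw0 : ∀ j, ∫ z, w j z ∂m = 0)
    (hdense : ∀ f : Z → ℝ, Measurable f → (∃ C, ∀ z, |f z| ≤ C) → ∀ ε : ℝ, 0 < ε →
      ∃ (s : Finset J) (c : J → ℝ) (c₀ : ℝ), ∫ z, (f z - (c₀ + ∑ j ∈ s, c j * w j z)) ^ 2 ∂m ≤ ε)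
    (h1 : ∀ j, ∀ᵐ z ∂m, w ((FreeGroup.of true : Gam) • j) (T₁ z) = w j z)
    (h2 : ∀ j, ∀ᵐ z ∂m, w ((FreeGroup.of false : Gam) • j) (T₂ z) = w j z) :
    GapPair m T₁ T₂ := by
  classical
  have bes : ∀ f : Z → ℝ, Measurable f → ∀ C : ℝ, (∀ z, |f z| ≤ C) →
      Summable (fun j => (∫ z, f z * w j z ∂m) ^ 2) ∧
        ∑' j, (∫ z, f z * w j z ∂m) ^ 2 ≤ ∫ z, (f z) ^ 2 ∂m := by
    intro f hf C hC
    have hb := gapwalsh_bessel w hwm hwb horth hnorm f hf C hC
    have hs : Summable (fun j => (∫ z, f z * w j z ∂m) ^ 2) :=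
      summable_of_sum_le (fun j => sq_nonneg _) hb
    exact ⟨hs, hs.tsum_le_of_sum_le hb⟩
  have compl : ∀ f : Z → ℝ, Measurable f → ∀ C : ℝ, (∀ z, |f z| ≤ C) →
      ∫ z, (f z) ^ 2 ∂m - (∫ z, f z ∂m) ^ 2 ≤ ∑' j, (∫ z, f z * w j z ∂m) ^ 2 := by
    intro f hf C hC
    apply le_of_forall_pos_le_add
    intro ε hε
    obtain ⟨s, c, c₀, hle⟩ := hdense f hf ⟨C, hC⟩ ε hε
    let v : Option J → Z → ℝ := fun o => o.elim (fun _ => 1) w
    let a : Option J → ℝ := fun o => o.elim c₀ c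
    have hvm : ∀ i, Measurable (v i) := by
      rintro (_ | j)
      · exact measurable_const
      · exact hwm j
    have hvb : ∀ i z, |v i z| ≤ 1 := by
      rintro (_ | j) z
      · show |(1 : ℝ)| ≤ 1
        rw [abs_one]
      · exact hwb j z
    have hvo : ∀ i j, i ≠ j → ∫ z, v i z * v j z ∂m = 0 := by
      rintro (_ | i) (_ | j) hij
      · exact absurd rfl hij
      · show ∫ z, 1 * w j z ∂m = 0
        simp only [one_mul]
        exact hw0 j
      · show ∫ z, w i z * 1 ∂m = 0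
        simp only [mul_one]
        exact hw0 i
      · exact horth i j fun h => hij (by rw [h])
    have hvn : ∀ i, ∫ z, (v i z) ^ 2 ∂m = 1 := by
      rintro (_ | j)
      · show ∫ z, (1 : ℝ) ^ 2 ∂m = 1
        simp
      · exact hnorm j
    obtain ⟨-, -, -, h⟩ := gapwalsh_expand v hvm hvb hvo hvn f hf C hC a (Finset.insertNone s)
    have e1 : ∀ z, f z - ∑ i ∈ Finset.insertNone s, a i * v i z =
        f z - (c₀ + ∑ j ∈ s, c j * w j z) := by
      intro z
      rw [Finset.sum_insertNone]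
      show f z - (c₀ * 1 + ∑ j ∈ s, c j * w j z) = _
      rw [mul_one]
    simp only [e1] at h
    rw [h] at hle
    have e2 : ∀ x y : Option J → ℝ, -∑ i ∈ Finset.insertNone s, y i ^ 2 ≤
        - 2 * ∑ i ∈ Finset.insertNone s, x i * y i + ∑ i ∈ Finset.insertNone s, x i ^ 2 := by
      intro x y
      have : 0 ≤ ∑ i ∈ Finset.insertNone s, (x i - y i) ^ 2 :=
        Finset.sum_nonneg fun i _ => sq_nonneg _
      have e3 : ∑ i ∈ Finset.insertNone s, (x i - y i) ^ 2 =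
          ∑ i ∈ Finset.insertNone s, x i ^ 2 - 2 * ∑ i ∈ Finset.insertNone s, x i * y i +
            ∑ i ∈ Finset.insertNone s, y i ^ 2 := by
        rw [Finset.mul_sum, ← Finset.sum_sub_distrib, ← Finset.sum_add_distrib]
        exact Finset.sum_congr rfl fun i _ => by ring
      linarith
    have h3 := e2 a (fun i => ∫ z, f z * v i z ∂m)
    have h4 : ∑ i ∈ Finset.insertNone s, (∫ z, f z * v i z ∂m) ^ 2 =
        (∫ z, f z ∂m) ^ 2 + ∑ j ∈ s, (∫ z, f z * w j z ∂m) ^ 2 := by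
      rw [Finset.sum_insertNone]
      show (∫ z, f z * 1 ∂m) ^ 2 + _ = _
      simp only [mul_one]
      rfl
    have h5 : ∑ j ∈ s, (∫ z, f z * w j z ∂m) ^ 2 ≤ ∑' j, (∫ z, f z * w j z ∂m) ^ 2 :=
      (bes f hf C hC).1.sum_le_tsum s fun j _ => sq_nonneg _
    rw [h4] at h3
    linarith
  have shift : ∀ (x : Bool) (T : Z → Z), MeasurePreserving T m m →
      (∀ j, ∀ᵐ z ∂m, w ((FreeGroup.of x : Gam) • j) (T z) = w j z) →
      ∀ f : Z → ℝ, Measurable f → ∀ C : ℝ, (∀ z, |f z| ≤ C) →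
      ∑' j, (∫ z, f z * w ((FreeGroup.of x : Gam) • j) z ∂m - ∫ z, f z * w j z ∂m) ^ 2 ≤
        ∫ z, (f (T z) - f z) ^ 2 ∂m := by
    intro x T hT hx f hf C hC
    have hg : Measurable fun z => f (T z) - f z := (hf.comp hT.measurable).sub hf
    have hgC : ∀ z, |f (T z) - f z| ≤ C + C := fun z =>
      (abs_sub _ _).trans (add_le_add (hC _) (hC _))
    refine le_trans (le_of_eq ?_) (bes _ hg _ hgC).2
    refine tsum_congr fun j => ?_
    congr 1
    have e1 : ∫ z, f z * w ((FreeGroup.of x : Gam) • j) z ∂m = ∫ z, f (T z) * w j z ∂m := by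
      rw [← gapwalsh_shift hT (F := fun z => f z * w ((FreeGroup.of x : Gam) • j) z)
        (hf.mul (hwm _))]
      refine integral_congr_ae ?_
      filter_upwards [hx j] with z hz
      show f (T z) * w ((FreeGroup.of x : Gam) • j) (T z) = _
      rw [hz]
    rw [e1, ← integral_sub]
    · refine integral_congr_ae (Filter.Eventually.of_forall fun z => ?_)
      show f (T z) * w j z - f z * w j z = (f (T z) - f z) * w j z
      ring
    · exact gapwalsh_int ((hf.comp hT.measurable).mul (hwm j))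
        (gapwalsh_mulb (f := fun z => f (T z)) (fun z => hC _) (hwb j))
    · exact gapwalsh_int (hf.mul (hwm j)) (gapwalsh_mulb hC (hwb j))
  refine ⟨hT₁, hT₂, fun f hf ⟨C, hC⟩ => ?_⟩
  have k1 := compl f hf C hC
  have k2 := paradox hfree (fun j => ∫ z, f z * w j z ∂m) (bes f hf C hC).1
  have k3 := shift true T₁ hT₁ h1 f hf C hC
  have k4 := shift false T₂ hT₂ h2 f hf C hC
  linarith

end Pool.Agent.CR
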