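import Pool.Agent.H.MP_894ea6_lc.L.Defs

/-! MP_894ea6_lc, module GrpDefs: the wreath product `V = Z wr Z`, the groups `H y`, the
homomorphisms `Phi y` and their kernels `NN y` -/

open MeasureTheory

namespace Pool.Agent.CR

/-- translation of finitely supported sequences: `(shift k n) i = n (i - k)` -/
noncomputable def shift (k : ℤ) (n : ℤ →₀ ℤ) : ℤ →₀ ℤ := Finsupp.equivMapDomain (Equiv.addRight k) n

@[simp] theorem shift_apply (k : ℤ) (n : ℤ →₀ ℤ) (i : ℤ) : shift k n i = n (i - k) := by
  simp [shift, Finsupp.equivMapDomain_apply, sub_eq_add_neg]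

/-- the group `V = Z wr Z`: pairs `(n,k)` with `(n,k)(n',k') = (n + shift k n', k + k')` -/
@[ext] structure V where
  n : ℤ →₀ ℤ
  k : ℤ

noncomputable instance instMulV : Mul V := ⟨fun x y => ⟨x.n + shift x.k y.n, x.k + y.k⟩⟩
noncomputable instance instOneV : One V := ⟨⟨0, 0⟩⟩
noncomputable instance instInvV : Inv V := ⟨fun x => ⟨-(shift (-x.k) x.n), -x.k⟩⟩

@[simp] theorem V.mul_n (x y : V) : (x * y).n = x.n + shift x.k y.n := rfl
@[simp] theorem V.mul_k (x y : V) : (x * y).k = x.k + y.k := rfl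
@[simp] theorem V.one_n : (1 : V).n = 0 := rfl
@[simp] theorem V.one_k : (1 : V).k = 0 := rfl
@[simp] theorem V.inv_n (x : V) : (x⁻¹).n = -(shift (-x.k) x.n) := rfl
@[simp] theorem V.inv_k (x : V) : (x⁻¹).k = -x.k := rfl

noncomputable instance instGroupV : Group V :=
  Group.ofLeftAxioms
    (by
      intro x y z
      ext i
      · simp only [V.mul_n, V.mul_k, Finsupp.add_apply, shift_apply, add_assoc]
        congr 3; ring
      · simp [add_assoc])
    (by intro x; ext i <;> simp)
    (by intro x; ext i <;> simp)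

instance instMSV : MeasurableSpace V := ⊤
instance instDMSV : DiscreteMeasurableSpace V := ⟨fun _ => trivial⟩

instance instCountableV : Countable V := by
  have h : Function.Injective (fun v : V => (v.n, v.k)) := by
    intro x y h
    simp only [Prod.mk.injEq] at h
    exact V.ext h.1 h.2
  exact h.countable

/-- the sets `A(y)` -/
def AA (y : ℕ → Bool) : Set ℤ :=
  {i | i = 0 ∨ (∃ j : ℕ, i = ((2 * j + 2).factorial : ℤ)) ∨
    ∃ j : ℕ, i = ((2 * j + 3).factorial : ℤ) ∧ y j = true}

/-- the subgroups `H_y = {(n,0) : supp n ⊆ A(y)}` -/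
def HH (y : ℕ → Bool) : Subgroup V where
  carrier := {v | v.k = 0 ∧ ∀ i, v.n i ≠ 0 → i ∈ AA y}
  mul_mem' := by
    rintro v w ⟨hv, hv'⟩ ⟨hw, hw'⟩
    refine ⟨by simp [hv, hw], fun i hi => ?_⟩
    by_cases h : v.n i = 0
    · apply hw'
      intro h'
      apply hi
      simp [hv, h, h']
    · exact hv' i h
  one_mem' := ⟨rfl, fun i hi => absurd rfl hi⟩
  inv_mem' := by
    rintro v ⟨hv, hv'⟩
    refine ⟨by simp [hv], fun i hi => hv' i ?_⟩
    intro h
    apply hi
    simp [hv, h]

/-- the elements `a` and `t` of `V` -/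
noncomputable def aV : V := ⟨Finsupp.single 0 1, 0⟩
noncomputable def tV : V := ⟨0, 1⟩

/-- the unrestricted wreath product `(V → Gam) ⋊ V` -/
@[ext] structure WW where
  c : V → Gam
  v : V

noncomputable instance instMulWW : Mul WW := ⟨fun x y => ⟨fun w => x.c w * y.c (x.v⁻¹ * w), x.v * y.v⟩⟩
noncomputable instance instOneWW : One WW := ⟨⟨1, 1⟩⟩
noncomputable instance instInvWW : Inv WW := ⟨fun x => ⟨fun w => (x.c (x.v * w))⁻¹, x.v⁻¹⟩⟩

@[simp] theorem WW.mul_c (x y : WW) (w : V) : (x * y).c w = x.c w * y.c (x.v⁻¹ * w) := rfl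
@[simp] theorem WW.mul_v (x y : WW) : (x * y).v = x.v * y.v := rfl
@[simp] theorem WW.one_c (w : V) : (1 : WW).c w = 1 := rfl
@[simp] theorem WW.one_v : (1 : WW).v = 1 := rfl
@[simp] theorem WW.inv_c (x : WW) (w : V) : (x⁻¹).c w = (x.c (x.v * w))⁻¹ := rfl
@[simp] theorem WW.inv_v (x : WW) : (x⁻¹).v = x.v⁻¹ := rfl

noncomputable instance instGroupWW : Group WW :=
  Group.ofLeftAxioms
    (by
      intro x y z
      apply WW.ext
      · funext w
        simp [mul_assoc]
      · simp only [WW.mul_v, mul_assoc])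
    (by
      intro x
      apply WW.ext
      · funext w
        simp
      · simp only [WW.mul_v, WW.one_v, one_mul])
    (by
      intro x
      apply WW.ext
      · funext w
        simp
      · simp only [WW.mul_v, WW.inv_v, WW.one_v, inv_mul_cancel])

/-- generators of the free group `FF` -/
inductive Gen where
  | p | q | a | t
  deriving DecidableEq, Fintype

/-- the free group on four generators -/
abbrev FF : Type := FreeGroup Gen

instance instMSFF : MeasurableSpace FF := ⊤
instance instDMSFF : DiscreteMeasurableSpace FF := ⟨fun _ => trivial⟩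
instance instCountableGen : Countable Gen := Finite.to_countable

open scoped Classical in
/-- images of the generators -/
noncomputable def PhiGen (y : ℕ → Bool) : Gen → WW
  | .p => ⟨fun w => if w ∈ HH y then FreeGroup.of true else 1, 1⟩
  | .q => ⟨fun w => if w ∈ HH y then FreeGroup.of false else 1, 1⟩
  | .a => ⟨1, aV⟩
  | .t => ⟨1, tV⟩

noncomputable def Phi (y : ℕ → Bool) : FF →* WW := FreeGroup.lift (PhiGen y)

/-- the kernels -/
noncomputable def NN (y : ℕ → Bool) : Subgroup FF := (Phi y).ker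

/-- the inclusion of `Gam` in `FF` -/
def iota : Gam →* FF := FreeGroup.map (fun b => if b then Gen.p else Gen.q)

/-- the `V`-part -/
noncomputable def piV : FF →* V :=
  FreeGroup.lift (fun g => match g with
    | .p => 1
    | .q => 1
    | .a => aV
    | .t => tV)

/-- `w` is pure: it lies in the subgroup generated by `a` and `t` -/
def Pure (w : FF) : Prop := w ∈ Subgroup.closure ({FreeGroup.of Gen.a, FreeGroup.of Gen.t} : Set FF)

/-- the commutator endomorphism `p ↦ [p,q]`, `q ↦ [p⁻¹,q⁻¹]` of `Gam` -/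
def hh : Gam →* Gam :=
  FreeGroup.lift (fun b => if b
    then FreeGroup.of true * FreeGroup.of false * (FreeGroup.of true)⁻¹ * (FreeGroup.of false)⁻¹
    else (FreeGroup.of true)⁻¹ * (FreeGroup.of false)⁻¹ * FreeGroup.of true * FreeGroup.of false)

/-- `jj v γ = v ι(h(h(γ))) v⁻¹` -/
def jj (v : FF) : Gam →* FF := (MulAut.conj v).toMonoidHom.comp (iota.comp (hh.comp hh))

theorem jj_apply (v : FF) (γ : Gam) : jj v γ = v * iota (hh (hh γ)) * v⁻¹ := rfl

/-- the words `t^i a t^-i` -/
def Tw (i : ℤ) : FF := (FreeGroup.of Gen.t) ^ i * FreeGroup.of Gen.a * ((FreeGroup.of Gen.t) ^ i)⁻¹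

/-- the Borel set of parameters: sequences that are not eventually 0 -/
def BB : Set (ℕ → Bool) := {y | ∀ n, ∃ k, n ≤ k ∧ y k = true}

end Pool.Agent.CR
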