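import Pool.Agent.H.MP_894ea6_lc.L.GapA

/-! MP_894ea6_lc, module LemIFib: fibrewise normalized almost invariant vectors -/

open MeasureTheory

namespace Pool.Agent.CR

/-- integrals over the product with a countable discrete space -/
theorem lemifib_int {L Z : Type*} [Countable L] [MeasurableSpace L]
    [DiscreteMeasurableSpace L] [MeasurableSpace Z] {m : Measure Z} [IsProbabilityMeasure m]
    (G : Z × L → ℝ) (hint : Integrable G (m.prod Measure.count)) :
    (∀ᵐ z ∂m, Summable (fun l => G (z, l))) ∧ Integrable (fun z => ∑' l, G (z, l)) m ∧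
      ∫ z, ∑' l, G (z, l) ∂m = ∫ y, G y ∂(m.prod Measure.count) := by
  have h1 := hint.prod_right_ae
  have h2 : ∀ᵐ z ∂m, Summable (fun l => G (z, l)) := by
    filter_upwards [h1] with z hz
    exact (integrable_count_iff.1 hz).of_norm
  have h3 : ∀ᵐ z ∂m, ∫ l, G (z, l) ∂Measure.count = ∑' l, G (z, l) := by
    filter_upwards [h1] with z hz
    rw [integral_countable hz]
    simp
  refine ⟨h2, ?_, ?_⟩
  · exact hint.integral_prod_left.congr h3
  · rw [integral_prod _ hint]
    exact (integral_congr_ae h3).symm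

/-- elementary facts on two square summable families -/
theorem lemifib_pair {L : Type*} (u v : L → ℝ) {U V : ℝ} (hU : HasSum (fun l => u l ^ 2) U)
    (hV : HasSum (fun l => v l ^ 2) V) :
    Summable (fun l => u l * v l) ∧
      HasSum (fun l => (u l - v l) ^ 2) (U + V - 2 * ∑' l, u l * v l) ∧
      (√U - √V) ^ 2 ≤ U + V - 2 * ∑' l, u l * v l := by
  have h1 : Summable (fun l => u l * v l) := by
    refine Summable.of_norm_bounded (g := fun l => u l ^ 2 + v l ^ 2) (hU.summable.add hV.summable) ?_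
    intro l
    rw [Real.norm_eq_abs, abs_le]
    constructor <;> nlinarith [sq_nonneg (u l + v l), sq_nonneg (u l - v l)]
  have h2 : HasSum (fun l => (u l - v l) ^ 2) (U + V - 2 * ∑' l, u l * v l) := by
    have := (hU.add hV).sub (h1.hasSum.mul_left 2)
    have e : (fun l => (u l - v l) ^ 2) = fun l => (u l ^ 2 + v l ^ 2) - 2 * (u l * v l) := by
      funext l; ring
    rw [e]
    exact this
  have hU0 : 0 ≤ U := hU.nonneg fun l => sq_nonneg _
  have hV0 : 0 ≤ V := hV.nonneg fun l => sq_nonneg _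
  have h3 : ∑' l, u l * v l ≤ √U * √V := by
    refine h1.tsum_le_of_sum_le fun s => ?_
    refine (Real.sum_mul_le_sqrt_mul_sqrt s u v).trans ?_
    refine mul_le_mul (Real.sqrt_le_sqrt (sum_le_hasSum s (fun l _ => sq_nonneg _) hU))
      (Real.sqrt_le_sqrt (sum_le_hasSum s (fun l _ => sq_nonneg _) hV)) (Real.sqrt_nonneg _)
      (Real.sqrt_nonneg _)
  refine ⟨h1, h2, ?_⟩
  rw [sub_sq, Real.sq_sqrt hU0, Real.sq_sqrt hV0]
  nlinarith

variable {L Z : Type*} [Group L] [Countable L] [MeasurableSpace L]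
    [DiscreteMeasurableSpace L] [MeasurableSpace Z] {m : Measure Z} [IsProbabilityMeasure m]

/-- the fibre norms are almost invariant -/
theorem lemifib_A {T : Z → Z} (hT : MeasurePreserving T m m) {β : Z → L} (hβ : Measurable β)
    (g : Z × L → ℝ) (hg2 : MemLp g 2 (m.prod Measure.count)) :
    ∫ z, (√(∑' l, g (T z, l) ^ 2) - √(∑' l, g (z, l) ^ 2)) ^ 2 ∂m ≤
      ∫ y, (g (tw T β y) - g y) ^ 2 ∂(m.prod Measure.count) := by
  have hS : MeasurePreserving (tw T β) (m.prod Measure.count) (m.prod Measure.count) :=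
    tw_mp hT hβ
  have hgS : MemLp (fun y => g (tw T β y)) 2 (m.prod Measure.count) :=
    hg2.comp_measurePreserving hS
  have hD : Integrable (fun y => (g (tw T β y) - g y) ^ 2) (m.prod Measure.count) :=
    (hgS.sub hg2).integrable_sq
  obtain ⟨h1, h2, h3⟩ := lemifib_int _ hD
  obtain ⟨h4, -, -⟩ := lemifib_int _ hg2.integrable_sq
  have h5 := hT.quasiMeasurePreserving.ae h4
  rw [← h3]
  refine integral_mono_of_nonneg (Filter.Eventually.of_forall fun z => sq_nonneg _) h2 ?_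
  filter_upwards [h4, h5] with z hz hTz
  have hu : HasSum (fun l => g (T z, β z * l) ^ 2) (∑' l, g (T z, l) ^ 2) :=
    (Equiv.mulLeft (β z)).hasSum_iff.2 hTz.hasSum
  obtain ⟨-, h7, h8⟩ := lemifib_pair _ _ hu hz.hasSum
  simp only [tw]
  rw [h7.tsum_eq]
  exact h8

/-- the integral of the defect of a fibrewise normalized function -/
theorem lemifib_C {T : Z → Z} (hT : MeasurePreserving T m m) {β : Z → L} (hβ : Measurable β)
    (f g : Z × L → ℝ) (hg2 : MemLp g 2 (m.prod Measure.count))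
    (hf2 : MemLp f 2 (m.prod Measure.count)) (hf1 : ∀ z, HasSum (fun l => f (z, l) ^ 2) 1)
    {η κ : ℝ} (h1 : ∫ y, (g (tw T β y) - g y) ^ 2 ∂(m.prod Measure.count) ≤ η)
    (h2 : ∫ y, (f y - g y) ^ 2 ∂(m.prod Measure.count) ≤ κ) :
    ∫ z, (1 - ∑' l, f (T z, β z * l) * f (z, l)) ∂m ≤ 3 / 2 * (2 * κ + η) := by
  have hS : MeasurePreserving (tw T β) (m.prod Measure.count) (m.prod Measure.count) :=
    tw_mp hT hβ
  have hgS : MemLp (fun y => g (tw T β y)) 2 (m.prod Measure.count) :=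
    hg2.comp_measurePreserving hS
  have hfS : MemLp (fun y => f (tw T β y)) 2 (m.prod Measure.count) :=
    hf2.comp_measurePreserving hS
  have hD : Integrable (fun y => (f (tw T β y) - f y) ^ 2) (m.prod Measure.count) :=
    (hfS.sub hf2).integrable_sq
  obtain ⟨-, -, h5⟩ := lemifib_int _ hD
  have h6 : ∀ z, 1 - ∑' l, f (T z, β z * l) * f (z, l) =
      1 / 2 * ∑' l, (f (tw T β (z, l)) - f (z, l)) ^ 2 := by
    intro z
    have hu : HasSum (fun l => f (T z, β z * l) ^ 2) 1 :=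
      (Equiv.mulLeft (β z)).hasSum_iff.2 (hf1 (T z))
    obtain ⟨-, h7, -⟩ := lemifib_pair _ _ hu (hf1 z)
    simp only [tw]
    rw [h7.tsum_eq]
    ring
  simp_rw [h6]
  rw [integral_const_mul, h5]
  have hfg : Integrable (fun y => (f y - g y) ^ 2) (m.prod Measure.count) :=
    (hf2.sub hg2).integrable_sq
  have hfgS : Integrable (fun y => (f (tw T β y) - g (tw T β y)) ^ 2) (m.prod Measure.count) :=
    (hfS.sub hgS).integrable_sq
  have hgg : Integrable (fun y => (g (tw T β y) - g y) ^ 2) (m.prod Measure.count) :=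
    (hgS.sub hg2).integrable_sq
  have h8 : ∫ y, (f (tw T β y) - f y) ^ 2 ∂(m.prod Measure.count) ≤
      ∫ y, 3 * ((f (tw T β y) - g (tw T β y)) ^ 2 + (f y - g y) ^ 2 + (g (tw T β y) - g y) ^ 2)
        ∂(m.prod Measure.count) := by
    refine integral_mono hD (((hfgS.add hfg).add hgg).const_mul 3) fun y => ?_
    show (f (tw T β y) - f y) ^ 2 ≤
      3 * ((f (tw T β y) - g (tw T β y)) ^ 2 + (f y - g y) ^ 2 + (g (tw T β y) - g y) ^ 2)
    nlinarith [sq_nonneg ((f (tw T β y) - g (tw T β y)) + (f y - g y)),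
      sq_nonneg ((f (tw T β y) - g (tw T β y)) - (g (tw T β y) - g y)),
      sq_nonneg ((f y - g y) + (g (tw T β y) - g y))]
  have h9 : ∫ y, (f (tw T β y) - g (tw T β y)) ^ 2 ∂(m.prod Measure.count) =
      ∫ y, (f y - g y) ^ 2 ∂(m.prod Measure.count) := by
    have := hS.map_eq
    conv_rhs => rw [← this]
    rw [integral_map hS.measurable.aemeasurable]
    rw [this]
    exact hfg.aestronglyMeasurable
  have hadd : Integrable (fun y => (f (tw T β y) - g (tw T β y)) ^ 2 + (f y - g y) ^ 2)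
      (m.prod Measure.count) := hfgS.add hfg
  rw [integral_const_mul, integral_add hadd hgg, integral_add hfgS hfg, h9] at h8
  nlinarith

/-- normalization of almost invariant functions -/
theorem lemifib_norm {T₁ T₂ : Z → Z} (hT : GapPair m T₁ T₂) {β₁ β₂ : Z → L}
    (hβ₁ : Measurable β₁) (hβ₂ : Measurable β₂) (g : Z × L → ℝ) (hgm : Measurable g)
    (hg0 : ∀ y, 0 ≤ g y) (hg2 : MemLp g 2 (m.prod Measure.count))
    (hg1 : ∫ y, g y ^ 2 ∂(m.prod Measure.count) = 1) {η : ℝ}
    (h1 : ∫ y, (g (tw T₁ β₁ y) - g y) ^ 2 ∂(m.prod Measure.count) ≤ η)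
    (h2 : ∫ y, (g (tw T₂ β₂ y) - g y) ^ 2 ∂(m.prod Measure.count) ≤ η) :
    ∃ f : Z × L → ℝ, Measurable f ∧ (∀ p, 0 ≤ f p) ∧ (∀ z, HasSum (fun l => f (z, l) ^ 2) 1) ∧
      ∫ z, (1 - ∑' l, f (T₁ z, β₁ z * l) * f (z, l)) ∂m ≤ 100 * η ∧
      ∫ z, (1 - ∑' l, f (T₂ z, β₂ z * l) * f (z, l)) ∂m ≤ 100 * η := by
  classical
  have hη : 0 ≤ η := le_trans (integral_nonneg fun y => sq_nonneg _) h1
  -- the fibre norms
  set F2 : Z → ℝ := fun z => ∑' l, g (z, l) ^ 2 with hF2
  set F : Z → ℝ := fun z => √(F2 z) with hF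
  have hF2nn : ∀ z, 0 ≤ F2 z := fun z => tsum_nonneg fun l => sq_nonneg _
  have hΦm : Measurable (fun z => ∑' l, ENNReal.ofReal (g (z, l) ^ 2)) := by
    refine Measurable.tsum fun l => ?_
    exact ((hgm.comp (measurable_id.prodMk measurable_const)).pow_const 2).ennreal_ofReal
  have hΦe : ∀ z, (∑' l, ENNReal.ofReal (g (z, l) ^ 2)).toReal = F2 z := by
    intro z
    rw [ENNReal.tsum_toReal_eq (fun l => ENNReal.ofReal_ne_top)]
    exact tsum_congr fun l => ENNReal.toReal_ofReal (sq_nonneg _)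
  have hF2m : Measurable F2 := by
    have := hΦm.ennreal_toReal
    simp_rw [hΦe] at this
    exact this
  have hFm : Measurable F := hF2m.sqrt
  obtain ⟨hsum, hF2i, hF2int⟩ := lemifib_int _ hg2.integrable_sq
  have hFsq : ∀ z, F z ^ 2 = F2 z := fun z => Real.sq_sqrt (hF2nn z)
  have hFi : Integrable (fun z => F z ^ 2) m := by simp_rw [hFsq]; exact hF2i
  have hFL2 : MemLp F 2 m := (memLp_two_iff_integrable_sq hFm.aestronglyMeasurable).2 hFi
  have hF1 : ∫ z, F z ^ 2 ∂m = 1 := by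
    simp_rw [hFsq]
    rw [← hg1]
    exact hF2int
  have hFint : Integrable F m := hFL2.integrable (by norm_num)
  have hgap := hT.gap_L2 F hFL2
  have hA1 := lemifib_A hT.mp1 hβ₁ g hg2
  have hA2 := lemifib_A hT.mp2 hβ₂ g hg2
  have hgap' : 1 - (∫ z, F z ∂m) ^ 2 ≤ 16 * η := by
    rw [hF1] at hgap
    have e1 : ∫ z, (F (T₁ z) - F z) ^ 2 ∂m ≤ η := hA1.trans h1
    have e2 : ∫ z, (F (T₂ z) - F z) ^ 2 ∂m ≤ η := hA2.trans h2
    linarith
  have hFnn : 0 ≤ ∫ z, F z ∂m := integral_nonneg fun z => Real.sqrt_nonneg _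
  have h1F : ∫ z, (1 - F z) ^ 2 ∂m = 2 - 2 * ∫ z, F z ∂m := by
    have e : ∀ z, (1 - F z) ^ 2 = (1 - 2 * F z) + F z ^ 2 := fun z => by ring
    simp_rw [e]
    have i1 : Integrable (fun z => 1 - 2 * F z) m := (integrable_const 1).sub (hFint.const_mul 2)
    rw [integral_add i1 hFi, hF1, integral_sub (integrable_const 1) (hFint.const_mul 2),
      integral_const_mul]
    simp
    ring
  have hF1' : ∫ z, F z ∂m ≤ 1 := by
    have : 0 ≤ ∫ z, (1 - F z) ^ 2 ∂m := integral_nonneg fun z => sq_nonneg _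
    linarith
  have hκ : ∫ z, (1 - F z) ^ 2 ∂m ≤ 32 * η := by
    rw [h1F]
    nlinarith
  -- the normalized function
  set Gd : Set Z := {z | (∑' l, ENNReal.ofReal (g (z, l) ^ 2)) ≠ ⊤ ∧
    (∑' l, ENNReal.ofReal (g (z, l) ^ 2)) ≠ 0} with hGd
  have hGdm : MeasurableSet Gd := by
    have e1 : MeasurableSet {z | (∑' l, ENNReal.ofReal (g (z, l) ^ 2)) ≠ ⊤} :=
      (hΦm (measurableSet_singleton ⊤)).compl
    have e2 : MeasurableSet {z | (∑' l, ENNReal.ofReal (g (z, l) ^ 2)) ≠ 0} :=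
      (hΦm (measurableSet_singleton 0)).compl
    exact e1.inter e2
  have hGs : ∀ z ∈ Gd, HasSum (fun l => g (z, l) ^ 2) (F2 z) := by
    intro z hz
    have := (ENNReal.summable_toReal hz.1)
    simp_rw [ENNReal.toReal_ofReal (sq_nonneg _)] at this
    exact this.hasSum
  have hGpos : ∀ z ∈ Gd, 0 < F2 z := by
    intro z hz
    rw [← hΦe]
    exact ENNReal.toReal_pos hz.2 hz.1
  set f : Z × L → ℝ := fun y => if y.1 ∈ Gd then g y / F y.1 else if y.2 = 1 then 1 else 0 with hf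
  have hfm : Measurable f := by
    refine Measurable.ite (measurable_fst hGdm) (hgm.div (hFm.comp measurable_fst)) ?_
    refine Measurable.ite (measurable_snd (measurableSet_singleton 1)) measurable_const
      measurable_const
  have hf0 : ∀ y, 0 ≤ f y := by
    intro y
    simp only [hf]
    split_ifs
    · exact div_nonneg (hg0 y) (Real.sqrt_nonneg _)
    · exact zero_le_one
    · exact le_rfl
  have hf1 : ∀ z, HasSum (fun l => f (z, l) ^ 2) 1 := by
    intro z
    by_cases hz : z ∈ Gd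
    · have e : (fun l => f (z, l) ^ 2) = fun l => g (z, l) ^ 2 * (F2 z)⁻¹ := by
        funext l
        simp only [hf, if_pos hz]
        rw [div_pow, hFsq, div_eq_mul_inv]
      rw [e]
      have := (hGs z hz).mul_right (F2 z)⁻¹
      rwa [mul_inv_cancel₀ (hGpos z hz).ne'] at this
    · have e : (fun l => f (z, l) ^ 2) = fun l => if l = 1 then 1 else 0 := by
        funext l
        simp only [hf, if_neg hz]
        split_ifs <;> norm_num
      rw [e]
      exact hasSum_ite_eq 1 1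
  have hfi : Integrable (fun y => f y ^ 2) (m.prod Measure.count) := by
    rw [integrable_prod_iff (hfm.pow_const 2).aestronglyMeasurable]
    have e : ∀ z, ∫ l, ‖f (z, l) ^ 2‖ ∂Measure.count = 1 := by
      intro z
      have e1 : Integrable (fun l => ‖f (z, l) ^ 2‖) Measure.count := by
        rw [integrable_count_iff]
        simp only [norm_norm]
        exact (hf1 z).summable.norm
      rw [integral_countable e1]
      simp only [measureReal_def, Measure.count_singleton, ENNReal.toReal_one, one_smul]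
      rw [← (hf1 z).tsum_eq]
      exact tsum_congr fun l => Real.norm_of_nonneg (sq_nonneg _)
    refine ⟨Filter.Eventually.of_forall fun z => ?_, ?_⟩
    · rw [integrable_count_iff]
      exact (hf1 z).summable.norm
    · simp_rw [e]
      exact integrable_const 1
  have hfL2 : MemLp f 2 (m.prod Measure.count) :=
    (memLp_two_iff_integrable_sq hfm.aestronglyMeasurable).2 hfi
  have hfgi : Integrable (fun y => (f y - g y) ^ 2) (m.prod Measure.count) :=
    (hfL2.sub hg2).integrable_sq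
  have hfg : ∫ y, (f y - g y) ^ 2 ∂(m.prod Measure.count) ≤ 32 * η := by
    obtain ⟨-, -, e1⟩ := lemifib_int _ hfgi
    rw [← e1]
    refine le_trans (le_of_eq (integral_congr_ae ?_)) hκ
    filter_upwards [hsum] with z hz
    by_cases hzG : z ∈ Gd
    · have hFpos : 0 < F z := Real.sqrt_pos.2 (hGpos z hzG)
      have e2 : (fun l => (f (z, l) - g (z, l)) ^ 2) =
          fun l => g (z, l) ^ 2 * (1 / F z - 1) ^ 2 := by
        funext l
        simp only [hf, if_pos hzG]
        ring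
      rw [e2, tsum_mul_right]
      change F2 z * (1 / F z - 1) ^ 2 = (1 - F z) ^ 2
      rw [← hFsq]
      field_simp
    · have e3 : F2 z = 0 := by
        have h4 : (∑' l, ENNReal.ofReal (g (z, l) ^ 2)) ≠ ⊤ := by
          rw [← ENNReal.ofReal_tsum_of_nonneg (fun l => sq_nonneg _) hz]
          exact ENNReal.ofReal_ne_top
        have h5 : (∑' l, ENNReal.ofReal (g (z, l) ^ 2)) = 0 := by
          by_contra h6
          exact hzG ⟨h4, h6⟩
        rw [← hΦe, h5]
        rfl
      have e4 : ∀ l, g (z, l) = 0 := by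
        intro l
        have := (hasSum_zero_iff_of_nonneg (fun l => sq_nonneg (g (z, l)))).1
          (by have := hz.hasSum; rwa [show ∑' l, g (z, l) ^ 2 = 0 from e3] at this)
        have h7 := congrFun this l
        simpa using h7
      have e5 : (fun l => (f (z, l) - g (z, l)) ^ 2) = fun l => if l = 1 then 1 else 0 := by
        funext l
        simp only [hf, if_neg hzG, e4 l]
        split_ifs <;> norm_num
      rw [e5, tsum_ite_eq]
      have e6 : F z = 0 := by simp only [hF, e3, Real.sqrt_zero]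
      rw [e6]
      norm_num
  refine ⟨f, hfm, hf0, hf1, ?_, ?_⟩
  · refine (lemifib_C hT.mp1 hβ₁ f g hg2 hfL2 hf1 h1 hfg).trans ?_
    linarith
  · refine (lemifib_C hT.mp2 hβ₂ f g hg2 hfL2 hf1 h2 hfg).trans ?_
    linarith

/-- If there is no twisted gap on `Z × L`, then there are nonnegative almost invariant functions
with `∑ l, f (z,l)^2 = 1` for every `z`. -/
theorem fib_normalize {L Z : Type*} [Group L] [Countable L] [MeasurableSpace L]
    [DiscreteMeasurableSpace L] [MeasurableSpace Z] {m : Measure Z} [IsProbabilityMeasure m]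
    {T₁ T₂ : Z → Z} (hT : GapPair m T₁ T₂) (β₁ β₂ : Z → L) (hβ₁ : Measurable β₁)
    (hβ₂ : Measurable β₂)
    (hno : ∀ C' : ℝ, ¬ TwGap C' (m.prod Measure.count) (tw T₁ β₁) (tw T₂ β₂)) (ε : ℝ)
    (hε : 0 < ε) :
    ∃ f : Z × L → ℝ, Measurable f ∧ (∀ p, 0 ≤ f p) ∧ (∀ z, HasSum (fun l => f (z, l) ^ 2) 1) ∧
      ∫ z, (1 - ∑' l, f (T₁ z, β₁ z * l) * f (z, l)) ∂m ≤ ε ∧
      ∫ z, (1 - ∑' l, f (T₂ z, β₂ z * l) * f (z, l)) ∂m ≤ ε := by
  have hS₁ : MeasurePreserving (tw T₁ β₁) (m.prod Measure.count) (m.prod Measure.count) :=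
    tw_mp hT.mp1 hβ₁
  have hS₂ : MeasurePreserving (tw T₂ β₂) (m.prod Measure.count) (m.prod Measure.count) :=
    tw_mp hT.mp2 hβ₂
  have h0 : ∃ f0 : Z × L → ℝ, Measurable f0 ∧ MemLp f0 2 (m.prod Measure.count) ∧
      100 / ε * (∫ y, (f0 (tw T₁ β₁ y) - f0 y) ^ 2 ∂(m.prod Measure.count) +
        ∫ y, (f0 (tw T₂ β₂ y) - f0 y) ^ 2 ∂(m.prod Measure.count)) <
      ∫ y, f0 y ^ 2 ∂(m.prod Measure.count) := by
    by_contra hcon
    push Not at hcon
    exact hno (100 / ε) ⟨hS₁, hS₂, hcon⟩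
  obtain ⟨f0, hf0m, hf0L, hf0⟩ := h0
  set D₁ := ∫ y, (f0 (tw T₁ β₁ y) - f0 y) ^ 2 ∂(m.prod Measure.count) with hD₁
  set D₂ := ∫ y, (f0 (tw T₂ β₂ y) - f0 y) ^ 2 ∂(m.prod Measure.count) with hD₂
  set N := ∫ y, f0 y ^ 2 ∂(m.prod Measure.count) with hN
  have hD₁0 : 0 ≤ D₁ := integral_nonneg fun y => sq_nonneg _
  have hD₂0 : 0 ≤ D₂ := integral_nonneg fun y => sq_nonneg _
  have hNpos : 0 < N := lt_of_le_of_lt (by positivity) hf0
  have hsN : 0 < √N := Real.sqrt_pos.2 hNpos
  set g : Z × L → ℝ := fun y => (√N)⁻¹ * |f0 y| with hg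
  have hgm : Measurable g := hf0m.abs.const_mul _
  have hg0 : ∀ y, 0 ≤ g y := fun y => mul_nonneg (inv_nonneg.2 hsN.le) (abs_nonneg _)
  have hgL : MemLp g 2 (m.prod Measure.count) := hf0L.abs.const_mul _
  have hgsq : ∀ y, g y ^ 2 = N⁻¹ * f0 y ^ 2 := by
    intro y
    simp only [hg]
    rw [mul_pow, sq_abs, inv_pow, Real.sq_sqrt hNpos.le]
  have hg1 : ∫ y, g y ^ 2 ∂(m.prod Measure.count) = 1 := by
    simp_rw [hgsq]
    rw [integral_const_mul, ← hN, inv_mul_cancel₀ hNpos.ne']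
  have key : ∀ (T : Z → Z) (β : Z → L),
      MeasurePreserving (tw T β) (m.prod Measure.count) (m.prod Measure.count) →
      ∫ y, (g (tw T β y) - g y) ^ 2 ∂(m.prod Measure.count) ≤
      N⁻¹ * ∫ y, (f0 (tw T β y) - f0 y) ^ 2 ∂(m.prod Measure.count) := by
    intro T β hS
    rw [← integral_const_mul]
    have i1 : Integrable (fun y => (g (tw T β y) - g y) ^ 2) (m.prod Measure.count) :=
      ((hgL.comp_measurePreserving hS).sub hgL).integrable_sq
    have i2 : Integrable (fun y => (f0 (tw T β y) - f0 y) ^ 2) (m.prod Measure.count) :=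
      ((hf0L.comp_measurePreserving hS).sub hf0L).integrable_sq
    refine integral_mono i1 (i2.const_mul _) fun y => ?_
    simp only [hg]
    rw [← mul_sub, mul_pow, inv_pow, Real.sq_sqrt hNpos.le]
    refine mul_le_mul_of_nonneg_left ?_ (inv_nonneg.2 hNpos.le)
    rw [← sq_abs (f0 (tw T β y) - f0 y)]
    exact sq_le_sq.2 (by rw [abs_abs]; exact abs_abs_sub_abs_le_abs_sub _ _)
  have hb : N⁻¹ * (D₁ + D₂) ≤ ε / 100 := by
    have h3 : (D₁ + D₂) ≤ N * (ε / 100) := by
      have h4 : 100 / ε * (D₁ + D₂) * (ε / 100) = D₁ + D₂ := by field_simp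
      have h5 : 100 / ε * (D₁ + D₂) * (ε / 100) ≤ N * (ε / 100) :=
        mul_le_mul_of_nonneg_right hf0.le (by positivity)
      linarith
    calc N⁻¹ * (D₁ + D₂) ≤ N⁻¹ * (N * (ε / 100)) :=
          mul_le_mul_of_nonneg_left h3 (inv_nonneg.2 hNpos.le)
      _ = ε / 100 := by field_simp
  have hb1 : ∫ y, (g (tw T₁ β₁ y) - g y) ^ 2 ∂(m.prod Measure.count) ≤ ε / 100 := by
    refine (key T₁ β₁ hS₁).trans (le_trans ?_ hb)
    exact mul_le_mul_of_nonneg_left (by linarith) (inv_nonneg.2 hNpos.le)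
  have hb2 : ∫ y, (g (tw T₂ β₂ y) - g y) ^ 2 ∂(m.prod Measure.count) ≤ ε / 100 := by
    refine (key T₂ β₂ hS₂).trans (le_trans ?_ hb)
    exact mul_le_mul_of_nonneg_left (by linarith) (inv_nonneg.2 hNpos.le)
  obtain ⟨f, e1, e2, e3, e4, e5⟩ := lemifib_norm hT hβ₁ hβ₂ g hgm hg0 hgL hg1 hb1 hb2
  refine ⟨f, e1, e2, e3, e4.trans (le_of_eq (by ring)), e5.trans (le_of_eq (by ring))⟩

end Pool.Agent.CR
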