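import Pool.Agent.H.MP_894ea6_lc.L.GapA

/-! MP_894ea6_lc, module LemNFin: the twisted gap for finitely supported bounded functions -/

open MeasureTheory Filter Topology

namespace Pool.Agent.CR

private noncomputable def lemnfinE {X : Type*} [MeasurableSpace X]
    [MeasurableSpace.CountablyGenerated X] (k : ℕ) (x : X) : Fin k → Bool :=
  fun i => MeasurableSpace.mapNatBool X x i

private theorem lemnfin_measE {X : Type*} [MeasurableSpace X]
    [MeasurableSpace.CountablyGenerated X] (k : ℕ) : Measurable (lemnfinE (X := X) k) := by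
  have h := MeasurableSpace.measurable_mapNatBool (α := X)
  rw [measurable_pi_iff] at h ⊢
  exact fun i => h i

private noncomputable def lemnfinI {X : Type*} [MeasurableSpace X]
    [MeasurableSpace.CountablyGenerated X] (k : ℕ) (x y : X) : ℝ :=
  if lemnfinE k x = lemnfinE k y then 1 else 0

open scoped Classical in
private theorem lemnfin_tendsto {X : Type*} [MeasurableSpace X] [StandardBorelSpace X] (x y : X) :
    Tendsto (fun k => lemnfinI k x y) atTop (𝓝 (if x = y then (1 : ℝ) else 0)) := by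
  by_cases h : x = y
  · subst h
    simp [lemnfinI]
  · have hne : MeasurableSpace.mapNatBool X x ≠ MeasurableSpace.mapNatBool X y :=
      fun h' => h (MeasurableSpace.injective_mapNatBool (α := X) h')
    obtain ⟨n, hn⟩ := Function.ne_iff.1 hne
    refine tendsto_const_nhds.congr' ?_
    filter_upwards [eventually_gt_atTop n] with k hk
    have : lemnfinE k x ≠ lemnfinE k y := by
      intro h'
      exact hn (congrFun h' ⟨n, hk⟩)
    simp [lemnfinI, this, h]

private theorem lemnfin_I_abs {X : Type*} [MeasurableSpace X]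
    [MeasurableSpace.CountablyGenerated X] (k : ℕ) (x y : X) : |lemnfinI k x y| ≤ 1 := by
  unfold lemnfinI
  split_ifs <;> simp

private theorem lemnfin_I_meas {X : Type*} [MeasurableSpace X]
    [MeasurableSpace.CountablyGenerated X] (k : ℕ) {W : Type*} [MeasurableSpace W] (p q : W → X)
    (hp : Measurable p) (hq : Measurable q) : Measurable fun w => lemnfinI k (p w) (q w) := by
  unfold lemnfinI
  refine Measurable.ite ?_ measurable_const measurable_const
  exact measurableSet_eq_fun ((lemnfin_measE k).comp hp) ((lemnfin_measE k).comp hq)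

private theorem lemnfin_sum_b {X : Type*} [MeasurableSpace X]
    [MeasurableSpace.CountablyGenerated X] {ι : Type*} (S : Finset ι) (u v : ι → ℝ) (p q : ι → X)
    (k : ℕ) :
    ∑ b : Fin k → Bool, (∑ g ∈ S, u g * (if lemnfinE k (p g) = b then (1 : ℝ) else 0)) *
      (∑ g ∈ S, v g * (if lemnfinE k (q g) = b then (1 : ℝ) else 0)) =
    ∑ g ∈ S, ∑ g' ∈ S, u g * v g' * lemnfinI k (p g) (q g') := by
  simp_rw [Finset.sum_mul_sum]
  rw [Finset.sum_comm]
  refine Finset.sum_congr rfl fun g _ => ?_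
  rw [Finset.sum_comm]
  refine Finset.sum_congr rfl fun g' _ => ?_
  have : ∀ b : Fin k → Bool, u g * (if lemnfinE k (p g) = b then (1 : ℝ) else 0) *
      (v g' * (if lemnfinE k (q g') = b then (1 : ℝ) else 0)) =
      if lemnfinE k (p g) = b then u g * v g' * lemnfinI k (p g) (q g') else 0 := by
    intro b
    by_cases h : lemnfinE k (p g) = b
    · subst h
      by_cases h' : lemnfinE k (q g') = lemnfinE k (p g)
      · simp [lemnfinI, h']
      · have h'' : ¬ (lemnfinE k (p g) = lemnfinE k (q g')) := fun e => h' e.symm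
        simp [lemnfinI, h', h'']
    · simp [h]
  rw [Finset.sum_congr rfl fun b _ => this b, Finset.sum_ite_eq]
  simp

private theorem lemnfin_dbl_bound {X : Type*} [MeasurableSpace X]
    [MeasurableSpace.CountablyGenerated X] {ι : Type*} (S : Finset ι) (u v : ι → ℝ) (p q : ι → X)
    (k : ℕ) {C : ℝ} (hu : ∀ g, |u g| ≤ C) (hv : ∀ g, |v g| ≤ C) :
    |∑ g ∈ S, ∑ g' ∈ S, u g * v g' * lemnfinI k (p g) (q g')| ≤ (S.card : ℝ) * (S.card * C ^ 2) := by
  refine (Finset.abs_sum_le_sum_abs _ _).trans ?_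
  refine (Finset.sum_le_sum (g := fun _ => (S.card * C ^ 2 : ℝ)) fun g _ => ?_).trans ?_
  · refine (Finset.abs_sum_le_sum_abs _ _).trans ?_
    refine (Finset.sum_le_sum (g := fun _ => (C ^ 2 : ℝ)) fun g' _ => ?_).trans ?_
    · rw [abs_mul, abs_mul]
      have hC : 0 ≤ C := (abs_nonneg _).trans (hu g)
      calc |u g| * |v g'| * |lemnfinI k (p g) (q g')| ≤ C * C * 1 := by
            gcongr
            · exact hu g
            · exact hv g'
            · exact lemnfin_I_abs _ _ _
        _ = C ^ 2 := by ring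
    · simp
  · simp

/-- the limit of integrals of the double sums -/
private theorem lemnfin_lim {X : Type*} [MeasurableSpace X] [StandardBorelSpace X] {W : Type*}
    [MeasurableSpace W] (μ : Measure W) [IsFiniteMeasure μ] {ι : Type*} (S : Finset ι)
    (u v : ι → W → ℝ) (p q : ι → W → X) {C : ℝ} (hu : ∀ g w, |u g w| ≤ C)
    (hv : ∀ g w, |v g w| ≤ C) (hum : ∀ g, Measurable (u g)) (hvm : ∀ g, Measurable (v g))
    (hpm : ∀ g, Measurable (p g)) (hqm : ∀ g, Measurable (q g)) (F : W → ℝ)
    (hF : ∀ᵐ w ∂μ, Tendsto (fun k => ∑ g ∈ S, ∑ g' ∈ S, u g w * v g' w *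
      lemnfinI k (p g w) (q g' w)) atTop (𝓝 (F w))) :
    Tendsto (fun k => ∫ w, ∑ g ∈ S, ∑ g' ∈ S, u g w * v g' w *
      lemnfinI k (p g w) (q g' w) ∂μ) atTop (𝓝 (∫ w, F w ∂μ)) := by
  refine tendsto_integral_of_dominated_convergence (fun _ => (S.card : ℝ) * (S.card * C ^ 2))
    (fun k => ?_) (integrable_const _) (fun k => ?_) hF
  · refine Measurable.aestronglyMeasurable ?_
    refine Finset.measurable_sum _ fun g _ => Finset.measurable_sum _ fun g' _ => ?_
    exact ((hum g).mul (hvm g')).mul (lemnfin_I_meas k _ _ (hpm g) (hqm g'))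
  · refine Eventually.of_forall fun w => ?_
    rw [Real.norm_eq_abs]
    exact lemnfin_dbl_bound S (fun g => u g w) (fun g => v g w) (fun g => p g w) (fun g => q g w) k
      (fun g => hu g w) (fun g => hv g w)

/-- integral over `m × counting` of a function supported in a finite set of fibre coordinates -/
private theorem lemnfin_int {Z G' : Type*} [MeasurableSpace Z] {m : Measure Z}
    [IsProbabilityMeasure m] [Countable G'] [MeasurableSpace G'] [DiscreteMeasurableSpace G']
    (F : Z × G' → ℝ) (hF : Measurable F) (S : Finset G') (hS : ∀ z, ∀ g ∉ S, F (z, g) = 0)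
    (C : ℝ) (hC : ∀ p, |F p| ≤ C) :
    Integrable F (m.prod Measure.count) ∧
      ∫ p, F p ∂(m.prod Measure.count) = ∫ z, ∑ g ∈ S, F (z, g) ∂m := by
  classical
  have hSm : MeasurableSet (Set.univ ×ˢ (S : Set G') : Set (Z × G')) :=
    MeasurableSet.univ.prod (MeasurableSet.of_discrete)
  have hfin : (m.prod Measure.count) (Set.univ ×ˢ (S : Set G') : Set (Z × G')) ≠ ⊤ := by
    rw [Measure.prod_prod, Measure.count_apply_finset]
    simp
  have hInt : Integrable F (m.prod Measure.count) := by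
    have h1 : IntegrableOn F (Set.univ ×ˢ (S : Set G')) (m.prod Measure.count) :=
      Measure.integrableOn_of_bounded hfin hF.aestronglyMeasurable
        (Eventually.of_forall fun p => hC p)
    refine (integrableOn_iff_integrable_of_support_subset ?_).1 h1
    intro p hp
    rw [Function.mem_support] at hp
    simp only [Set.mem_prod, Set.mem_univ, true_and, Finset.mem_coe]
    by_contra hn
    exact hp (hS p.1 p.2 hn)
  refine ⟨hInt, ?_⟩
  rw [integral_prod _ hInt]
  refine integral_congr_ae ?_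
  have hae := hInt.prod_right_ae
  filter_upwards [hae] with z hz
  rw [integral_countable hz]
  rw [tsum_eq_sum (s := S)]
  · refine Finset.sum_congr rfl fun g _ => ?_
    simp [Measure.real]
  · intro g hg
    rw [hS z g hg, smul_zero]

private theorem lemnfin_comp {Z : Type*} [MeasurableSpace Z] {m : Measure Z} {T : Z → Z}
    (hT : MeasurePreserving T m m) (g : Z → ℝ) (hg : AEStronglyMeasurable g m) :
    ∫ z, g (T z) ∂m = ∫ z, g z ∂m := by
  have h := integral_map (μ := m) hT.measurable.aemeasurable (f := g) (by rw [hT.map_eq]; exact hg)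
  rw [hT.map_eq] at h
  exact h.symm

/-- expansion of the square of a difference -/
private theorem lemnfin_sq {Z : Type*} [MeasurableSpace Z] {m : Measure Z} {T : Z → Z}
    (hT : MeasurePreserving T m m) (g : Z → ℝ) (hg : Integrable (fun z => g z ^ 2) m)
    (hgg : Integrable (fun z => g (T z) * g z) m) :
    ∫ z, (g (T z) - g z) ^ 2 ∂m = 2 * ∫ z, g z ^ 2 ∂m - 2 * ∫ z, g (T z) * g z ∂m := by
  have hgT : Integrable (fun z => g (T z) ^ 2) m :=
    hT.integrable_comp_of_integrable (g := fun z => g z ^ 2) hg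
  have e : (fun z => (g (T z) - g z) ^ 2) =
      fun z => (g (T z) ^ 2 + g z ^ 2) - 2 * (g (T z) * g z) := by
    funext z; ring
  have e1 : ∫ z, ((g (T z) ^ 2 + g z ^ 2) - 2 * (g (T z) * g z)) ∂m =
      ∫ z, (g (T z) ^ 2 + g z ^ 2) ∂m - ∫ z, 2 * (g (T z) * g z) ∂m :=
    integral_sub (hgT.add hg) (hgg.const_mul 2)
  have e2 : ∫ z, (g (T z) ^ 2 + g z ^ 2) ∂m = ∫ z, g (T z) ^ 2 ∂m + ∫ z, g z ^ 2 ∂m :=
    integral_add hgT hg
  rw [e, e1, e2, integral_const_mul,
    lemnfin_comp hT (fun z => g z ^ 2) hg.aestronglyMeasurable]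
  ring

private theorem lemnfin_gap_k {Z X ι : Type*} [MeasurableSpace Z] {m : Measure Z}
    [IsProbabilityMeasure m] [MeasurableSpace X] [StandardBorelSpace X]
    {T₁ T₂ : Z → Z} (hT : GapPair m T₁ T₂) (u : ι → Z → ℝ) (hum : ∀ g, Measurable (u g))
    (P : ι → Z → X) (hPm : ∀ g, Measurable (P g)) (S : Finset ι) (C : ℝ)
    (hu : ∀ g z, |u g z| ≤ C) (k : ℕ) :
    ∫ z, (∑ g ∈ S, ∑ g' ∈ S, u g z * u g' z * lemnfinI k (P g z) (P g' z)) ∂m -
      ∫ w : Z × Z, (∑ g ∈ S, ∑ g' ∈ S, u g w.1 * u g' w.2 * lemnfinI k (P g w.1) (P g' w.2))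
        ∂(m.prod m) ≤
    8 * (4 * ∫ z, (∑ g ∈ S, ∑ g' ∈ S, u g z * u g' z * lemnfinI k (P g z) (P g' z)) ∂m -
      2 * ∫ z, (∑ g ∈ S, ∑ g' ∈ S, u g (T₁ z) * u g' z *
        lemnfinI k (P g (T₁ z)) (P g' z)) ∂m -
      2 * ∫ z, (∑ g ∈ S, ∑ g' ∈ S, u g (T₂ z) * u g' z *
        lemnfinI k (P g (T₂ z)) (P g' z)) ∂m) := by
  classical
  set ξ : (Fin k → Bool) → Z → ℝ := fun b z =>
    ∑ g ∈ S, u g z * (if lemnfinE k (P g z) = b then (1 : ℝ) else 0) with hξ
  have hξm : ∀ b, Measurable (ξ b) := by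
    intro b
    refine Finset.measurable_sum _ fun g _ => (hum g).mul ?_
    refine Measurable.ite ?_ measurable_const measurable_const
    exact ((lemnfin_measE k).comp (hPm g)) (measurableSet_singleton b)
  have hξb : ∀ b z, |ξ b z| ≤ S.card * C := by
    intro b z
    refine (Finset.abs_sum_le_sum_abs _ _).trans ?_
    refine (Finset.sum_le_sum (g := fun _ => C) fun g _ => ?_).trans (by simp)
    rw [abs_mul]
    have hC : 0 ≤ C := (abs_nonneg _).trans (hu g z)
    calc |u g z| * |(if lemnfinE k (P g z) = b then (1 : ℝ) else 0)| ≤ C * 1 := by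
          gcongr
          · exact hu g z
          · split_ifs <;> simp
      _ = C := by ring
  have hprodInt : ∀ (W : Type _) [MeasurableSpace W] (μ : Measure W) [IsFiniteMeasure μ]
      (p q : W → ℝ), Measurable p → Measurable q → (∀ w, |p w| ≤ S.card * C) →
      (∀ w, |q w| ≤ S.card * C) → Integrable (fun w => p w * q w) μ := by
    intro W _ μ _ p q hp hq hp' hq'
    refine Integrable.of_bound (hp.mul hq).aestronglyMeasurable ((S.card * C) * (S.card * C))
      (Eventually.of_forall fun w => ?_)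
    rw [Real.norm_eq_abs, abs_mul]
    exact mul_le_mul (hp' w) (hq' w) (abs_nonneg _) ((abs_nonneg _).trans (hp' w))
  have hgap : ∀ b, ∫ z, (ξ b z) ^ 2 ∂m - (∫ z, ξ b z ∂m) ^ 2 ≤
      8 * (4 * ∫ z, (ξ b z) ^ 2 ∂m - 2 * ∫ z, ξ b (T₁ z) * ξ b z ∂m -
        2 * ∫ z, ξ b (T₂ z) * ξ b z ∂m) := by
    intro b
    have h := hT.gap (ξ b) (hξm b) ⟨_, hξb b⟩
    have hI2 : Integrable (fun z => ξ b z ^ 2) m := by
      have := hprodInt Z m (ξ b) (ξ b) (hξm b) (hξm b) (hξb b) (hξb b)
      refine this.congr (Eventually.of_forall fun z => ?_)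
      simp only [sq]
    rw [lemnfin_sq hT.mp1 (ξ b) hI2 (hprodInt Z m (fun z => ξ b (T₁ z)) (ξ b)
        ((hξm b).comp hT.mp1.measurable) (hξm b) (fun z => hξb b (T₁ z)) (hξb b)),
      lemnfin_sq hT.mp2 (ξ b) hI2 (hprodInt Z m (fun z => ξ b (T₂ z)) (ξ b)
        ((hξm b).comp hT.mp2.measurable) (hξm b) (fun z => hξb b (T₂ z)) (hξb b))] at h
    linarith
  have hsum := Finset.sum_le_sum fun b (_ : b ∈ (Finset.univ : Finset (Fin k → Bool))) => hgap b
  rw [Finset.sum_sub_distrib, ← Finset.mul_sum, Finset.sum_sub_distrib, Finset.sum_sub_distrib,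
    ← Finset.mul_sum, ← Finset.mul_sum, ← Finset.mul_sum] at hsum
  have eA : ∑ b, ∫ z, (ξ b z) ^ 2 ∂m =
      ∫ z, (∑ g ∈ S, ∑ g' ∈ S, u g z * u g' z * lemnfinI k (P g z) (P g' z)) ∂m := by
    rw [← integral_finsetSum]
    · refine integral_congr_ae (Eventually.of_forall fun z => ?_)
      simp only [sq]
      exact lemnfin_sum_b S (fun g => u g z) (fun g => u g z) (fun g => P g z)
        (fun g => P g z) k
    · intro b _
      have := hprodInt Z m (ξ b) (ξ b) (hξm b) (hξm b) (hξb b) (hξb b)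
      refine this.congr (Eventually.of_forall fun z => ?_)
      simp only [sq]
  have eD : ∀ T : Z → Z, MeasurePreserving T m m → ∑ b, ∫ z, ξ b (T z) * ξ b z ∂m =
      ∫ z, (∑ g ∈ S, ∑ g' ∈ S, u g (T z) * u g' z * lemnfinI k (P g (T z)) (P g' z)) ∂m := by
    intro T hT'
    rw [← integral_finsetSum]
    · refine integral_congr_ae (Eventually.of_forall fun z => ?_)
      exact lemnfin_sum_b S (fun g => u g (T z)) (fun g => u g z) (fun g => P g (T z))
        (fun g => P g z) k
    · intro b _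
      exact hprodInt Z m (fun z => ξ b (T z)) (ξ b)
        ((hξm b).comp hT'.measurable) (hξm b) (fun z => hξb b (T z)) (hξb b)
  have eB : ∑ b, (∫ z, ξ b z ∂m) ^ 2 =
      ∫ w : Z × Z, (∑ g ∈ S, ∑ g' ∈ S, u g w.1 * u g' w.2 * lemnfinI k (P g w.1) (P g' w.2))
        ∂(m.prod m) := by
    have : ∀ b, (∫ z, ξ b z ∂m) ^ 2 = ∫ w : Z × Z, ξ b w.1 * ξ b w.2 ∂(m.prod m) := by
      intro b
      rw [integral_prod_mul, sq]
    rw [Finset.sum_congr rfl fun b _ => this b, ← integral_finsetSum]
    · refine integral_congr_ae (Eventually.of_forall fun w => ?_)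
      exact lemnfin_sum_b S (fun g => u g w.1) (fun g => u g w.2) (fun g => P g w.1)
        (fun g => P g w.2) k
    · intro b _
      exact hprodInt (Z × Z) (m.prod m) (fun w => ξ b w.1) (fun w => ξ b w.2)
        ((hξm b).comp measurable_fst) ((hξm b).comp measurable_snd) (fun w => hξb b w.1)
        (fun w => hξb b w.2)
  rw [eA, eB, eD T₁ hT.mp1, eD T₂ hT.mp2] at hsum
  exact hsum

theorem lemN_fin {Z X G' : Type*} [MeasurableSpace Z] {m : Measure Z} [IsProbabilityMeasure m]
    [Group G'] [Countable G'] [MeasurableSpace G'] [DiscreteMeasurableSpace G']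
    [MeasurableSpace X] [StandardBorelSpace X] (U : G' → X → X) (hU : ∀ g, Measurable (U g))
    (hUmul : ∀ g h x, U (g * h) x = U g (U h x)) (hUone : ∀ x, U 1 x = x)
    (x' : Z → X) (hx' : Measurable x') {T₁ T₂ : Z → Z} (hT : GapPair m T₁ T₂)
    (α₁ α₂ : Z → G') (hα₁ : Measurable α₁) (hα₂ : Measurable α₂)
    (h₁ : ∀ᵐ z ∂m, x' (T₁ z) = U (α₁ z) (x' z)) (h₂ : ∀ᵐ z ∂m, x' (T₂ z) = U (α₂ z) (x' z))
    (hfree : ∀ᵐ z ∂m, ∀ g, U g (x' z) = x' z → g = 1)
    (hnt : ∀ᵐ p ∂(m.prod m), ∀ g, x' p.2 ≠ U g (x' p.1))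
    (f : Z × G' → ℝ) (hf : Measurable f) (S : Finset G') (hS : ∀ z, ∀ g ∉ S, f (z, g) = 0)
    (C : ℝ) (hC : ∀ p, |f p| ≤ C) :
    ∫ p, (f p) ^ 2 ∂(m.prod Measure.count) ≤
      8 * (∫ p, (f (tw T₁ α₁ p) - f p) ^ 2 ∂(m.prod Measure.count) +
        ∫ p, (f (tw T₂ α₂ p) - f p) ^ 2 ∂(m.prod Measure.count)) := by
  classical
  set u : G' → Z → ℝ := fun g z => f (z, g) with hudef
  have hum : ∀ g, Measurable (u g) := fun g => hf.comp (measurable_id.prodMk measurable_const)
  have hub : ∀ g z, |u g z| ≤ C := fun g z => hC (z, g)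
  set P : G' → Z → X := fun g z => U g⁻¹ (x' z) with hPdef
  have hPm : ∀ g, Measurable (P g) := fun g => (hU g⁻¹).comp hx'
  have hgap := fun k => lemnfin_gap_k hT u hum P hPm S C hub k
  have hcancel : ∀ (g : G') (x y : X), U g x = U g y → x = y := by
    intro g x y h
    have := congrArg (U g⁻¹) h
    rwa [← hUmul, ← hUmul, inv_mul_cancel, hUone, hUone] at this
  -- equality of points
  have hpt : ∀ᵐ z ∂m, ∀ g g' : G', P g z = P g' z ↔ g = g' := by
    filter_upwards [hfree] with z hz g g'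
    constructor
    · intro h
      have h2 : U (g' * g⁻¹) (x' z) = x' z := by
        have h3 : U (g') (U g⁻¹ (x' z)) = U g' (U g'⁻¹ (x' z)) := congrArg (U g') h
        rw [← hUmul, ← hUmul, mul_inv_cancel, hUone] at h3
        exact h3
      have := hz _ h2
      exact (mul_inv_eq_one.1 this).symm
    · rintro rfl; rfl
  -- limits
  have limA : Tendsto (fun k => ∫ z, (∑ g ∈ S, ∑ g' ∈ S, u g z * u g' z *
      lemnfinI k (P g z) (P g' z)) ∂m) atTop (𝓝 (∫ z, ∑ g ∈ S, f (z, g) ^ 2 ∂m)) := by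
    refine lemnfin_lim m S u u P P hub hub hum hum hPm hPm _ ?_
    filter_upwards [hpt] with z hz
    have e : ∑ g ∈ S, f (z, g) ^ 2 = ∑ g ∈ S, ∑ g' ∈ S, u g z * u g' z *
        (if P g z = P g' z then (1 : ℝ) else 0) := by
      refine Finset.sum_congr rfl fun g hg => ?_
      rw [Finset.sum_eq_single_of_mem g hg]
      · simp [hudef, sq]
      · intro g' _ hne
        have : ¬ (P g z = P g' z) := fun h => hne ((hz g g').1 h).symm
        simp [this]
    rw [e]
    exact tendsto_finsetSum _ fun g _ => tendsto_finsetSum _ fun g' _ =>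
      (lemnfin_tendsto _ _).const_mul _
  have limD : ∀ (T : Z → Z) (α : Z → G'), MeasurePreserving T m m → Measurable α →
      (∀ᵐ z ∂m, x' (T z) = U (α z) (x' z)) →
      Tendsto (fun k => ∫ z, (∑ g ∈ S, ∑ g' ∈ S, u g (T z) * u g' z *
        lemnfinI k (P g (T z)) (P g' z)) ∂m) atTop
        (𝓝 (∫ z, ∑ g ∈ S, f (T z, α z * g) * f (z, g) ∂m)) := by
    intro T α hT' hα h
    refine lemnfin_lim m S (fun g z => u g (T z)) u (fun g z => P g (T z)) P
      (fun g z => hub g (T z)) hub (fun g => (hum g).comp hT'.measurable) hum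
      (fun g => (hPm g).comp hT'.measurable) hPm _ ?_
    filter_upwards [hpt, h] with z hz hTz
    have hiff : ∀ g g' : G', P g (T z) = P g' z ↔ g = α z * g' := by
      intro g g'
      have e1 : P g (T z) = P ((α z)⁻¹ * g) z := by
        simp only [hPdef]
        rw [hTz, ← hUmul, mul_inv_rev, inv_inv]
      rw [e1, hz]
      constructor
      · intro h; rw [← h]; group
      · intro h; rw [h]; group
    have e : ∑ g ∈ S, f (T z, α z * g) * f (z, g) = ∑ g ∈ S, ∑ g' ∈ S, u g (T z) * u g' z *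
        (if P g (T z) = P g' z then (1 : ℝ) else 0) := by
      rw [Finset.sum_comm]
      refine Finset.sum_congr rfl fun g' hg' => ?_
      by_cases hmem : α z * g' ∈ S
      · rw [Finset.sum_eq_single_of_mem (α z * g') hmem]
        · have : P (α z * g') (T z) = P g' z := (hiff _ _).2 rfl
          simp [hudef, this]
        · intro g _ hne
          have : ¬ (P g (T z) = P g' z) := fun h => hne ((hiff g g').1 h)
          simp [this]
      · rw [hS _ _ hmem, zero_mul]
        refine (Finset.sum_eq_zero fun g hg => ?_).symm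
        have : ¬ (P g (T z) = P g' z) := fun h => hmem (((hiff g g').1 h) ▸ hg)
        simp [this]
    rw [e]
    exact tendsto_finsetSum _ fun g _ => tendsto_finsetSum _ fun g' _ =>
      (lemnfin_tendsto _ _).const_mul _
  have limB : Tendsto (fun k => ∫ w : Z × Z, (∑ g ∈ S, ∑ g' ∈ S, u g w.1 * u g' w.2 *
      lemnfinI k (P g w.1) (P g' w.2)) ∂(m.prod m)) atTop (𝓝 (∫ w : Z × Z, (0 : ℝ)
        ∂(m.prod m))) := by
    refine lemnfin_lim (m.prod m) S (fun g w => u g w.1) (fun g w => u g w.2)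
      (fun g w => P g w.1) (fun g w => P g w.2) (fun g w => hub g w.1) (fun g w => hub g w.2)
      (fun g => (hum g).comp measurable_fst) (fun g => (hum g).comp measurable_snd)
      (fun g => (hPm g).comp measurable_fst) (fun g => (hPm g).comp measurable_snd) _ ?_
    filter_upwards [hnt] with w hw
    have e : (0 : ℝ) = ∑ g ∈ S, ∑ g' ∈ S, u g w.1 * u g' w.2 *
        (if P g w.1 = P g' w.2 then (1 : ℝ) else 0) := by
      refine (Finset.sum_eq_zero fun g _ => Finset.sum_eq_zero fun g' _ => ?_).symm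
      have : ¬ (P g w.1 = P g' w.2) := by
        intro h
        apply hw (g' * g⁻¹)
        have h3 : U (g') (U g⁻¹ (x' w.1)) = U g' (U g'⁻¹ (x' w.2)) := congrArg (U g') h
        rw [← hUmul, ← hUmul, mul_inv_cancel, hUone] at h3
        exact h3.symm
      simp [this]
    rw [e]
    exact tendsto_finsetSum _ fun g _ => tendsto_finsetSum _ fun g' _ =>
      (lemnfin_tendsto _ _).const_mul _
  rw [integral_zero] at limB
  have final := le_of_tendsto_of_tendsto' (limA.sub limB)
    ((((limA.const_mul 4).sub ((limD T₁ α₁ hT.mp1 hα₁ h₁).const_mul 2)).sub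
      ((limD T₂ α₂ hT.mp2 hα₂ h₂).const_mul 2)).const_mul 8) hgap
  -- translation to `m × counting`
  have hsq := lemnfin_int (m := m) (fun p => f p ^ 2) (hf.pow_const 2) S
    (fun z g hg => by simp [hS z g hg]) (C ^ 2) (fun p => by
      rw [abs_pow]
      exact pow_le_pow_left₀ (abs_nonneg _) (hC p) 2)
  have hcross : ∀ (T : Z → Z) (α : Z → G'), MeasurePreserving T m m → Measurable α →
      ∫ p, (f (tw T α p) - f p) ^ 2 ∂(m.prod Measure.count) =
        2 * ∫ z, ∑ g ∈ S, f (z, g) ^ 2 ∂m -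
          2 * ∫ z, ∑ g ∈ S, f (T z, α z * g) * f (z, g) ∂m := by
    intro T α hT' hα
    have htw := tw_mp hT' hα
    have hc := lemnfin_int (m := m) (fun p => f (tw T α p) * f p)
      ((hf.comp htw.measurable).mul hf) S
      (fun z g hg => by simp [hS z g hg]) (C * C) (fun p => by
        rw [abs_mul]
        exact mul_le_mul (hC _) (hC p) (abs_nonneg _) ((abs_nonneg _).trans (hC p)))
    rw [lemnfin_sq htw f hsq.1 hc.1, hsq.2, hc.2]
    rfl
  rw [hsq.2, hcross T₁ α₁ hT.mp1 hα₁, hcross T₂ α₂ hT.mp2 hα₂]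
  linarith

end Pool.Agent.CR
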