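import Pool.Agent.H.MP_894ea6_lc.L.GapA

/-! MP_894ea6_lc, module QTight: tightness from the gap -/

open MeasureTheory Filter Topology

namespace Pool.Agent.CR

private theorem qtight_tight {Z : Type*} [MeasurableSpace Z] {m : Measure Z}
    [IsProbabilityMeasure m] (h : Z → ℤ) (hh : Measurable h) {ε : ℝ} (hε : 0 < ε) :
    ∃ K : ℕ, m.real {z | (K : ℤ) ≤ |h z|} ≤ ε := by
  have hmS : ∀ n : ℕ, MeasurableSet {z | (n : ℤ) ≤ |h z|} := fun n =>
    hh (MeasurableSet.of_discrete (s := {x : ℤ | (n : ℤ) ≤ |x|}))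
  have hanti : Antitone (fun n : ℕ => {z | (n : ℤ) ≤ |h z|}) := by
    intro a b hab z hz
    simp only [Set.mem_ofPred_eq] at hz ⊢
    have : (a : ℤ) ≤ b := by exact_mod_cast hab
    exact this.trans hz
  have hlim := tendsto_measure_iInter_atTop (μ := m) (fun n => (hmS n).nullMeasurableSet) hanti
    ⟨0, measure_ne_top m _⟩
  have hemp : (⋂ n : ℕ, {z | (n : ℤ) ≤ |h z|}) = ∅ := by
    ext z
    simp only [Set.mem_iInter, Set.mem_ofPred_eq, Set.mem_empty_iff_false, iff_false, not_forall,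
      not_le]
    refine ⟨(|h z|).toNat + 1, ?_⟩
    have := Int.self_le_toNat (|h z|)
    push_cast
    linarith
  rw [hemp, measure_empty] at hlim
  have hlim' : Tendsto (fun n : ℕ => m.real {z | (n : ℤ) ≤ |h z|}) atTop (𝓝 0) := by
    have h := (ENNReal.tendsto_toReal ENNReal.zero_ne_top).comp hlim
    rw [ENNReal.toReal_zero] at h
    exact h
  obtain ⟨K, hK⟩ := (hlim'.eventually (ge_mem_nhds hε)).exists
  exact ⟨K, hK⟩

private theorem qtight_median {Z : Type*} [MeasurableSpace Z] {m : Measure Z}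
    [IsProbabilityMeasure m] (f : Z → ℤ) (hf : Measurable f) :
    ∃ c : ℤ, 1 / 2 ≤ m.real {z | f z ≤ c} ∧ 1 / 2 ≤ m.real {z | c ≤ f z} := by
  obtain ⟨N, hN⟩ := qtight_tight (m := m) f hf (ε := 1 / 4) (by norm_num)
  have hms : ∀ n : ℤ, MeasurableSet {z | f z ≤ n} := fun n =>
    hf (MeasurableSet.of_discrete (s := {x : ℤ | x ≤ n}))
  have hmN : MeasurableSet {z | (N : ℤ) ≤ |f z|} :=
    hf (MeasurableSet.of_discrete (s := {x : ℤ | (N : ℤ) ≤ |x|}))
  obtain ⟨c, hc, hmin⟩ := Int.exists_least_of_bdd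
    (P := fun n : ℤ => 1 / 2 ≤ m.real {z | f z ≤ n}) (by
      refine ⟨-(N : ℤ), fun n hn => ?_⟩
      by_contra hcon
      push Not at hcon
      have hsub : {z | f z ≤ n} ⊆ {z | (N : ℤ) ≤ |f z|} := by
        intro z hz
        simp only [Set.mem_ofPred_eq] at hz ⊢
        have := neg_le_abs (f z)
        linarith
      have := (measureReal_mono hsub (μ := m)).trans hN
      linarith) (by
      refine ⟨(N : ℤ), ?_⟩
      have hsub : {z | (N : ℤ) ≤ |f z|}ᶜ ⊆ {z | f z ≤ N} := by
        intro z hz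
        simp only [Set.mem_compl_iff, Set.mem_ofPred_eq, not_le] at hz ⊢
        have := le_abs_self (f z)
        linarith
      have h1 := measureReal_mono hsub (μ := m)
      rw [probReal_compl_eq_one_sub hmN] at h1
      linarith)
  refine ⟨c, hc, ?_⟩
  have h2 : ¬ (1 / 2 ≤ m.real {z | f z ≤ c - 1}) := by
    intro hcon
    have := hmin _ hcon
    linarith
  push Not at h2
  have h3 : {z | c ≤ f z} = {z | f z ≤ c - 1}ᶜ := by
    ext z
    simp only [Set.mem_compl_iff, Set.mem_ofPred_eq, not_le]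
    constructor <;> intro h <;> omega
  rw [h3, probReal_compl_eq_one_sub (hms _)]
  linarith

private noncomputable def qtight_cl (x : ℝ) : ℝ := max (-1) (min x 1)

private theorem qtight_cl_le (x : ℝ) : |qtight_cl x| ≤ 1 := by
  unfold qtight_cl
  rw [abs_le]
  exact ⟨le_max_left _ _, max_le (by norm_num) (min_le_right _ _)⟩

private theorem qtight_cl_lip (x y : ℝ) : |qtight_cl x - qtight_cl y| ≤ |x - y| := by
  unfold qtight_cl
  have h1 := abs_max_sub_max_le_max (-1 : ℝ) (min x 1) (-1 : ℝ) (min y 1)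
  have h2 := abs_min_sub_min_le_max x (1 : ℝ) y 1
  rw [sub_self, abs_zero] at h1 h2
  exact h1.trans (max_le (abs_nonneg _) (h2.trans (max_le le_rfl (abs_nonneg _))))

private theorem qtight_cl_meas : Measurable qtight_cl := by
  unfold qtight_cl
  fun_prop

/-- the increment of the clamped function -/
private theorem qtight_incr {Z : Type*} [MeasurableSpace Z] {m : Measure Z}
    [IsProbabilityMeasure m] {T R : Z → Z} (hT : MeasurePreserving T m m)
    (hR : MeasurePreserving R m m) {f β : Z → ℤ} (hf : Measurable f) (hβ : Measurable β)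
    (h : ∀ᵐ z ∂m, f (T z) + β z = β (R z) + f z) {K M : ℕ} (hM : 0 < M) (hKM : 128 * K ≤ M)
    (hK : m.real {z | (K : ℤ) ≤ |β z|} ≤ 1 / 32768) (c : ℤ) :
    ∫ z, (qtight_cl ((f (T z) - c : ℤ) / (M : ℝ)) - qtight_cl ((f z - c : ℤ) / (M : ℝ))) ^ 2 ∂m
      ≤ 1 / 2048 := by
  set E : Set Z := {z | (K : ℤ) ≤ |β z|} ∪ R ⁻¹' {z | (K : ℤ) ≤ |β z|} with hE
  have hmB : MeasurableSet {z | (K : ℤ) ≤ |β z|} :=
    hβ (MeasurableSet.of_discrete (s := {x : ℤ | (K : ℤ) ≤ |x|}))
  have hmE : MeasurableSet E := hmB.union (hR.measurable hmB)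
  have hEle : m.real E ≤ 1 / 16384 := by
    refine (measureReal_union_le _ _).trans ?_
    rw [hR.measureReal_preimage hmB.nullMeasurableSet]
    linarith
  have hM' : (0 : ℝ) < M := by exact_mod_cast hM
  have hint : Integrable (fun z => 1 / 4096 + E.indicator (fun _ => (4 : ℝ)) z) m :=
    (integrable_const _).add ((integrable_const _).indicator hmE)
  refine (integral_mono_of_nonneg (ae_of_all _ fun z => sq_nonneg _) hint ?_).trans ?_
  · filter_upwards [h] with z hz
    by_cases hzE : z ∈ E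
    · rw [Set.indicator_of_mem hzE]
      have h1 := abs_le.1 (qtight_cl_le (((f (T z) - c : ℤ) : ℝ) / (M : ℝ)))
      have h2 := abs_le.1 (qtight_cl_le (((f z - c : ℤ) : ℝ) / (M : ℝ)))
      nlinarith [h1.1, h1.2, h2.1, h2.2]
    · rw [Set.indicator_of_notMem hzE, add_zero]
      rw [hE] at hzE
      simp only [Set.mem_union, Set.mem_preimage, Set.mem_ofPred_eq, not_or, not_le] at hzE
      have h3 : |((f (T z) : ℝ) - f z)| ≤ 2 * K := by
        have h4 : f (T z) - f z = β (R z) - β z := by linarith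
        have h5 : |f (T z) - f z| ≤ 2 * K := by
          rw [h4]
          have := abs_sub (β (R z)) (β z)
          linarith [hzE.1, hzE.2]
        have h6 : ((|f (T z) - f z| : ℤ) : ℝ) ≤ ((2 * K : ℤ) : ℝ) := by exact_mod_cast h5
        push_cast at h6
        exact h6
      have h7 := qtight_cl_lip (((f (T z) - c : ℤ) : ℝ) / (M : ℝ)) (((f z - c : ℤ) : ℝ) / (M : ℝ))
      have h8 : ((f (T z) - c : ℤ) : ℝ) / (M : ℝ) - ((f z - c : ℤ) : ℝ) / (M : ℝ) =
          ((f (T z) : ℝ) - f z) / M := by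
        push_cast; ring
      rw [h8, abs_div, abs_of_pos hM'] at h7
      have h9 : |((f (T z) : ℝ) - f z)| / M ≤ 1 / 64 := by
        rw [div_le_div_iff₀ hM' (by norm_num)]
        have : (128 : ℝ) * K ≤ M := by exact_mod_cast hKM
        linarith
      have h10 := h7.trans h9
      rw [← sq_abs]
      calc _ ≤ (1 / 64 : ℝ) ^ 2 := pow_le_pow_left₀ (abs_nonneg _) h10 2
        _ = 1 / 4096 := by norm_num
  · rw [integral_add (integrable_const _) ((integrable_const _).indicator hmE),
      integral_indicator_const _ hmE]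
    simp only [integral_const, probReal_univ, smul_eq_mul]
    linarith

/-- an integer function whose increments along a gap pair have the form `β_i ∘ R - β_i` is tight
around a constant, with a bound that depends only on the data `β₁ β₂` -/
theorem tight_of_gap {Z : Type*} [MeasurableSpace Z] {m : Measure Z} [IsProbabilityMeasure m]
    {T₁ T₂ : Z → Z} (hT : GapPair m T₁ T₂) (β₁ β₂ : Z → ℤ) (hβ₁ : Measurable β₁)
    (hβ₂ : Measurable β₂) :
    ∃ M : ℕ, ∀ (f : Z → ℤ) (R : Z → Z), Measurable f → MeasurePreserving R m m →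
      (∀ᵐ z ∂m, f (T₁ z) + β₁ z = β₁ (R z) + f z) →
      (∀ᵐ z ∂m, f (T₂ z) + β₂ z = β₂ (R z) + f z) →
      ∃ c : ℤ, m.real {z | (M : ℤ) ≤ |f z - c|} ≤ 1 / 16 := by
  obtain ⟨K₁, hK₁⟩ := qtight_tight (m := m) β₁ hβ₁ (ε := 1 / 32768) (by norm_num)
  obtain ⟨K₂, hK₂⟩ := qtight_tight (m := m) β₂ hβ₂ (ε := 1 / 32768) (by norm_num)
  refine ⟨128 * K₁ + 128 * K₂ + 1, fun f R hf hR h₁ h₂ => ?_⟩
  set M : ℕ := 128 * K₁ + 128 * K₂ + 1 with hMdef
  have hM : 0 < M := by omega
  have hM' : (0 : ℝ) < M := by exact_mod_cast hM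
  obtain ⟨c, hc1, hc2⟩ := qtight_median (m := m) f hf
  refine ⟨c, ?_⟩
  set F : Z → ℝ := fun z => qtight_cl ((f z - c : ℤ) / (M : ℝ)) with hF
  have hFm : Measurable F := by
    refine qtight_cl_meas.comp (Measurable.div_const ?_ _)
    exact (measurable_of_countable (fun n : ℤ => (n : ℝ))).comp (hf.sub measurable_const)
  have hFb : ∀ z, |F z| ≤ 1 := fun z => qtight_cl_le _
  have hgap := hT.gap F hFm ⟨1, hFb⟩
  have i1 := qtight_incr hT.mp1 hR hf hβ₁ h₁ hM (by omega : 128 * K₁ ≤ M) hK₁ c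
  have i2 := qtight_incr hT.mp2 hR hf hβ₂ h₂ hM (by omega : 128 * K₂ ≤ M) hK₂ c
  have hvar : ∫ z, (F z) ^ 2 ∂m - (∫ z, F z ∂m) ^ 2 ≤ 1 / 128 := by
    refine hgap.trans ?_
    simp only [hF]
    linarith
  set E : ℝ := ∫ z, F z ∂m with hEdef
  have hFi : Integrable F m := Integrable.of_bound hFm.aestronglyMeasurable 1
    (ae_of_all _ fun z => by rw [Real.norm_eq_abs]; exact hFb z)
  have hF2i : Integrable (fun z => (F z) ^ 2) m :=
    Integrable.of_bound (hFm.pow_const 2).aestronglyMeasurable 1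
      (ae_of_all _ fun z => by
        rw [Real.norm_eq_abs, abs_pow]
        exact pow_le_one₀ (abs_nonneg _) (hFb z))
  have hvar2 : ∫ z, (F z - E) ^ 2 ∂m ≤ 1 / 128 := by
    have e1 : ∫ z, (F z - E) ^ 2 ∂m = ∫ z, (((F z) ^ 2 - 2 * E * F z) + E ^ 2) ∂m :=
      integral_congr_ae (ae_of_all _ fun z => by ring)
    have e2 : ∫ z, (((F z) ^ 2 - 2 * E * F z) + E ^ 2) ∂m =
        ∫ z, ((F z) ^ 2 - 2 * E * F z) ∂m + ∫ _, E ^ 2 ∂m :=
      integral_add (hF2i.sub (hFi.const_mul _)) (integrable_const _)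
    have e3 : ∫ z, ((F z) ^ 2 - 2 * E * F z) ∂m = ∫ z, (F z) ^ 2 ∂m - ∫ z, 2 * E * F z ∂m :=
      integral_sub hF2i (hFi.const_mul _)
    rw [e1, e2, e3, integral_const_mul, integral_const]
    simp only [probReal_univ, smul_eq_mul]
    rw [← hEdef]
    nlinarith
  have hcheb : m.real {z | 1 / 4 ≤ (F z - E) ^ 2} ≤ 1 / 32 := by
    have hi : Integrable (fun z => (F z - E) ^ 2) m := by
      have : ∀ z, (F z - E) ^ 2 = (F z) ^ 2 - 2 * E * F z + E ^ 2 := fun z => by ring
      simp only [this]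
      exact (hF2i.sub (hFi.const_mul _)).add (integrable_const _)
    have := mul_meas_ge_le_integral_of_nonneg (μ := m)
      (ae_of_all _ fun z => sq_nonneg (F z - E)) hi (1 / 4)
    linarith
  -- the mean is in (-1/2, 1/2)
  have hE1 : E < 1 / 2 := by
    by_contra hcon
    push Not at hcon
    have hsub : {z | f z ≤ c} ⊆ {z | 1 / 4 ≤ (F z - E) ^ 2} := by
      intro z hz
      simp only [Set.mem_ofPred_eq] at hz ⊢
      have hF0 : F z ≤ 0 := by
        simp only [hF, qtight_cl]
        refine max_le (by norm_num) ((min_le_left _ _).trans ?_)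
        refine div_nonpos_of_nonpos_of_nonneg ?_ hM'.le
        have : f z - c ≤ 0 := by linarith
        exact_mod_cast this
      nlinarith
    have := (measureReal_mono hsub (μ := m)).trans hcheb
    linarith
  have hE2 : -(1 / 2) < E := by
    by_contra hcon
    push Not at hcon
    have hsub : {z | c ≤ f z} ⊆ {z | 1 / 4 ≤ (F z - E) ^ 2} := by
      intro z hz
      simp only [Set.mem_ofPred_eq] at hz ⊢
      have hF0 : 0 ≤ F z := by
        simp only [hF, qtight_cl]
        refine le_max_of_le_right (le_min ?_ (by norm_num))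
        refine div_nonneg ?_ hM'.le
        have : 0 ≤ f z - c := by linarith
        exact_mod_cast this
      nlinarith
    have := (measureReal_mono hsub (μ := m)).trans hcheb
    linarith
  have hsub : {z | (M : ℤ) ≤ |f z - c|} ⊆ {z | 1 / 4 ≤ (F z - E) ^ 2} := by
    intro z hz
    simp only [Set.mem_ofPred_eq] at hz ⊢
    rcases le_or_gt 0 (f z - c) with h0 | h0
    · rw [abs_of_nonneg h0] at hz
      have hx : (1 : ℝ) ≤ ((f z - c : ℤ) : ℝ) / M := by
        rw [le_div_iff₀ hM', one_mul]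
        exact_mod_cast hz
      have hF1 : F z = 1 := by
        simp only [hF, qtight_cl]
        rw [min_eq_right hx]
        norm_num
      rw [hF1]
      nlinarith
    · rw [abs_of_neg h0] at hz
      have hx : ((f z - c : ℤ) : ℝ) / M ≤ -1 := by
        rw [div_le_iff₀ hM']
        have : f z - c ≤ -(M : ℤ) := by linarith
        have h' : ((f z - c : ℤ) : ℝ) ≤ ((-(M : ℤ) : ℤ) : ℝ) := by exact_mod_cast this
        push_cast at h' ⊢
        linarith
      have hF1 : F z = -1 := by
        simp only [hF, qtight_cl]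
        rw [min_eq_left (by linarith), max_eq_left hx]
      rw [hF1]
      nlinarith
  exact ((measureReal_mono hsub (μ := m)).trans hcheb).trans (by norm_num)

end Pool.Agent.CR
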