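import Pool.Agent.H.MP_894ea6_lc.L.TC
import Pool.Agent.H.MP_894ea6_lc.L.QTight

/-! MP_894ea6_lc, module LemQ: integer valued cocycles of commuting actions -/

open MeasureTheory

namespace Pool.Agent.CR

/-- the diagonal action on the square -/
private def lemq_D2 {G Z : Type*} [Group G] [MeasurableSpace Z] {m : Measure Z}
    [IsProbabilityMeasure m] (A : PAct G m) : PAct G (m.prod m) where
  T := fun g => diag2 (A.T g)
  mp := fun g => (A.mp g).prod (A.mp g)
  mul := fun g h z => by simp only [diag2, A.mul]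
  one := fun z => by simp only [diag2, A.one]

private theorem lemq_perm {Z : Type*} [MeasurableSpace Z] {m : Measure Z}
    [IsProbabilityMeasure m] :
    MeasurePreserving (fun w : Z × (Z × Z) => (w.2.1, w.2.2, w.1)) (m.prod (m.prod m))
      (m.prod (m.prod m)) := by
  have h1 : MeasurePreserving (Prod.swap : Z × (Z × Z) → (Z × Z) × Z) (m.prod (m.prod m))
      ((m.prod m).prod m) := Measure.measurePreserving_swap
  have h2 := (measurePreserving_prodAssoc m m m)
  exact h2.comp h1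

theorem lemQ {G Z : Type*} [Group G] [Countable G] [MeasurableSpace Z]
    {m : Measure Z} [IsProbabilityMeasure m] (A : PAct G m)
    (hg3 : ∃ g₁ g₂ : G, GapPair (m.prod (m.prod m)) (diag3 (A.T g₁)) (diag3 (A.T g₂)))
    {T₁ T₂ : Z → Z} (hT : GapPair m T₁ T₂) (b : G → Z → ℤ) (hbm : ∀ g, Measurable (b g))
    (hb : ∀ g h, ∀ᵐ z ∂m, b (g * h) z = b g (A.T h z) + b h z)
    (β₁ β₂ : Z → ℤ) (hβ₁ : Measurable β₁) (hβ₂ : Measurable β₂)
    (h₁ : ∀ g, ∀ᵐ z ∂m, b g (T₁ z) + β₁ z = β₁ (A.T g z) + b g z)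
    (h₂ : ∀ g, ∀ᵐ z ∂m, b g (T₂ z) + β₂ z = β₂ (A.T g z) + b g z) :
    ∃ (χ : G → ℤ) (φ : Z → ℤ), Measurable φ ∧
      ∀ g, ∀ᵐ z ∂m, b g z = χ g + φ (A.T g z) - φ z := by
  obtain ⟨g₁, g₂, hg⟩ := hg3
  obtain ⟨M, hM⟩ := tight_of_gap hT β₁ β₂ hβ₁ hβ₂
  have hfst : MeasurePreserving (Prod.fst : Z × Z → Z) (m.prod m) m := measurePreserving_fst
  have hsnd : MeasurePreserving (Prod.snd : Z × Z → Z) (m.prod m) m := measurePreserving_snd
  let _ : MeasurableSpace (Multiplicative ℤ) := ⊤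
  have _ : DiscreteMeasurableSpace (Multiplicative ℤ) := ⟨fun _ => trivial⟩
  -- the cocycle on the square
  let a : G → Z × Z → Multiplicative ℤ := fun g p => Multiplicative.ofAdd (b g p.1 - b g p.2)
  have ham : ∀ g, Measurable (a g) := fun g =>
    (measurable_of_countable (fun n : ℤ => Multiplicative.ofAdd n)).comp
      (((hbm g).comp measurable_fst).sub ((hbm g).comp measurable_snd))
  have hac : ACoc (lemq_D2 A) a := by
    refine ⟨ham, fun g h => ?_⟩
    filter_upwards [hfst.quasiMeasurePreserving.ae (hb g h),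
      hsnd.quasiMeasurePreserving.ae (hb g h)] with p hp1 hp2
    simp only [a, lemq_D2, diag2]
    rw [← ofAdd_add, hp1, hp2]
    congr 1
    ring
  have hE2 : Erg (lemq_D2 A) := by
    have h2 : GapPair (m.prod m) (diag2 (A.T g₁)) (diag2 (A.T g₂)) :=
      GapPair.of_diag3_two (A.mp g₁).measurable (A.mp g₂).measurable hg
    exact GapPair.erg (A := lemq_D2 A) (g₁ := g₁) (g₂ := g₂) h2
  let B : Set (Multiplicative ℤ) := Multiplicative.ofAdd '' (Set.Icc (-(2 * M : ℤ)) (2 * M))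
  have hB : B.Finite := (Set.finite_Icc _ _).image _
  have hBm : ∀ g, 3 / 4 ≤ (m.prod m).real {p | a g p ∈ B} := by
    intro g
    obtain ⟨c, hc⟩ := hM (b g) (A.T g) (hbm g) (A.mp g) (h₁ g) (h₂ g)
    have hS : MeasurableSet {z | (M : ℤ) ≤ |b g z - c|} :=
      (hbm g) (MeasurableSet.of_discrete (s := {n : ℤ | (M : ℤ) ≤ |n - c|}))
    have e1 : (m.prod m).real {p : Z × Z | (M : ℤ) ≤ |b g p.1 - c|} ≤ 1 / 16 := by
      have : (m.prod m).real {p : Z × Z | (M : ℤ) ≤ |b g p.1 - c|} =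
          m.real {z | (M : ℤ) ≤ |b g z - c|} :=
        hfst.measureReal_preimage hS.nullMeasurableSet
      rw [this]; exact hc
    have e2 : (m.prod m).real {p : Z × Z | (M : ℤ) ≤ |b g p.2 - c|} ≤ 1 / 16 := by
      have : (m.prod m).real {p : Z × Z | (M : ℤ) ≤ |b g p.2 - c|} =
          m.real {z | (M : ℤ) ≤ |b g z - c|} :=
        hsnd.measureReal_preimage hS.nullMeasurableSet
      rw [this]; exact hc
    have hsub : {p : Z × Z | a g p ∈ B}ᶜ ⊆ {p : Z × Z | (M : ℤ) ≤ |b g p.1 - c|} ∪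
        {p : Z × Z | (M : ℤ) ≤ |b g p.2 - c|} := by
      intro p hp
      by_contra hcon
      simp only [Set.mem_union, Set.mem_ofPred_eq, not_or, not_le] at hcon
      apply hp
      simp only [Set.mem_ofPred_eq]
      refine ⟨b g p.1 - b g p.2, ?_, rfl⟩
      have h3 := abs_lt.1 hcon.1
      have h4 := abs_lt.1 hcon.2
      constructor <;> linarith [h3.1, h3.2, h4.1, h4.2]
    have hmeas : MeasurableSet {p : Z × Z | a g p ∈ B} := (ham g) (MeasurableSet.of_discrete (s := B))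
    have h5 : (m.prod m).real {p : Z × Z | a g p ∈ B}ᶜ ≤ 1 / 16 + 1 / 16 :=
      (measureReal_mono hsub).trans ((measureReal_union_le _ _).trans (add_le_add e1 e2))
    have h6 : (m.prod m).real {p : Z × Z | a g p ∈ B}ᶜ =
        1 - (m.prod m).real {p : Z × Z | a g p ∈ B} := by
      rw [probReal_compl_eq_one_sub hmeas]
    rw [h6] at h5
    linarith
  obtain ⟨φ2, hφ2m, hφ2⟩ := tight_cob (lemq_D2 A) hE2 a hac B hB hBm
  let Φ : Z × Z → ℤ := fun p => Multiplicative.toAdd (φ2 p)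
  have hΦm : Measurable Φ :=
    (measurable_of_countable (fun n : Multiplicative ℤ => Multiplicative.toAdd n)).comp hφ2m
  have hΦ : ∀ g, ∀ᵐ p ∂(m.prod m), b g p.1 - b g p.2 = Φ (A.T g p.1, A.T g p.2) - Φ p := by
    intro g
    filter_upwards [hφ2 g] with p hp
    have h7 := congrArg Multiplicative.toAdd hp
    simp only [a, toAdd_ofAdd, toAdd_mul, toAdd_inv, lemq_D2, diag2] at h7
    rw [h7]
    simp only [Φ]
    ring
  -- the function on the cube
  let Ψ : Z × Z × Z → ℤ := fun w => Φ (w.1, w.2.1) + Φ (w.2.1, w.2.2) - Φ (w.1, w.2.2)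
  have hm1 : MeasurePreserving (fun w : Z × Z × Z => (w.1, w.2.1)) (m.prod (m.prod m))
      (m.prod m) := (MeasurePreserving.id m).prod hfst
  have hm2 : MeasurePreserving (fun w : Z × Z × Z => (w.2.1, w.2.2)) (m.prod (m.prod m))
      (m.prod m) := measurePreserving_snd
  have hm3 : MeasurePreserving (fun w : Z × Z × Z => (w.1, w.2.2)) (m.prod (m.prod m))
      (m.prod m) := (MeasurePreserving.id m).prod hsnd
  have hΨm : Measurable Ψ :=
    ((hΦm.comp hm1.measurable).add (hΦm.comp hm2.measurable)).sub (hΦm.comp hm3.measurable)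
  have hΨi : ∀ g, ∀ᵐ w ∂(m.prod (m.prod m)), Ψ (diag3 (A.T g) w) = Ψ w := by
    intro g
    filter_upwards [hm1.quasiMeasurePreserving.ae (hΦ g), hm2.quasiMeasurePreserving.ae (hΦ g),
      hm3.quasiMeasurePreserving.ae (hΦ g)] with w hw1 hw2 hw3
    simp only [Ψ, diag3] at hw1 hw2 hw3 ⊢
    linarith
  obtain ⟨c0, hc0⟩ := hg.ae_const Ψ hΨm (hΨi g₁) (hΨi g₂)
  have hc1 : ∀ᵐ w ∂(m.prod (m.prod m)), Ψ (w.2.1, w.2.2, w.1) = c0 :=
    lemq_perm.quasiMeasurePreserving.ae hc0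
  have hc2 := Measure.ae_ae_of_ae_prod hc1
  obtain ⟨z₀, hz₀⟩ := hc2.exists
  let φ : Z → ℤ := fun z => Φ (z, z₀)
  have hφm : Measurable φ := hΦm.comp (measurable_id.prodMk measurable_const)
  have hΦφ : ∀ᵐ p ∂(m.prod m), Φ p = c0 + φ p.1 - φ p.2 := by
    filter_upwards [hz₀] with p hp
    simp only [Ψ] at hp
    simp only [φ]
    have : Φ (p.1, p.2) = Φ p := rfl
    linarith
  have hu : ∀ g, ∃ x : ℤ, ∀ᵐ z ∂m, b g z - φ (A.T g z) + φ z = x := by
    intro g
    have h8 : ∀ᵐ p ∂(m.prod m), b g p.1 - φ (A.T g p.1) + φ p.1 =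
        b g p.2 - φ (A.T g p.2) + φ p.2 := by
      have hq : ∀ᵐ p ∂(m.prod m), Φ (diag2 (A.T g) p) =
          c0 + φ (diag2 (A.T g) p).1 - φ (diag2 (A.T g) p).2 :=
        ((A.mp g).prod (A.mp g)).quasiMeasurePreserving.ae hΦφ
      filter_upwards [hΦ g, hΦφ, hq] with p hp1 hp2 hp3
      simp only [diag2] at hp3
      linarith
    obtain ⟨z₁, hz₁⟩ := (Measure.ae_ae_of_ae_prod h8).exists
    exact ⟨b g z₁ - φ (A.T g z₁) + φ z₁, hz₁.mono fun z hz => hz.symm⟩
  choose χ hχ using hu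
  refine ⟨χ, φ, hφm, fun g => ?_⟩
  filter_upwards [hχ g] with z hz
  linarith

end Pool.Agent.CR
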