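import Pool.Agent.H.MP_894ea6_lc.L.CfgSel
import Pool.Agent.H.MP_894ea6_lc.L.CfgLim
import Pool.Agent.H.MP_894ea6_lc.L.BaireLim
import Pool.Agent.H.MP_894ea6_lc.L.GrpB

/-! MP_894ea6_lc, module Limit: the limit measure -/

open MeasureTheory Topology Filter

namespace Pool.Agent.CR

/-- the map of `2^FF` into the space of the limit measure -/
private def limit_pr {K : Type*} (Θ : Bits → K) (x : Bits) : ZZ K := (x, fun h => Θ (act h x))

private theorem limit_pr_act {K : Type*} (Θ : Bits → K) (g : FF) (x : Bits) :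
    limit_pr Θ (act g x) = actZ g (limit_pr Θ x) := by
  simp only [limit_pr, actZ, act_mul]

private theorem limit_mp {Y Z : Type*} [MeasurableSpace Y] [MeasurableSpace Z] {μ : Measure Y}
    {T : Y → Y} {S : Z → Z} {pr : Y → Z} (hT : MeasurePreserving T μ μ) (hpr : Measurable pr)
    (hS : Measurable S) (h : ∀ y, pr (T y) = S (pr y)) :
    MeasurePreserving S (μ.map pr) (μ.map pr) := by
  refine ⟨hS, ?_⟩
  rw [Measure.map_map hS hpr]
  have e : S ∘ pr = pr ∘ T := by
    funext y
    exact (h y).symm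
  rw [e, ← Measure.map_map hpr hT.measurable, hT.map_eq]

private instance limit_cmBits : TopologicalSpace.IsCompletelyMetrizableSpace Bits := by
  have : TopologicalSpace.IsCompletelyMetrizableSpace Bool := inferInstance
  unfold Bits
  infer_instance

private instance limit_polishBits : PolishSpace Bits := inferInstance

private instance limit_polishZZ {K : Type*} [TopologicalSpace K] [PolishSpace K] :
    PolishSpace (ZZ K) := by
  have : PolishSpace (FF → K) := inferInstance
  unfold ZZ
  infer_instance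

theorem limit_exists {K Δ : Type*} [TopologicalSpace K] [CompactSpace K] [PolishSpace K]
    [MeasurableSpace K] [BorelSpace K] [Group Δ] [Countable Δ] [MulAction Δ K]
    [ContinuousConstSMul Δ K] (Θ : (ℕ → Bool) → Bits → K) (hΘm : ∀ y ∈ BB, Measurable (Θ y))
    (hΘ : ∀ y ∈ BB, ∀ x ∈ XX y, ∀ g, ∃ t : Δ, Θ y (act g x) = t • Θ y x)
    (hΘi : ∀ y ∈ BB, ∀ x ∈ XX y, ∀ x' ∈ XX y, Θ y x = Θ y x' → ∃ g, x' = act g x) (ε : ℝ)
    (hε : 0 < ε) :
    ∃ (d : ℕ → Bool) (m : Measure (ZZ K)) (_ : IsProbabilityMeasure m) (A : PAct FF m),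
      d ∉ BB ∧ (∀ g z, A.T g z = actZ g z) ∧ Gap3All A ∧ (∀ n ∈ NN d, ∀ᵐ z ∂m, A.T n z = z) ∧
      (∀ k : K, m.real {z : ZZ K | z.2 1 = k} ≤ 1 / 4) ∧
      ∃ (S : Finset FF) (R : Gen × Bool → Bits × K → Bits × K) (DD : Set (ZZ K)),
        MeasurableSet DD ∧ 1 - ε ≤ m.real DD ∧ ∀ z ∈ DD, ∀ s,
          (res S (act (gs s) z.1), z.2 (gs s)) = R s (res S z.1, z.2 1) ∧
          ∃ t : Δ, z.2 (gs s) = t • z.2 1 := by
  classical
  have hy0 : (fun _ => true : ℕ → Bool) ∈ BB := fun n => ⟨n, le_rfl, rfl⟩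
  have hprm : ∀ y ∈ BB, Measurable (limit_pr (Θ y)) := fun y hy => measurable_toZZ (Θ y) (hΘm y hy)
  have hprob : ∀ y ∈ BB, IsProbabilityMeasure ((muY y).map (limit_pr (Θ y))) := fun y hy =>
    Measure.isProbabilityMeasure_map (hprm y hy).aemeasurable
  let my : (ℕ → Bool) → ProbabilityMeasure (ZZ K) := fun y =>
    if hy : y ∈ BB then ⟨(muY y).map (limit_pr (Θ y)), hprob y hy⟩
    else ⟨(muY fun _ => true).map (limit_pr (Θ fun _ => true)), hprob _ hy0⟩
  have hmy : ∀ y ∈ BB, (my y : Measure (ZZ K)) = (muY y).map (limit_pr (Θ y)) := by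
    intro y hy
    simp only [my, dif_pos hy]
    rfl
  obtain ⟨c, d, hd, hdc⟩ := baire_pick (Cf := Cfg K Δ)
    (fun c => {y | GoodC ε c (my y : Measure (ZZ K))}) (by
      intro y hy
      obtain ⟨c, hc⟩ := exists_cfg (Δ := Δ) y (Θ y) (hΘm y hy) (hΘ y hy) (hΘi y hy) ε hε
      refine ⟨c, ?_⟩
      show GoodC ε c (my y : Measure (ZZ K))
      rw [hmy y hy]
      exact hc)
  obtain ⟨U, md, hU, hSU, ht⟩ := exists_limit my _ d hdc
  have hgood : ∀ᶠ y in (U : Filter (ℕ → Bool)), GoodC ε c (my y : Measure (ZZ K)) := by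
    filter_upwards [hSU] with y hy using hy.1
  have hBB : ∀ᶠ y in (U : Filter (ℕ → Bool)), y ∈ BB := by
    filter_upwards [hSU] with y hy using hy.2
  have hG : GoodC ε c (md : Measure (ZZ K)) := GoodC.lim ht hgood
  have hmp : ∀ g : FF, MeasurePreserving (actZ g) (md : Measure (ZZ K)) (md : Measure (ZZ K)) := by
    intro g
    refine lim_mp ht (continuous_actZ g) ?_
    filter_upwards [hBB] with y hy
    rw [hmy y hy]
    exact limit_mp (muY_act y g) (hprm y hy) (continuous_actZ g).measurable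
      (fun x => limit_pr_act (Θ y) g x)
  let A : PAct FF (md : Measure (ZZ K)) :=
    { T := fun g z => actZ g z
      mp := hmp
      mul := fun g h z => actZ_mul g h z
      one := fun z => actZ_one z }
  have hgap : Gap3All A := by
    intro w j hj
    refine lim_gap3 ht (continuous_actZ _) (continuous_actZ _) ?_
    filter_upwards [hBB] with y hy
    rw [hmy y hy]
    have h1 := muY_gap3 y w j hj
    have hm := hprm y hy
    have hm3 : Measurable (Prod.map (limit_pr (Θ y)) (Prod.map (limit_pr (Θ y))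
        (limit_pr (Θ y)))) := hm.prodMap (hm.prodMap hm)
    have hact : ∀ g : FF, Measurable (diag3 (actZ g : ZZ K → ZZ K)) := by
      intro g
      have := (continuous_actZ (K := K) g).measurable
      exact (this.comp measurable_fst).prodMk ((this.comp (measurable_fst.comp
        measurable_snd)).prodMk (this.comp (measurable_snd.comp measurable_snd)))
    have h2 := h1.map (Prod.map (limit_pr (Θ y)) (Prod.map (limit_pr (Θ y)) (limit_pr (Θ y))))
      hm3 (hact (w * iota (j (FreeGroup.of true)) * w⁻¹))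
      (hact (w * iota (j (FreeGroup.of false)) * w⁻¹))
      (ae_of_all _ fun z => by
        simp only [Prod.map, diag3, limit_pr_act])
      (ae_of_all _ fun z => by
        simp only [Prod.map, diag3, limit_pr_act])
    rwa [← Measure.map_prod_map _ _ hm (hm.prodMap hm), ← Measure.map_prod_map _ _ hm hm] at h2
  have hNN : ∀ n ∈ NN d, ∀ᵐ z ∂(md : Measure (ZZ K)), A.T n z = z := by
    intro n hn
    have hcl : IsClosed {z : ZZ K | actZ n z = z} := isClosed_eq (continuous_actZ n) continuous_id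
    have key : ∀ᶠ y in (U : Filter (ℕ → Bool)),
        ∀ᵐ z ∂(my y : Measure (ZZ K)), z ∈ {z : ZZ K | actZ n z = z} := by
      filter_upwards [hBB, hU (NN_open d hn)] with y hy hny
      rw [hmy y hy, ae_map_iff (hprm y hy).aemeasurable hcl.measurableSet]
      filter_upwards [muY_XX y] with x hx
      show actZ n (limit_pr (Θ y) x) = limit_pr (Θ y) x
      rw [← limit_pr_act, (hx n).2 hny]
    exact lim_ae ht hcl key
  obtain ⟨R, hR⟩ := hG.maps
  exact ⟨d, (md : Measure (ZZ K)), inferInstance, A, hd, fun g z => rfl, hgap, hNN,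
    fun k => hG.atoms k, c.1, R, DDc c, (isClosed_DDc c).measurableSet, hG.large, hR⟩

end Pool.Agent.CR
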