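import Pool.Agent.H.MP_894ea6_lc.L.GapA

/-! MP_894ea6_lc, module NoAtoms: almost deterministic dynamics on a countable set has a large atom -/

open MeasureTheory

namespace Pool.Agent.CR

/-- a countable set carrying most of the mass contains a finite one -/
theorem noatoms_finite {Z TT : Type*} [MeasurableSpace Z] {m : Measure Z}
    [IsProbabilityMeasure m] [MeasurableSpace TT] [MeasurableSingletonClass TT]
    (τ : Z → TT) (hτ : Measurable τ) (D' : Set TT) (hD' : D'.Countable)
    (hD : m.real {z | τ z ∉ D'} ≤ 1 / 1000) :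
    ∃ F : Finset TT, m.real {z | τ z ∉ F} ≤ 2 / 1000 := by
  classical
  have hms : ∀ v, MeasurableSet {z | τ z = v} := fun v => hτ (measurableSet_singleton v)
  have hU : m (⋃ v ∈ D', {z | τ z = v}) = ∑' v : D', m {z | τ z = (v : TT)} := by
    apply measure_biUnion hD'
    · intro a _ b _ hab
      exact Set.disjoint_left.2 (fun z hz hz' => hab (hz.symm.trans hz'))
    · intro b _; exact hms b
  have hUD : (⋃ v ∈ D', {z | τ z = v}) = {z | τ z ∉ D'}ᶜ := by
    ext z; simp
  have hmD : MeasurableSet {z | τ z ∉ D'} := by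
    have : {z | τ z ∉ D'} = (τ ⁻¹' D')ᶜ := rfl
    rw [this]
    exact (hτ hD'.measurableSet).compl
  have hUr : m.real (⋃ v ∈ D', {z | τ z = v}) = 1 - m.real {z | τ z ∉ D'} := by
    rw [hUD, measureReal_compl hmD, probReal_univ]
  have hne : m (⋃ v ∈ D', {z | τ z = v}) ≠ ⊤ := measure_ne_top _ _
  have hsum : HasSum (fun v : D' => m.real {z | τ z = (v : TT)})
      (m.real (⋃ v ∈ D', {z | τ z = v})) := by
    have h1 : ∑' v : D', m {z | τ z = (v : TT)} ≠ ⊤ := hU ▸ hne
    have h2 := ENNReal.summable_toReal h1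
    have h3 : m.real (⋃ v ∈ D', {z | τ z = v}) = ∑' v : D', m.real {z | τ z = (v : TT)} := by
      rw [measureReal_def, hU, ENNReal.tsum_toReal_eq (fun a => measure_ne_top _ _)]
      rfl
    rw [h3]
    exact h2.hasSum
  have hev := hsum.eventually (lt_mem_nhds (show m.real (⋃ v ∈ D', {z | τ z = v}) - 1 / 1000 <
    m.real (⋃ v ∈ D', {z | τ z = v}) by linarith))
  obtain ⟨S, hS⟩ := hev.exists
  refine ⟨S.map (Function.Embedding.subtype _), ?_⟩
  have hF : {z | τ z ∉ S.map (Function.Embedding.subtype _)} =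
      (⋃ v ∈ S, {z | τ z = (v : TT)})ᶜ := by
    ext z
    simp only [Finset.mem_map, Function.Embedding.coe_subtype, Set.mem_setOf_eq,
      Set.mem_compl_iff, Set.mem_iUnion, not_exists]
    constructor
    · intro h v hv hz
      exact h v ⟨hv, hz.symm⟩
    · intro h v hv
      exact h v hv.1 hv.2.symm
  have hmU : MeasurableSet (⋃ v ∈ S, {z | τ z = (v : TT)}) :=
    Finset.measurableSet_biUnion _ (fun v _ => hms v)
  have hSU : m.real (⋃ v ∈ S, {z | τ z = (v : TT)}) = ∑ v ∈ S, m.real {z | τ z = (v : TT)} := by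
    apply measureReal_biUnion_finset
    · intro a _ b _ hab
      exact Set.disjoint_left.2 (fun z hz hz' => hab (Subtype.ext (hz.symm.trans hz')))
    · intro b _; exact hms b
    · intro b _; exact measure_ne_top _ _
  rw [hF, measureReal_compl hmU, probReal_univ, hSU]
  linarith

/-- weights -/
noncomputable def noatoms_w {Z TT : Type*} [MeasurableSpace Z] (m : Measure Z) (τ : Z → TT)
    (v : TT) : ℝ := (Real.sqrt (m.real {z | τ z = v}))⁻¹

open scoped Classical in
/-- the test function -/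
noncomputable def noatoms_f {Z TT : Type*} [MeasurableSpace Z] (m : Measure Z) (τ : Z → TT)
    (F : Finset TT) (p : Z × Z) : ℝ :=
  ∑ v ∈ F, noatoms_w m τ v * ((if τ p.1 = v then 1 else 0) * (if τ p.2 = v then 1 else 0))

section
variable {Z TT : Type*} [MeasurableSpace Z] {m : Measure Z}
    [IsProbabilityMeasure m] [MeasurableSpace TT] [MeasurableSingletonClass TT]

open scoped Classical in
theorem noatoms_prod {A B : Set Z} (hA : MeasurableSet A) (hB : MeasurableSet B) (c : ℝ) :
    ∫ p : Z × Z, c * ((if p.1 ∈ A then (1 : ℝ) else 0) * (if p.2 ∈ B then (1 : ℝ) else 0))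
      ∂(m.prod m) = c * (m.real A * m.real B) := by
  rw [integral_const_mul, integral_prod_mul (fun z => if z ∈ A then (1 : ℝ) else 0)
    (fun z => if z ∈ B then (1 : ℝ) else 0)]
  have h1 : ∀ {A : Set Z}, MeasurableSet A → ∫ z, (if z ∈ A then (1 : ℝ) else 0) ∂m = m.real A := by
    intro A hA
    have : (fun z => if z ∈ A then (1 : ℝ) else 0) = A.indicator (fun _ => (1 : ℝ)) := by
      ext z; simp [Set.indicator_apply]
    rw [this, integral_indicator_const _ hA]; simp
  rw [h1 hA, h1 hB]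

open scoped Classical in
theorem noatoms_meas_ite {A : Set Z} (hA : MeasurableSet A) :
    Measurable (fun z : Z => if z ∈ A then (1 : ℝ) else 0) :=
  Measurable.ite hA measurable_const measurable_const

open scoped Classical in
theorem noatoms_int {A B : Set Z} (hA : MeasurableSet A) (hB : MeasurableSet B) (c : ℝ) :
    Integrable (fun p : Z × Z => c * ((if p.1 ∈ A then (1 : ℝ) else 0) *
      (if p.2 ∈ B then (1 : ℝ) else 0))) (m.prod m) := by
  apply Integrable.of_bound (C := |c|)
  · exact (measurable_const.mul (((noatoms_meas_ite hA).comp measurable_fst).mul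
      ((noatoms_meas_ite hB).comp measurable_snd))).aestronglyMeasurable
  · refine Filter.Eventually.of_forall (fun p => ?_)
    rw [Real.norm_eq_abs, abs_mul]
    split_ifs <;> simp

theorem noatoms_f_meas (τ : Z → TT) (hτ : Measurable τ) (F : Finset TT) :
    Measurable (noatoms_f m τ F) := by
  classical
  unfold noatoms_f
  apply Finset.measurable_sum
  intro v _
  have hms : MeasurableSet {z | τ z = v} := hτ (measurableSet_singleton v)
  exact measurable_const.mul (((noatoms_meas_ite hms).comp measurable_fst).mul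
      ((noatoms_meas_ite hms).comp measurable_snd))

open scoped Classical in
theorem noatoms_f_eq (τ : Z → TT) (F : Finset TT) (p : Z × Z) :
    noatoms_f m τ F p = if τ p.1 ∈ F ∧ τ p.2 = τ p.1 then noatoms_w m τ (τ p.1) else 0 := by
  unfold noatoms_f
  by_cases h : τ p.1 ∈ F
  · rw [Finset.sum_eq_single (τ p.1)]
    · simp [h]
    · intro b _ hb; simp [Ne.symm hb]
    · intro h'; exact absurd h h'
  · rw [Finset.sum_eq_zero]
    · simp [h]
    · intro b hb
      have : τ p.1 ≠ b := fun h' => h (h' ▸ hb)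
      simp [this]

theorem noatoms_w_nonneg (τ : Z → TT) (v : TT) : 0 ≤ noatoms_w m τ v :=
  inv_nonneg.2 (Real.sqrt_nonneg _)

theorem noatoms_f_nonneg (τ : Z → TT) (F : Finset TT) (p : Z × Z) : 0 ≤ noatoms_f m τ F p := by
  rw [noatoms_f_eq]
  split_ifs
  · exact noatoms_w_nonneg _ _
  · exact le_rfl

theorem noatoms_f_bdd (τ : Z → TT) (F : Finset TT) : ∃ C, ∀ p : Z × Z, |noatoms_f m τ F p| ≤ C := by
  refine ⟨∑ v ∈ F, noatoms_w m τ v, fun p => ?_⟩
  rw [abs_of_nonneg (noatoms_f_nonneg τ F p)]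
  unfold noatoms_f
  apply Finset.sum_le_sum
  intro v _
  have := noatoms_w_nonneg (m := m) τ v
  split_ifs <;> simp [this]

/-- the sum of the masses of the values in `F` -/
theorem noatoms_sum_pi (τ : Z → TT) (hτ : Measurable τ) (F : Finset TT) :
    ∑ v ∈ F, m.real {z | τ z = v} = m.real {z | τ z ∈ F} := by
  have hU : {z | τ z ∈ F} = ⋃ v ∈ F, {z | τ z = v} := by ext z; simp
  rw [hU, measureReal_biUnion_finset]
  · intro a _ b _ hab
    exact Set.disjoint_left.2 (fun z hz hz' => hab (hz.symm.trans hz'))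
  · intro b _; exact hτ (measurableSet_singleton b)

theorem noatoms_int_sq (τ : Z → TT) (hτ : Measurable τ) (F : Finset TT) :
    ∫ p, (noatoms_f m τ F p) ^ 2 ∂(m.prod m) = m.real {z | τ z ∈ F} := by
  classical
  have hms : ∀ v, MeasurableSet {z | τ z = v} := fun v => hτ (measurableSet_singleton v)
  have h1 : ∀ p : Z × Z, (noatoms_f m τ F p) ^ 2 = ∑ v ∈ F, (noatoms_w m τ v) ^ 2 *
      ((if p.1 ∈ {z | τ z = v} then (1 : ℝ) else 0) * (if p.2 ∈ {z | τ z = v} then 1 else 0)) := by
    intro p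
    rw [noatoms_f_eq]
    by_cases h : τ p.1 ∈ F
    · rw [Finset.sum_eq_single (τ p.1)]
      · by_cases h2 : τ p.2 = τ p.1 <;> simp [h, h2]
      · intro b _ hb; simp [Ne.symm hb]
      · intro h'; exact absurd h h'
    · rw [Finset.sum_eq_zero]
      · simp [h]
      · intro b hb
        have : τ p.1 ≠ b := fun h' => h (h' ▸ hb)
        simp [this]
  simp_rw [h1]
  rw [integral_finset_sum _ (fun v _ => noatoms_int (hms v) (hms v) _), ← noatoms_sum_pi τ hτ F]
  apply Finset.sum_congr rfl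
  intro v _
  rw [noatoms_prod (hms v) (hms v)]
  unfold noatoms_w
  by_cases h : m.real {z | τ z = v} = 0
  · rw [h]; simp
  · have h0 : 0 ≤ m.real {z | τ z = v} := measureReal_nonneg
    rw [inv_pow, Real.sq_sqrt h0]
    field_simp

theorem noatoms_int_le (τ : Z → TT) (hτ : Measurable τ) (F : Finset TT)
    (hatom : ∀ v, m.real {z | τ z = v} ≤ 1 / 4) :
    ∫ p, noatoms_f m τ F p ∂(m.prod m) ≤ 1 / 2 := by
  classical
  have hms : ∀ v, MeasurableSet {z | τ z = v} := fun v => hτ (measurableSet_singleton v)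
  have h1 : ∀ p : Z × Z, noatoms_f m τ F p = ∑ v ∈ F, (noatoms_w m τ v) *
      ((if p.1 ∈ {z | τ z = v} then (1 : ℝ) else 0) * (if p.2 ∈ {z | τ z = v} then 1 else 0)) := by
    intro p
    rfl
  simp_rw [h1]
  rw [integral_finset_sum _ (fun v _ => noatoms_int (hms v) (hms v) _)]
  have h2 : ∀ v ∈ F, ∫ p : Z × Z, (noatoms_w m τ v) *
      ((if p.1 ∈ {z | τ z = v} then (1 : ℝ) else 0) * (if p.2 ∈ {z | τ z = v} then 1 else 0))
        ∂(m.prod m) ≤ 1 / 2 * m.real {z | τ z = v} := by
    intro v _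
    rw [noatoms_prod (hms v) (hms v)]
    unfold noatoms_w
    have h0 : 0 ≤ m.real {z | τ z = v} := measureReal_nonneg
    have h4 : Real.sqrt (m.real {z | τ z = v}) ≤ 1 / 2 := by
      rw [show (1 / 2 : ℝ) = Real.sqrt (1 / 4) by
        rw [show (1 / 4 : ℝ) = (1 / 2) ^ 2 by norm_num, Real.sqrt_sq (by norm_num)]]
      exact Real.sqrt_le_sqrt (hatom v)
    by_cases h : m.real {z | τ z = v} = 0
    · rw [h]; simp
    · have h5 : 0 < Real.sqrt (m.real {z | τ z = v}) :=
        Real.sqrt_pos.2 (lt_of_le_of_ne h0 (Ne.symm h))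
      have h6 : (Real.sqrt (m.real {z | τ z = v}))⁻¹ *
          (m.real {z | τ z = v} * m.real {z | τ z = v}) =
          Real.sqrt (m.real {z | τ z = v}) * m.real {z | τ z = v} := by
        have h7 : m.real {z | τ z = v} = Real.sqrt (m.real {z | τ z = v}) *
          Real.sqrt (m.real {z | τ z = v}) := (Real.mul_self_sqrt h0).symm
        field_simp
        nlinarith [h7]
      rw [h6]
      exact mul_le_mul_of_nonneg_right h4 h0
  refine (Finset.sum_le_sum h2).trans ?_
  rw [← Finset.mul_sum, noatoms_sum_pi τ hτ F]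
  have : m.real {z | τ z ∈ F} ≤ 1 := measureReal_le_one
  linarith

/-- the correlation of the test function with its image -/
theorem noatoms_corr (τ : Z → TT) (hτ : Measurable τ) (F : Finset TT)
    (hF : m.real {z | τ z ∉ F} ≤ 2 / 1000) {T T' : Z → Z} (hT : MeasurePreserving T m m)
    (hinv : ∀ z, T' (T z) = z) (DD : Set Z) (hDD : MeasurableSet DD)
    (hDDm : 1 - 1 / 1000 ≤ m.real DD) (R R' : TT → TT)
    (h : ∀ z ∈ DD, τ (T z) = R (τ z)) (h' : ∀ z ∈ DD, τ (T' z) = R' (τ z)) :
    (1 - 6 / 1000) ^ 2 ≤ ∫ p, noatoms_f m τ F (diag2 T p) * noatoms_f m τ F p ∂(m.prod m) := by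
  classical
  have hms : ∀ v, MeasurableSet {z | τ z = v} := fun v => hτ (measurableSet_singleton v)
  set π : TT → ℝ := fun v => m.real {z | τ z = v} with hπ
  set w : TT → ℝ := noatoms_w m τ with hw
  have hB0 : ∀ v v', MeasurableSet {z | τ z = v ∧ τ (T z) = v'} := fun v v' =>
    (hms v).inter (hT.measurable (hms v'))
  obtain ⟨B, hBdef⟩ : ∃ B : TT → TT → Set Z, ∀ v v', B v v' = {z | τ z = v ∧ τ (T z) = v'} :=
    ⟨_, fun v v' => rfl⟩
  have hBmem : ∀ v v' z, z ∈ B v v' ↔ (τ z = v ∧ τ (T z) = v') := fun v v' z => by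
    rw [hBdef]; rfl
  have hB : ∀ v v', MeasurableSet (B v v') := fun v v' => by rw [hBdef]; exact hB0 v v'
  set P : TT → TT → ℝ := fun v v' => m.real (B v v') with hP
  -- the integral
  have h1 : ∀ p : Z × Z, noatoms_f m τ F (diag2 T p) * noatoms_f m τ F p =
      ∑ v ∈ F, ∑ v' ∈ F, (w v * w v') *
      ((if p.1 ∈ B v v' then (1 : ℝ) else 0) * (if p.2 ∈ B v v' then 1 else 0)) := by
    intro p
    rw [mul_comm]
    unfold noatoms_f
    rw [Finset.sum_mul_sum]
    apply Finset.sum_congr rfl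
    intro v _
    apply Finset.sum_congr rfl
    intro v' _
    simp only [diag2, hBmem]
    by_cases a1 : τ p.1 = v <;> by_cases a2 : τ p.2 = v <;> by_cases a3 : τ (T p.1) = v' <;>
      by_cases a4 : τ (T p.2) = v' <;> simp [a1, a2, a3, a4, hw]
  simp_rw [h1]
  rw [integral_finset_sum F (fun v _ => integrable_finset_sum F
    (fun v' _ => noatoms_int (m := m) (hB v v') (hB v v') (w v * w v')))]
  have h2 : ∑ v ∈ F, ∫ p : Z × Z, ∑ v' ∈ F, (w v * w v') *
      ((if p.1 ∈ B v v' then (1 : ℝ) else 0) * (if p.2 ∈ B v v' then 1 else 0)) ∂(m.prod m) =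
      ∑ v ∈ F, ∑ v' ∈ F, (w v * w v') * (P v v' * P v v') := by
    apply Finset.sum_congr rfl
    intro v _
    rw [integral_finset_sum _ (fun v' _ => noatoms_int (hB v v') (hB v v') _)]
    apply Finset.sum_congr rfl
    intro v' _
    rw [noatoms_prod (hB v v') (hB v v')]
  rw [h2]
  -- the good values
  set S : Finset TT := F.filter (fun v => R v ∈ F ∧ R' (R v) = v) with hS
  have hw0 : ∀ v, 0 ≤ w v := fun v => noatoms_w_nonneg τ v
  have hP0 : ∀ v v', 0 ≤ P v v' := fun v v' => measureReal_nonneg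
  have hπ0 : ∀ v, 0 ≤ π v := fun v => measureReal_nonneg
  have h3 : ∑ v ∈ S, (w v * w (R v)) * (P v (R v) * P v (R v)) ≤
      ∑ v ∈ F, ∑ v' ∈ F, (w v * w v') * (P v v' * P v v') := by
    have hnn : ∀ v v', 0 ≤ (w v * w v') * (P v v' * P v v') := fun v v' =>
      mul_nonneg (mul_nonneg (hw0 _) (hw0 _)) (mul_nonneg (hP0 _ _) (hP0 _ _))
    calc ∑ v ∈ S, (w v * w (R v)) * (P v (R v) * P v (R v)) ≤
        ∑ v ∈ S, ∑ v' ∈ F, (w v * w v') * (P v v' * P v v') := by
          apply Finset.sum_le_sum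
          intro v hv
          have hv' : R v ∈ F := (Finset.mem_filter.1 hv).2.1
          exact Finset.single_le_sum (f := fun v' => (w v * w v') * (P v v' * P v v'))
            (fun v' _ => hnn v v') hv'
      _ ≤ _ := Finset.sum_le_sum_of_subset_of_nonneg (Finset.filter_subset _ _)
          (fun v _ _ => Finset.sum_nonneg (fun v' _ => hnn v v'))
  refine le_trans ?_ h3
  -- Cauchy-Schwarz
  have hPπ : ∀ v v', P v v' ≤ π v := fun v v' =>
    measureReal_mono (fun z hz => ((hBmem _ _ _).1 hz).1) (measure_ne_top _ _)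
  have hPπ' : ∀ v v', P v v' ≤ π v' := by
    intro v v'
    have e1 : m.real (T ⁻¹' {z | τ z = v'}) = π v' := by
      rw [measureReal_def, hT.measure_preimage (hms v').nullMeasurableSet]
      rfl
    rw [← e1]
    exact measureReal_mono (fun z hz => ((hBmem _ _ _).1 hz).2) (measure_ne_top _ _)
  have hCS : (∑ v ∈ S, P v (R v)) ^ 2 ≤
      (∑ v ∈ S, (w v * w (R v)) * (P v (R v) * P v (R v))) *
        ∑ v ∈ S, Real.sqrt (π v) * Real.sqrt (π (R v)) := by
    apply Finset.sum_sq_le_sum_mul_sum_of_sq_eq_mul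
    · intro v _
      exact mul_nonneg (mul_nonneg (hw0 _) (hw0 _)) (mul_nonneg (hP0 _ _) (hP0 _ _))
    · intro v _; positivity
    · intro v _
      by_cases e1 : π v = 0
      · have : P v (R v) = 0 := le_antisymm (e1 ▸ hPπ v (R v)) (hP0 _ _)
        rw [this]; simp
      · by_cases e2 : π (R v) = 0
        · have : P v (R v) = 0 := le_antisymm (e2 ▸ hPπ' v (R v)) (hP0 _ _)
          rw [this]; simp
        · have e3 : 0 < Real.sqrt (π v) := Real.sqrt_pos.2 (lt_of_le_of_ne (hπ0 _) (Ne.symm e1))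
          have e4 : 0 < Real.sqrt (π (R v)) :=
            Real.sqrt_pos.2 (lt_of_le_of_ne (hπ0 _) (Ne.symm e2))
          have e5 : w v = (Real.sqrt (π v))⁻¹ := rfl
          have e6 : w (R v) = (Real.sqrt (π (R v)))⁻¹ := rfl
          rw [e5, e6]
          field_simp
  have hle1 : ∑ v ∈ S, Real.sqrt (π v) * Real.sqrt (π (R v)) ≤ 1 := by
    have a1 : ∀ v ∈ S, Real.sqrt (π v) * Real.sqrt (π (R v)) ≤ (π v + π (R v)) / 2 := by
      intro v _
      have b1 := Real.mul_self_sqrt (hπ0 v)
      have b2 := Real.mul_self_sqrt (hπ0 (R v))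
      nlinarith [sq_nonneg (Real.sqrt (π v) - Real.sqrt (π (R v)))]
    refine (Finset.sum_le_sum a1).trans ?_
    have a2 : ∑ v ∈ S, π v ≤ 1 := by
      rw [hπ, noatoms_sum_pi τ hτ S]
      exact measureReal_le_one
    have a3 : ∑ v ∈ S, π (R v) ≤ 1 := by
      have hinj : Set.InjOn R (S : Set TT) := by
        intro a ha b hb hab
        have ha' := (Finset.mem_filter.1 (Finset.mem_coe.1 ha)).2.2
        have hb' := (Finset.mem_filter.1 (Finset.mem_coe.1 hb)).2.2
        rw [← ha', ← hb', hab]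
      rw [← Finset.sum_image (f := π) hinj, hπ, noatoms_sum_pi τ hτ (S.image R)]
      exact measureReal_le_one
    rw [← Finset.sum_div, Finset.sum_add_distrib]
    linarith
  -- the good event
  have hG : 1 - 6 / 1000 ≤ ∑ v ∈ S, P v (R v) := by
    have hU : ∑ v ∈ S, P v (R v) = m.real (⋃ v ∈ S, {z | τ z = v ∧ τ (T z) = R v}) := by
      simp only [hP, hBdef]
      rw [measureReal_biUnion_finset]
      · intro a _ b _ hab
        exact Set.disjoint_left.2 (fun z hz hz' => hab (hz.1.symm.trans hz'.1))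
      · intro b _; exact hB0 _ _
    have hmF : MeasurableSet {z | τ z ∉ F} := by
      have : {z | τ z ∉ F} = (τ ⁻¹' (F : Set TT))ᶜ := by ext z; simp
      rw [this]
      exact (hτ F.measurableSet).compl
    have hmono : 1 ≤ m.real (⋃ v ∈ S, {z | τ z = v ∧ τ (T z) = R v}) +
        (m.real DDᶜ + m.real (T ⁻¹' DDᶜ) + m.real {z | τ z ∉ F} +
          m.real (T ⁻¹' {z | τ z ∉ F})) := by
      have hcov : (Set.univ : Set Z) ⊆ (⋃ v ∈ S, {z | τ z = v ∧ τ (T z) = R v}) ∪
          (((DDᶜ ∪ (T ⁻¹' DDᶜ)) ∪ {z | τ z ∉ F}) ∪ (T ⁻¹' {z | τ z ∉ F})) := by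
        intro z _
        by_cases c1 : z ∈ DD
        · by_cases c2 : T z ∈ DD
          · by_cases c3 : τ z ∈ F
            · by_cases c4 : τ (T z) ∈ F
              · left
                have d1 := h z c1
                have d2 := h' (T z) c2
                rw [hinv] at d2
                simp only [Set.mem_iUnion, Set.mem_setOf_eq]
                refine ⟨τ z, ?_, rfl, d1⟩
                rw [hS, Finset.mem_filter]
                refine ⟨c3, ?_, ?_⟩
                · rw [← d1]; exact c4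
                · rw [← d1]; exact d2.symm
              · right; right; exact c4
            · right; left; right; exact c3
          · right; left; left; right; exact c2
        · right; left; left; left; exact c1
      have hle := measureReal_mono (μ := m) hcov (measure_ne_top _ _)
      rw [probReal_univ] at hle
      refine hle.trans ((measureReal_union_le _ _).trans ?_)
      gcongr
      refine (measureReal_union_le _ _).trans ?_
      gcongr
      refine (measureReal_union_le _ _).trans ?_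
      gcongr
      exact measureReal_union_le _ _
    have e1 : m.real (T ⁻¹' DDᶜ) = m.real DDᶜ := by
      rw [measureReal_def, hT.measure_preimage hDD.compl.nullMeasurableSet]; rfl
    have e2 : m.real (T ⁻¹' {z | τ z ∉ F}) = m.real {z | τ z ∉ F} := by
      rw [measureReal_def, hT.measure_preimage hmF.nullMeasurableSet]; rfl
    have e3 : m.real DDᶜ = 1 - m.real DD := by
      rw [measureReal_compl hDD, probReal_univ]
    rw [hU]
    rw [e1, e2, e3] at hmono
    linarith
  have hQ0 : 0 ≤ ∑ v ∈ S, (w v * w (R v)) * (P v (R v) * P v (R v)) :=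
    Finset.sum_nonneg (fun v _ => mul_nonneg (mul_nonneg (hw0 _) (hw0 _))
      (mul_nonneg (hP0 _ _) (hP0 _ _)))
  nlinarith [hCS, hle1, hG, hQ0, mul_le_mul_of_nonneg_left hle1 hQ0,
    pow_le_pow_left₀ (by norm_num : (0:ℝ) ≤ 1 - 6 / 1000) hG 2]

/-- the displacement of the test function -/
theorem noatoms_disp (τ : Z → TT) (hτ : Measurable τ) (F : Finset TT)
    (hF : m.real {z | τ z ∉ F} ≤ 2 / 1000) {T T' : Z → Z} (hT : MeasurePreserving T m m)
    (hTT : MeasurePreserving (diag2 T) (m.prod m) (m.prod m))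
    (hinv : ∀ z, T' (T z) = z) (DD : Set Z) (hDD : MeasurableSet DD)
    (hDDm : 1 - 1 / 1000 ≤ m.real DD) (R R' : TT → TT)
    (h : ∀ z ∈ DD, τ (T z) = R (τ z)) (h' : ∀ z ∈ DD, τ (T' z) = R' (τ z)) :
    ∫ p, (noatoms_f m τ F (diag2 T p) - noatoms_f m τ F p) ^ 2 ∂(m.prod m) ≤ 24 / 1000 := by
  have hc := noatoms_corr τ hτ F hF hT hinv DD hDD hDDm R R' h h'
  obtain ⟨C, hC⟩ := noatoms_f_bdd (m := m) τ F
  have hfm := noatoms_f_meas (m := m) τ hτ F
  have hfm' : Measurable (fun p => noatoms_f m τ F (diag2 T p)) := hfm.comp hTT.measurable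
  have hC0 : 0 ≤ C := by
    by_contra hneg
    have : IsEmpty (Z × Z) := ⟨fun p => hneg ((abs_nonneg _).trans (hC p))⟩
    have h0 : (m.prod m) Set.univ = 0 := by
      rw [Set.univ_eq_empty_iff.2 this]; simp
    rw [measure_univ] at h0
    exact one_ne_zero h0
  have hb2 : ∀ (u v : Z × Z → ℝ), Measurable u → Measurable v → (∀ p, |u p| ≤ C) →
      (∀ p, |v p| ≤ C) → Integrable (fun p => u p * v p) (m.prod m) := by
    intro u v hu hv hub hvb
    apply Integrable.of_bound (C := C * C) (hu.mul hv).aestronglyMeasurable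
    refine Filter.Eventually.of_forall (fun p => ?_)
    rw [Real.norm_eq_abs, Pi.mul_apply, abs_mul]
    exact mul_le_mul (hub p) (hvb p) (abs_nonneg _) hC0
  have i1 := hb2 _ _ hfm hfm hC hC
  have i2 := hb2 _ _ hfm' hfm' (fun p => hC _) (fun p => hC _)
  have i3 := hb2 _ _ hfm' hfm (fun p => hC _) hC
  have hexp : ∀ p, (noatoms_f m τ F (diag2 T p) - noatoms_f m τ F p) ^ 2 =
      (noatoms_f m τ F (diag2 T p) * noatoms_f m τ F (diag2 T p) +
        noatoms_f m τ F p * noatoms_f m τ F p) -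
        2 * (noatoms_f m τ F (diag2 T p) * noatoms_f m τ F p) := by
    intro p; ring
  simp_rw [hexp]
  have e0 : ∫ p, ((noatoms_f m τ F (diag2 T p) * noatoms_f m τ F (diag2 T p) +
        noatoms_f m τ F p * noatoms_f m τ F p) -
        2 * (noatoms_f m τ F (diag2 T p) * noatoms_f m τ F p)) ∂(m.prod m) =
      ∫ p, noatoms_f m τ F (diag2 T p) * noatoms_f m τ F (diag2 T p) ∂(m.prod m) +
        ∫ p, noatoms_f m τ F p * noatoms_f m τ F p ∂(m.prod m) -
        2 * ∫ p, noatoms_f m τ F (diag2 T p) * noatoms_f m τ F p ∂(m.prod m) := by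
    rw [← integral_const_mul, ← integral_add i2 i1]
    exact integral_sub (i2.add i1) (i3.const_mul 2)
  rw [e0]
  have e1 : ∫ p, noatoms_f m τ F p * noatoms_f m τ F p ∂(m.prod m) ≤ 1 := by
    have := noatoms_int_sq (m := m) τ hτ F
    simp_rw [sq] at this
    rw [this]
    exact measureReal_le_one
  have e2 : ∫ p, noatoms_f m τ F (diag2 T p) * noatoms_f m τ F (diag2 T p) ∂(m.prod m) =
      ∫ p, noatoms_f m τ F p * noatoms_f m τ F p ∂(m.prod m) := by
    have hae : AEStronglyMeasurable (fun p => noatoms_f m τ F p * noatoms_f m τ F p)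
        (Measure.map (diag2 T) (m.prod m)) := (hfm.mul hfm).aestronglyMeasurable
    rw [← integral_map hTT.measurable.aemeasurable hae, hTT.map_eq]
  rw [e2]
  norm_num at hc ⊢
  linarith

end

theorem no_atoms_contra {Z TT : Type*} [MeasurableSpace Z] {m : Measure Z}
    [IsProbabilityMeasure m] [MeasurableSpace TT] [MeasurableSingletonClass TT]
    {T₁ T₂ T₁' T₂' : Z → Z} (hgap : GapPair (m.prod m) (diag2 T₁) (diag2 T₂))
    (hT₁ : MeasurePreserving T₁ m m) (hT₂ : MeasurePreserving T₂ m m)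
    (hinv₁ : ∀ z, T₁' (T₁ z) = z) (hinv₂ : ∀ z, T₂' (T₂ z) = z)
    (τ : Z → TT) (hτ : Measurable τ) (D' : Set TT) (hD' : D'.Countable)
    (hD : m.real {z | τ z ∉ D'} ≤ 1 / 1000)
    (DD : Set Z) (hDD : MeasurableSet DD) (hDDm : 1 - 1 / 1000 ≤ m.real DD)
    (R₁ R₂ R₁' R₂' : TT → TT)
    (h₁ : ∀ z ∈ DD, τ (T₁ z) = R₁ (τ z)) (h₂ : ∀ z ∈ DD, τ (T₂ z) = R₂ (τ z))
    (h₁' : ∀ z ∈ DD, τ (T₁' z) = R₁' (τ z)) (h₂' : ∀ z ∈ DD, τ (T₂' z) = R₂' (τ z))
    (hatom : ∀ v, m.real {z | τ z = v} ≤ 1 / 4) : False := by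
  obtain ⟨F, hF⟩ := noatoms_finite τ hτ D' hD' hD
  have g := hgap.gap (noatoms_f m τ F) (noatoms_f_meas τ hτ F) (noatoms_f_bdd τ F)
  have d1 := noatoms_disp τ hτ F hF hT₁ hgap.mp1 hinv₁ DD hDD hDDm R₁ R₁' h₁ h₁'
  have d2 := noatoms_disp τ hτ F hF hT₂ hgap.mp2 hinv₂ DD hDD hDDm R₂ R₂' h₂ h₂'
  have s1 := noatoms_int_sq (m := m) τ hτ F
  have s2 := noatoms_int_le (m := m) τ hτ F hatom
  have s3 : 0 ≤ ∫ p, noatoms_f m τ F p ∂(m.prod m) :=
    integral_nonneg (noatoms_f_nonneg τ F)
  have s4 : m.real {z | τ z ∈ F} = 1 - m.real {z | τ z ∉ F} := by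
    have hmF : MeasurableSet {z | τ z ∉ F} := by
      have : {z | τ z ∉ F} = (τ ⁻¹' (F : Set TT))ᶜ := by ext z; simp
      rw [this]
      exact (hτ F.measurableSet).compl
    have : {z | τ z ∈ F} = {z | τ z ∉ F}ᶜ := by ext z; simp
    rw [this, measureReal_compl hmF, probReal_univ]
  rw [s1, s4] at g
  nlinarith [s2, s3, hF, d1, d2, g]

end Pool.Agent.CR
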