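import Pool.Agent.H.MP_894ea6_lc.L.Space
import Pool.Agent.H.MP_894ea6_lc.L.NoAtoms
import Pool.Agent.H.MP_894ea6_lc.L.GapB

/-! MP_894ea6_lc, module Nontriv: the exact map does not live on one class -/

open MeasureTheory

namespace Pool.Agent.CR

private theorem nontriv_range (S : Finset FF) : (Set.range (res S)).Finite := by
  classical
  have hsub : Set.range (res S) ⊆
      Set.range (fun f : S → Bool => (fun h : FF => if hS : h ∈ S then f ⟨h, hS⟩ else false)) := by
    rintro _ ⟨x, rfl⟩
    refine ⟨fun h => x h, ?_⟩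
    funext h
    by_cases hS : h ∈ S <;> simp [res, hS]
  exact (Set.finite_range _).subset hsub

private theorem nontriv_res_meas (S : Finset FF) : Measurable (res S) := by
  refine measurable_pi_lambda _ fun h => ?_
  exact (measurable_of_countable (fun b : Bool => decide (h ∈ S) && b)).comp (measurable_pi_apply h)

private theorem nontriv_iota_true : iota (FreeGroup.of true) = FreeGroup.of Gen.p := by
  simp [iota]

private theorem nontriv_iota_false : iota (FreeGroup.of false) = FreeGroup.of Gen.q := by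
  simp [iota]

theorem nontriv {K : Type*} [MeasurableSpace K] [StandardBorelSpace K] {m : Measure (ZZ K)}
    [IsProbabilityMeasure m] (A : PAct FF m) (hAT : ∀ g z, A.T g z = actZ g z)
    (hA : Gap3All A) (F : K → K → Prop) (hF : Equivalence F)
    (hFm : MeasurableSet {p : K × K | F p.1 p.2}) (hFc : ∀ k, {k' | F k k'}.Countable)
    (hatom : ∀ k : K, m.real {z : ZZ K | z.2 1 = k} ≤ 1 / 4)
    (S : Finset FF) (R : Gen × Bool → Bits × K → Bits × K) (DD : Set (ZZ K))
    (hDD : MeasurableSet DD) (hDDm : 1 - 1 / 1000000 ≤ m.real DD)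
    (hR : ∀ z ∈ DD, ∀ s, (res S (act (gs s) z.1), z.2 (gs s)) = R s (res S z.1, z.2 1))
    (κ' : ZZ K → K) (hκ' : Measurable κ') (hκF : ∀ g, ∀ᵐ z ∂m, F (κ' (A.T g z)) (κ' z))
    (hclose : m.real {z : ZZ K | ¬ F (κ' z) (z.2 1)} ≤ 1 / 1000) :
    ∀ᵐ p ∂(m.prod m), ¬ F (κ' p.1) (κ' p.2) := by
  by_contra hcon
  have hgap3 := hA 1 (MonoidHom.id _) Function.injective_id
  simp only [one_mul, inv_one, mul_one, MonoidHom.id_apply, nontriv_iota_true,
    nontriv_iota_false] at hgap3
  have hgap1 : GapPair m (A.T (FreeGroup.of Gen.p)) (A.T (FreeGroup.of Gen.q)) :=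
    GapPair.of_diag3_one (A.mp _).measurable (A.mp _).measurable hgap3
  have hgap2 : GapPair (m.prod m) (diag2 (A.T (FreeGroup.of Gen.p)))
      (diag2 (A.T (FreeGroup.of Gen.q))) :=
    GapPair.of_diag3_two (A.mp _).measurable (A.mp _).measurable hgap3
  have hErg : Erg A := hgap1.erg
  have hEm : MeasurableSet {p : ZZ K × ZZ K | F (κ' p.1) (κ' p.2)} :=
    ((hκ'.comp measurable_fst).prodMk (hκ'.comp measurable_snd)) hFm
  have hE0 : (m.prod m) {p : ZZ K × ZZ K | F (κ' p.1) (κ' p.2)} ≠ 0 := by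
    intro h0
    apply hcon
    rw [ae_iff]
    simpa only [not_not] using h0
  rw [Ne, Measure.measure_prod_null hEm] at hE0
  have hE1 : ∃ z', m (Prod.mk z' ⁻¹' {p : ZZ K × ZZ K | F (κ' p.1) (κ' p.2)}) ≠ 0 := by
    by_contra hno
    push Not at hno
    exact hE0 (Filter.Eventually.of_forall hno)
  obtain ⟨z', hz'⟩ := hE1
  set Sz : Set (ZZ K) := Prod.mk z' ⁻¹' {p : ZZ K × ZZ K | F (κ' p.1) (κ' p.2)} with hSz
  have hSzm : MeasurableSet Sz := measurable_prodMk_left hEm
  have hSz1 : m Szᶜ = 0 := by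
    refine (hErg Sz hSzm fun g => ?_).resolve_left hz'
    filter_upwards [hκF g] with z hz
    simp only [hSz, Set.mem_preimage, Set.mem_ofPred_eq]
    exact ⟨fun h => hF.trans h hz, fun h => hF.trans h (hF.symm hz)⟩
  set K0 : Set K := {k | F (κ' z') k} with hK0
  have hK0c : K0.Countable := hFc _
  set τ : ZZ K → Bits × K := fun z => (res S z.1, z.2 1) with hτ
  have hτm : Measurable τ :=
    ((nontriv_res_meas S).comp measurable_fst).prodMk
      ((measurable_pi_apply (1 : FF)).comp measurable_snd)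
  have hD : m.real {z | τ z ∉ (Set.range (res S)) ×ˢ K0} ≤ 1 / 1000 := by
    have hsub : {z | τ z ∉ (Set.range (res S)) ×ˢ K0} ⊆ Szᶜ ∪ {z : ZZ K | ¬ F (κ' z) (z.2 1)} := by
      intro z hz
      by_contra hno
      simp only [Set.mem_union, Set.mem_compl_iff, Set.mem_ofPred_eq, not_or, not_not] at hno
      apply hz
      refine ⟨⟨z.1, rfl⟩, ?_⟩
      exact hF.trans hno.1 hno.2
    refine (measureReal_mono hsub).trans ((measureReal_union_le _ _).trans ?_)
    have : m.real Szᶜ = 0 := by rw [measureReal_def, hSz1, ENNReal.toReal_zero]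
    rw [this, zero_add]
    exact hclose
  have hgsT : ∀ (s : Gen × Bool) (z : ZZ K), z ∈ DD → τ (A.T (gs s) z) = R s (τ z) := by
    intro s z hz
    have := hR z hz s
    simp only [hτ, hAT, actZ, one_mul]
    exact this
  have hinv : ∀ (g : FF) (z : ZZ K), A.T g⁻¹ (A.T g z) = z := by
    intro g z
    rw [← A.mul, inv_mul_cancel, A.one]
  have hp := hgsT (Gen.p, true)
  have hq := hgsT (Gen.q, true)
  have hp' := hgsT (Gen.p, false)
  have hq' := hgsT (Gen.q, false)
  simp only [gs, if_true, Bool.false_eq_true, if_false] at hp hq hp' hq'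
  exact no_atoms_contra hgap2 (A.mp _) (A.mp _) (hinv _) (hinv _) τ hτm
    ((Set.range (res S)) ×ˢ K0) ((nontriv_range S).countable.prod hK0c) hD DD hDD
    (by linarith) (R (Gen.p, true)) (R (Gen.q, true)) (R (Gen.p, false)) (R (Gen.q, false))
    hp hq hp' hq' (fun v => by
      refine (measureReal_mono ?_).trans (hatom v.2)
      intro z hz
      simp only [Set.mem_ofPred_eq, hτ] at hz ⊢
      rw [← hz])

end Pool.Agent.CR
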