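import Pool.Agent.H.MP_894ea6_lc.L.GrpDefs
import Pool.Agent.H.MP_894ea6_lc.L.Bern

/-! MP_894ea6_lc, module Space: the space of the equivalence relation `E`, the measures `muY y`,
the space `ZZ K` of the limit measures -/

open MeasureTheory

namespace Pool.Agent.CR

/-- `2^FF` -/
abbrev Bits : Type := FF → Bool

/-- the shift action of `FF` on `2^FF` -/
def act (g : FF) (x : Bits) : Bits := fun h => x (g⁻¹ * h)

theorem act_mul (g h : FF) (x : Bits) : act (g * h) x = act g (act h x) := by
  funext k; simp [act, mul_assoc]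

theorem act_one (x : Bits) : act 1 x = x := by
  funext k; simp [act]

/-- points whose stabilizer is exactly `NN y` -/
def XX (y : ℕ → Bool) : Set Bits := {x | ∀ g, act g x = x ↔ g ∈ NN y}

/-- the space of the equivalence relation -/
def XE : Type := {p : (ℕ → Bool) × Bits // p.1 ∈ BB ∧ p.2 ∈ XX p.1}

instance instMSXE : MeasurableSpace XE :=
  inferInstanceAs (MeasurableSpace {p : (ℕ → Bool) × Bits // p.1 ∈ BB ∧ p.2 ∈ XX p.1})

/-- the equivalence relation: same parameter, same orbit -/
def EE (u v : XE) : Prop := u.1.1 = v.1.1 ∧ ∃ g : FF, act g u.1.2 = v.1.2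

/-- the Bernoulli measure on the coset space, seen on `2^FF` -/
noncomputable def muY (y : ℕ → Bool) : Measure Bits :=
  (bern (FF ⧸ NN y)).map (fun x h => x (h : FF ⧸ NN y))

/-- the space carrying the limit measure -/
abbrev ZZ (K : Type*) : Type _ := Bits × (FF → K)

/-- the action of `FF` on `ZZ K` -/
def actZ {K : Type*} (g : FF) (z : ZZ K) : ZZ K := (act g z.1, fun h => z.2 (h * g))

theorem actZ_mul {K : Type*} (g h : FF) (z : ZZ K) : actZ (g * h) z = actZ g (actZ h z) := by
  simp only [actZ, act_mul, mul_assoc]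

theorem actZ_one {K : Type*} (z : ZZ K) : actZ 1 z = z := by
  simp [actZ, act_one]

/-- restriction of a point of `2^FF` to a finite set, `false` outside -/
def res (A : Finset FF) (x : Bits) : Bits := fun h => decide (h ∈ A) && x h

/-- Gap on the cube for all conjugates of free pairs of `iota Gam`. -/
def Gap3All {Z : Type*} [MeasurableSpace Z] {m : Measure Z} (A : PAct FF m) : Prop :=
  ∀ (w : FF) (j : Gam →* Gam), Function.Injective j →
    GapPair (m.prod (m.prod m)) (diag3 (A.T (w * iota (j (FreeGroup.of true)) * w⁻¹)))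
      (diag3 (A.T (w * iota (j (FreeGroup.of false)) * w⁻¹)))

/-- signed generators -/
def gs (s : Gen × Bool) : FF := if s.2 then FreeGroup.of s.1 else (FreeGroup.of s.1)⁻¹

end Pool.Agent.CR
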