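import Pool.Agent.H.MP_894ea6_lc.L.Coc
import Pool.Agent.H.MP_894ea6_lc.L.LemQ
import Pool.Agent.H.MP_894ea6_lc.L.FinSupp
import Pool.Agent.H.MP_894ea6_lc.L.Space
import Pool.Agent.H.MP_894ea6_lc.L.HInj

/-! MP_894ea6_lc, module SigStep2: the base part of the `V`-valued cocycle -/

open MeasureTheory

namespace Pool.Agent.CR

/-- measurable selection of the index of a countable disjoint family -/
private theorem sigstep2_sel {Z ι : Type*} [MeasurableSpace Z] [Countable ι] [MeasurableSpace ι]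
    [DiscreteMeasurableSpace ι] (i0 : ι) (D : ι → Set Z) (hD : ∀ i, MeasurableSet (D i))
    (hdis : ∀ z i j, z ∈ D i → z ∈ D j → i = j) :
    ∃ ψ : Z → ι, Measurable ψ ∧ ∀ z i, z ∈ D i → ψ z = i := by
  classical
  set ψ : Z → ι := fun z => if hz : ∃ i, z ∈ D i then hz.choose else i0 with hψ
  have hψD : ∀ z i, z ∈ D i → ψ z = i := by
    intro z i hi
    have hex : ∃ i, z ∈ D i := ⟨i, hi⟩
    have h1 : ψ z = hex.choose := by simp only [hψ, dif_pos hex]
    rw [h1]
    exact hdis z _ _ hex.choose_spec hi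
  refine ⟨ψ, measurable_to_countable' fun i => ?_, hψD⟩
  have h1 : ψ ⁻¹' {i} = D i ∪ (if i = i0 then (⋃ j, D j)ᶜ else ∅) := by
    ext z
    simp only [Set.mem_preimage, Set.mem_singleton_iff, Set.mem_union]
    constructor
    · intro hz
      by_cases hex : ∃ j, z ∈ D j
      · obtain ⟨j, hj⟩ := hex
        left
        rw [hψD z j hj] at hz
        rw [← hz]; exact hj
      · right
        have h2 : ψ z = i0 := by simp only [hψ, dif_neg hex]
        rw [if_pos (by rw [← hz, h2])]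
        simpa using hex
    · rintro (hz | hz)
      · exact hψD z i hz
      · by_cases hi : i = i0
        · rw [if_pos hi] at hz
          have hex : ¬ ∃ j, z ∈ D j := by simpa using hz
          rw [hi]
          simp only [hψ, dif_neg hex]
        · rw [if_neg hi] at hz
          exact absurd hz (Set.notMem_empty _)
  rw [h1]
  refine (hD i).union ?_
  split_ifs
  · exact (MeasurableSet.iUnion hD).compl
  · exact MeasurableSet.empty

/-- homomorphisms to abelian groups kill the range of `hh` -/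
private theorem sigstep2_hom {M : Type*} [CommGroup M] (F : Gam →* M) (γ : Gam) :
    F (hh γ) = 1 := by
  have h : F.comp hh = 1 := by
    apply FreeGroup.ext_hom
    intro b
    cases b
    · simp only [hh, MonoidHom.comp_apply, FreeGroup.lift_apply_of, Bool.false_eq_true, if_false,
        map_mul, map_inv, MonoidHom.one_apply]
      rw [mul_comm (F (FreeGroup.of true))⁻¹]
      group
    · simp only [hh, MonoidHom.comp_apply, FreeGroup.lift_apply_of, if_true,
        map_mul, map_inv, MonoidHom.one_apply]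
      rw [mul_comm (F (FreeGroup.of true))]
      group
  exact DFunLike.congr_fun h γ

private theorem sigstep2_add (f : Gam → ℤ) (hf : ∀ a b, f (a * b) = f a + f b) (γ : Gam) :
    f (hh γ) = 0 := by
  let F : Gam →* Multiplicative ℤ :=
    { toFun := fun a => Multiplicative.ofAdd (f a)
      map_one' := by
        have := hf 1 1
        rw [mul_one] at this
        have h0 : f 1 = 0 := by linarith
        rw [h0]; rfl
      map_mul' := fun a b => by rw [hf]; rfl }
  have := sigstep2_hom F γ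
  exact congrArg Multiplicative.toAdd this

/-- the homomorphisms `γ ↦ w ι(hh γ) w⁻¹` -/
private def sigstep2_j (w : FF) : Gam →* FF := (MulAut.conj w).toMonoidHom.comp (iota.comp hh)

private theorem sigstep2_j_apply (w : FF) (γ : Gam) :
    sigstep2_j w γ = w * iota (hh γ) * w⁻¹ := rfl

/-- one coordinate: `b` is an integer valued map on `FF`, additive when the left factor lies in a
subgroup `K` -/
private theorem sigstep2_coord {Z : Type*} [MeasurableSpace Z] {m : Measure Z}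
    [IsProbabilityMeasure m] (A : PAct FF m) (hA : Gap3All A) (d : ℕ → Bool)
    (b : FF → Z → ℤ) (hbm : ∀ g, Measurable (b g)) (K : Set FF)
    (hK : ∀ w γ, sigstep2_j w γ ∈ K)
    (hb : ∀ g ∈ K, ∀ h, ∀ᵐ z ∂m, b (g * h) z = b g (A.T h z) + b h z)
    (hbΦ : ∀ g g', Phi d g = Phi d g' → ∀ᵐ z ∂m, b g z = b g' z)
    (hTΦ : ∀ g g', Phi d g = Phi d g' → ∀ᵐ z ∂m, A.T g z = A.T g' z) :
    ∃ φ : Z → ℤ, Measurable φ ∧
      (∀ γ, ∀ᵐ z ∂m, b (jj 1 γ) z = φ (A.T (jj 1 γ) z) - φ z) ∧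
      (∀ γ, ∀ᵐ z ∂m, b (jj (FreeGroup.of Gen.t) γ) z =
        φ (A.T (jj (FreeGroup.of Gen.t) γ) z) - φ z) := by
  set t : FF := FreeGroup.of Gen.t with ht
  -- commutation
  have hcomm : ∀ γ γ', Phi d (sigstep2_j t γ * sigstep2_j 1 γ') =
      Phi d (sigstep2_j 1 γ' * sigstep2_j t γ) := by
    intro γ γ'
    refine Phi_comm d pure_t pure_one ?_ (hh γ) (hh γ')
    intro h
    rw [map_one, mul_one, piV_t] at h
    exact tV_not_mem d ((HH d).inv_mem_iff.1 h)
  have hgap : ∀ w, GapPair m (A.T (sigstep2_j w (FreeGroup.of true)))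
      (A.T (sigstep2_j w (FreeGroup.of false))) := fun w =>
    GapPair.of_diag3_one (A.mp _).measurable (A.mp _).measurable (hA w hh hh_injective)
  have hqmp : ∀ g, Measure.QuasiMeasurePreserving (A.T g) m m := fun g =>
    (A.mp g).quasiMeasurePreserving
  obtain ⟨χ, φ, hφm, hφ⟩ := lemQ (A.comp (sigstep2_j t))
    ⟨FreeGroup.of true, FreeGroup.of false, hA t hh hh_injective⟩ (hgap 1)
    (fun γ => b (sigstep2_j t γ)) (fun γ => hbm _)
    (by
      intro g h
      have := hb _ (hK t g) (sigstep2_j t h)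
      rw [← map_mul] at this
      exact this)
    (b (sigstep2_j 1 (FreeGroup.of true))) (b (sigstep2_j 1 (FreeGroup.of false))) (hbm _) (hbm _)
    (by
      intro g
      filter_upwards [hb _ (hK t g) (sigstep2_j 1 (FreeGroup.of true)),
        hb _ (hK 1 (FreeGroup.of true)) (sigstep2_j t g), hbΦ _ _ (hcomm g (FreeGroup.of true))]
        with z h1 h2 h3
      rw [← h1, h3, h2]; rfl)
    (by
      intro g
      filter_upwards [hb _ (hK t g) (sigstep2_j 1 (FreeGroup.of false)),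
        hb _ (hK 1 (FreeGroup.of false)) (sigstep2_j t g), hbΦ _ _ (hcomm g (FreeGroup.of false))]
        with z h1 h2 h3
      rw [← h1, h3, h2]; rfl)
  have hφ' : ∀ γ, ∀ᵐ z ∂m, b (sigstep2_j t γ) z = χ γ + φ (A.T (sigstep2_j t γ) z) - φ z := hφ
  -- the map χ is additive
  have hχ : ∀ γ γ', χ (γ * γ') = χ γ + χ γ' := by
    intro γ γ'
    have h : ∀ᵐ _z ∂m, χ (γ * γ') = χ γ + χ γ' := by
      filter_upwards [hb _ (hK t γ) (sigstep2_j t γ'), hφ' (γ * γ'), hφ' γ',
        (hqmp (sigstep2_j t γ')).ae (hφ' γ)] with z h1 h2 h3 h4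
      rw [← map_mul, h2, h3, h4] at h1
      rw [map_mul, A.mul] at h1
      linarith
    exact h.exists.choose_spec
  -- b' is constant on the range of j_1
  have hconst : ∀ γ, ∃ c : ℤ, ∀ᵐ z ∂m, b (sigstep2_j 1 γ) z =
      c + φ (A.T (sigstep2_j 1 γ) z) - φ z := by
    intro γ
    have hinv : ∀ γ', ∀ᵐ z ∂m, b (sigstep2_j 1 γ) (A.T (sigstep2_j t γ') z) -
        (φ (A.T (sigstep2_j 1 γ) (A.T (sigstep2_j t γ') z)) - φ (A.T (sigstep2_j t γ') z)) =
        b (sigstep2_j 1 γ) z - (φ (A.T (sigstep2_j 1 γ) z) - φ z) := by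
      intro γ'
      filter_upwards [hb _ (hK 1 γ) (sigstep2_j t γ'), hb _ (hK t γ') (sigstep2_j 1 γ),
        hbΦ _ _ (hcomm γ' γ), hTΦ _ _ (hcomm γ' γ), hφ' γ',
        (hqmp (sigstep2_j 1 γ)).ae (hφ' γ')] with z h1 h2 h3 h4 h5 h6
      rw [A.mul, A.mul] at h4
      rw [h6] at h2
      rw [← h4]
      linarith
    obtain ⟨c, hc⟩ := (hgap t).ae_const
      (fun z => b (sigstep2_j 1 γ) z - (φ (A.T (sigstep2_j 1 γ) z) - φ z))
      ((hbm _).sub ((hφm.comp (A.mp _).measurable).sub hφm)) (hinv _) (hinv _)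
    refine ⟨c, ?_⟩
    filter_upwards [hc] with z hz
    linarith
  choose c hc using hconst
  have hcadd : ∀ γ γ', c (γ * γ') = c γ + c γ' := by
    intro γ γ'
    have h : ∀ᵐ _z ∂m, c (γ * γ') = c γ + c γ' := by
      filter_upwards [hb _ (hK 1 γ) (sigstep2_j 1 γ'), hc (γ * γ'), hc γ',
        (hqmp (sigstep2_j 1 γ')).ae (hc γ)] with z h1 h2 h3 h4
      rw [← map_mul, h2, h3, h4] at h1
      rw [map_mul, A.mul] at h1
      linarith
    exact h.exists.choose_spec
  refine ⟨φ, hφm, ?_, ?_⟩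
  · intro γ
    have h1 := hc (hh γ)
    rw [sigstep2_add c hcadd γ] at h1
    filter_upwards [h1] with z hz
    have e : jj 1 γ = sigstep2_j 1 (hh γ) := rfl
    rw [e, hz]; ring
  · intro γ
    have h1 := hφ' (hh γ)
    rw [sigstep2_add χ hχ γ] at h1
    filter_upwards [h1] with z hz
    have e : jj t γ = sigstep2_j t (hh γ) := rfl
    rw [e, hz]; ring

theorem sigma_step2 {Z : Type*} [MeasurableSpace Z] {m : Measure Z} [IsProbabilityMeasure m]
    (A : PAct FF m) (hA : Gap3All A) (d : ℕ → Bool)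
    (hN : ∀ n ∈ NN d, ∀ᵐ z ∂m, A.T n z = z) (σ : FF → Z → V) (hσ : ACoc A σ)
    (hσN : ∀ n ∈ NN d, ∀ᵐ z ∂m, σ n z = 1) (χ : FF →* Multiplicative ℤ)
    (hχ : ∀ g, ∀ᵐ z ∂m, (σ g z).k = (χ g).toAdd) :
    ∃ ψ : Z → V, Measurable ψ ∧
      (∀ γ, ∀ᵐ z ∂m, σ (jj 1 γ) z = ψ (A.T (jj 1 γ) z) * (ψ z)⁻¹) ∧
      (∀ γ, ∀ᵐ z ∂m, σ (jj (FreeGroup.of Gen.t) γ) z =
        ψ (A.T (jj (FreeGroup.of Gen.t) γ) z) * (ψ z)⁻¹) := by
  classical
  set t : FF := FreeGroup.of Gen.t with ht
  have hχj : ∀ w γ, χ (sigstep2_j w γ) = 1 := by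
    intro w γ
    rw [sigstep2_j_apply, map_mul, map_mul, map_inv, mul_comm (χ w), mul_assoc, mul_inv_cancel,
      mul_one]
    exact sigstep2_hom (χ.comp iota) γ
  have hk : ∀ g, χ g = 1 → ∀ᵐ z ∂m, (σ g z).k = 0 := by
    intro g hg
    filter_upwards [hχ g] with z hz
    rw [hz, hg]; rfl
  have hcoord : ∀ i : ℤ, ∃ φ : Z → ℤ, Measurable φ ∧
      (∀ γ, ∀ᵐ z ∂m, (σ (jj 1 γ) z).n i = φ (A.T (jj 1 γ) z) - φ z) ∧
      (∀ γ, ∀ᵐ z ∂m, (σ (jj t γ) z).n i = φ (A.T (jj t γ) z) - φ z) := by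
    intro i
    refine sigstep2_coord A hA d (fun g z => (σ g z).n i)
      (fun g => (measurable_of_countable (fun v : V => v.n i)).comp (hσ.meas g))
      {g | χ g = 1} hχj ?_ ?_ ?_
    · intro g hg h
      filter_upwards [hσ.mul g h, (A.mp h).quasiMeasurePreserving.ae (hk g hg)] with z h1 h2
      rw [h1, V.mul_n, Finsupp.add_apply, shift_apply, h2, sub_zero]
    · intro g g' hgg
      filter_upwards [ACoc.ae_eq_of_Phi hσ hσN hgg] with z hz
      rw [hz]
    · intro g g' hgg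
      exact ae_T_eq hN hgg
  choose φ hφm hφ1 hφt using hcoord
  have hgap : GapPair m (A.T (jj 1 (FreeGroup.of true))) (A.T (jj 1 (FreeGroup.of false))) :=
    GapPair.of_diag3_one (A.mp _).measurable (A.mp _).measurable
      (hA 1 (hh.comp hh) (hh_injective.comp hh_injective))
  have hfin : ∀ γ, ∀ᵐ z ∂m, {i | φ i (A.T (jj 1 γ) z) ≠ φ i z}.Finite := by
    intro γ
    have h1 : ∀ᵐ z ∂m, ∀ i, (σ (jj 1 γ) z).n i = φ i (A.T (jj 1 γ) z) - φ i z :=
      ae_all_iff.2 fun i => hφ1 i γ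
    filter_upwards [h1] with z hz
    refine (σ (jj 1 γ) z).n.hasFiniteSupport.subset fun i hi => ?_
    rw [Function.mem_support, hz i]
    exact sub_ne_zero.2 hi
  obtain ⟨c, hc⟩ := finsupp_const hgap (fun z i => φ i z) hφm (hfin _) (hfin _)
  -- the function ψ
  let D : (ℤ →₀ ℤ) → Set Z := fun n => {z | ∀ i, φ i z - c i = n i}
  have hD : ∀ n, MeasurableSet (D n) := by
    intro n
    have : D n = ⋂ i, {z | φ i z - c i = n i} := by
      ext z; simp [D]
    rw [this]
    exact MeasurableSet.iInter fun i =>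
      measurableSet_eq_fun ((hφm i).sub measurable_const) measurable_const
  let _ : MeasurableSpace (ℤ →₀ ℤ) := ⊤
  have _ : DiscreteMeasurableSpace (ℤ →₀ ℤ) := ⟨fun _ => trivial⟩
  obtain ⟨ν, hνm, hν⟩ := sigstep2_sel (0 : ℤ →₀ ℤ) D hD (by
    intro z n n' h1 h2
    ext i
    rw [← h1 i, ← h2 i])
  have hνae : ∀ᵐ z ∂m, ∀ i, φ i z - c i = ν z i := by
    filter_upwards [hc] with z hz
    have hs : (Function.support (fun i => φ i z - c i)).Finite := by
      refine hz.subset fun i hi => ?_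
      intro h
      apply hi
      exact sub_eq_zero.2 h
    have hmem : z ∈ D (Finsupp.ofSupportFinite (fun i => φ i z - c i) hs) := by
      intro i
      rfl
    intro i
    rw [hν z _ hmem]
    rfl
  have hmain : ∀ g, (∀ᵐ z ∂m, (σ g z).k = 0) →
      (∀ᵐ z ∂m, ∀ i, (σ g z).n i = φ i (A.T g z) - φ i z) →
      ∀ᵐ z ∂m, σ g z = (⟨ν (A.T g z), 0⟩ : V) * (⟨ν z, 0⟩ : V)⁻¹ := by
    intro g h0 h1
    filter_upwards [h0, h1, hνae, (A.mp g).quasiMeasurePreserving.ae hνae] with z h0 h1 h2 h3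
    apply V.ext
    · ext i
      rw [h1 i]
      simp only [V.mul_n, V.inv_n, Finsupp.add_apply, shift_apply, Finsupp.neg_apply, neg_zero,
        sub_zero]
      rw [← h2 i, ← h3 i]
      ring
    · rw [h0]
      simp
  refine ⟨fun z => ⟨ν z, 0⟩, ?_, ?_, ?_⟩
  · exact (measurable_of_countable (fun n : ℤ →₀ ℤ => (⟨n, 0⟩ : V))).comp hνm
  · intro γ
    exact hmain _ (hk _ (hχj 1 (hh γ))) (ae_all_iff.2 fun i => hφ1 i γ)
  · intro γ
    exact hmain _ (hk _ (hχj t (hh γ))) (ae_all_iff.2 fun i => hφt i γ)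

end Pool.Agent.CR
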