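import Pool.Agent.H.MP_894ea6_lc.L.SigStep1
import Pool.Agent.H.MP_894ea6_lc.L.SigStep2

/-! MP_894ea6_lc, module SigFinal: the `V`-valued cocycle is cohomologous to a homomorphism -/

open MeasureTheory

namespace Pool.Agent.CR

/-- the gap pairs of `jj v` -/
theorem sigfinal_gap {Z : Type*} [MeasurableSpace Z] {m : Measure Z} [IsProbabilityMeasure m]
    (A : PAct FF m) (hA : Gap3All A) (v : FF) :
    GapPair m (A.T (jj v (FreeGroup.of true))) (A.T (jj v (FreeGroup.of false))) :=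
  GapPair.of_diag3_one (A.mp _).measurable (A.mp _).measurable
    (hA v (hh.comp hh) (hh_injective.comp hh_injective))

theorem sigfinal_p_comm (d : ℕ → Bool) (b : Bool) (γ : Gam) :
    Phi d (iota (FreeGroup.of b) * jj (FreeGroup.of Gen.t) γ) =
      Phi d (jj (FreeGroup.of Gen.t) γ * iota (FreeGroup.of b)) := by
  have h := Phi_comm d pure_one pure_t
    (by rw [map_one, inv_one, one_mul, piV_t]; exact tV_not_mem d) (FreeGroup.of b) (hh (hh γ))
  simpa only [one_mul, inv_one, mul_one, ← jj_apply] using h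

theorem sigfinal_a_comm (d : ℕ → Bool) (γ : Gam) :
    Phi d (FreeGroup.of Gen.a * jj 1 γ) = Phi d (jj 1 γ * FreeGroup.of Gen.a) := by
  have h := Phi_a_comm d (hh (hh γ))
  simpa only [jj_apply, one_mul, inv_one, mul_one] using h

theorem sigfinal_mul_meas {Z : Type*} [MeasurableSpace Z] {f g : Z → V} (hf : Measurable f)
    (hg : Measurable g) : Measurable (fun z => f z * g z) := by
  have h : Measurable (fun p : V × V => p.1 * p.2) := measurable_of_countable _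
  have h2 : Measurable (fun z => (f z, g z)) := hf.prodMk hg
  have h3 := h.comp h2
  exact h3

theorem sigfinal_t_comm (d : ℕ → Bool) (γ : Gam) :
    Phi d (FreeGroup.of Gen.t * jj 1 γ) = Phi d (jj (FreeGroup.of Gen.t) γ * FreeGroup.of Gen.t) := by
  rw [jj_apply, jj_apply, one_mul, inv_one, mul_one, inv_mul_cancel_right]

theorem sigma_trivial {Z : Type*} [MeasurableSpace Z] {m : Measure Z} [IsProbabilityMeasure m]
    (A : PAct FF m) (hA : Gap3All A) (d : ℕ → Bool)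
    (hN : ∀ n ∈ NN d, ∀ᵐ z ∂m, A.T n z = z) (σ : FF → Z → V) (hσ : ACoc A σ)
    (hσN : ∀ n ∈ NN d, ∀ᵐ z ∂m, σ n z = 1) :
    ∃ (ψ : Z → V) (τ : FF →* V), Measurable ψ ∧
      (∀ g, ∀ᵐ z ∂m, σ g z = ψ (A.T g z) * τ g * (ψ z)⁻¹) ∧
      ∀ γ, τ (iota (hh (hh γ))) = 1 := by
  -- step 1: the `k`-part
  obtain ⟨φ, χ, hφ, h1⟩ := sigma_step1 A hA d hN (fun g z => (σ g z).k)
    (fun g => (Measurable.of_discrete (f := V.k)).comp (hσ.meas g))
    (fun g h => by
      filter_upwards [hσ.mul g h] with z hz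
      rw [hz, V.mul_k])
    (fun n hn => by
      filter_upwards [hσN n hn] with z hz
      rw [hz, V.one_k])
  set ψ1 : Z → V := fun z => ⟨0, φ z⟩ with hψ1def
  have hψ1 : Measurable ψ1 :=
    (Measurable.of_discrete (f := fun k : ℤ => (⟨0, k⟩ : V))).comp hφ
  have hσ1 := hσ.gauge ψ1 hψ1
  have hσ1N := ACoc.gauge_N hN hσN ψ1
  have hk : ∀ g, ∀ᵐ z ∂m, ((ψ1 (A.T g z))⁻¹ * σ g z * ψ1 z).k = (χ g).toAdd := by
    intro g
    filter_upwards [h1 g] with z hz
    rw [V.mul_k, V.mul_k, V.inv_k, hz]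
    simp only [hψ1def]
    ring
  -- step 2: the base part
  obtain ⟨ψ2, hψ2, h2, h3⟩ := sigma_step2 A hA d hN _ hσ1 hσ1N χ hk
  have hσ2 := hσ1.gauge ψ2 hψ2
  have hσ2N := ACoc.gauge_N hN hσ1N ψ2
  have h2' : ∀ γ, ∀ᵐ z ∂m, (ψ2 (A.T (jj 1 γ) z))⁻¹ *
      ((ψ1 (A.T (jj 1 γ) z))⁻¹ * σ (jj 1 γ) z * ψ1 z) * ψ2 z = 1 := by
    intro γ
    filter_upwards [h2 γ] with z hz
    rw [hz]
    group
  have h3' : ∀ γ, ∀ᵐ z ∂m, (ψ2 (A.T (jj (FreeGroup.of Gen.t) γ) z))⁻¹ *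
      ((ψ1 (A.T (jj (FreeGroup.of Gen.t) γ) z))⁻¹ * σ (jj (FreeGroup.of Gen.t) γ) z * ψ1 z) *
        ψ2 z = 1 := by
    intro γ
    filter_upwards [h3 γ] with z hz
    rw [hz]
    group
  have hconst : ∀ s : Gen, ∃ l, ∀ᵐ z ∂m, (ψ2 (A.T (FreeGroup.of s) z))⁻¹ *
      ((ψ1 (A.T (FreeGroup.of s) z))⁻¹ * σ (FreeGroup.of s) z * ψ1 z) * ψ2 z = l := by
    intro s
    cases s with
    | p =>
      have hp : FreeGroup.of Gen.p = iota (FreeGroup.of true) := by simp [iota]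
      exact hσ2.const_of_conj hσ2N (jj (FreeGroup.of Gen.t)) (jj (FreeGroup.of Gen.t))
        (sigfinal_gap A hA _) h3' h3' (FreeGroup.of Gen.p)
        (fun γ => by rw [hp]; exact sigfinal_p_comm d true γ)
    | q =>
      have hq : FreeGroup.of Gen.q = iota (FreeGroup.of false) := by simp [iota]
      exact hσ2.const_of_conj hσ2N (jj (FreeGroup.of Gen.t)) (jj (FreeGroup.of Gen.t))
        (sigfinal_gap A hA _) h3' h3' (FreeGroup.of Gen.q)
        (fun γ => by rw [hq]; exact sigfinal_p_comm d false γ)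
    | a =>
      exact hσ2.const_of_conj hσ2N (jj 1) (jj 1) (sigfinal_gap A hA _) h2' h2'
        (FreeGroup.of Gen.a) (fun γ => sigfinal_a_comm d γ)
    | t =>
      exact hσ2.const_of_conj hσ2N (jj 1) (jj (FreeGroup.of Gen.t)) (sigfinal_gap A hA _)
        h2' h3' (FreeGroup.of Gen.t) (fun γ => sigfinal_t_comm d γ)
  obtain ⟨τ, hτ⟩ := hσ2.const_of_gens hconst
  refine ⟨fun z => ψ1 z * ψ2 z, τ, ?_, ?_, ?_⟩
  · exact sigfinal_mul_meas hψ1 hψ2
  · intro g
    filter_upwards [hτ g] with z hz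
    rw [← hz]
    group
  · intro γ
    obtain ⟨z, hz1, hz2⟩ := ((hτ (jj 1 γ)).and (h2' γ)).exists
    have h4 : jj 1 γ = iota (hh (hh γ)) := by
      rw [jj_apply, one_mul, inv_one, mul_one]
    rw [← h4, ← hz1, hz2]

end Pool.Agent.CR
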