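import Pool.Agent.H.MP_894ea6_lc.L.CompO1
import Pool.Agent.H.MP_894ea6_lc.L.CompO3
import Pool.Agent.H.MP_894ea6_lc.L.CompO4
import Pool.Agent.H.MP_894ea6_lc.L.Alg
import Pool.Agent.H.MP_894ea6_lc.L.SigFinal

/-! MP_894ea6_lc, module Rigid: the rigidity theorem -/

open MeasureTheory

namespace Pool.Agent.CR

variable {d y' : ℕ → Bool} {Z : Type*} [MeasurableSpace Z] {m : Measure Z}

theorem RigData.eq_param [IsProbabilityMeasure m] {A : PAct FF m} {x' : Z → Bits}
    {α : FF → Z → FF} {τ : FF →* V} (D : RigData d y' A x' α τ) : d = y' := by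
  have hcongr : ∀ v : FF, Pure v → piV v ∈ HH d → ∀ γ, Phi d (jj v γ) = Phi d (jj 1 γ) := by
    intro v hv h γ
    rw [jj_apply, jj_apply]
    refine Phi_same d hv pure_one ?_ _
    rw [map_one, mul_one]
    exact (HH d).inv_mem h
  have hcomm : ∀ v v' : FF, Pure v → Pure v' → (piV v)⁻¹ * piV v' ∉ HH d → ∀ γ γ',
      Phi d (jj v γ * jj v' γ') = Phi d (jj v' γ' * jj v γ) := by
    intro v v' hv hv' h γ γ'
    rw [jj_apply, jj_apply]
    exact Phi_comm d hv hv' h _ _
  refine alg_end d y' τ (OO y' A α 1) D.OO_nonempty D.OO_finite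
    (fun w hw h hh' => OO_right hw hh') ?_ ?_
  · intro i hi w hw
    have h1 := D.OO_equivariant (Tw i) hw
    exact D.OO_same (hcongr (Tw i) (pure_Tw i) ((Tw_mem_HH d i).2 hi)) h1
  · intro i hi w hw h
    have h1 := D.OO_equivariant (Tw i) hw
    refine D.OO_disjoint (v := 1) (v' := Tw i) (hcomm 1 (Tw i) pure_one (pure_Tw i) ?_) h h1
    rw [map_one, inv_one, one_mul]
    exact fun h' => hi ((Tw_mem_HH d i).1 h')

/-- choice of the cocycle `α` -/
theorem exists_alpha [IsProbabilityMeasure m] (A : PAct FF m) (y' : ℕ → Bool) (x' : Z → Bits)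
    (hx : Measurable x') (hfree : ∀ᵐ z ∂m, x' z ∈ XX y')
    (heq : ∀ g, ∀ᵐ z ∂m, ∃ h, x' (A.T g z) = act h (x' z)) :
    ∃ α : FF → Z → FF, (∀ g, Measurable (α g)) ∧
      ∀ g, ∀ᵐ z ∂m, x' (A.T g z) = act (α g z) (x' z) := by
  classical
  obtain ⟨e, he⟩ := exists_surjective_nat FF
  have hact : ∀ g, Measurable (act g) := by
    intro g
    exact measurable_pi_lambda _ fun h => measurable_pi_apply _
  let P : FF → Z → ℕ → Prop := fun g z n => x' (A.T g z) = act (e n) (x' z)
  have hP : ∀ g n, MeasurableSet {z | P g z n} := by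
    intro g n
    exact measurableSet_eq_fun (hx.comp (A.mp g).measurable) ((hact _).comp hx)
  refine ⟨fun g z => if h : ∃ n, P g z n then e (Nat.find h) else 1, ?_, ?_⟩
  · intro g
    have key : ∀ n, MeasurableSet {z | ∃ h : ∃ n, P g z n, Nat.find h = n} := by
      intro n
      have : {z | ∃ h : ∃ n, P g z n, Nat.find h = n} =
          {z | P g z n} ∩ ⋂ k : Fin n, {z | P g z k}ᶜ := by
        ext z
        simp only [Set.mem_setOf_eq, Set.mem_inter_iff, Set.mem_iInter, Set.mem_compl_iff]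
        constructor
        · rintro ⟨h, hn⟩
          subst hn
          exact ⟨Nat.find_spec h, fun k => Nat.find_min h k.2⟩
        · rintro ⟨h1, h2⟩
          refine ⟨⟨n, h1⟩, ?_⟩
          rw [Nat.find_eq_iff]
          exact ⟨h1, fun k hk => h2 ⟨k, hk⟩⟩
      rw [this]
      exact (hP g n).inter (MeasurableSet.iInter fun k => (hP g k).compl)
    intro B _
    have : (fun z => if h : ∃ n, P g z n then e (Nat.find h) else 1) ⁻¹' B =
        (⋃ n : {n // e n ∈ B}, {z | ∃ h : ∃ n, P g z n, Nat.find h = n}) ∪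
          ({z | (1 : FF) ∈ B} ∩ (⋃ n, {z | P g z n})ᶜ) := by
      ext z
      simp only [Set.mem_preimage, Set.mem_union, Set.mem_iUnion, Set.mem_setOf_eq,
        Set.mem_inter_iff, Set.mem_compl_iff, not_exists]
      by_cases h : ∃ n, P g z n
      · rw [dif_pos h]
        constructor
        · intro hB
          exact Or.inl ⟨⟨Nat.find h, hB⟩, h, rfl⟩
        · rintro (⟨⟨n, hn⟩, h', h2⟩ | ⟨_, h'⟩)
          · subst h2
            exact hn
          · obtain ⟨n, hn⟩ := h
            exact absurd hn (h' n)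
      · rw [dif_neg h]
        constructor
        · intro hB
          exact Or.inr ⟨hB, fun n hn => h ⟨n, hn⟩⟩
        · rintro (⟨_, h', _⟩ | ⟨hB, _⟩)
          · exact absurd h' h
          · exact hB
    rw [this]
    refine MeasurableSet.union (MeasurableSet.iUnion fun n => key _) ?_
    exact MeasurableSet.inter (MeasurableSet.const _) (MeasurableSet.iUnion fun n => hP g n).compl
  · intro g
    filter_upwards [heq g] with z hz
    obtain ⟨h, hh⟩ := hz
    obtain ⟨n, rfl⟩ := he h
    have h' : ∃ n, P g z n := ⟨n, hh⟩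
    rw [dif_pos h']
    exact Nat.find_spec h'

/-- the free part is invariant -/
theorem rigid_XX_act {y : ℕ → Bool} {x : Bits} (g : FF) (hx : x ∈ XX y) : act g x ∈ XX y := by
  have hnorm : (NN y).Normal := MonoidHom.normal_ker (Phi y)
  intro h
  constructor
  · intro e
    have e2 : act (g⁻¹ * h * g) x = x := by
      rw [act_mul, act_mul, e, ← act_mul, inv_mul_cancel, act_one]
    have h3 := hnorm.conj_mem _ ((hx _).1 e2) g
    have e3 : g * (g⁻¹ * h * g) * g⁻¹ = h := by group
    rwa [e3] at h3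
  · intro e
    have h3 := hnorm.conj_mem _ e g⁻¹
    rw [inv_inv] at h3
    have e2 : act (g⁻¹ * h * g) x = x := (hx _).2 h3
    calc act h (act g x) = act g (act (g⁻¹ * h * g) x) := by
          rw [← act_mul, ← act_mul]
          congr 1
          group
      _ = act g x := by rw [e2]

/-- freeness -/
theorem rigid_Phi_eq {y : ℕ → Bool} {x : Bits} (hx : x ∈ XX y) {u u' : FF}
    (h : act u x = act u' x) : Phi y u = Phi y u' := by
  have e : act (u'⁻¹ * u) x = x := by
    rw [act_mul, h, ← act_mul, inv_mul_cancel, act_one]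
  have h1 : u'⁻¹ * u ∈ NN y := (hx _).1 e
  have h2 : Phi y (u'⁻¹ * u) = 1 := h1
  rw [map_mul, map_inv, inv_mul_eq_one] at h2
  exact h2.symm

theorem rigidity [IsProbabilityMeasure m] (A : PAct FF m) (hA : Gap3All A)
    (hN : ∀ n ∈ NN d, ∀ᵐ z ∂m, A.T n z = z) (x' : Z → Bits) (hx : Measurable x')
    (hfree : ∀ᵐ z ∂m, x' z ∈ XX y')
    (heq : ∀ g, ∀ᵐ z ∂m, ∃ h, x' (A.T g z) = act h (x' z))
    (hnt : ∀ᵐ p ∂(m.prod m), ∀ h, x' p.2 ≠ act h (x' p.1)) : d = y' := by
  classical
  obtain ⟨α₀, hα₀m, hα₀⟩ := exists_alpha A y' x' hx hfree heq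
  have hact : ∀ g, Measurable (act g) := by
    intro g
    exact measurable_pi_lambda _ fun h => measurable_pi_apply _
  -- the cocycle identity
  have hcoc : ∀ g h, ∀ᵐ z ∂m, Phi y' (α₀ (g * h) z) = Phi y' (α₀ g (A.T h z) * α₀ h z) := by
    intro g h
    have h1 := (A.mp h).quasiMeasurePreserving.ae (hα₀ g)
    filter_upwards [hα₀ (g * h), h1, hα₀ h, hfree] with z e1 e2 e3 hz
    apply rigid_Phi_eq hz
    rw [← e1, A.mul, e2, e3, ← act_mul]
  have hNN : ∀ n ∈ NN d, ∀ᵐ z ∂m, Phi y' (α₀ n z) = 1 := by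
    intro n hn
    filter_upwards [hα₀ n, hN n hn, hfree] with z e1 e2 hz
    rw [← map_one (Phi y')]
    apply rigid_Phi_eq hz
    rw [← e1, e2, act_one]
  have hσm : ∀ g, Measurable (fun z => piV (α₀ g z)) := fun g =>
    (measurable_of_countable (fun u : FF => piV u)).comp (hα₀m g)
  have hσ : ACoc A (fun g z => piV (α₀ g z)) := by
    refine ⟨hσm, fun g h => ?_⟩
    filter_upwards [hcoc g h] with z e
    have := congrArg WW.v e
    rw [Phi_v, Phi_v, map_mul] at this
    exact this
  have hσN : ∀ n ∈ NN d, ∀ᵐ z ∂m, piV (α₀ n z) = 1 := by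
    intro n hn
    filter_upwards [hNN n hn] with z e
    have := congrArg WW.v e
    rwa [Phi_v] at this
  obtain ⟨ψ, τ, hψ, hψτ, hτ1⟩ := sigma_trivial A hA d hN _ hσ hσN
  choose hat hatP hatV using exists_hat
  have hhatm : Measurable (fun z => hat (ψ z)) := (measurable_of_countable hat).comp hψ
  -- the new map and cocycle
  have hact2 : Measurable (fun p : FF × Bits => act p.1 p.2) := by
    refine measurable_from_prod_countable_right ?_
    intro g
    exact hact g
  have hxm : Measurable (fun z => act (hat (ψ z))⁻¹ (x' z)) :=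
    hact2.comp (((measurable_of_countable (fun u : FF => u⁻¹)).comp hhatm).prodMk hx)
  have hD : RigData d y' A (fun z => act (hat (ψ z))⁻¹ (x' z))
      (fun g z => (hat (ψ (A.T g z)))⁻¹ * α₀ g z * hat (ψ z)) τ := by
    refine ⟨hA, hN, hxm, ?_, ?_, ?_, ?_, ?_, hτ1⟩
    · filter_upwards [hfree] with z hz
      exact rigid_XX_act _ hz
    · filter_upwards [hnt] with p hp h e
      apply hp (hat (ψ p.2) * h * (hat (ψ p.1))⁻¹)
      have : act (hat (ψ p.2)) (act (hat (ψ p.2))⁻¹ (x' p.2)) =
          act (hat (ψ p.2)) (act h (act (hat (ψ p.1))⁻¹ (x' p.1))) := congrArg _ e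
      rw [← act_mul, mul_inv_cancel, act_one] at this
      rw [this, ← act_mul, ← act_mul, mul_assoc]
    · intro g
      have h3 : Measurable (fun p : (FF × FF) × FF => p.1.1⁻¹ * p.1.2 * p.2) :=
        measurable_of_countable _
      exact h3.comp (((hhatm.comp (A.mp g).measurable).prodMk (hα₀m g)).prodMk hhatm)
    · intro g
      filter_upwards [hα₀ g] with z e
      show act (hat (ψ (A.T g z)))⁻¹ (x' (A.T g z)) = _
      rw [e, ← act_mul, ← act_mul, mul_assoc, mul_assoc, mul_inv_cancel, mul_one]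
    · intro g
      filter_upwards [hψτ g] with z e
      show piV ((hat (ψ (A.T g z)))⁻¹ * α₀ g z * hat (ψ z)) = τ g
      rw [map_mul, map_mul, map_inv, hatV, hatV, e]
      group
  exact hD.eq_param

end Pool.Agent.CR
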