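import Pool.Agent.H.MP_894ea6_lc.L.Limit
import Pool.Agent.H.MP_894ea6_lc.L.Exact
import Pool.Agent.H.MP_894ea6_lc.L.Nontriv
import Pool.Agent.H.MP_894ea6_lc.L.Rigid
import Pool.Agent.H.MP_894ea6_lc.L.ESpace

/-! MP_894ea6_lc, module Main: no compact action realization -/

open MeasureTheory

namespace Pool.Agent.CR

theorem no_compact {K Δ : Type*} [TopologicalSpace K] [CompactSpace K] [PolishSpace K]
    [MeasurableSpace K] [BorelSpace K] [Group Δ] [Countable Δ] [MulAction Δ K]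
    [ContinuousConstSMul Δ K] (Θ : XE → K) (hΘ : Measurable Θ) (ρ : K → XE) (hρ : Measurable ρ)
    (h1 : ∀ u v, EE u v ↔ ∃ t : Δ, t • Θ u = Θ v) (h2 : ∀ k k', (∃ t : Δ, t • k = k') ↔
      EE (ρ k) (ρ k')) : False := by
  classical
  -- a point of `K`
  have hne : Nonempty K := by
    obtain ⟨x, hx⟩ := (muY_XX (fun _ => true)).exists
    exact ⟨Θ ⟨(fun _ => true, x), ⟨fun n => ⟨n, le_rfl, rfl⟩, hx⟩⟩⟩
  obtain ⟨k₀⟩ := hne
  set F : K → K → Prop := fun k k' => ∃ t : Δ, t • k = k' with hFdef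
  have hF : Equivalence F := by
    refine ⟨fun k => ⟨1, one_smul _ _⟩, ?_, ?_⟩
    · rintro k k' ⟨t, rfl⟩
      exact ⟨t⁻¹, inv_smul_smul _ _⟩
    · rintro k k' k'' ⟨t, rfl⟩ ⟨s, rfl⟩
      exact ⟨s * t, mul_smul _ _ _⟩
  have hFm : MeasurableSet {p : K × K | F p.1 p.2} := by
    have : {p : K × K | F p.1 p.2} = ⋃ t : Δ, {p : K × K | t • p.1 = p.2} := by
      ext p
      simp [hFdef]
    rw [this]
    refine MeasurableSet.iUnion fun t => IsClosed.measurableSet ?_
    exact isClosed_eq ((continuous_const_smul t).comp continuous_fst) continuous_snd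
  have hFc : ∀ k, {k' | F k k'}.Countable := by
    intro k
    have : {k' | F k k'} = Set.range (fun t : Δ => t • k) := by
      ext k'
      simp [hFdef]
    rw [this]
    exact Set.countable_range _
  -- the maps `Θ y`
  let Θ' : (ℕ → Bool) → Bits → K := fun y x =>
    if h : y ∈ BB ∧ x ∈ XX y then Θ ⟨(y, x), h⟩ else k₀
  have hΘ'v : ∀ y x (h : y ∈ BB ∧ x ∈ XX y), Θ' y x = Θ ⟨(y, x), h⟩ := by
    intro y x h
    simp only [Θ', dif_pos h]
  have hΘ'm : ∀ y ∈ BB, Measurable (Θ' y) := by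
    intro y hy
    have hm1 : Measurable (fun u : XX y => Θ ⟨(y, u.1), ⟨hy, u.2⟩⟩) := by
      refine hΘ.comp ?_
      exact Measurable.subtype_mk (measurable_const.prodMk measurable_subtype_coe)
    have hm2 : Measurable (fun _ : ((XX y)ᶜ : Set Bits) => k₀) := measurable_const
    have hm := Measurable.dite hm1 hm2 (measurableSet_XX y)
    have e : Θ' y = fun x => if h : x ∈ XX y then
        (fun u : XX y => Θ ⟨(y, u.1), ⟨hy, u.2⟩⟩) ⟨x, h⟩ else
        (fun _ : ((XX y)ᶜ : Set Bits) => k₀) ⟨x, h⟩ := by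
      funext x
      by_cases h : x ∈ XX y
      · simp only [Θ', dif_pos h, dif_pos (show y ∈ BB ∧ x ∈ XX y from ⟨hy, h⟩)]
      · simp only [Θ', dif_neg h, dif_neg (fun h' : y ∈ BB ∧ x ∈ XX y => h h'.2)]
    rw [e]
    exact hm
  have hXXact : ∀ y x g, x ∈ XX y → act g x ∈ XX y := by
    intro y x g hx h
    have hnorm : (NN y).Normal := MonoidHom.normal_ker (Phi y)
    constructor
    · intro e
      have e2 : act (g⁻¹ * h * g) x = x := by
        rw [act_mul, act_mul, e, ← act_mul, inv_mul_cancel, act_one]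
      have h3 := hnorm.conj_mem _ ((hx _).1 e2) g
      have e3 : g * (g⁻¹ * h * g) * g⁻¹ = h := by group
      rwa [e3] at h3
    · intro e
      have h3 := hnorm.conj_mem _ e g⁻¹
      rw [inv_inv] at h3
      have e2 : act (g⁻¹ * h * g) x = x := (hx _).2 h3
      calc act h (act g x) = act g (act (g⁻¹ * h * g) x) := by
            rw [← act_mul, ← act_mul]
            congr 1
            group
        _ = act g x := by rw [e2]
  obtain ⟨d, m, hm, A, hd, hAT, hgap, hN, hatom, S, R, DD, hDD, hDDm, hR⟩ :=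
    limit_exists (Δ := Δ) Θ' hΘ'm
      (by
        intro y hy x hx g
        rw [hΘ'v y x ⟨hy, hx⟩, hΘ'v y _ ⟨hy, hXXact y x g hx⟩]
        obtain ⟨t, ht⟩ := (h1 ⟨(y, x), ⟨hy, hx⟩⟩ ⟨(y, act g x), ⟨hy, hXXact y x g hx⟩⟩).1
          ⟨rfl, g, rfl⟩
        exact ⟨t, ht.symm⟩)
      (by
        intro y hy x hx x' hx' h
        rw [hΘ'v y x ⟨hy, hx⟩, hΘ'v y x' ⟨hy, hx'⟩] at h
        obtain ⟨-, g, hg⟩ := (h1 ⟨(y, x), ⟨hy, hx⟩⟩ ⟨(y, x'), ⟨hy, hx'⟩⟩).2
          ⟨1, by rw [one_smul, h]⟩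
        exact ⟨g, hg.symm⟩)
      (1 / 1000000) (by norm_num)
  set κ : ZZ K → K := fun z => z.2 1 with hκdef
  have hκ : Measurable κ := (measurable_pi_apply 1).comp measurable_snd
  have hκA : ∀ g z, κ (A.T g z) = z.2 g := by
    intro g z
    simp only [hκdef, hAT, actZ, one_mul]
  have hs : ∀ s : Gen, m.real {z | ¬ F (κ (A.T (FreeGroup.of s) z)) (κ z)} ≤ 1 / 1000000 := by
    intro s
    have hsub : {z | ¬ F (κ (A.T (FreeGroup.of s) z)) (κ z)} ⊆ DDᶜ := by
      intro z hz hzD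
      apply hz
      obtain ⟨-, t, ht⟩ := hR z hzD (s, true)
      rw [hκA]
      have e : z.2 (FreeGroup.of s) = t • z.2 1 := by simpa [gs] using ht
      exact ⟨t⁻¹, by rw [e, inv_smul_smul]⟩
    calc m.real {z | ¬ F (κ (A.T (FreeGroup.of s) z)) (κ z)} ≤ m.real DDᶜ :=
          measureReal_mono hsub
      _ = 1 - m.real DD := by rw [measureReal_compl hDD, probReal_univ]
      _ ≤ 1 / 1000000 := by linarith
  obtain ⟨κ', hκ', hκF, hclose⟩ := exactness A hgap d hN F hF hFm κ hκ hs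
  have hnt := nontriv A hAT hgap F hF hFm hFc hatom S R DD hDD hDDm
    (fun z hz s => (hR z hz s).1) κ' hκ' hκF hclose
  -- the parameter is constant
  have hg1 : GapPair m (A.T (iota (FreeGroup.of true))) (A.T (iota (FreeGroup.of false))) := by
    have := hgap 1 (MonoidHom.id _) Function.injective_id
    simp only [one_mul, inv_one, mul_one, MonoidHom.id_apply] at this
    exact GapPair.of_diag3_one (A.mp _).measurable (A.mp _).measurable this
  have hYm : Measurable (fun z => (ρ (κ' z)).1.1) :=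
    measurable_fst.comp (measurable_subtype_coe.comp (hρ.comp hκ'))
  have hEE : ∀ g, ∀ᵐ z ∂m, EE (ρ (κ' z)) (ρ (κ' (A.T g z))) := by
    intro g
    filter_upwards [hκF g] with z hz
    exact (h2 _ _).1 (hF.symm hz)
  obtain ⟨y', hy'⟩ := hg1.ae_const (fun z => (ρ (κ' z)).1.1) hYm
    ((hEE _).mono fun z hz => hz.1.symm) ((hEE _).mono fun z hz => hz.1.symm)
  have hy'B : y' ∈ BB := by
    obtain ⟨z, hz⟩ := hy'.exists
    rw [← hz]
    exact (ρ (κ' z)).2.1
  have hdy : d = y' := by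
    refine rigidity (y' := y') A hgap hN (fun z => (ρ (κ' z)).1.2)
      (measurable_snd.comp (measurable_subtype_coe.comp (hρ.comp hκ'))) ?_ ?_ ?_
    · filter_upwards [hy'] with z hz
      rw [← hz]
      exact (ρ (κ' z)).2.2
    · intro g
      filter_upwards [hEE g] with z hz
      obtain ⟨-, h, hh⟩ := hz
      exact ⟨h, hh.symm⟩
    · have hy1 : ∀ᵐ p ∂(m.prod m), (ρ (κ' p.1)).1.1 = y' :=
        Measure.quasiMeasurePreserving_fst.ae hy'
      have hy2 : ∀ᵐ p ∂(m.prod m), (ρ (κ' p.2)).1.1 = y' :=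
        Measure.quasiMeasurePreserving_snd.ae hy'
      filter_upwards [hnt, hy1, hy2] with p hp hp1 hp2 h hh
      apply hp
      refine (h2 _ _).2 ⟨by rw [hp1, hp2], h, hh.symm⟩
  exact hd (hdy ▸ hy'B)

universe u v w

theorem main_thm : ∃ (X : Type) (_ : MeasurableSpace X) (E : X → X → Prop),
    InAE E ∧ ¬ IsSmooth E ∧ ∀ (Y : Type u) (_ : MeasurableSpace Y) (F : Y → Y → Prop),
      InAE F → BorelBireducible E F → ¬ HasCompactActionRealization.{u, v} F := by
  refine ⟨XE, inferInstance, EE, EE_inAE, EE_not_smooth, ?_⟩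
  rintro Y _ F _ ⟨⟨f, hf, hfE⟩, ⟨g, hg, hgE⟩⟩
    ⟨K, _, _, _, _, _, Δ, _, _, _, _, e, he⟩
  refine no_compact (K := K) (Δ := Δ) (fun u => e (f u)) (e.measurable.comp hf)
    (fun k => g (e.symm k)) (hg.comp e.symm.measurable) ?_ ?_
  · intro u v
    rw [hfE, he]
  · intro k k'
    rw [← hgE, he]
    simp

end Pool.Agent.CR
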