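import Pool.Agent.H.MP_894ea6_lc.L.Space

/-! MP_894ea6_lc, module RigDefs: data for the rigidity theorem -/

open MeasureTheory

namespace Pool.Agent.CR

/-- The data of sections 8, 9: a map `x'` into the free part, the choice `α` of elements of `FF`
with `x'(gz) = act (α g z) (x' z)`, whose `V`-part is the homomorphism `τ`. -/
structure RigData (d y' : ℕ → Bool) {Z : Type*} [MeasurableSpace Z] {m : Measure Z}
    (A : PAct FF m) (x' : Z → Bits) (α : FF → Z → FF) (τ : FF →* V) : Prop where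
  gap : Gap3All A
  triv : ∀ n ∈ NN d, ∀ᵐ z ∂m, A.T n z = z
  meas : Measurable x'
  free : ∀ᵐ z ∂m, x' z ∈ XX y'
  nt : ∀ᵐ p ∂(m.prod m), ∀ h, x' p.2 ≠ act h (x' p.1)
  αmeas : ∀ g, Measurable (α g)
  αeq : ∀ g, ∀ᵐ z ∂m, x' (A.T g z) = act (α g z) (x' z)
  αv : ∀ g, ∀ᵐ z ∂m, piV (α g z) = τ g
  τ1 : ∀ γ, τ (iota (hh (hh γ))) = 1

/-- the component at `w` -/
noncomputable def cw (y' : ℕ → Bool) {Z : Type*} (α : FF → Z → FF) (w : V) (g : FF) (z : Z) : Gam :=
  (Phi y' (α g z)).c w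

/-- the set of components with a twisted gap for the pair `jj v p`, `jj v q` -/
def OO (y' : ℕ → Bool) {Z : Type*} [MeasurableSpace Z] {m : Measure Z}
    (A : PAct FF m) (α : FF → Z → FF) (v : FF) : Set V :=
  {w | ∃ C : ℝ, TwGap C (m.prod Measure.count)
    (tw (A.T (jj v (FreeGroup.of true))) (cw y' α w (jj v (FreeGroup.of true))))
    (tw (A.T (jj v (FreeGroup.of false))) (cw y' α w (jj v (FreeGroup.of false))))}

end Pool.Agent.CR
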