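import Pool.Agent.H.MP_894ea6_lc.L.Coc
import Pool.Agent.H.MP_894ea6_lc.L.LemQ
import Pool.Agent.H.MP_894ea6_lc.L.Space
import Pool.Agent.H.MP_894ea6_lc.L.HInj

/-! MP_894ea6_lc, module SigStep1: integer valued cocycles of `FF` -/

open MeasureTheory

namespace Pool.Agent.CR

/-- additive cocycles with almost everywhere constant values are homomorphisms -/
private theorem sigstep1_hom {G Z : Type*} [Group G] [MeasurableSpace Z] {m : Measure Z}
    [IsProbabilityMeasure m] (A : PAct G m) (b : G → Z → ℤ)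
    (hb : ∀ g h, ∀ᵐ z ∂m, b (g * h) z = b g (A.T h z) + b h z)
    (hc : ∀ g, ∃ l : ℤ, ∀ᵐ z ∂m, b g z = l) :
    ∃ χ : G →* Multiplicative ℤ, ∀ g, ∀ᵐ z ∂m, b g z = (χ g).toAdd := by
  choose c hc using hc
  have hmul : ∀ g h, c (g * h) = c g + c h := by
    intro g h
    have h1 : ∀ᵐ z ∂m, c (g * h) = c g + c h := by
      filter_upwards [hb g h, hc (g * h), hc h,
        (A.mp h).quasiMeasurePreserving.ae (hc g)] with z h1 h2 h3 h4
      rw [← h2, h1, h4, h3]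
    obtain ⟨z, hz⟩ := h1.exists
    exact hz
  refine ⟨MonoidHom.mk' (fun g => Multiplicative.ofAdd (c g)) ?_, fun g => ?_⟩
  · intro g h
    rw [hmul, ofAdd_add]
  · filter_upwards [hc g] with z hz
    rw [hz]
    rfl

/-- elements with the same image under `Phi d` -/
private theorem sigstep1_Phi {Z : Type*} [MeasurableSpace Z] {m : Measure Z}
    (A : PAct FF m) {d : ℕ → Bool} (b : FF → Z → ℤ)
    (hb : ∀ g h, ∀ᵐ z ∂m, b (g * h) z = b g (A.T h z) + b h z)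
    (hbN : ∀ n ∈ NN d, ∀ᵐ z ∂m, b n z = 0) {g g' : FF} (h : Phi d g = Phi d g') :
    ∀ᵐ z ∂m, b g z = b g' z := by
  have hn : g * g'⁻¹ ∈ NN d := by
    rw [NN, MonoidHom.mem_ker, map_mul, map_inv, h, mul_inv_cancel]
  have h1 := hb (g * g'⁻¹) g'
  rw [inv_mul_cancel_right] at h1
  filter_upwards [h1, (A.mp g').quasiMeasurePreserving.ae (hbN _ hn)] with z h2 h3
  rw [h2, h3, zero_add]

/-- the value at an element that commutes with a gap pair is constant -/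
private theorem sigstep1_const {Z : Type*} [MeasurableSpace Z] {m : Measure Z}
    [IsProbabilityMeasure m] (A : PAct FF m) {d : ℕ → Bool} (b : FF → Z → ℤ)
    (hbm : ∀ g, Measurable (b g))
    (hb : ∀ g h, ∀ᵐ z ∂m, b (g * h) z = b g (A.T h z) + b h z)
    (hbN : ∀ n ∈ NN d, ∀ᵐ z ∂m, b n z = 0) {u x₁ x₂ y₁ y₂ : FF} {c₁ c₂ : ℤ}
    (hgap : GapPair m (A.T x₁) (A.T x₂)) (e₁ : Phi d (u * x₁) = Phi d (y₁ * u))
    (e₂ : Phi d (u * x₂) = Phi d (y₂ * u)) (hx₁ : ∀ᵐ z ∂m, b x₁ z = c₁)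
    (hy₁ : ∀ᵐ z ∂m, b y₁ z = c₁) (hx₂ : ∀ᵐ z ∂m, b x₂ z = c₂) (hy₂ : ∀ᵐ z ∂m, b y₂ z = c₂) :
    ∃ l : ℤ, ∀ᵐ z ∂m, b u z = l := by
  have key : ∀ (x y : FF) (c : ℤ), Phi d (u * x) = Phi d (y * u) → (∀ᵐ z ∂m, b x z = c) →
      (∀ᵐ z ∂m, b y z = c) → ∀ᵐ z ∂m, b u (A.T x z) = b u z := by
    intro x y c e hx hy
    filter_upwards [hb u x, hb y u, sigstep1_Phi A b hb hbN e, hx,
      (A.mp u).quasiMeasurePreserving.ae hy] with z h1 h2 h3 h4 h5
    rw [h1, h2, h4, h5] at h3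
    linarith
  exact hgap.ae_const (b u) (hbm u) (key x₁ y₁ c₁ e₁ hx₁ hy₁) (key x₂ y₂ c₂ e₂ hx₂ hy₂)

private theorem sigstep1_hh (f : Gam →* Multiplicative ℤ) (β : Bool) :
    (f (hh (FreeGroup.of β))).toAdd = 0 := by
  cases β <;> simp [hh]

theorem sigma_step1 {Z : Type*} [MeasurableSpace Z] {m : Measure Z} [IsProbabilityMeasure m]
    (A : PAct FF m) (hA : Gap3All A) (d : ℕ → Bool)
    (hN : ∀ n ∈ NN d, ∀ᵐ z ∂m, A.T n z = z) (b : FF → Z → ℤ) (hbm : ∀ g, Measurable (b g))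
    (hb : ∀ g h, ∀ᵐ z ∂m, b (g * h) z = b g (A.T h z) + b h z)
    (hbN : ∀ n ∈ NN d, ∀ᵐ z ∂m, b n z = 0) :
    ∃ (φ : Z → ℤ) (χ : FF →* Multiplicative ℤ), Measurable φ ∧
      ∀ g, ∀ᵐ z ∂m, b g z = (χ g).toAdd + φ (A.T g z) - φ z := by
  have hgapc : ∀ (w : FF) (j : Gam →* Gam), Function.Injective j →
      GapPair m (A.T (w * iota (j (FreeGroup.of true)) * w⁻¹))
        (A.T (w * iota (j (FreeGroup.of false)) * w⁻¹)) := fun w j hj =>
    GapPair.of_diag3_one (A.mp _).measurable (A.mp _).measurable (hA w j hj)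
  have hcomm : ∀ γ γ' : Gam, Phi d (iota γ * (FreeGroup.of Gen.t * iota γ' * (FreeGroup.of Gen.t)⁻¹))
      = Phi d ((FreeGroup.of Gen.t * iota γ' * (FreeGroup.of Gen.t)⁻¹) * iota γ) := by
    intro γ γ'
    have h := Phi_comm d pure_one pure_t
      (by rw [map_one, inv_one, one_mul, piV_t]; exact tV_not_mem d) γ γ'
    simpa using h
  let j : Gam →* FF := (MulAut.conj (FreeGroup.of Gen.t)).toMonoidHom.comp iota
  have hj : ∀ γ, j γ = FreeGroup.of Gen.t * iota γ * (FreeGroup.of Gen.t)⁻¹ := fun γ => rfl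
  -- step one: lemQ
  have hT : GapPair m (A.T (iota (FreeGroup.of true))) (A.T (iota (FreeGroup.of false))) := by
    have h := hgapc 1 (MonoidHom.id Gam) Function.injective_id
    simpa using h
  have hgj : GapPair m (A.T (j (FreeGroup.of true))) (A.T (j (FreeGroup.of false))) :=
    hgapc (FreeGroup.of Gen.t) (MonoidHom.id Gam) Function.injective_id
  have hg3 : ∃ g₁ g₂ : Gam, GapPair (m.prod (m.prod m)) (diag3 ((A.comp j).T g₁))
      (diag3 ((A.comp j).T g₂)) :=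
    ⟨FreeGroup.of true, FreeGroup.of false,
      hA (FreeGroup.of Gen.t) (MonoidHom.id Gam) Function.injective_id⟩
  have hcr : ∀ (γ g : Gam), ∀ᵐ z ∂m, b (j g) (A.T (iota γ) z) + b (iota γ) z =
      b (iota γ) (A.T (j g) z) + b (j g) z := by
    intro γ g
    filter_upwards [hb (j g) (iota γ), hb (iota γ) (j g),
      sigstep1_Phi A b hb hbN (hcomm γ g)] with z h1 h2 h3
    rw [← h1, ← h2]
    exact h3.symm
  obtain ⟨χ0, φ, hφm, hχ0⟩ := lemQ (A.comp j) hg3 hT (fun g => b (j g)) (fun g => hbm (j g))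
    (fun g h => by
      filter_upwards [hb (j g) (j h)] with z hz
      rw [map_mul, hz]
      rfl)
    (b (iota (FreeGroup.of true))) (b (iota (FreeGroup.of false))) (hbm _) (hbm _)
    (fun g => hcr (FreeGroup.of true) g) (fun g => hcr (FreeGroup.of false) g)
  -- the modified cocycle
  let b' : FF → Z → ℤ := fun g z => b g z - φ (A.T g z) + φ z
  have hbm' : ∀ g, Measurable (b' g) := fun g =>
    ((hbm g).sub (hφm.comp (A.mp g).measurable)).add hφm
  have hb' : ∀ g h, ∀ᵐ z ∂m, b' (g * h) z = b' g (A.T h z) + b' h z := by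
    intro g h
    filter_upwards [hb g h] with z hz
    simp only [b', hz, A.mul]
    ring
  have hbN' : ∀ n ∈ NN d, ∀ᵐ z ∂m, b' n z = 0 := by
    intro n hn
    filter_upwards [hN n hn, hbN n hn] with z h1 h2
    simp only [b', h1, h2]
    ring
  have hj' : ∀ γ, ∀ᵐ z ∂m, b' (j γ) z = χ0 γ := by
    intro γ
    filter_upwards [hχ0 γ] with z hz
    simp only [b', hz]
    simp only [PAct.comp]
    ring
  -- constant on `iota Gam`
  have hi' : ∀ γ, ∃ l : ℤ, ∀ᵐ z ∂m, b' (iota γ) z = l := by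
    intro γ
    exact sigstep1_const A b' hbm' hb' hbN' hgj (hcomm γ (FreeGroup.of true))
      (hcomm γ (FreeGroup.of false)) (hj' (FreeGroup.of true))
      (hj' (FreeGroup.of true)) (hj' (FreeGroup.of false)) (hj' (FreeGroup.of false))
  obtain ⟨f1, hf1⟩ := sigstep1_hom (A.comp iota) (fun γ => b' (iota γ))
    (fun g h => by
      filter_upwards [hb' (iota g) (iota h)] with z hz
      rw [map_mul, hz]
      rfl) hi'
  obtain ⟨f0, hf0⟩ := sigstep1_hom (A.comp j) (fun γ => b' (j γ))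
    (fun g h => by
      filter_upwards [hb' (j g) (j h)] with z hz
      rw [map_mul, hz]
      rfl) (fun γ => ⟨χ0 γ, hj' γ⟩)
  -- the generators
  have hp : ∃ l : ℤ, ∀ᵐ z ∂m, b' (FreeGroup.of Gen.p) z = l := by
    have := hi' (FreeGroup.of true)
    simpa [iota] using this
  have hq : ∃ l : ℤ, ∀ᵐ z ∂m, b' (FreeGroup.of Gen.q) z = l := by
    have := hi' (FreeGroup.of false)
    simpa [iota] using this
  have ha : ∃ l : ℤ, ∀ᵐ z ∂m, b' (FreeGroup.of Gen.a) z = l :=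
    sigstep1_const A b' hbm' hb' hbN' hT (Phi_a_comm d (FreeGroup.of true))
      (Phi_a_comm d (FreeGroup.of false)) (hf1 _) (hf1 _) (hf1 _) (hf1 _)
  have hgh : GapPair m (A.T (iota (hh (FreeGroup.of true)))) (A.T (iota (hh (FreeGroup.of false)))) := by
    have h := hgapc 1 hh hh_injective
    simpa using h
  have ht : ∃ l : ℤ, ∀ᵐ z ∂m, b' (FreeGroup.of Gen.t) z = l := by
    have ex : ∀ β : Bool, ∀ᵐ z ∂m, b' (iota (hh (FreeGroup.of β))) z = 0 := by
      intro β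
      filter_upwards [hf1 (hh (FreeGroup.of β))] with z hz
      rw [hz, sigstep1_hh]
    have ey : ∀ β : Bool, ∀ᵐ z ∂m, b' (j (hh (FreeGroup.of β))) z = 0 := by
      intro β
      filter_upwards [hf0 (hh (FreeGroup.of β))] with z hz
      rw [hz, sigstep1_hh]
    refine sigstep1_const A b' hbm' hb' hbN' hgh (y₁ := j (hh (FreeGroup.of true)))
      (y₂ := j (hh (FreeGroup.of false))) ?_ ?_ (ex true) (ey true) (ex false) (ey false)
    · rw [hj, inv_mul_cancel_right]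
    · rw [hj, inv_mul_cancel_right]
  have hgen : ∀ s : Gen, ∃ l : ℤ, ∀ᵐ z ∂m, b' (FreeGroup.of s) z = l := by
    intro s
    cases s
    · exact hp
    · exact hq
    · exact ha
    · exact ht
  have h1 : ∀ᵐ z ∂m, b' 1 z = 0 := hbN' 1 (Subgroup.one_mem _)
  have hmulc : ∀ g h : FF, (∃ l : ℤ, ∀ᵐ z ∂m, b' g z = l) → (∃ l : ℤ, ∀ᵐ z ∂m, b' h z = l) →
      ∃ l : ℤ, ∀ᵐ z ∂m, b' (g * h) z = l := by
    rintro g h ⟨l, hl⟩ ⟨l', hl'⟩
    refine ⟨l + l', ?_⟩
    filter_upwards [hb' g h, (A.mp h).quasiMeasurePreserving.ae hl, hl'] with z h1 h2 h3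
    rw [h1, h2, h3]
  have hinvc : ∀ g : FF, (∃ l : ℤ, ∀ᵐ z ∂m, b' g z = l) → ∃ l : ℤ, ∀ᵐ z ∂m, b' g⁻¹ z = l := by
    rintro g ⟨l, hl⟩
    refine ⟨-l, ?_⟩
    have h2 := hb' g g⁻¹
    rw [mul_inv_cancel] at h2
    filter_upwards [h2, h1, (A.mp g⁻¹).quasiMeasurePreserving.ae hl] with z h3 h4 h5
    rw [h4, h5] at h3
    linarith
  have hall : ∀ g : FF, ∃ l : ℤ, ∀ᵐ z ∂m, b' g z = l := by
    intro g
    induction g using FreeGroup.induction_on with
    | C1 => exact ⟨0, h1⟩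
    | of s => exact hgen s
    | inv_of s _ => exact hinvc _ (hgen s)
    | mul x y hx hy => exact hmulc x y hx hy
  obtain ⟨χ, hχ⟩ := sigstep1_hom A b' hb' hall
  refine ⟨φ, χ, hφm, fun g => ?_⟩
  filter_upwards [hχ g] with z hz
  simp only [b'] at hz
  linarith

end Pool.Agent.CR
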